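import Mathlib

/-! Definitions for the repetition theorem (Roth-Schmidt method with a product-theorem Roth lemma). -/

set_option autoImplicit false

namespace Pool.Agent.P.MP_c8ecb2_nt.RP

open MvPolynomial

/-- A submultiplicative seminorm on a commutative ring. -/
structure IsNrm {S : Type*} [CommRing S] (ν : S → ℝ) : Prop where
  nonneg : ∀ a, 0 ≤ ν a
  zero : ν 0 = 0
  add_le : ∀ a b, ν (a + b) ≤ ν a + ν b
  mul_le : ∀ a b, ν (a * b) ≤ ν a * ν b
  neg : ∀ a, ν (-a) = ν a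
  one_le : ν 1 ≤ 1

/-- absolute value of an integer, as a real number -/
noncomputable def iabs (a : ℤ) : ℝ := |(a : ℝ)|

/-- weight of a monomial -/
noncomputable def mw {σ : Type*} (w : σ → ℝ) (e : σ →₀ ℕ) : ℝ := e.prod fun i k => w i ^ k

/-- weighted l1 norm of a multivariate polynomial -/
noncomputable def wn {σ S : Type*} [CommRing S] (ν : S → ℝ) (w : σ → ℝ)
    (p : MvPolynomial σ S) : ℝ :=
  ∑ e ∈ p.support, ν (coeff e p) * mw w e

/-- l1 norm of a univariate polynomial -/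
noncomputable def pn {S : Type*} [CommRing S] (ν : S → ℝ) (p : Polynomial S) : ℝ :=
  ∑ i ∈ p.support, ν (p.coeff i)

/-- l1 norm of an integer polynomial -/
noncomputable def len {σ : Type*} (p : MvPolynomial σ ℤ) : ℝ := wn iabs (fun _ => 1) p

/-- `P(X) ↦ P(X + Y)`, as a polynomial in `Y` -/
noncomputable def tay {σ R : Type*} [CommRing R] :
    MvPolynomial σ R →ₐ[R] MvPolynomial σ (MvPolynomial σ R) :=
  aeval fun i => C (X i) + X i

/-- Hasse derivative -/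
noncomputable def hd {σ R : Type*} [CommRing R] (τ : σ →₀ ℕ) (P : MvPolynomial σ R) :
    MvPolynomial σ R :=
  coeff τ (tay P)

/-- weight of a multi-index relative to the degrees `d` -/
noncomputable def wt {σ : Type*} [Fintype σ] (d : σ → ℕ) (τ : σ →₀ ℕ) : ℝ :=
  ∑ i, (τ i : ℝ) / (d i : ℝ)

/-- height of a rational number -/
noncomputable def ht (q : ℚ) : ℝ := max |(q.num : ℝ)| (q.den : ℝ)

/-- the coordinates outside `I` form a transcendence basis of the field generated by `x` -/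
def IsCobasis {m : ℕ} {Ω : Type*} [Field Ω] [Algebra ℚ Ω] (x : Fin m → Ω)
    (I : Finset (Fin m)) : Prop :=
  AlgebraicIndependent ℚ (fun h : {h : Fin m // h ∉ I} => x h) ∧
    ∀ h, IsAlgebraic (Algebra.adjoin ℚ (x '' {h | h ∉ I})) (x h)

/-- parameter ring -/
abbrev Sp (m : ℕ) := MvPolynomial (Fin m) ℤ

/-- parameter field -/
abbrev Kp (m : ℕ) := FractionRing (Sp m)

/-- the variables outside `J` become parameters -/
noncomputable def iotaJ {m : ℕ} (J : Finset (Fin m)) : Sp m →+* MvPolynomial J (Sp m) :=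
  eval₂Hom (Int.castRingHom _) fun h => if hh : h ∈ J then X ⟨h, hh⟩ else C (X h)

/-- generic combinations of the `P τ` (the parameter with index `j ∈ J` is the generic scalar) -/
noncomputable def fJ {m n : ℕ} (J : Finset (Fin m)) (P : Fin n → Sp m) (j : J) :
    MvPolynomial J (Sp m) :=
  ∑ τ : Fin n, C (X j.1 ^ (τ : ℕ)) * iotaJ J (P τ)

/-- the same over the parameter field -/
noncomputable def fK {m n : ℕ} (J : Finset (Fin m)) (P : Fin n → Sp m) (j : J) :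
    MvPolynomial J (Kp m) :=
  map (algebraMap (Sp m) (Kp m)) (fJ J P j)

/-- the maximal ideal of the generic point -/
noncomputable def nK {m : ℕ} {Ω : Type*} [Field Ω] (J : Finset (Fin m)) (kap : Kp m →+* Ω)
    (x : Fin m → Ω) : Ideal (MvPolynomial J (Kp m)) :=
  RingHom.ker (eval₂Hom kap fun j : J => x j)

/-- Lower bound for the multiplicity of `f` at `𝔫`. -/
def LowMult (K : Type*) {A ι : Type*} [Field K] [CommRing A] [Algebra K A] [Fintype ι]
    (f : ι → A) (𝔫 : Ideal A) (μ : ℝ) : Prop :=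
  ∀ i : ℕ, 1 ≤ i → ∃ (Φ : Ideal A) (L n : ℕ) (g : Fin n → A),
    (∀ j, f j ^ i ∈ Φ) ∧ 𝔫 ^ L ≤ Φ ∧
      LinearIndependent K (fun s => Ideal.Quotient.mk Φ (g s)) ∧
      μ * (i : ℝ) ^ Fintype.card ι ≤ n

/-- the deformed ideal `(f j + t g j)` in `A⟦t⟧` -/
noncomputable def defI {A ι : Type*} [CommRing A] (f g : ι → A) : Ideal (PowerSeries A) :=
  Ideal.span (Set.range fun j => PowerSeries.C (f j) + PowerSeries.X * PowerSeries.C (g j))

/-- saturation with respect to `t` -/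
def satur {A : Type*} [CommRing A] (G : Ideal (PowerSeries A)) : Ideal (PowerSeries A) where
  carrier := {y | ∃ c : ℕ, PowerSeries.X ^ c * y ∈ G}
  zero_mem' := ⟨0, by simp⟩
  add_mem' := by
    rintro a b ⟨c, hc⟩ ⟨c', hc'⟩
    refine ⟨c + c', ?_⟩
    have : PowerSeries.X ^ (c + c') * (a + b) = PowerSeries.X ^ c' * (PowerSeries.X ^ c * a) +
        PowerSeries.X ^ c * (PowerSeries.X ^ c' * b) := by ring
    rw [this]
    exact G.add_mem (G.mul_mem_left _ hc) (G.mul_mem_left _ hc')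
  smul_mem' := by
    rintro r a ⟨c, hc⟩
    refine ⟨c, ?_⟩
    have : PowerSeries.X ^ c * (r • a) = r * (PowerSeries.X ^ c * a) := by
      rw [smul_eq_mul]; ring
    rw [this]
    exact G.mul_mem_left _ hc

/-- the flat limit at `t = 0` -/
noncomputable def limI {A ι : Type*} [CommRing A] (f g : ι → A) : Ideal A :=
  (satur (defI f g)).map (PowerSeries.constantCoeff (R := A))

/-- `t ^ c * T - M` -/
noncomputable def pencil {V N : Type*} [CommRing V] [Fintype N] [DecidableEq N] (s : V)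
    (M : Matrix N N V) : Matrix N N (Polynomial V) :=
  Matrix.scalar N (Polynomial.C s * Polynomial.X) - M.map Polynomial.C

/-- exponent vectors: in block `h` three exponents of sum `d h` -/
noncomputable def Om {m : ℕ} (d : Fin m → ℕ) : Finset (Fin m → Fin 3 → ℕ) :=
  Fintype.piFinset fun h => Finset.piAntidiag Finset.univ (d h)

/-- the `b`-adic weight -/
def psi {m : ℕ} (R r : Fin m → ℕ) (e : Fin m → Fin 3 → ℕ) : ℕ :=
  ∑ h, (R h * e h 0 + r h * e h 1)

/-- the archimedean weight -/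
noncomputable def chi {m : ℕ} (α : Fin m → Fin 3 → ℝ) (e : Fin m → Fin 3 → ℕ) : ℝ :=
  ∑ h, ∑ c, α h c * (e h c : ℝ)

/-- the support of the auxiliary polynomial -/
noncomputable def En {m : ℕ} (d R r : Fin m → ℕ) (ψ₀ : ℕ) : Finset (Fin m → Fin 3 → ℕ) :=
  (Om d).filter fun e => psi R r e ≤ ψ₀

/-- monomials -/
def mon {m : ℕ} {A : Type*} [CommRing A] (u : Fin m → Fin 3 → A) (e : Fin m → Fin 3 → ℕ) : A :=
  ∏ h, ∏ c, u h c ^ e h c

/-- binomial factor of the change of coordinates -/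
def bin {m : ℕ} (e e' : Fin m → Fin 3 → ℕ) : ℕ :=
  ∏ h, ((e h 0).choose (e' h 0) * (e h 1).choose (e' h 1))

/-- power of `ξ` in the change of coordinates -/
def drop {m : ℕ} (e e' : Fin m → Fin 3 → ℕ) : ℕ :=
  ∑ h, ((e h 0 - e' h 0) + (e h 1 - e' h 1))

/-- the point `λ y₀ + μ y₁ + ν (0,1,0)` of block `h`, with `λ, μ, ν = X (h,0), X (h,1), X (h,2)` -/
noncomputable def lin {m : ℕ} (y : Fin m → Fin 2 → Fin 3 → ℤ) (h : Fin m) (c : Fin 3) :
    MvPolynomial (Fin m × Fin 3) ℤ :=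
  C (y h 0 c) * X (h, 0) + C (y h 1 c) * X (h, 1) + if c = 1 then X (h, 2) else 0

/-- the auxiliary polynomial in lattice coordinates, restricted to the planes plus the transversal
direction -/
noncomputable def Phi {m : ℕ} (b : ℕ) (d R r : Fin m → ℕ) (ψ₀ : ℕ)
    (c : (Fin m → Fin 3 → ℕ) → ℤ) (y : Fin m → Fin 2 → Fin 3 → ℤ) :
    MvPolynomial (Fin m × Fin 3) ℤ :=
  ∑ e ∈ En d R r ψ₀, C (c e * (b : ℤ) ^ (ψ₀ - psi R r e)) * mon (lin y) e

/-- The data attached to one scale `ℓ`: two integer points, small for the three linear forms. -/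
structure Block (ξ : ℝ) (b ℓ R r : ℕ) (y : Fin 2 → Fin 3 → ℤ) (α : Fin 3 → ℝ) (κ β : ℚ) :
    Prop where
  abs_le : ∀ c, |α c| ≤ 2 * ℓ
  sum_le : ∑ c, α c ≤ -(ℓ : ℝ)
  form0 : ∀ s, |(y s 0 : ℝ) - ξ * (b : ℝ) ^ R * y s 2| ≤ 3 * (b : ℝ) ^ α 0
  form1 : ∀ s, |(y s 1 : ℝ) - ξ * (b : ℝ) ^ r * y s 2| ≤ 3 * (b : ℝ) ^ α 1
  form2 : ∀ s, |(y s 2 : ℝ)| ≤ 3 * (b : ℝ) ^ α 2
  plane : ∀ s, (y s 1 : ℚ) = κ * y s 0 + β * (b : ℚ) ^ r * y s 2
  det_ne : y 0 0 * y 1 2 - y 1 0 * y 0 2 ≠ 0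

/-- `ξ b^R - ξ b^r` is within `b^(-4·2^j)` of an integer for some `r < R ≤ K 2^j` -/
def Rep (ξ : ℝ) (b K j : ℕ) : Prop :=
  ∃ (R r : ℕ) (P : ℤ), r < R ∧ R ≤ K * 2 ^ j ∧
    |ξ * (b : ℝ) ^ R - ξ * (b : ℝ) ^ r - P| * (b : ℝ) ^ (4 * 2 ^ j) ≤ 1

/-- the `i`-th digit -/
noncomputable def dig (b : ℕ) (α : ℝ) (i : ℕ) : ℤ := Int.floor (α * (b : ℝ) ^ i) % (b : ℤ)

/-- some block of length `2^j` occurs twice among the positions `1, …, K 2^j` -/
def Twice (a : ℕ → ℤ) (K j : ℕ) : Prop :=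
  ∃ i i' : ℕ, 1 ≤ i ∧ i < i' ∧ i' ≤ K * 2 ^ j ∧ ∀ t < 2 ^ j, a (i + t) = a (i' + t)

end Pool.Agent.P.MP_c8ecb2_nt.RP
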