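import Mathlib
import Pool.Agent.P.MP_c8ecb2_nt.RP.Defs

set_option autoImplicit false

namespace Pool.Agent.P.MP_c8ecb2_nt.RP

open MvPolynomial

private theorem block_expand {A : Type*} [CommRing A] (d : ℕ) (u : Fin 3 → A) (s t : A)
    (e : Fin 3 → ℕ) (he : e ∈ Finset.piAntidiag Finset.univ d) :
    (u 0 + s * u 2) ^ e 0 * (u 1 + t * u 2) ^ e 1 * u 2 ^ e 2 =
      ∑ e' ∈ Finset.piAntidiag (Finset.univ : Finset (Fin 3)) d,
        (((e 0).choose (e' 0) * (e 1).choose (e' 1) : ℕ) : A) *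
          (s ^ (e 0 - e' 0) * t ^ (e 1 - e' 1)) * ∏ c, u c ^ e' c := by
  have hd : e 0 + e 1 + e 2 = d := by
    have := (Finset.mem_piAntidiag.1 he).1
    rwa [Fin.sum_univ_three] at this
  rw [add_pow, add_pow, Finset.sum_mul_sum, ← Finset.sum_product', Finset.sum_mul]
  refine Finset.sum_of_injOn (fun x : ℕ × ℕ => ![x.1, x.2, d - x.1 - x.2]) ?_ ?_ ?_ ?_
  · intro x _ y _ hxy
    have h0 := congrFun hxy 0
    have h1 := congrFun hxy 1
    exact Prod.ext (by simpa using h0) (by simpa using h1)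
  · intro x hx
    obtain ⟨h0, h1⟩ := Finset.mem_product.1 hx
    rw [Finset.mem_range] at h0 h1
    rw [Finset.mem_coe, Finset.mem_piAntidiag]
    refine ⟨?_, fun _ _ => Finset.mem_univ _⟩
    rw [Fin.sum_univ_three]
    simp only [Matrix.cons_val_zero, Matrix.cons_val_one, Matrix.cons_val]
    omega
  · intro y hy hy'
    have hs : y 0 + y 1 + y 2 = d := by
      have := (Finset.mem_piAntidiag.1 hy).1
      rwa [Fin.sum_univ_three] at this
    by_cases h0 : e 0 < y 0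
    · rw [Nat.choose_eq_zero_of_lt h0]
      simp
    by_cases h1 : e 1 < y 1
    · rw [Nat.choose_eq_zero_of_lt h1]
      simp
    exfalso
    apply hy'
    refine ⟨(y 0, y 1), ?_, ?_⟩
    · rw [Finset.mem_coe, Finset.mem_product, Finset.mem_range, Finset.mem_range]
      constructor <;> simp only <;> omega
    · funext c
      fin_cases c
      · rfl
      · rfl
      · show d - y 0 - y 1 = y 2
        omega
  · intro x hx
    obtain ⟨h0, h1⟩ := Finset.mem_product.1 hx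
    rw [Finset.mem_range] at h0 h1
    rw [Fin.prod_univ_three]
    simp only [Matrix.cons_val_zero, Matrix.cons_val_one, Matrix.cons_val]
    have h2 : d - x.1 - x.2 = (e 0 - x.1) + (e 1 - x.2) + e 2 := by omega
    rw [h2, mul_pow, mul_pow, pow_add, pow_add]
    push_cast
    ring

private theorem le_of_bin_ne_zero {m : ℕ} {e e' : Fin m → Fin 3 → ℕ} (h : bin e e' ≠ 0)
    (i : Fin m) : e' i 0 ≤ e i 0 ∧ e' i 1 ≤ e i 1 := by
  have h1 := Finset.prod_ne_zero_iff.1 h i (Finset.mem_univ i)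
  obtain ⟨h2, h3⟩ := mul_ne_zero_iff.1 h1
  constructor
  · by_contra hc
    exact h2 (Nat.choose_eq_zero_of_lt (not_le.1 hc))
  · by_contra hc
    exact h3 (Nat.choose_eq_zero_of_lt (not_le.1 hc))

private theorem psi_eq {m : ℕ} (R r : Fin m → ℕ) {e e' : Fin m → Fin 3 → ℕ} (h : bin e e' ≠ 0) :
    psi R r e = psi R r e' + ∑ i, (R i * (e i 0 - e' i 0) + r i * (e i 1 - e' i 1)) := by
  rw [psi, psi, ← Finset.sum_add_distrib]
  refine Finset.sum_congr rfl fun i _ => ?_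
  obtain ⟨h0, h1⟩ := le_of_bin_ne_zero h i
  obtain ⟨a, ha⟩ := Nat.exists_eq_add_of_le h0
  obtain ⟨b, hb⟩ := Nat.exists_eq_add_of_le h1
  rw [ha, hb, Nat.add_sub_cancel_left, Nat.add_sub_cancel_left]
  ring

theorem mon_expand {m : ℕ} {A : Type*} [CommRing A] (d R r : Fin m → ℕ) (ψ₀ : ℕ) (ξ B : A)
    (u v : Fin m → Fin 3 → A) (h0 : ∀ h, v h 0 = u h 0 + ξ * B ^ R h * u h 2)
    (h1 : ∀ h, v h 1 = u h 1 + ξ * B ^ r h * u h 2) (h2 : ∀ h, v h 2 = u h 2)
    (e : Fin m → Fin 3 → ℕ) (he : e ∈ En d R r ψ₀) :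
    B ^ (ψ₀ - psi R r e) * mon v e =
      ∑ e' ∈ En d R r ψ₀,
        (bin e e' : A) * ξ ^ drop e e' * (B ^ (ψ₀ - psi R r e') * mon u e') := by
  obtain ⟨heO, heψ⟩ := Finset.mem_filter.1 he
  have hv : mon v e = ∑ e' ∈ Om d, (bin e e' : A) * ξ ^ drop e e' *
      (B ^ (∑ i, (R i * (e i 0 - e' i 0) + r i * (e i 1 - e' i 1))) * mon u e') := by
    have h3 : ∀ h, ∏ c, v h c ^ e h c =
        ∑ e' ∈ Finset.piAntidiag (Finset.univ : Finset (Fin 3)) (d h),
          (((e h 0).choose (e' 0) * (e h 1).choose (e' 1) : ℕ) : A) *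
            ((ξ * B ^ R h) ^ (e h 0 - e' 0) * (ξ * B ^ r h) ^ (e h 1 - e' 1)) *
              ∏ c, u h c ^ e' c := by
      intro h
      rw [Fin.prod_univ_three, h0, h1, h2]
      exact block_expand (d h) (u h) _ _ (e h) (Fintype.mem_piFinset.1 heO h)
    rw [mon, Finset.prod_congr rfl fun h _ => h3 h, Finset.prod_univ_sum, Om]
    refine Finset.sum_congr rfl fun e' _ => ?_
    rw [bin, drop, mon, Nat.cast_prod, ← Finset.prod_pow_eq_pow_sum, ← Finset.prod_pow_eq_pow_sum,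
      ← Finset.prod_mul_distrib, ← Finset.prod_mul_distrib, ← Finset.prod_mul_distrib]
    refine Finset.prod_congr rfl fun h _ => ?_
    rw [mul_pow, mul_pow, ← pow_mul, ← pow_mul, pow_add, pow_add]
    ring
  rw [hv, Finset.mul_sum, En, Finset.sum_filter]
  refine Finset.sum_congr rfl fun e' _ => ?_
  by_cases hb : bin e e' = 0
  · rw [hb]
    simp
  have h4 := psi_eq R r hb
  rw [if_pos (by omega)]
  have h5 : ψ₀ - psi R r e' = (ψ₀ - psi R r e) +
      ∑ i, (R i * (e i 0 - e' i 0) + r i * (e i 1 - e' i 1)) := by omega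
  rw [h5, pow_add]
  ring

private theorem sum_eq_of_mem {m : ℕ} {d : Fin m → ℕ} {e : Fin m → Fin 3 → ℕ} (he : e ∈ Om d)
    (h : Fin m) : e h 0 + e h 1 + e h 2 = d h := by
  have := (Finset.mem_piAntidiag.1 (Fintype.mem_piFinset.1 he h)).1
  rwa [Fin.sum_univ_three] at this

theorem bin_le {m : ℕ} (d : Fin m → ℕ) (e e' : Fin m → Fin 3 → ℕ) (he : e ∈ Om d) :
    bin e e' ≤ 2 ^ (∑ h, d h) := by
  rw [bin, ← Finset.prod_pow_eq_pow_sum]
  refine Finset.prod_le_prod' fun h _ => ?_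
  have h1 := sum_eq_of_mem he h
  calc _ ≤ 2 ^ e h 0 * 2 ^ e h 1 :=
        Nat.mul_le_mul (Nat.choose_le_two_pow _ _) (Nat.choose_le_two_pow _ _)
    _ = 2 ^ (e h 0 + e h 1) := (pow_add _ _ _).symm
    _ ≤ 2 ^ d h := Nat.pow_le_pow_right (by norm_num) (by omega)

theorem drop_le {m : ℕ} (d : Fin m → ℕ) (e e' : Fin m → Fin 3 → ℕ) (he : e ∈ Om d) :
    drop e e' ≤ ∑ h, d h := by
  rw [drop]
  refine Finset.sum_le_sum fun h _ => ?_
  have h1 := sum_eq_of_mem he h
  omega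

end Pool.Agent.P.MP_c8ecb2_nt.RP
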