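import Mathlib
import Pool.Agent.P.MP_c8ecb2_nt.RP.Defs

set_option autoImplicit false

namespace Pool.Agent.P.MP_c8ecb2_nt.RP

open MvPolynomial

theorem exists_level {ι : Type*} (s : Finset ι) (hs : s.Nonempty) (ψ : ι → ℕ) (M l t D : ℕ)
    (hD : 1 ≤ D) (hM : ∀ e ∈ s, ψ e ≤ M) (hl : M < l * t) :
    ∃ ψ₀ : ℕ, D * (s.filter fun e => ψ e + t ≤ ψ₀).card ≤ (s.filter fun e => ψ e ≤ ψ₀).card ∧
      s.card ≤ D ^ l * (s.filter fun e => ψ e ≤ ψ₀).card := by
  classical
  set N : ℕ → ℕ := fun i => (s.filter fun e => ψ e + i * t ≤ M).card with hN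
  have hN0 : N 0 = s.card := by
    simp only [hN]
    rw [Finset.filter_true_of_mem]
    intro e he
    simpa using hM e he
  have hNl : N (l + 1) = 0 := by
    simp only [hN]
    rw [Finset.card_eq_zero, Finset.filter_eq_empty_iff]
    intro e _ h
    have : (l + 1) * t = l * t + t := by ring
    omega
  have hex : ∃ i, D * N (i + 1) ≤ N i := ⟨l, by rw [hNl]; simp⟩
  set i := Nat.find hex with hi
  have hil : i ≤ l := Nat.find_min' hex (by rw [hNl]; simp)
  have hspec : D * N (i + 1) ≤ N i := Nat.find_spec hex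
  have hle : ∀ j, j ≤ i → s.card ≤ D ^ j * N j := by
    intro j
    induction j with
    | zero => intro _; simp [hN0]
    | succ j ih =>
      intro hj
      have h1 := ih (by omega)
      have h2 : ¬ D * N (j + 1) ≤ N j := Nat.find_min hex (by omega)
      calc s.card ≤ D ^ j * N j := h1
        _ ≤ D ^ j * (D * N (j + 1)) := Nat.mul_le_mul_left _ (by omega)
        _ = D ^ (j + 1) * N (j + 1) := by ring
  have hi0 := hle i le_rfl
  have hpos : 0 < N i := by
    have := hs.card_pos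
    rcases Nat.eq_zero_or_pos (N i) with h | h
    · rw [h] at hi0; omega
    · exact h
  have hit : i * t ≤ M := by
    obtain ⟨e, he⟩ := Finset.card_pos.1 hpos
    have := (Finset.mem_filter.1 he).2
    omega
  have e1 : (s.filter fun e => ψ e ≤ M - i * t).card = N i := by
    simp only [hN]
    congr 1
    refine Finset.filter_congr fun e _ => ?_
    omega
  have e2 : (s.filter fun e => ψ e + t ≤ M - i * t).card = N (i + 1) := by
    simp only [hN]
    congr 1
    refine Finset.filter_congr fun e _ => ?_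
    have : (i + 1) * t = i * t + t := by ring
    omega
  refine ⟨M - i * t, by rw [e1, e2]; exact hspec, ?_⟩
  rw [e1]
  exact hi0.trans (Nat.mul_le_mul_right _ (Nat.pow_le_pow_right hD hil))

private theorem mem_pa {n : ℕ} {e : Fin 3 → ℕ} :
    e ∈ Finset.piAntidiag (Finset.univ : Finset (Fin 3)) n ↔ e 0 + e 1 + e 2 = n := by
  rw [Finset.mem_piAntidiag, Fin.sum_univ_three]
  simp

theorem Om_nonempty {m : ℕ} (d : Fin m → ℕ) : (Om d).Nonempty := by
  refine ⟨fun h => ![d h, 0, 0], ?_⟩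
  rw [Om, Fintype.mem_piFinset]
  intro h
  rw [mem_pa]
  simp

private theorem card_pa_le (n : ℕ) :
    (Finset.piAntidiag (Finset.univ : Finset (Fin 3)) n).card ≤ 4 ^ n := by
  have h1 : (Finset.piAntidiag (Finset.univ : Finset (Fin 3)) n).card ≤
      (Finset.range (n + 1) ×ˢ Finset.range (n + 1)).card := by
    refine Finset.card_le_card_of_injOn (fun e => (e 0, e 1)) ?_ ?_
    · intro e he
      have := mem_pa.1 (Finset.mem_coe.1 he)
      simp only [Finset.coe_product, Finset.coe_range, Set.mem_prod, Set.mem_Iio]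
      omega
    · intro e he e' he' h
      have a := mem_pa.1 (Finset.mem_coe.1 he)
      have b := mem_pa.1 (Finset.mem_coe.1 he')
      simp only [Prod.mk.injEq] at h
      funext c
      fin_cases c
      · exact h.1
      · exact h.2
      · show e 2 = e' 2
        omega
  rw [Finset.card_product, Finset.card_range] at h1
  have h2 : n + 1 ≤ 2 ^ n := Nat.lt_two_pow_self
  calc _ ≤ (n + 1) * (n + 1) := h1
    _ ≤ 2 ^ n * 2 ^ n := Nat.mul_le_mul h2 h2
    _ = 4 ^ n := by rw [← mul_pow]; rfl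

theorem card_Om_le {m : ℕ} (d : Fin m → ℕ) : (Om d).card ≤ 4 ^ (∑ h, d h) := by
  rw [Om, Fintype.card_piFinset, ← Finset.prod_pow_eq_pow_sum]
  exact Finset.prod_le_prod' fun h _ => card_pa_le (d h)

private theorem sum_coord (n : ℕ) (c : Fin 3) :
    ∑ e ∈ Finset.piAntidiag (Finset.univ : Finset (Fin 3)) n, (e c : ℝ) =
      ∑ e ∈ Finset.piAntidiag (Finset.univ : Finset (Fin 3)) n, (e 0 : ℝ) := by
  refine Finset.sum_nbij' (fun e => e ∘ Equiv.swap 0 c) (fun e => e ∘ Equiv.swap 0 c) ?_ ?_ ?_ ?_ ?_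
  · intro e he
    rw [Finset.mem_piAntidiag] at he ⊢
    refine ⟨?_, by simp⟩
    rw [← he.1]
    exact Equiv.sum_comp (Equiv.swap 0 c) e
  · intro e he
    rw [Finset.mem_piAntidiag] at he ⊢
    refine ⟨?_, by simp⟩
    rw [← he.1]
    exact Equiv.sum_comp (Equiv.swap 0 c) e
  · intro e _
    funext x
    simp
  · intro e _
    funext x
    simp
  · intro e _
    simp

private theorem block_bound (n l T : ℕ) (hT : 0 < T) (hl : l * n = T) (α : Fin 3 → ℝ)
    (hα : ∀ c, |α c| ≤ 2 * l) (hsum : ∑ c, α c ≤ -(l : ℝ)) :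
    ∑ e ∈ Finset.piAntidiag (Finset.univ : Finset (Fin 3)) n,
        Real.exp ((∑ c, α c * (e c : ℝ)) / (48 * T)) ≤
      Real.exp (-(3 / 576)) * (Finset.piAntidiag (Finset.univ : Finset (Fin 3)) n).card := by
  set P := Finset.piAntidiag (Finset.univ : Finset (Fin 3)) n with hP
  have hT' : (0 : ℝ) < T := by exact_mod_cast hT
  have hl' : (l : ℝ) * n = T := by exact_mod_cast hl
  have hl0 : (0 : ℝ) ≤ l := Nat.cast_nonneg l
  have hb : ∀ e ∈ P, Real.exp ((∑ c, α c * (e c : ℝ)) / (48 * T)) ≤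
      1 + 1 / 576 + (∑ c, α c * (e c : ℝ)) / (48 * T) := by
    intro e he
    have hs : ((e 0 : ℝ) + e 1 + e 2) = n := by exact_mod_cast mem_pa.1 he
    have h1 : |∑ c, α c * (e c : ℝ)| ≤ 2 * T := by
      calc |∑ c, α c * (e c : ℝ)| ≤ ∑ c, |α c * (e c : ℝ)| := Finset.abs_sum_le_sum_abs _ _
        _ ≤ ∑ c, 2 * l * (e c : ℝ) := by
          refine Finset.sum_le_sum fun c _ => ?_
          rw [abs_mul, Nat.abs_cast]
          exact mul_le_mul_of_nonneg_right (hα c) (Nat.cast_nonneg _)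
        _ = 2 * T := by
          rw [← Finset.mul_sum, Fin.sum_univ_three, hs, mul_assoc, hl']
    set x := (∑ c, α c * (e c : ℝ)) / (48 * T) with hx
    have h2 : |x| ≤ 1 / 24 := by
      rw [hx, abs_div, abs_of_pos (by positivity : (0 : ℝ) < 48 * T), div_le_iff₀ (by positivity)]
      linarith
    have h3 := Real.abs_exp_sub_one_sub_id_le (x := x) (by linarith)
    have h4 : x ^ 2 ≤ 1 / 576 := by
      rw [← sq_abs]
      nlinarith [abs_nonneg x]
    have h5 := le_abs_self (Real.exp x - 1 - x)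
    linarith
  set S := ∑ e ∈ P, (e 0 : ℝ) with hS
  have hS0 : 0 ≤ S := Finset.sum_nonneg fun e _ => Nat.cast_nonneg _
  have h3S : 3 * S = P.card * n := by
    have a : ∑ e ∈ P, ((e 0 : ℝ) + e 1 + e 2) = ∑ _e ∈ P, (n : ℝ) :=
      Finset.sum_congr rfl fun e he => by exact_mod_cast mem_pa.1 he
    rw [Finset.sum_add_distrib, Finset.sum_add_distrib, sum_coord n 1, sum_coord n 2,
      Finset.sum_const, nsmul_eq_mul] at a
    linarith
  have hmean : ∑ e ∈ P, ∑ c, α c * (e c : ℝ) ≤ -(T * P.card / 3) := by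
    rw [Finset.sum_comm]
    have a : ∑ c, ∑ e ∈ P, α c * (e c : ℝ) = (∑ c, α c) * S := by
      rw [Finset.sum_mul]
      refine Finset.sum_congr rfl fun c _ => ?_
      rw [← Finset.mul_sum, sum_coord n c]
    rw [a]
    calc (∑ c, α c) * S ≤ -(l : ℝ) * S := mul_le_mul_of_nonneg_right hsum hS0
      _ = -(l * (3 * S) / 3) := by ring
      _ = -(T * P.card / 3) := by rw [h3S, ← hl']; ring
  have hc : (0 : ℝ) ≤ P.card := Nat.cast_nonneg _
  calc _ ≤ ∑ e ∈ P, (1 + 1 / 576 + (∑ c, α c * (e c : ℝ)) / (48 * T)) := Finset.sum_le_sum hb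
    _ = P.card * (1 + 1 / 576) + (∑ e ∈ P, ∑ c, α c * (e c : ℝ)) / (48 * T) := by
      rw [Finset.sum_add_distrib, Finset.sum_const, nsmul_eq_mul, Finset.sum_div]
    _ ≤ P.card * (1 + 1 / 576) + -(T * P.card / 3) / (48 * T) := by gcongr
    _ = (-(3 / 576) + 1) * P.card := by field_simp; ring
    _ ≤ _ := mul_le_mul_of_nonneg_right (Real.add_one_le_exp _) hc

open Classical in
theorem chernoff {m : ℕ} (d ℓ : Fin m → ℕ) (T : ℕ) (hT : 0 < T) (hℓ : ∀ h, ℓ h * d h = T)
    (α : Fin m → Fin 3 → ℝ) (hα : ∀ h c, |α h c| ≤ 2 * ℓ h)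
    (hsum : ∀ h, ∑ c, α h c ≤ -(ℓ h : ℝ)) :
    (((Om d).filter fun e => -((m : ℝ) * T / 6) < chi α e).card : ℝ) ≤
      Real.exp (-(m : ℝ) / 576) * (Om d).card := by
  have hT' : (0 : ℝ) < T := by exact_mod_cast hT
  have h1 : ∑ e ∈ Om d, Real.exp (chi α e / (48 * T)) ≤
      Real.exp (-(3 * (m : ℝ) / 576)) * (Om d).card := by
    have a : ∀ e : Fin m → Fin 3 → ℕ, Real.exp (chi α e / (48 * T)) =
        ∏ h, Real.exp ((∑ c, α h c * (e h c : ℝ)) / (48 * T)) := by
      intro e
      rw [chi, Finset.sum_div, Real.exp_sum]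
    simp only [a]
    rw [Om, ← Finset.prod_univ_sum (fun h => Finset.piAntidiag Finset.univ (d h))
      (fun h e => Real.exp ((∑ c, α h c * (e c : ℝ)) / (48 * T))), Fintype.card_piFinset]
    calc _ ≤ ∏ h, (Real.exp (-(3 / 576)) *
          (Finset.piAntidiag (Finset.univ : Finset (Fin 3)) (d h)).card) :=
          Finset.prod_le_prod (fun h _ => Finset.sum_nonneg fun e _ => (Real.exp_pos _).le)
            fun h _ => block_bound (d h) (ℓ h) T hT (hℓ h) (α h) (hα h) (hsum h)
      _ = _ := by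
        rw [Finset.prod_mul_distrib, Finset.prod_const, Finset.card_univ, Fintype.card_fin,
          ← Real.exp_nat_mul, Nat.cast_prod]
        congr 2
        ring
  have h2 : (((Om d).filter fun e => -((m : ℝ) * T / 6) < chi α e).card : ℝ) *
      Real.exp (-((m : ℝ) / 288)) ≤ ∑ e ∈ Om d, Real.exp (chi α e / (48 * T)) := by
    rw [← nsmul_eq_mul, ← Finset.sum_const]
    refine le_trans (Finset.sum_le_sum fun e he => ?_)
      (Finset.sum_le_sum_of_subset_of_nonneg (Finset.filter_subset _ _)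
        fun e _ _ => (Real.exp_pos _).le)
    have := (Finset.mem_filter.1 he).2
    rw [Real.exp_le_exp, le_div_iff₀ (by positivity)]
    linarith
  have h3 := h2.trans h1
  have h4 : Real.exp (-(3 * (m : ℝ) / 576)) =
      Real.exp (-(m : ℝ) / 576) * Real.exp (-((m : ℝ) / 288)) := by
    rw [← Real.exp_add]
    congr 1
    ring
  rw [h4, mul_right_comm] at h3
  exact le_of_mul_le_mul_right h3 (Real.exp_pos _)

end Pool.Agent.P.MP_c8ecb2_nt.RP
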