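import Mathlib
import Pool.Agent.P.MP_c8ecb2_nt.RP.Defs

set_option autoImplicit false

namespace Pool.Agent.P.MP_c8ecb2_nt.RP

open MvPolynomial

theorem siegel_powers_aux (ξ : ℝ) (d : ℕ) (p : ℕ → ℤ) (C₀ : ℝ)
    (hp : ξ ^ (d + 1) = -∑ t ∈ Finset.range (d + 1), (p t : ℝ) * ξ ^ t)
    (hC : ∀ t < d + 1, 1 + |(p t : ℝ)| ≤ C₀) (l : ℕ) :
    ∃ a : ℕ → ℤ, ξ ^ l = ∑ t ∈ Finset.range (d + 1), (a t : ℝ) * ξ ^ t ∧
      ∀ t < d + 1, |(a t : ℝ)| ≤ C₀ ^ l := by
  induction l with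
  | zero =>
    refine ⟨fun t => if t = 0 then 1 else 0, ?_, fun t _ => ?_⟩
    · rw [Finset.sum_range_succ']
      simp
    · beta_reduce
      split_ifs <;> simp
  | succ l ih =>
    obtain ⟨a, ha, hb⟩ := ih
    refine ⟨fun t => (if t = 0 then 0 else a (t - 1)) - a d * p t, ?_, fun t ht => ?_⟩
    · have h1 : ∑ t ∈ Finset.range (d + 1),
          (((if t = 0 then 0 else a (t - 1)) - a d * p t : ℤ) : ℝ) * ξ ^ t =
          ∑ t ∈ Finset.range (d + 1), (((if t = 0 then 0 else a (t - 1)) : ℤ) : ℝ) * ξ ^ t -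
            (a d : ℝ) * ∑ t ∈ Finset.range (d + 1), (p t : ℝ) * ξ ^ t := by
        rw [Finset.mul_sum, ← Finset.sum_sub_distrib]
        refine Finset.sum_congr rfl fun t _ => ?_
        rw [Int.cast_sub, Int.cast_mul]
        ring
      have h2 : ∑ t ∈ Finset.range (d + 1),
          (((if t = 0 then 0 else a (t - 1)) : ℤ) : ℝ) * ξ ^ t =
          ∑ t ∈ Finset.range d, (a t : ℝ) * ξ ^ t * ξ := by
        rw [Finset.sum_range_succ']
        simp [pow_succ, mul_assoc]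
      rw [h1, h2, pow_succ, ha, Finset.sum_range_succ _ d, add_mul, Finset.sum_mul, mul_assoc,
        ← pow_succ, hp]
      ring
    · have h0 : 0 ≤ C₀ ^ l := (abs_nonneg _).trans (hb t ht)
      have h1 : |(((if t = 0 then 0 else a (t - 1)) : ℤ) : ℝ)| ≤ C₀ ^ l := by
        split_ifs
        · simpa using h0
        · exact hb _ (by omega)
      have h2 : |(a d : ℝ) * (p t : ℝ)| ≤ C₀ ^ l * |(p t : ℝ)| := by
        rw [abs_mul]
        exact mul_le_mul_of_nonneg_right (hb d (by omega)) (abs_nonneg _)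
      have h3 := mul_le_mul_of_nonneg_left (hC t ht) h0
      rw [Int.cast_sub, Int.cast_mul, pow_succ]
      refine (abs_sub _ _).trans ?_
      linarith

theorem exists_powers (ξ : ℝ) (hξ : IsIntegral ℤ ξ) :
    ∃ (D : ℕ) (C₀ : ℝ) (a : ℕ → Fin D → ℤ), 1 ≤ D ∧ 1 ≤ C₀ ∧ |ξ| ≤ C₀ ∧
      (∀ l, ξ ^ l = ∑ t, (a l t : ℝ) * ξ ^ (t : ℕ)) ∧ ∀ l t, |(a l t : ℝ)| ≤ C₀ ^ l := by
  obtain ⟨q, hq, hq0⟩ := hξ
  have hm : (Polynomial.X * q).Monic := Polynomial.monic_X.mul hq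
  have hd : (Polynomial.X * q).natDegree = q.natDegree + 1 := by
    rw [Polynomial.monic_X.natDegree_mul hq, Polynomial.natDegree_X, add_comm]
  have h0 : Polynomial.eval₂ (algebraMap ℤ ℝ) ξ (Polynomial.X * q) = 0 := by
    rw [Polynomial.eval₂_mul, hq0, mul_zero]
  generalize Polynomial.X * q = p at hm hd h0
  generalize q.natDegree = d at hd
  have hp : ξ ^ (d + 1) = -∑ t ∈ Finset.range (d + 1), (p.coeff t : ℝ) * ξ ^ t := by
    rw [Polynomial.eval₂_eq_sum_range, Finset.sum_range_succ, hm.coeff_natDegree, hd] at h0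
    simp only [eq_intCast, Int.cast_one, one_mul] at h0
    linarith
  have hS : 0 ≤ ∑ t ∈ Finset.range (d + 1), |(p.coeff t : ℝ)| :=
    Finset.sum_nonneg fun _ _ => abs_nonneg _
  have hC : ∀ t < d + 1, 1 + |(p.coeff t : ℝ)| ≤
      1 + |ξ| + ∑ t ∈ Finset.range (d + 1), |(p.coeff t : ℝ)| := by
    intro t ht
    have := Finset.single_le_sum (f := fun t => |(p.coeff t : ℝ)|) (fun _ _ => abs_nonneg _)
      (Finset.mem_range.mpr ht)
    linarith [abs_nonneg ξ]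
  choose a ha hb using siegel_powers_aux ξ d p.coeff _ hp hC
  refine ⟨d + 1, _, fun l t => a l t, by omega, by linarith [abs_nonneg ξ], by linarith,
    fun l => ?_, fun l t => hb l t t.2⟩
  rw [ha l, Finset.sum_range fun t => (a l t : ℝ) * ξ ^ t]

open scoped Matrix.Norms.Elementwise in
theorem siegel {ι : Type*} (E Bad : Finset ι) (hE : E.Nonempty) (D : ℕ)
    (hcard : 2 * D * Bad.card ≤ E.card) (A : ι → ι → Fin D → ℤ) (H : ℝ) (hH : 1 ≤ H)
    (hA : ∀ e ∈ E, ∀ e' ∈ Bad, ∀ t, |(A e e' t : ℝ)| ≤ H) :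
    ∃ c : ι → ℤ, (∃ e ∈ E, c e ≠ 0) ∧ (∀ e, |(c e : ℝ)| ≤ E.card * H) ∧
      ∀ e' ∈ Bad, ∀ t, ∑ e ∈ E, c e * A e e' t = 0 := by
  classical
  have hE1 : (1 : ℝ) ≤ E.card := by exact_mod_cast hE.card_pos
  have hEH : (1 : ℝ) ≤ E.card * H := one_le_mul_of_one_le_of_one_le hE1 hH
  have hm : Fintype.card (Bad × Fin D) = Bad.card * D := by simp
  have hn : Fintype.card E = E.card := by simp
  rcases Nat.eq_zero_or_pos (Bad.card * D) with h0 | h0
  · obtain ⟨e, he⟩ := hE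
    refine ⟨fun _ => 1, ⟨e, he, one_ne_zero⟩, fun _ => by simpa using hEH, fun e' he' t => ?_⟩
    have h1 : 0 < Bad.card := Finset.card_pos.mpr ⟨e', he'⟩
    have h2 : 0 < D := t.pos
    exact absurd h0 (Nat.mul_pos h1 h2).ne'
  have hc2 : 2 * (Bad.card * D) ≤ E.card := by
    rw [mul_comm Bad.card D, ← mul_assoc]; exact hcard
  let M : Matrix (Bad × Fin D) E ℤ := Matrix.of fun x e => A e x.1 x.2
  obtain ⟨v, hv0, hv1, hv2⟩ := Int.Matrix.exists_ne_zero_int_vec_norm_le M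
    (by rw [hm, hn]; omega) (by rw [hm]; exact h0)
  have hM : ‖M‖ ≤ H := by
    rw [Matrix.norm_le_iff (by linarith)]
    intro x e
    rw [Int.norm_eq_abs]
    exact hA e e.2 x.1 x.1.2 x.2
  have hv3 : ‖v‖ ≤ E.card * H := by
    refine hv2.trans ?_
    rw [hm, hn]
    have hb : (1 : ℝ) ≤ E.card * max 1 ‖M‖ :=
      one_le_mul_of_one_le_of_one_le hE1 (le_max_left _ _)
    have hc3 : 2 * ((Bad.card * D : ℕ) : ℝ) ≤ E.card := by exact_mod_cast hc2
    have h0' : (0 : ℝ) < ((Bad.card * D : ℕ) : ℝ) := by exact_mod_cast h0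
    have hx : ((Bad.card * D : ℕ) : ℝ) / (E.card - ((Bad.card * D : ℕ) : ℝ)) ≤ 1 := by
      rw [div_le_one (by linarith)]
      linarith
    refine (Real.rpow_le_rpow_of_exponent_le hb hx).trans ?_
    rw [Real.rpow_one]
    exact mul_le_mul_of_nonneg_left (max_le hH hM) (by linarith)
  refine ⟨fun e => if h : e ∈ E then v ⟨e, h⟩ else 0, ?_, fun e => ?_, fun e' he' t => ?_⟩
  · obtain ⟨e, he⟩ := Function.ne_iff.mp hv0
    exact ⟨e, e.2, by simpa [e.2] using he⟩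
  · beta_reduce
    split_ifs with h
    · rw [← Int.norm_eq_abs]
      exact (norm_le_pi_norm v _).trans hv3
    · simp only [Int.cast_zero, abs_zero]
      linarith
  · have := congrFun hv1 (⟨e', he'⟩, t)
    rw [← Finset.sum_coe_sort]
    simp only [Matrix.mulVec, dotProduct, M, Matrix.of_apply, Pi.zero_apply] at this
    refine Eq.trans (Finset.sum_congr rfl fun e _ => ?_) this
    beta_reduce
    rw [dif_pos e.2, mul_comm]

end Pool.Agent.P.MP_c8ecb2_nt.RP
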