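import Mathlib
import Pool.Agent.P.MP_c8ecb2_nt.RP.Shape
import Pool.Agent.P.MP_c8ecb2_nt.RP.Expand
import Pool.Agent.P.MP_c8ecb2_nt.RP.Siegel

set_option autoImplicit false

namespace Pool.Agent.P.MP_c8ecb2_nt.RP

open MvPolynomial

private theorem psi_le {m : ℕ} (K T : ℕ) (ℓ d R r : Fin m → ℕ)
    (hℓ : ∀ h, ℓ h * d h = T) (hR : ∀ h, R h ≤ K * ℓ h) (hr : ∀ h, r h ≤ K * ℓ h)
    (e : Fin m → Fin 3 → ℕ) (he : e ∈ Om d) : psi R r e ≤ K * (m * T) := by
  have h1 : ∀ h, R h * e h 0 + r h * e h 1 ≤ K * T := by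
    intro h
    have h2 := (Finset.mem_piAntidiag.mp (Fintype.mem_piFinset.mp he h)).1
    rw [Fin.sum_univ_three] at h2
    calc R h * e h 0 + r h * e h 1 ≤ K * ℓ h * e h 0 + K * ℓ h * e h 1 :=
          add_le_add (Nat.mul_le_mul_right _ (hR h)) (Nat.mul_le_mul_right _ (hr h))
      _ = K * ℓ h * (e h 0 + e h 1) := by ring
      _ ≤ K * ℓ h * d h := Nat.mul_le_mul_left _ (by omega)
      _ = K * T := by rw [mul_assoc, hℓ h]
  calc psi R r e ≤ ∑ _h : Fin m, K * T := Finset.sum_le_sum fun h _ => h1 h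
    _ = K * (m * T) := by
      rw [Finset.sum_const, Finset.card_univ, Fintype.card_fin, smul_eq_mul]
      ring

theorem aux_siegel (ξ : ℝ) (D : ℕ) (C₀ : ℝ) (a : ℕ → Fin D → ℤ) (hD : 1 ≤ D) (hC : 1 ≤ C₀)
    (ha : ∀ l, ξ ^ l = ∑ t, (a l t : ℝ) * ξ ^ (t : ℕ)) (haC : ∀ l t, |(a l t : ℝ)| ≤ C₀ ^ l)
    {m : ℕ} (hm : 1 ≤ m) (K T : ℕ) (hT : 24 ≤ T) (ℓ d R r : Fin m → ℕ)
    (hℓ : ∀ h, ℓ h * d h = T) (hR : ∀ h, R h ≤ K * ℓ h) (hr : ∀ h, r h ≤ K * ℓ h)
    (α : Fin m → Fin 3 → ℝ) (hα : ∀ h c, |α h c| ≤ 2 * ℓ h)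
    (hsum : ∀ h, ∑ c, α h c ≤ -(ℓ h : ℝ))
    (hmK : 576 * (48 * (K : ℝ) + 2) * Real.log (4 * D) ≤ m) :
    ∃ (ψ₀ : ℕ) (c : (Fin m → Fin 3 → ℕ) → ℤ), (∃ e ∈ En d R r ψ₀, c e ≠ 0) ∧
      (∀ e, |(c e : ℝ)| ≤ (8 * C₀) ^ (∑ h, d h)) ∧
      ∀ e' ∈ En d R r ψ₀, (psi R r e' + m * T / 24 ≤ ψ₀ ∨ -((m : ℝ) * T / 6) < chi α e') →
        ∑ e ∈ En d R r ψ₀, (c e : ℝ) * ((bin e e' : ℝ) * ξ ^ drop e e') = 0 := by
  classical
  have hmT : 24 ≤ m * T := hT.trans (Nat.le_mul_of_pos_left T hm)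
  have hl : K * (m * T) < (48 * K + 1) * (m * T / 24) := by
    have h1 : m * T ≤ 48 * (m * T / 24) := by omega
    have h2 : 1 ≤ m * T / 24 := by omega
    have h3 := Nat.mul_le_mul_left K h1
    nlinarith
  obtain ⟨ψ₀, h1, h2⟩ := exists_level (Om d) (Om_nonempty d) (psi R r) (K * (m * T)) (48 * K + 1)
    (m * T / 24) (4 * D) (by omega) (psi_le K T ℓ d R r hℓ hR hr) hl
  change _ ≤ (En d R r ψ₀).card at h1
  change _ ≤ _ * (En d R r ψ₀).card at h2
  have hsub : En d R r ψ₀ ⊆ Om d := Finset.filter_subset _ _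
  have hE : (En d R r ψ₀).Nonempty := by
    rw [← Finset.card_pos]
    have := (Om_nonempty d).card_pos
    by_contra h0
    have h0' : (En d R r ψ₀).card = 0 := by omega
    rw [h0'] at h2
    omega
  have h3 := chernoff d ℓ T (by omega) hℓ α hα hsum
  have hD' : (1 : ℝ) ≤ D := by exact_mod_cast hD
  have h4 : (4 * (D : ℝ)) ^ (48 * K + 2) * Real.exp (-(m : ℝ) / 576) ≤ 1 := by
    have h5 : (4 * (D : ℝ)) ^ (48 * K + 2) = Real.exp ((48 * (K : ℝ) + 2) * Real.log (4 * D)) := by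
      have : (48 * (K : ℝ) + 2) = ((48 * K + 2 : ℕ) : ℝ) := by push_cast; ring
      rw [this, Real.exp_nat_mul, Real.exp_log (by positivity)]
    rw [h5, ← Real.exp_add, Real.exp_le_one_iff]
    linarith
  have h5 : 4 * D * ((Om d).filter fun e => -((m : ℝ) * T / 6) < chi α e).card ≤
      (En d R r ψ₀).card := by
    have h2' : ((Om d).card : ℝ) ≤ (4 * (D : ℝ)) ^ (48 * K + 1) * (En d R r ψ₀).card := by
      exact_mod_cast h2
    have h6 : 4 * (D : ℝ) * (((Om d).filter fun e => -((m : ℝ) * T / 6) < chi α e).card : ℝ) ≤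
        (En d R r ψ₀).card := by
      calc _ ≤ 4 * (D : ℝ) * (Real.exp (-(m : ℝ) / 576) *
            ((4 * (D : ℝ)) ^ (48 * K + 1) * (En d R r ψ₀).card)) := by
            refine mul_le_mul_of_nonneg_left (h3.trans ?_) (by positivity)
            exact mul_le_mul_of_nonneg_left h2' (by positivity)
        _ = ((4 * (D : ℝ)) ^ (48 * K + 2) * Real.exp (-(m : ℝ) / 576)) * (En d R r ψ₀).card := by
            ring
        _ ≤ 1 * (En d R r ψ₀).card := mul_le_mul_of_nonneg_right h4 (by positivity)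
        _ = _ := one_mul _
    exact_mod_cast h6
  set Bad := (En d R r ψ₀).filter fun e' =>
    psi R r e' + m * T / 24 ≤ ψ₀ ∨ -((m : ℝ) * T / 6) < chi α e' with hBad
  have hB : Bad ⊆ ((Om d).filter fun e => psi R r e + m * T / 24 ≤ ψ₀) ∪
      ((Om d).filter fun e => -((m : ℝ) * T / 6) < chi α e) := by
    intro e he
    obtain ⟨he1, he2⟩ := Finset.mem_filter.mp he
    rw [Finset.mem_union, Finset.mem_filter, Finset.mem_filter]
    exact he2.imp (fun h => ⟨hsub he1, h⟩) fun h => ⟨hsub he1, h⟩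
  have hcard : 2 * D * Bad.card ≤ (En d R r ψ₀).card := by
    have h6 := Nat.mul_le_mul_left (4 * D)
      ((Finset.card_le_card hB).trans (Finset.card_union_le _ _))
    rw [mul_add] at h6
    have h7 : 4 * D * Bad.card = 2 * (2 * D * Bad.card) := by ring
    omega
  obtain ⟨c, hc1, hc2, hc3⟩ := siegel (En d R r ψ₀) Bad hE D hcard
    (fun e e' t => (bin e e' : ℤ) * a (drop e e') t) ((2 * C₀) ^ (∑ h, d h))
    (one_le_pow₀ (by linarith)) (by
      intro e he e' _ t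
      have h6 : (bin e e' : ℝ) ≤ 2 ^ (∑ h, d h) := by exact_mod_cast bin_le d e e' (hsub he)
      have h7 := (haC (drop e e') t).trans (pow_le_pow_right₀ hC (drop_le d e e' (hsub he)))
      push_cast
      rw [abs_mul, mul_pow, Nat.abs_cast]
      exact mul_le_mul h6 h7 (abs_nonneg _) (by positivity))
  refine ⟨ψ₀, c, hc1, fun e => (hc2 e).trans ?_, fun e' he' hb => ?_⟩
  · have h6 : ((En d R r ψ₀).card : ℝ) ≤ 4 ^ (∑ h, d h) := by
      exact_mod_cast (Finset.card_le_card hsub).trans (card_Om_le d)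
    calc _ ≤ 4 ^ (∑ h, d h) * (2 * C₀) ^ (∑ h, d h) :=
          mul_le_mul_of_nonneg_right h6 (by positivity)
      _ = _ := by rw [← mul_pow]; congr 1; ring
  · have h6 : ∀ t : Fin D, ∑ e ∈ En d R r ψ₀,
        (c e : ℝ) * ((bin e e' : ℝ) * (a (drop e e') t : ℝ)) = 0 := by
      intro t
      exact_mod_cast hc3 e' (Finset.mem_filter.mpr ⟨he', hb⟩) t
    calc _ = ∑ e ∈ En d R r ψ₀, ∑ t : Fin D,
          (c e : ℝ) * ((bin e e' : ℝ) * (a (drop e e') t : ℝ)) * ξ ^ (t : ℕ) := by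
          refine Finset.sum_congr rfl fun e _ => ?_
          rw [ha (drop e e'), Finset.mul_sum, Finset.mul_sum]
          exact Finset.sum_congr rfl fun t _ => by ring
      _ = 0 := by
          rw [Finset.sum_comm]
          refine Finset.sum_eq_zero fun t _ => ?_
          rw [← Finset.sum_mul, h6 t, zero_mul]

end Pool.Agent.P.MP_c8ecb2_nt.RP
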