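import Mathlib
import Pool.Agent.P.MP_c8ecb2_nt.RP.Defs

set_option autoImplicit false

namespace Pool.Agent.P.MP_c8ecb2_nt.RP

open MvPolynomial

section general
variable {S : Type*} [CommRing S] {ν : S → ℝ}

theorem IsNrm.sum_le (hν : IsNrm ν) {ι : Type*} (s : Finset ι) (f : ι → S) :
    ν (∑ i ∈ s, f i) ≤ ∑ i ∈ s, ν (f i) := by
  classical
  induction s using Finset.induction_on with
  | empty => simp [hν.zero]
  | insert a s ha ih =>
    rw [Finset.sum_insert ha, Finset.sum_insert ha]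
    exact (hν.add_le _ _).trans (by linarith)

theorem IsNrm.prod_le (hν : IsNrm ν) {ι : Type*} (s : Finset ι) (f : ι → S) :
    ν (∏ i ∈ s, f i) ≤ ∏ i ∈ s, ν (f i) := by
  classical
  induction s using Finset.induction_on with
  | empty => simpa using hν.one_le
  | insert a s ha ih =>
    rw [Finset.prod_insert ha, Finset.prod_insert ha]
    exact (hν.mul_le _ _).trans (mul_le_mul_of_nonneg_left ih (hν.nonneg _))

theorem IsNrm.pow_le (hν : IsNrm ν) (a : S) (n : ℕ) : ν (a ^ n) ≤ ν a ^ n := by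
  simpa using hν.prod_le (Finset.range n) fun _ => a

theorem IsNrm.sub_le (hν : IsNrm ν) (a b : S) : ν (a - b) ≤ ν a + ν b := by
  rw [sub_eq_add_neg, ← hν.neg b]; exact hν.add_le _ _

theorem IsNrm.mul_le' (hν : IsNrm ν) {a b : S} {x y : ℝ} (ha : ν a ≤ x) (hb : ν b ≤ y) :
    ν (a * b) ≤ x * y :=
  (hν.mul_le a b).trans (mul_le_mul ha hb (hν.nonneg _) ((hν.nonneg _).trans ha))

theorem IsNrm.pow_le' (hν : IsNrm ν) {a : S} {x : ℝ} (ha : ν a ≤ x) (n : ℕ) :
    ν (a ^ n) ≤ x ^ n :=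
  (hν.pow_le a n).trans (pow_le_pow_left₀ (hν.nonneg _) ha n)

theorem IsNrm.prod_le' (hν : IsNrm ν) {ι : Type*} (s : Finset ι) {f : ι → S} {x : ι → ℝ}
    (h : ∀ i ∈ s, ν (f i) ≤ x i) : ν (∏ i ∈ s, f i) ≤ ∏ i ∈ s, x i :=
  (hν.prod_le s f).trans (Finset.prod_le_prod (fun _ _ => hν.nonneg _) h)

theorem isNrm_iabs : IsNrm iabs where
  nonneg _ := abs_nonneg _
  zero := by simp [iabs]
  add_le a b := by simpa [iabs] using abs_add_le (a : ℝ) b
  mul_le a b := by simp [iabs, abs_mul]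
  neg a := by simp [iabs]
  one_le := by simp [iabs]

theorem isNrm_abs : IsNrm (fun a : ℝ => |a|) where
  nonneg _ := abs_nonneg _
  zero := by simp
  add_le a b := abs_add_le a b
  mul_le a b := by simp [abs_mul]
  neg a := by simp
  one_le := by simp

/-- weighted bound for determinants -/
theorem IsNrm.det_le (hν : IsNrm ν) {N : Type*} [Fintype N] [DecidableEq N] (M : Matrix N N S)
    (ω : N → ℝ) (hω : ∀ i, 0 < ω i) :
    ν M.det ≤ ∏ i, ∑ l, ν (M l i) * ω l / ω i := by
  rw [Matrix.det_apply, Finset.prod_univ_sum]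
  refine (hν.sum_le _ _).trans ?_
  have h1 : ∀ π : Equiv.Perm N, ν (Equiv.Perm.sign π • ∏ i, M (π i) i) ≤
      ∏ i, ν (M (π i) i) * ω (π i) / ω i := by
    intro π
    have h2 : ν (Equiv.Perm.sign π • ∏ i, M (π i) i) = ν (∏ i, M (π i) i) := by
      rcases Int.units_eq_one_or (Equiv.Perm.sign π) with h | h <;> simp [h, hν.neg]
    rw [h2]
    refine (hν.prod_le _ _).trans (le_of_eq ?_)
    rw [Finset.prod_div_distrib, Finset.prod_mul_distrib, Equiv.prod_comp π ω,
      mul_div_assoc, div_self (Finset.prod_pos fun i _ => hω i).ne', mul_one]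
  refine (Finset.sum_le_sum fun π _ => h1 π).trans ?_
  have h3 : ∑ π : Equiv.Perm N, ∏ i, ν (M (π i) i) * ω (π i) / ω i =
      ∑ p ∈ (Finset.univ : Finset (Equiv.Perm N)).image (fun π : Equiv.Perm N => (π : N → N)),
        ∏ i, ν (M (p i) i) * ω (p i) / ω i := by
    rw [Finset.sum_image]
    intro a _ b _ h
    exact DFunLike.coe_injective h
  rw [h3]
  refine Finset.sum_le_sum_of_subset_of_nonneg (fun p _ => by simp) fun p _ _ => ?_
  exact Finset.prod_nonneg fun i _ =>
    div_nonneg (mul_nonneg (hν.nonneg _) (hω _).le) (hω _).le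

end general

section mv
variable {σ S : Type*} [CommRing S] {ν : S → ℝ} {w : σ → ℝ}

theorem mw_nonneg (hw : ∀ i, 0 ≤ w i) (e : σ →₀ ℕ) : 0 ≤ mw w e :=
  Finset.prod_nonneg fun i _ => pow_nonneg (hw i) _

theorem mw_pos (hw : ∀ i, 0 < w i) (e : σ →₀ ℕ) : 0 < mw w e :=
  Finset.prod_pos fun i _ => pow_pos (hw i) _

theorem mw_add (e e' : σ →₀ ℕ) : mw w (e + e') = mw w e * mw w e' :=
  Finsupp.prod_add_index' (fun _ => pow_zero _) fun _ _ _ => pow_add _ _ _

theorem mw_zero : mw w 0 = 1 := Finsupp.prod_zero_index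

theorem mw_single (i : σ) (k : ℕ) : mw w (Finsupp.single i k) = w i ^ k :=
  Finsupp.prod_single_index (pow_zero _)

theorem mw_eq_prod [Fintype σ] (e : σ →₀ ℕ) : mw w e = ∏ i, w i ^ e i :=
  Finsupp.prod_fintype _ _ fun _ => pow_zero _

theorem mw_one (e : σ →₀ ℕ) : mw (fun _ => (1 : ℝ)) e = 1 := by
  simp [mw, Finsupp.prod]

theorem wn_eq_sum (hν : IsNrm ν) (p : MvPolynomial σ S) {s : Finset (σ →₀ ℕ)}
    (hs : p.support ⊆ s) : wn ν w p = ∑ e ∈ s, ν (coeff e p) * mw w e := by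
  refine Finset.sum_subset hs fun e _ he => ?_
  rw [notMem_support_iff.mp he, hν.zero, zero_mul]

theorem wn_monomial (hν : IsNrm ν) (e : σ →₀ ℕ) (a : S) :
    wn ν w (monomial e a) = ν a * mw w e := by
  classical
  rw [wn_eq_sum hν _ support_monomial_subset]
  simp

theorem wn_nonneg (hν : IsNrm ν) (hw : ∀ i, 0 ≤ w i) (p : MvPolynomial σ S) : 0 ≤ wn ν w p :=
  Finset.sum_nonneg fun e _ => mul_nonneg (hν.nonneg _) (mw_nonneg hw e)

theorem wn_add_le (hν : IsNrm ν) (hw : ∀ i, 0 ≤ w i) (p q : MvPolynomial σ S) :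
    wn ν w (p + q) ≤ wn ν w p + wn ν w q := by
  classical
  rw [wn_eq_sum hν (p + q) support_add, wn_eq_sum hν p (Finset.subset_union_left (s₂ := q.support)),
    wn_eq_sum hν q (Finset.subset_union_right (s₁ := p.support)), ← Finset.sum_add_distrib]
  refine Finset.sum_le_sum fun e _ => ?_
  rw [coeff_add, ← add_mul]
  exact mul_le_mul_of_nonneg_right (hν.add_le _ _) (mw_nonneg hw e)

theorem wn_sum_le (hν : IsNrm ν) (hw : ∀ i, 0 ≤ w i) {ι : Type*} (s : Finset ι)
    (f : ι → MvPolynomial σ S) : wn ν w (∑ i ∈ s, f i) ≤ ∑ i ∈ s, wn ν w (f i) := by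
  classical
  induction s using Finset.induction_on with
  | empty => simp [wn]
  | insert a s ha ih =>
    rw [Finset.sum_insert ha, Finset.sum_insert ha]
    exact (wn_add_le hν hw _ _).trans (by linarith)

theorem isNrm_wn (hν : IsNrm ν) (hw : ∀ i, 0 ≤ w i) : IsNrm (wn ν w) where
  nonneg := wn_nonneg hν hw
  zero := by simp [wn]
  add_le := wn_add_le hν hw
  mul_le p q := by
    conv_lhs => rw [p.as_sum, q.as_sum, Finset.sum_mul_sum]
    refine (wn_sum_le hν hw _ _).trans ?_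
    rw [wn, wn, Finset.sum_mul_sum]
    refine Finset.sum_le_sum fun e _ => (wn_sum_le hν hw _ _).trans
      (Finset.sum_le_sum fun e' _ => ?_)
    rw [monomial_mul, wn_monomial hν, mw_add]
    calc ν (coeff e p * coeff e' q) * (mw w e * mw w e')
        ≤ (ν (coeff e p) * ν (coeff e' q)) * (mw w e * mw w e') :=
          mul_le_mul_of_nonneg_right (hν.mul_le _ _)
            (mul_nonneg (mw_nonneg hw _) (mw_nonneg hw _))
      _ = _ := by ring
  neg p := by simp [wn, hν.neg]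
  one_le := by
    rw [← C_1, C_apply, wn_monomial hν, mw_zero, mul_one]; exact hν.one_le

theorem wn_C (hν : IsNrm ν) (a : S) : wn ν w (C a) = ν a := by
  rw [C_apply, wn_monomial hν, mw_zero, mul_one]

theorem wn_X_le (hν : IsNrm ν) (hw : ∀ i, 0 ≤ w i) (i : σ) :
    wn ν w (X i : MvPolynomial σ S) ≤ w i := by
  rw [X, wn_monomial hν, mw_single, pow_one]
  exact mul_le_of_le_one_left (hw i) hν.one_le

theorem coeff_le_wn (hν : IsNrm ν) (hw : ∀ i, 0 ≤ w i) (p : MvPolynomial σ S) (e : σ →₀ ℕ) :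
    ν (coeff e p) * mw w e ≤ wn ν w p := by
  by_cases he : e ∈ p.support
  · exact Finset.single_le_sum (f := fun e => ν (coeff e p) * mw w e)
      (fun e _ => mul_nonneg (hν.nonneg _) (mw_nonneg hw e)) he
  · rw [notMem_support_iff.mp he, hν.zero, zero_mul]; exact wn_nonneg hν hw p

theorem eval₂_le_wn {T : Type*} [CommRing T] {ν' : T → ℝ} (hν : IsNrm ν) (hν' : IsNrm ν')
    (φ : S →+* T) (g : σ → T) (hφ : ∀ a, ν' (φ a) ≤ ν a) (hg : ∀ i, ν' (g i) ≤ w i)
    (p : MvPolynomial σ S) : ν' (eval₂ φ g p) ≤ wn ν w p := by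
  rw [eval₂_eq]
  refine (hν'.sum_le _ _).trans (Finset.sum_le_sum fun e _ => ?_)
  exact hν'.mul_le' (hφ _) (hν'.prod_le' _ fun i _ => hν'.pow_le' (hg i) _)

theorem isNrm_len : IsNrm (len (σ := σ)) := isNrm_wn isNrm_iabs fun _ => zero_le_one

theorem one_le_len {p : MvPolynomial σ ℤ} (hp : p ≠ 0) : 1 ≤ len p := by
  obtain ⟨e, he⟩ := exists_coeff_ne_zero hp
  have h := coeff_le_wn isNrm_iabs (w := fun _ : σ => (1 : ℝ)) (fun _ => zero_le_one) p e
  rw [mw_one, mul_one] at h
  refine le_trans ?_ h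
  have : (1 : ℤ) ≤ |coeff e p| := Int.one_le_abs he
  unfold iabs
  exact_mod_cast this

theorem len_C_mul (a : ℤ) (p : MvPolynomial σ ℤ) : len (C a * p) = |(a : ℝ)| * len p := by
  unfold len
  rw [wn_eq_sum isNrm_iabs (C a * p) (s := p.support), wn, Finset.mul_sum]
  · refine Finset.sum_congr rfl fun e _ => ?_
    rw [coeff_C_mul, iabs, iabs, Int.cast_mul, abs_mul, mul_assoc]
  · intro e he
    rw [mem_support_iff] at he ⊢
    intro h
    rw [coeff_C_mul, h, mul_zero] at he
    exact he rfl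

end mv

section uni
variable {S : Type*} [CommRing S] {ν : S → ℝ}

theorem pn_eq_sum (hν : IsNrm ν) (p : Polynomial S) {s : Finset ℕ} (hs : p.support ⊆ s) :
    pn ν p = ∑ i ∈ s, ν (p.coeff i) := by
  refine Finset.sum_subset hs fun e _ he => ?_
  rw [Polynomial.notMem_support_iff.mp he, hν.zero]

theorem pn_monomial (hν : IsNrm ν) (i : ℕ) (a : S) : pn ν (Polynomial.monomial i a) = ν a := by
  rw [pn_eq_sum hν _ (Polynomial.support_monomial_subset i a)]
  simp

theorem pn_nonneg (hν : IsNrm ν) (p : Polynomial S) : 0 ≤ pn ν p :=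
  Finset.sum_nonneg fun _ _ => hν.nonneg _

theorem pn_add_le (hν : IsNrm ν) (p q : Polynomial S) : pn ν (p + q) ≤ pn ν p + pn ν q := by
  rw [pn_eq_sum hν (p + q) Polynomial.support_add,
    pn_eq_sum hν p (Finset.subset_union_left (s₂ := q.support)),
    pn_eq_sum hν q (Finset.subset_union_right (s₁ := p.support)), ← Finset.sum_add_distrib]
  refine Finset.sum_le_sum fun e _ => ?_
  rw [Polynomial.coeff_add]
  exact hν.add_le _ _

theorem pn_sum_le (hν : IsNrm ν) {ι : Type*} (s : Finset ι) (f : ι → Polynomial S) :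
    pn ν (∑ i ∈ s, f i) ≤ ∑ i ∈ s, pn ν (f i) := by
  classical
  induction s using Finset.induction_on with
  | empty => simp [pn]
  | insert a s ha ih =>
    rw [Finset.sum_insert ha, Finset.sum_insert ha]
    exact (pn_add_le hν _ _).trans (by linarith)

theorem isNrm_pn (hν : IsNrm ν) : IsNrm (pn ν) where
  nonneg := pn_nonneg hν
  zero := by simp [pn]
  add_le := pn_add_le hν
  mul_le p q := by
    conv_lhs => rw [p.as_sum_support, q.as_sum_support, Finset.sum_mul_sum]
    refine (pn_sum_le hν _ _).trans ?_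
    rw [pn, pn, Finset.sum_mul_sum]
    refine Finset.sum_le_sum fun e _ => (pn_sum_le hν _ _).trans
      (Finset.sum_le_sum fun e' _ => ?_)
    rw [Polynomial.monomial_mul_monomial, pn_monomial hν]
    exact hν.mul_le _ _
  neg p := by simp [pn, hν.neg]
  one_le := by
    rw [← Polynomial.monomial_zero_one, pn_monomial hν]; exact hν.one_le

theorem pn_C (hν : IsNrm ν) (a : S) : pn ν (Polynomial.C a) = ν a := by
  rw [← Polynomial.monomial_zero_left, pn_monomial hν]

theorem pn_X_le (hν : IsNrm ν) : pn ν (Polynomial.X : Polynomial S) ≤ 1 := by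
  rw [← Polynomial.monomial_one_one_eq_X, pn_monomial hν]; exact hν.one_le

theorem coeff_le_pn (hν : IsNrm ν) (p : Polynomial S) (i : ℕ) : ν (p.coeff i) ≤ pn ν p := by
  by_cases he : i ∈ p.support
  · exact Finset.single_le_sum (f := fun i => ν (p.coeff i)) (fun e _ => hν.nonneg _) he
  · rw [Polynomial.notMem_support_iff.mp he, hν.zero]; exact pn_nonneg hν p

end uni

end Pool.Agent.P.MP_c8ecb2_nt.RP
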