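import Mathlib
import Pool.Agent.P.MP_c8ecb2_nt.RP.Norm
import Pool.Agent.P.MP_c8ecb2_nt.RP.Shape
import Pool.Agent.P.MP_c8ecb2_nt.RP.Expand

set_option autoImplicit false

namespace Pool.Agent.P.MP_c8ecb2_nt.RP

open MvPolynomial

/-- the weights of the variables -/
noncomputable def auxW {m : ℕ} (b : ℕ) (α : Fin m → Fin 3 → ℝ) (p : Fin m × Fin 3) : ℝ :=
  if p.2 = 2 then (b : ℝ) ^ α p.1 1 else 1

/-- the three small linear forms of block `h` -/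
noncomputable def auxU {m : ℕ} (ξ : ℝ) (b : ℕ) (R r : Fin m → ℕ)
    (y : Fin m → Fin 2 → Fin 3 → ℤ) (h : Fin m) : Fin 3 → MvPolynomial (Fin m × Fin 3) ℝ :=
  ![C ((y h 0 0 : ℝ) - ξ * (b : ℝ) ^ R h * y h 0 2) * X (h, 0) +
      C ((y h 1 0 : ℝ) - ξ * (b : ℝ) ^ R h * y h 1 2) * X (h, 1),
    C ((y h 0 1 : ℝ) - ξ * (b : ℝ) ^ r h * y h 0 2) * X (h, 0) +
      C ((y h 1 1 : ℝ) - ξ * (b : ℝ) ^ r h * y h 1 2) * X (h, 1) + X (h, 2),
    C (y h 0 2 : ℝ) * X (h, 0) + C (y h 1 2 : ℝ) * X (h, 1)]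

theorem auxW_nonneg {m : ℕ} (b : ℕ) (α : Fin m → Fin 3 → ℝ) (p : Fin m × Fin 3) :
    0 ≤ auxW b α p := by
  unfold auxW
  split_ifs
  · positivity
  · exact zero_le_one

theorem aux_pair_le {m : ℕ} (b : ℕ) (α : Fin m → Fin 3 → ℝ) (h : Fin m) {p q t : ℝ}
    (hp : |p| ≤ t) (hq : |q| ≤ t) :
    wn (fun a : ℝ => |a|) (auxW b α) (C p * X (h, 0) + C q * X (h, 1)) ≤ 2 * t := by
  have hN := isNrm_wn isNrm_abs (auxW_nonneg b α)
  have h0 : wn (fun a : ℝ => |a|) (auxW b α) (X (h, 0)) ≤ 1 :=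
    (wn_X_le isNrm_abs (auxW_nonneg b α) _).trans (by simp [auxW])
  have h1 : wn (fun a : ℝ => |a|) (auxW b α) (X (h, 1)) ≤ 1 :=
    (wn_X_le isNrm_abs (auxW_nonneg b α) _).trans (by simp [auxW])
  have a0 := hN.mul_le' (a := C p) ((wn_C isNrm_abs p).le.trans hp) h0
  have a1 := hN.mul_le' (a := C q) ((wn_C isNrm_abs q).le.trans hq) h1
  refine (hN.add_le _ _).trans ?_
  linarith

theorem auxU_le {m : ℕ} (ξ : ℝ) (b : ℕ) (ℓ R r : Fin m → ℕ)
    (y : Fin m → Fin 2 → Fin 3 → ℤ) (α : Fin m → Fin 3 → ℝ) (κ β : Fin m → ℚ)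
    (hblock : ∀ h, Block ξ b (ℓ h) (R h) (r h) (y h) (α h) (κ h) (β h)) (h : Fin m) (c : Fin 3) :
    wn (fun a : ℝ => |a|) (auxW b α) (auxU ξ b R r y h c) ≤ 7 * (b : ℝ) ^ α h c := by
  have hN := isNrm_wn isNrm_abs (auxW_nonneg b α)
  have hpos : ∀ c, 0 ≤ (b : ℝ) ^ α h c := fun c => by positivity
  fin_cases c
  · have := aux_pair_le b α h ((hblock h).form0 0) ((hblock h).form0 1)
    refine this.trans ?_
    have := hpos 0
    simp only [Fin.zero_eta]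
    linarith
  · have h1 := aux_pair_le b α h ((hblock h).form1 0) ((hblock h).form1 1)
    have h2 : wn (fun a : ℝ => |a|) (auxW b α) (X (h, 2)) ≤ (b : ℝ) ^ α h 1 :=
      (wn_X_le isNrm_abs (auxW_nonneg b α) _).trans (by simp [auxW])
    refine (hN.add_le _ _).trans ?_
    simp only [Fin.mk_one]
    linarith
  · have := aux_pair_le b α h ((hblock h).form2 0) ((hblock h).form2 1)
    refine this.trans ?_
    have := hpos 2
    simp only [Fin.reduceFinMk]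
    linarith

theorem aux_mon_le {m : ℕ} (ξ : ℝ) (b : ℕ) (hb : 0 < b) (ℓ d R r : Fin m → ℕ)
    (y : Fin m → Fin 2 → Fin 3 → ℤ) (α : Fin m → Fin 3 → ℝ) (κ β : Fin m → ℚ)
    (hblock : ∀ h, Block ξ b (ℓ h) (R h) (r h) (y h) (α h) (κ h) (β h))
    (e : Fin m → Fin 3 → ℕ) (he : e ∈ Om d) :
    wn (fun a : ℝ => |a|) (auxW b α) (mon (auxU ξ b R r y) e) ≤
      7 ^ (∑ h, d h) * (b : ℝ) ^ chi α e := by
  have hN := isNrm_wn isNrm_abs (auxW_nonneg b α)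
  have hb' : (0 : ℝ) < b := by exact_mod_cast hb
  refine (hN.prod_le' _ fun h _ => hN.prod_le' _ fun c _ =>
    hN.pow_le' (auxU_le ξ b ℓ R r y α κ β hblock h c) (e h c)).trans (le_of_eq ?_)
  rw [chi, Real.rpow_sum_of_pos hb', ← Finset.prod_pow_eq_pow_sum, ← Finset.prod_mul_distrib]
  refine Finset.prod_congr rfl fun h _ => ?_
  have hd : ∑ c, e h c = d h := (Finset.mem_piAntidiag.mp (Fintype.mem_piFinset.mp he h)).1
  rw [Real.rpow_sum_of_pos hb', ← hd, ← Finset.prod_pow_eq_pow_sum, ← Finset.prod_mul_distrib]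
  refine Finset.prod_congr rfl fun c _ => ?_
  rw [mul_pow, Real.rpow_mul_natCast hb'.le]

theorem aux_map_Phi {m : ℕ} (ξ : ℝ) (b : ℕ) (d R r : Fin m → ℕ) (ψ₀ : ℕ)
    (c : (Fin m → Fin 3 → ℕ) → ℤ) (y : Fin m → Fin 2 → Fin 3 → ℤ) :
    map (Int.castRingHom ℝ) (Phi b d R r ψ₀ c y) =
      ∑ e' ∈ En d R r ψ₀,
        C (∑ e ∈ En d R r ψ₀, (c e : ℝ) * ((bin e e' : ℝ) * ξ ^ drop e e')) *
          (C ((b : ℝ) ^ (ψ₀ - psi R r e')) * mon (auxU ξ b R r y) e') := by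
  let v : Fin m → Fin 3 → MvPolynomial (Fin m × Fin 3) ℝ :=
    fun h c => map (Int.castRingHom ℝ) (lin y h c)
  have hv : ∀ h c, v h c = C (y h 0 c : ℝ) * X (h, 0) + C (y h 1 c : ℝ) * X (h, 1) +
      if c = 1 then X (h, 2) else 0 := by
    intro h c
    simp only [v, lin, map_add, map_mul, map_X, eq_intCast]
    split_ifs <;> simp
  have h0 : ∀ h, v h 0 = auxU ξ b R r y h 0 + C ξ * C (b : ℝ) ^ R h * auxU ξ b R r y h 2 := by
    intro h
    rw [hv]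
    simp only [auxU, Matrix.cons_val_zero, Matrix.cons_val, map_sub, map_mul, map_pow]
    rw [if_neg (by decide)]
    ring
  have h1 : ∀ h, v h 1 = auxU ξ b R r y h 1 + C ξ * C (b : ℝ) ^ r h * auxU ξ b R r y h 2 := by
    intro h
    rw [hv]
    simp only [auxU, Matrix.cons_val_one, Matrix.cons_val_zero, Matrix.cons_val, map_sub, map_mul,
      map_pow, if_true]
    ring
  have h2 : ∀ h, v h 2 = auxU ξ b R r y h 2 := by
    intro h
    rw [hv]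
    simp only [auxU, Matrix.cons_val]
    rw [if_neg (by decide), add_zero]
  have h3 : ∀ e ∈ En d R r ψ₀, map (Int.castRingHom ℝ)
      (C (c e * (b : ℤ) ^ (ψ₀ - psi R r e)) * mon (lin y) e) =
      ∑ e' ∈ En d R r ψ₀, C ((c e : ℝ) * ((bin e e' : ℝ) * ξ ^ drop e e')) *
          (C ((b : ℝ) ^ (ψ₀ - psi R r e')) * mon (auxU ξ b R r y) e') := by
    intro e he
    have h4 := mon_expand d R r ψ₀ (C ξ) (C (b : ℝ)) (auxU ξ b R r y) v h0 h1 h2 e he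
    have h5 : map (Int.castRingHom ℝ) (mon (lin y) e) = mon v e := by
      simp only [mon, map_prod, map_pow, v]
    rw [map_mul, h5, map_C, map_mul, map_pow, map_natCast, map_mul, map_pow, mul_assoc, h4,
      Finset.mul_sum]
    refine Finset.sum_congr rfl fun e' _ => ?_
    simp only [map_mul, map_pow, map_natCast, eq_intCast]
    ring
  rw [Phi, map_sum, Finset.sum_congr rfl h3, Finset.sum_comm]
  refine Finset.sum_congr rfl fun e' _ => ?_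
  rw [map_sum, Finset.sum_mul]

theorem aux_coeff_le (ξ C₀ : ℝ) (hC : 1 ≤ C₀) (hξ : |ξ| ≤ C₀) {m : ℕ} (d R r : Fin m → ℕ)
    (ψ₀ : ℕ) (c : (Fin m → Fin 3 → ℕ) → ℤ) (hc : ∀ e, |(c e : ℝ)| ≤ (8 * C₀) ^ (∑ h, d h))
    (e' : Fin m → Fin 3 → ℕ) :
    |∑ e ∈ En d R r ψ₀, (c e : ℝ) * ((bin e e' : ℝ) * ξ ^ drop e e')| ≤
      (64 * C₀ ^ 2) ^ (∑ h, d h) := by
  set D := ∑ h, d h
  have hcard : ((En d R r ψ₀).card : ℝ) ≤ 4 ^ D := by
    exact_mod_cast (Finset.card_filter_le _ _).trans (card_Om_le d)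
  have h1 : ∀ e ∈ En d R r ψ₀, |(c e : ℝ) * ((bin e e' : ℝ) * ξ ^ drop e e')| ≤
      (8 * C₀) ^ D * (2 ^ D * C₀ ^ D) := by
    intro e he
    have he' : e ∈ Om d := (Finset.mem_filter.mp he).1
    have b1 : |(bin e e' : ℝ)| ≤ 2 ^ D := by
      rw [Nat.abs_cast]; exact_mod_cast bin_le d e e' he'
    have b2 : |ξ ^ drop e e'| ≤ C₀ ^ D := by
      rw [abs_pow]
      exact (pow_le_pow_left₀ (abs_nonneg _) hξ _).trans
        (pow_le_pow_right₀ hC (drop_le d e e' he'))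
    rw [abs_mul, abs_mul]
    exact mul_le_mul (hc e) (mul_le_mul b1 b2 (abs_nonneg _) (by positivity)) (by positivity)
      (by positivity)
  refine (Finset.abs_sum_le_sum_abs _ _).trans ((Finset.sum_le_card_nsmul _ _ _ h1).trans ?_)
  rw [nsmul_eq_mul]
  refine (mul_le_mul_of_nonneg_right hcard (by positivity)).trans (le_of_eq ?_)
  rw [← mul_pow, ← mul_pow, ← mul_pow]
  congr 1
  ring

theorem aux_small (ξ C₀ : ℝ) (hC : 1 ≤ C₀) (hξ : |ξ| ≤ C₀) (b : ℕ) (hb : 2 ≤ b)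
    {m : ℕ} (hm : 1 ≤ m) (T : ℕ) (hT : 0 < T) (ℓ d R r : Fin m → ℕ) (hℓ : ∀ h, ℓ h * d h = T)
    (y : Fin m → Fin 2 → Fin 3 → ℤ) (α : Fin m → Fin 3 → ℝ) (κ β : Fin m → ℚ)
    (hblock : ∀ h, Block ξ b (ℓ h) (R h) (r h) (y h) (α h) (κ h) (β h))
    (hℓC : ∀ h, 12 * Real.log (1792 * C₀ ^ 2) < ℓ h * Real.log 2)
    (ψ₀ : ℕ) (c : (Fin m → Fin 3 → ℕ) → ℤ) (hc : ∀ e, |(c e : ℝ)| ≤ (8 * C₀) ^ (∑ h, d h))
    (hvan : ∀ e' ∈ En d R r ψ₀,
      (psi R r e' + m * T / 24 ≤ ψ₀ ∨ -((m : ℝ) * T / 6) < chi α e') →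
        ∑ e ∈ En d R r ψ₀, (c e : ℝ) * ((bin e e' : ℝ) * ξ ^ drop e e') = 0) :
    ∀ τ ∈ (Phi b d R r ψ₀ c y).support, (m : ℝ) / 48 < ∑ h, (τ (h, 2) : ℝ) / d h := by
  intro τ hτ
  by_contra hcon
  push Not at hcon
  have hN := isNrm_wn isNrm_abs (auxW_nonneg b α)
  have hb2 : (2 : ℝ) ≤ b := by exact_mod_cast hb
  have hb0 : (0 : ℝ) < b := by linarith
  have hb1 : (1 : ℝ) ≤ b := by linarith
  have hT' : (0 : ℝ) < T := by exact_mod_cast hT
  have hd0 : ∀ h, (0 : ℝ) < d h := fun h => by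
    have : d h ≠ 0 := fun h0 => by have := hℓ h; rw [h0] at this; omega
    exact_mod_cast Nat.pos_of_ne_zero this
  have hℓ' : ∀ h, (ℓ h : ℝ) * d h = T := fun h => by exact_mod_cast hℓ h
  set D := ∑ h, d h with hD
  have hcard : ((En d R r ψ₀).card : ℝ) ≤ 4 ^ D := by
    exact_mod_cast (Finset.card_filter_le _ _).trans (card_Om_le d)
  have hterm : ∀ e' ∈ En d R r ψ₀, wn (fun a : ℝ => |a|) (auxW b α)
      (C (∑ e ∈ En d R r ψ₀, (c e : ℝ) * ((bin e e' : ℝ) * ξ ^ drop e e')) *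
        (C ((b : ℝ) ^ (ψ₀ - psi R r e')) * mon (auxU ξ b R r y) e')) ≤
      (64 * C₀ ^ 2) ^ D * ((b : ℝ) ^ ((m : ℝ) * T / 24) *
        (7 ^ D * (b : ℝ) ^ (-((m : ℝ) * T / 6)))) := by
    intro e' he'
    by_cases hbad : psi R r e' + m * T / 24 ≤ ψ₀ ∨ -((m : ℝ) * T / 6) < chi α e'
    · rw [hvan e' he' hbad, C_0, zero_mul, hN.zero]
      positivity
    · push Not at hbad
      refine hN.mul_le' ((wn_C isNrm_abs _).le.trans (aux_coeff_le ξ C₀ hC hξ d R r ψ₀ c hc e'))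
        (hN.mul_le' ((wn_C isNrm_abs _).le.trans ?_) ?_)
      · rw [abs_of_pos (by positivity), ← Real.rpow_natCast]
        refine Real.rpow_le_rpow_of_exponent_le hb1 ?_
        have h1 : ψ₀ - psi R r e' ≤ m * T / 24 := by omega
        have h2 : ((m * T / 24 : ℕ) : ℝ) ≤ ((m * T : ℕ) : ℝ) / (24 : ℕ) := Nat.cast_div_le
        have h3 : ((ψ₀ - psi R r e' : ℕ) : ℝ) ≤ ((m * T / 24 : ℕ) : ℝ) := by exact_mod_cast h1
        push_cast at h2
        linarith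
      · refine (aux_mon_le ξ b (by omega) ℓ d R r y α κ β hblock e'
          (Finset.mem_filter.mp he').1).trans ?_
        exact mul_le_mul_of_nonneg_left (Real.rpow_le_rpow_of_exponent_le hb1 hbad.2)
          (by positivity)
  have hup : wn (fun a : ℝ => |a|) (auxW b α) (map (Int.castRingHom ℝ) (Phi b d R r ψ₀ c y)) ≤
      (1792 * C₀ ^ 2) ^ D * (b : ℝ) ^ (-((m : ℝ) * T / 8)) := by
    rw [aux_map_Phi ξ]
    refine (hN.sum_le _ _).trans ((Finset.sum_le_card_nsmul _ _ _ hterm).trans ?_)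
    rw [nsmul_eq_mul]
    refine (mul_le_mul_of_nonneg_right hcard (by positivity)).trans (le_of_eq ?_)
    have e1 : (b : ℝ) ^ (-((m : ℝ) * T / 8)) =
        (b : ℝ) ^ ((m : ℝ) * T / 24) * (b : ℝ) ^ (-((m : ℝ) * T / 6)) := by
      rw [← Real.rpow_add hb0]; congr 1; ring
    have e2 : (1792 * C₀ ^ 2) ^ D = 4 ^ D * ((64 * C₀ ^ 2) ^ D * 7 ^ D) := by
      rw [← mul_pow, ← mul_pow]; congr 1; ring
    rw [e1, e2]; ring
  have hcoef : 1 ≤ |coeff τ (map (Int.castRingHom ℝ) (Phi b d R r ψ₀ c y))| := by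
    rw [coeff_map, eq_intCast]
    exact_mod_cast Int.one_le_abs (mem_support_iff.mp hτ)
  have hmw : (b : ℝ) ^ (-((m : ℝ) * T / 24)) ≤ mw (auxW b α) τ := by
    have e1 : mw (auxW b α) τ = (b : ℝ) ^ (∑ h, α h 1 * (τ (h, 2) : ℝ)) := by
      rw [mw_eq_prod, Fintype.prod_prod_type, Real.rpow_sum_of_pos hb0]
      refine Finset.prod_congr rfl fun h _ => ?_
      rw [Fin.prod_univ_three, Real.rpow_mul_natCast hb0.le]
      simp [auxW]
    rw [e1]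
    refine Real.rpow_le_rpow_of_exponent_le hb1 ?_
    have h1 : ∀ h, -(2 * T) * ((τ (h, 2) : ℝ) / d h) ≤ α h 1 * (τ (h, 2) : ℝ) := by
      intro h
      have h2 := (abs_le.mp ((hblock h).abs_le 1)).1
      have h3 : -(2 * T) * ((τ (h, 2) : ℝ) / d h) = -(2 * ℓ h) * (τ (h, 2) : ℝ) := by
        rw [← hℓ' h]; have := (hd0 h).ne'; field_simp
      rw [h3]
      exact mul_le_mul_of_nonneg_right h2 (Nat.cast_nonneg _)
    refine le_trans ?_ (Finset.sum_le_sum fun h _ => h1 h)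
    rw [← Finset.mul_sum]
    nlinarith
  have hlow := coeff_le_wn isNrm_abs (auxW_nonneg b α)
    (map (Int.castRingHom ℝ) (Phi b d R r ψ₀ c y)) τ
  have hkey : (b : ℝ) ^ (-((m : ℝ) * T / 24)) ≤
      (1792 * C₀ ^ 2) ^ D * (b : ℝ) ^ (-((m : ℝ) * T / 8)) := by
    refine hmw.trans (le_trans ?_ (hlow.trans hup))
    exact le_mul_of_one_le_left (mw_nonneg (auxW_nonneg b α) τ) hcoef
  have hlog := Real.log_le_log (by positivity) hkey
  rw [Real.log_mul (by positivity) (by positivity), Real.log_pow, Real.log_rpow hb0,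
    Real.log_rpow hb0] at hlog
  have hsum : (D : ℝ) * Real.log (1792 * C₀ ^ 2) < m * (T * Real.log 2 / 12) := by
    have : Nonempty (Fin m) := ⟨⟨0, hm⟩⟩
    have h1 : ∑ h, (d h : ℝ) * Real.log (1792 * C₀ ^ 2) <
        ∑ _h : Fin m, (T : ℝ) * Real.log 2 / 12 := by
      refine Finset.sum_lt_sum_of_nonempty Finset.univ_nonempty fun h _ => ?_
      have h2 := mul_lt_mul_of_pos_left (hℓC h) (hd0 h)
      rw [← hℓ' h]
      linarith
    rw [← Finset.sum_mul] at h1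
    simpa [hD] using h1
  have hl2 : Real.log 2 ≤ Real.log b := Real.log_le_log (by norm_num) hb2
  have hm0 : (0 : ℝ) ≤ (m : ℝ) * T := by positivity
  nlinarith [mul_le_mul_of_nonneg_left hl2 hm0]

end Pool.Agent.P.MP_c8ecb2_nt.RP
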