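import Mathlib
import Pool.Agent.P.MP_c8ecb2_nt.RP.Defs

set_option autoImplicit false

namespace Pool.Agent.P.MP_c8ecb2_nt.RP

open MvPolynomial

open Filter

namespace Changes

/-- the changes inside the dyadic interval of scale `s` -/
def ch (a : ℕ → ℤ) (q s : ℕ) : Finset ℕ :=
  (Finset.Ico (2 ^ s) (2 ^ (s + 1))).filter fun i => a (i + q) ≠ a i

theorem twice_of_few (a : ℕ → ℤ) (q u s : ℕ) (hq : 1 ≤ q) (hus : u ≤ s) (hqs : q ≤ 2 ^ s)
    (h : (ch a q s).card < 2 ^ u) : Twice a (2 ^ (u + 2)) (s - u) := by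
  obtain ⟨v, rfl⟩ := Nat.exists_eq_add_of_le hus
  rw [Nat.add_sub_cancel_left]
  by_contra hn
  have hv : 0 < 2 ^ v := Nat.two_pow_pos v
  have key : ∀ k < 2 ^ u, ∃ t < 2 ^ v,
      a (2 ^ (u + v) + k * 2 ^ v + t + q) ≠ a (2 ^ (u + v) + k * 2 ^ v + t) := by
    intro k hk
    by_contra hc
    push Not at hc
    apply hn
    have h1 : (k + 1) * 2 ^ v ≤ 2 ^ u * 2 ^ v := Nat.mul_le_mul_right _ hk
    have h2 : 2 ^ (u + v) = 2 ^ u * 2 ^ v := pow_add 2 u v
    have h3 : 2 ^ (u + 2) * 2 ^ v = 4 * (2 ^ u * 2 ^ v) := by ring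
    refine ⟨2 ^ (u + v) + k * 2 ^ v, 2 ^ (u + v) + k * 2 ^ v + q, ?_, by omega, ?_, ?_⟩
    · have := Nat.two_pow_pos (u + v)
      omega
    · rw [h3]
      rw [add_mul, one_mul] at h1
      omega
    · intro t ht
      rw [← hc t ht]
      congr 1
      ring
  have hsub : Finset.range (2 ^ u) ⊆
      (ch a q (u + v)).image fun i => (i - 2 ^ (u + v)) / 2 ^ v := by
    intro k hk
    rw [Finset.mem_range] at hk
    obtain ⟨t, ht, hne⟩ := key k hk
    have h1 : (k + 1) * 2 ^ v ≤ 2 ^ u * 2 ^ v := Nat.mul_le_mul_right _ hk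
    have h2 : 2 ^ (u + v) = 2 ^ u * 2 ^ v := pow_add 2 u v
    have h3 : 2 ^ (u + v + 1) = 2 * 2 ^ (u + v) := by ring
    rw [add_mul, one_mul] at h1
    refine Finset.mem_image.mpr ⟨2 ^ (u + v) + k * 2 ^ v + t, ?_, ?_⟩
    · refine Finset.mem_filter.mpr ⟨Finset.mem_Ico.mpr ⟨by omega, by omega⟩, hne⟩
    · have : 2 ^ (u + v) + k * 2 ^ v + t - 2 ^ (u + v) = t + k * 2 ^ v := by omega
      rw [this, Nat.add_mul_div_right _ _ hv, Nat.div_eq_of_lt ht, zero_add]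
  have := (Finset.card_le_card hsub).trans Finset.card_image_le
  rw [Finset.card_range] at this
  omega

theorem sum_ch_le (a : ℕ → ℤ) (q N L : ℕ) (hL : 2 ^ L ≤ N) (S : Finset ℕ)
    (hS : ∀ s ∈ S, s < L) :
    ∑ s ∈ S, (ch a q s).card ≤ ((Finset.Icc 1 N).filter fun i => a (i + q) ≠ a i).card := by
  rw [← Finset.card_biUnion]
  · apply Finset.card_le_card
    intro i hi
    obtain ⟨s, hs, his⟩ := Finset.mem_biUnion.mp hi
    obtain ⟨h1, h2⟩ := Finset.mem_filter.mp his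
    rw [Finset.mem_Ico] at h1
    have h3 : 2 ^ (s + 1) ≤ 2 ^ L := Nat.pow_le_pow_right two_pos (hS s hs)
    have h4 := Nat.two_pow_pos s
    exact Finset.mem_filter.mpr ⟨Finset.mem_Icc.mpr ⟨by omega, by omega⟩, h2⟩
  · have aux : ∀ s s' : ℕ, s < s' → Disjoint (ch a q s) (ch a q s') := by
      intro s s' hss
      rw [Finset.disjoint_left]
      intro i hi hi'
      have h1 := Finset.mem_Ico.mp (Finset.mem_filter.mp hi).1
      have h2 := Finset.mem_Ico.mp (Finset.mem_filter.mp hi').1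
      have h3 : 2 ^ (s + 1) ≤ 2 ^ s' := Nat.pow_le_pow_right two_pos hss
      omega
    intro s _ s' _ hne
    rcases lt_or_gt_of_ne hne with h | h
    · exact aux s s' h
    · exact (aux s' s h).symm

theorem exists_scale (D L : ℕ) (hD : 1 ≤ D) (hL : 32 * D ≤ L) :
    ∃ u : ℕ, 16 * D * 2 ^ u * (u + 2) ≤ L ∧ L < 16 * D * 2 ^ (u + 1) * (u + 3) := by
  have hex : ∃ u : ℕ, L < 16 * D * 2 ^ u * (u + 2) := by
    refine ⟨L, ?_⟩
    have h1 : 1 ≤ 16 * D * 2 ^ L := Nat.mul_pos (by omega) (Nat.two_pow_pos L)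
    calc L < 1 * (L + 2) := by omega
      _ ≤ _ := Nat.mul_le_mul_right _ h1
  classical
  have h0 : Nat.find hex ≠ 0 := by
    intro h
    have := Nat.find_spec hex
    rw [h] at this
    omega
  obtain ⟨u, hu⟩ := Nat.exists_eq_succ_of_ne_zero h0
  refine ⟨u, not_lt.mp (Nat.find_min hex (by omega)), ?_⟩
  have := Nat.find_spec hex
  rw [hu] at this
  exact this

theorem total_ge (a : ℕ → ℤ) (D : ℕ)
    (hD : ∀ u : ℕ, ∀ s : Finset ℕ, (∀ j ∈ s, Twice a (2 ^ (u + 2)) j) →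
      s.card ≤ D * 2 ^ (u + 2) * (u + 2)) (q : ℕ) (hq : 1 ≤ q) (N L u : ℕ) (hL : 2 ^ L ≤ N)
    (hD1 : 1 ≤ D) (hu : 16 * D * 2 ^ u * (u + 2) ≤ L) (hqL : 4 * q ≤ L) :
    2 ^ u * L ≤ 2 * ((Finset.Icc 1 N).filter fun i => a (i + q) ≠ a i).card := by
  classical
  set s0 := max u q with hs0
  set bad := (Finset.Ico s0 L).filter fun s => (ch a q s).card < 2 ^ u with hbad
  set good := (Finset.Ico s0 L).filter fun s => ¬ (ch a q s).card < 2 ^ u with hgood
  have hcard : bad.card + good.card = L - s0 := by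
    rw [hbad, hgood, Finset.card_filter_add_card_filter_not, Nat.card_Ico]
  have hb : bad.card ≤ D * 2 ^ (u + 2) * (u + 2) := by
    have hinj : Set.InjOn (fun s => s - u) (bad : Set ℕ) := by
      intro s hs s' hs' h
      have h1 := (Finset.mem_Ico.mp (Finset.mem_filter.mp hs).1).1
      have h2 := (Finset.mem_Ico.mp (Finset.mem_filter.mp hs').1).1
      have h3 : u ≤ s0 := le_max_left _ _
      simp only at h
      omega
    rw [← Finset.card_image_of_injOn hinj]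
    apply hD
    intro j hj
    obtain ⟨s, hs, rfl⟩ := Finset.mem_image.mp hj
    obtain ⟨h1, h2⟩ := Finset.mem_filter.mp hs
    have h3 := (Finset.mem_Ico.mp h1).1
    refine twice_of_few a q u s hq ((le_max_left _ _).trans h3) ?_ h2
    exact (((le_max_right _ _).trans h3).trans Nat.lt_two_pow_self.le)
  have hb' : 4 * bad.card ≤ L := by
    have : 4 * (D * 2 ^ (u + 2) * (u + 2)) = 16 * D * 2 ^ u * (u + 2) := by ring
    omega
  have hu' : 4 * u ≤ L := by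
    have h1 : 4 ≤ 16 * D * 2 ^ u := by
      have := Nat.two_pow_pos u
      nlinarith
    calc 4 * u ≤ 4 * (u + 2) := by omega
      _ ≤ 16 * D * 2 ^ u * (u + 2) := Nat.mul_le_mul_right _ h1
      _ ≤ L := hu
  have hs0' : 4 * s0 ≤ L := by
    rcases le_total u q with h | h
    · rw [hs0, max_eq_right h]; exact hqL
    · rw [hs0, max_eq_left h]; exact hu'
  have hg : L ≤ 2 * good.card := by omega
  have h1 := sum_ch_le a q N L hL good fun s hs =>
    (Finset.mem_Ico.mp (Finset.mem_filter.mp hs).1).2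
  have h2 : good.card * 2 ^ u ≤ ∑ s ∈ good, (ch a q s).card := by
    rw [← smul_eq_mul]
    exact Finset.card_nsmul_le_sum _ _ _ fun s hs => not_lt.mp (Finset.mem_filter.mp hs).2
  calc 2 ^ u * L ≤ 2 ^ u * (2 * good.card) := Nat.mul_le_mul_left _ hg
    _ = 2 * (good.card * 2 ^ u) := by ring
    _ ≤ _ := Nat.mul_le_mul_left _ (h2.trans h1)

end Changes

open Changes

theorem changes_of_count (a : ℕ → ℤ) (C : ℝ)
    (hC : ∀ K : ℕ, 2 ≤ K → ∀ s : Finset ℕ, (∀ j ∈ s, Twice a K j) →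
      (s.card : ℝ) ≤ C * K * Real.log K) (q : ℕ) (hq : 1 ≤ q) :
    ∃ c : ℝ, 0 < c ∧ ∀ᶠ N : ℕ in atTop, c * Real.log N ^ 2 / Real.log (Real.log N) ≤
      (((Finset.Icc 1 N).filter fun i => a (i + q) ≠ a i).card : ℝ) := by
  set D : ℕ := ⌈C⌉₊ + 1 with hDdef
  have hD1 : 1 ≤ D := by omega
  have hCD : C ≤ D := by
    have := Nat.le_ceil C
    rw [hDdef]
    push_cast
    linarith
  have hl1 : Real.log 2 < 0.6931471808 := Real.log_two_lt_d9
  have hl2 : 0.6931471803 < Real.log 2 := Real.log_two_gt_d9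
  have hD : ∀ u : ℕ, ∀ s : Finset ℕ, (∀ j ∈ s, Twice a (2 ^ (u + 2)) j) →
      s.card ≤ D * 2 ^ (u + 2) * (u + 2) := by
    intro u s hs
    have h2 : 2 ≤ 2 ^ (u + 2) := by
      calc 2 = 2 ^ 1 := rfl
        _ ≤ 2 ^ (u + 2) := Nat.pow_le_pow_right two_pos (by omega)
    have h := hC _ h2 s hs
    have h3 : Real.log ((2 ^ (u + 2) : ℕ) : ℝ) = ((u + 2 : ℕ) : ℝ) * Real.log 2 := by
      rw [Nat.cast_pow, Real.log_pow]
      norm_num
    rw [h3] at h
    have h4 : (0 : ℝ) ≤ ((2 ^ (u + 2) : ℕ) : ℝ) := Nat.cast_nonneg _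
    have h5 : (0 : ℝ) ≤ ((u + 2 : ℕ) : ℝ) := Nat.cast_nonneg _
    have h6 : (0 : ℝ) ≤ D := Nat.cast_nonneg _
    have : (s.card : ℝ) ≤ (D : ℝ) * ((2 ^ (u + 2) : ℕ) : ℝ) * ((u + 2 : ℕ) : ℝ) := by
      calc (s.card : ℝ) ≤ _ := h
        _ ≤ (D : ℝ) * ((2 ^ (u + 2) : ℕ) : ℝ) * (((u + 2 : ℕ) : ℝ) * Real.log 2) :=
          mul_le_mul_of_nonneg_right (mul_le_mul_of_nonneg_right hCD h4)
            (mul_nonneg h5 (by linarith))
        _ ≤ _ := mul_le_mul_of_nonneg_left (mul_le_of_le_one_right h5 (by linarith))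
            (mul_nonneg h6 h4)
    exact_mod_cast this
  have hDpos : (0 : ℝ) < D := by exact_mod_cast hD1
  refine ⟨1 / (128 * D), by positivity, ?_⟩
  filter_upwards [eventually_ge_atTop (2 ^ (32 * D + 4 * q))] with N hN
  have hN0 : N ≠ 0 := by
    have := Nat.two_pow_pos (32 * D + 4 * q)
    omega
  set L := Nat.log 2 N with hLdef
  have hL : 2 ^ L ≤ N := Nat.pow_log_le_self 2 hN0
  have hL' : N < 2 ^ (L + 1) := Nat.lt_pow_succ_log_self one_lt_two N
  have hLge : 32 * D + 4 * q ≤ L := Nat.le_log_of_pow_le one_lt_two hN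
  obtain ⟨u, hu1, hu2⟩ := exists_scale D L hD1 (by omega)
  have hT := total_ge a D hD q hq N L u hL hD1 hu1 (by omega)
  set T := ((Finset.Icc 1 N).filter fun i => a (i + q) ≠ a i).card with hTdef
  have hL32 : (32 : ℝ) ≤ L := by exact_mod_cast (by omega : 32 ≤ L)
  have hNpos : (0 : ℝ) < N := by exact_mod_cast Nat.pos_of_ne_zero hN0
  have hlogN1 : Real.log N ≤ L := by
    have h1 : (N : ℝ) ≤ 2 ^ (L + 1) := by exact_mod_cast hL'.le
    have h2 := Real.log_le_log hNpos h1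
    rw [Real.log_pow] at h2
    push_cast at h2
    nlinarith
  have hlogN2 : (L : ℝ) / 2 ≤ Real.log N := by
    have h1 : (2 : ℝ) ^ L ≤ N := by exact_mod_cast hL
    have h2 := Real.log_le_log (by positivity) h1
    rw [Real.log_pow] at h2
    nlinarith
  have h2u : (2 : ℝ) ^ (u + 4) ≤ Real.log N := by
    have h1 : 2 * 2 ^ (u + 4) ≤ L := by
      calc 2 * 2 ^ (u + 4) = 16 * 1 * 2 ^ u * (0 + 2) := by ring
        _ ≤ 16 * D * 2 ^ u * (u + 2) := by gcongr; omega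
        _ ≤ L := hu1
    have h2 : (2 : ℝ) * 2 ^ (u + 4) ≤ L := by exact_mod_cast h1
    linarith
  have hll : ((u : ℝ) + 3) / 2 ≤ Real.log (Real.log N) := by
    have h2 := Real.log_le_log (by positivity) h2u
    rw [Real.log_pow] at h2
    push_cast at h2
    have : (0 : ℝ) ≤ u := Nat.cast_nonneg _
    nlinarith
  have hu0 : (0 : ℝ) ≤ u := Nat.cast_nonneg _
  have hllpos : 0 < Real.log (Real.log N) := by linarith
  have hT' : (2 : ℝ) ^ u * L ≤ 2 * T := by exact_mod_cast hT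
  have hu2' : (L : ℝ) ≤ 16 * D * 2 ^ (u + 1) * (u + 3) := by exact_mod_cast hu2.le
  rw [div_le_iff₀ hllpos, one_div]
  have hT0 : (0 : ℝ) ≤ T := Nat.cast_nonneg _
  have e1 : Real.log N ^ 2 ≤ (L : ℝ) ^ 2 := pow_le_pow_left₀ (by linarith) hlogN1 2
  have e2 : (L : ℝ) * L ≤ (16 * D * 2 ^ (u + 1) * (u + 3)) * L :=
    mul_le_mul_of_nonneg_right hu2' (by linarith)
  have e3 : (32 : ℝ) * D * (u + 3) * (2 ^ u * L) ≤ 32 * D * (u + 3) * (2 * T) :=
    mul_le_mul_of_nonneg_left hT' (by positivity)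
  have e4 : (128 : ℝ) * D * (T * ((u + 3) / 2)) ≤ 128 * D * (T * Real.log (Real.log N)) :=
    mul_le_mul_of_nonneg_left (mul_le_mul_of_nonneg_left hll hT0) (by positivity)
  have e5 : (16 : ℝ) * D * 2 ^ (u + 1) * (u + 3) * L = 32 * D * (u + 3) * (2 ^ u * L) := by ring
  rw [mul_comm (128 * (D : ℝ))⁻¹, ← div_eq_mul_inv, div_le_iff₀ (by positivity)]
  nlinarith

end Pool.Agent.P.MP_c8ecb2_nt.RP
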