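import Mathlib
import Pool.Agent.P.MP_c8ecb2_nt.RP.Defs

set_option autoImplicit false

namespace Pool.Agent.P.MP_c8ecb2_nt.RP

open MvPolynomial

open Filter

theorem twice_of_ncard_lt (a : ℕ → ℤ) (hfin : (Set.range a).Finite) (K j : ℕ)
    (h : Set.ncard {w : Fin (2 ^ j) → ℤ | ∃ i : ℕ, 1 ≤ i ∧ ∀ t : Fin (2 ^ j), w t = a (i + t)} <
      K * 2 ^ j) : Twice a K j := by
  have hW : {w : Fin (2 ^ j) → ℤ | ∃ i : ℕ, 1 ≤ i ∧ ∀ t : Fin (2 ^ j), w t = a (i + t)}.Finite := by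
    refine (Set.Finite.pi' (t := fun _ : Fin (2 ^ j) => Set.range a) fun _ => hfin).subset ?_
    rintro w ⟨i, -, hw⟩ t
    exact ⟨_, (hw t).symm⟩
  rw [Set.ncard_eq_toFinset_card _ hW] at h
  obtain ⟨i, hi, i', hi', hne, he⟩ := Finset.exists_ne_map_eq_of_card_lt_of_maps_to
    (s := Finset.Icc 1 (K * 2 ^ j)) (t := hW.toFinset) (by simpa using h)
    (f := fun i => fun t : Fin (2 ^ j) => a (i + t)) fun i hi => by
      simp only [Finset.coe_Icc, Set.mem_Icc] at hi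
      simp only [Set.Finite.coe_toFinset, Set.mem_ofPred_eq]
      exact ⟨i, hi.1, fun _ => rfl⟩
  rw [Finset.mem_Icc] at hi hi'
  rcases lt_or_gt_of_ne hne with hlt | hlt
  · exact ⟨i, i', hi.1, hlt, hi'.2, fun t ht => congrFun he ⟨t, ht⟩⟩
  · exact ⟨i', i, hi'.1, hlt, hi.2, fun t ht => (congrFun he ⟨t, ht⟩).symm⟩

theorem complexity_of_count (a : ℕ → ℤ) (hfin : (Set.range a).Finite) (C : ℝ)
    (hC : ∀ K : ℕ, 2 ≤ K → ∀ s : Finset ℕ, (∀ j ∈ s, Twice a K j) →
      (s.card : ℝ) ≤ C * K * Real.log K) :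
    ∃ c : ℝ, 0 < c ∧ ∃ᶠ n : ℕ in atTop, c * n * Real.log n / Real.log (Real.log n) ≤
      (Set.ncard {w : Fin n → ℤ | ∃ i : ℕ, 1 ≤ i ∧ ∀ t : Fin n, w t = a (i + t)} : ℝ) := by
  have hl2 : (1 / 2 : ℝ) < Real.log 2 := by
    have := Real.log_two_gt_d9
    linarith
  have hl2' : Real.log 2 < 1 := by
    have := Real.log_two_lt_d9
    linarith
  have hC0 : 0 ≤ C := by
    have h := hC 2 le_rfl ∅ (by simp)
    simp only [Finset.card_empty, Nat.cast_zero, Nat.cast_ofNat] at h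
    by_contra hneg
    have : C * 2 * Real.log 2 < 0 :=
      mul_neg_of_neg_of_pos (by linarith [not_le.1 hneg]) (by linarith)
    linarith
  obtain ⟨c, hc⟩ : ∃ c : ℝ, c = 1 / (16 * (C + 1)) := ⟨_, rfl⟩
  have hc0 : 0 < c := by rw [hc]; positivity
  have hc1 : c * (16 * (C + 1)) = 1 := by rw [hc]; field_simp
  refine ⟨c, hc0, ?_⟩
  by_contra hcon
  rw [not_frequently, eventually_atTop] at hcon
  obtain ⟨n₀, hn₀⟩ := hcon
  have hlog : ∀ᶠ M : ℕ in atTop, ‖Real.log M‖ ≤ c * ‖id (M : ℝ)‖ :=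
    tendsto_natCast_atTop_atTop.eventually (Real.isLittleO_log_id_atTop.bound hc0)
  obtain ⟨M, hM1, hM2, hM3⟩ := (hlog.and ((eventually_ge_atTop n₀).and
    (eventually_ge_atTop 4))).exists
  have hM4 : (4 : ℝ) ≤ M := by exact_mod_cast hM3
  have hlM : 2 * Real.log 2 ≤ Real.log M := by
    have h := Real.log_le_log (by norm_num) hM4
    rw [show (4 : ℝ) = 2 ^ 2 by norm_num, Real.log_pow] at h
    exact_mod_cast h
  have hlM1 : 1 ≤ Real.log M := by linarith
  rw [Real.norm_of_nonneg (by linarith), id, Real.norm_of_nonneg (by linarith)] at hM1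
  obtain ⟨x, hx⟩ : ∃ x : ℝ, x = 4 * c * M / Real.log M := ⟨_, rfl⟩
  have hx0 : 0 ≤ x := by rw [hx]; positivity
  have hx1 : x * Real.log M = 4 * c * M := by rw [hx]; field_simp
  have hK1 : x ≤ ((⌈x⌉₊ + 2 : ℕ) : ℝ) := by
    have := Nat.le_ceil x
    push_cast
    linarith
  have hK2 : ((⌈x⌉₊ + 2 : ℕ) : ℝ) ≤ x + 3 := by
    have := Nat.ceil_lt_add_one hx0
    push_cast
    linarith
  have hK3 : 2 ≤ ⌈x⌉₊ + 2 := by omega
  generalize ⌈x⌉₊ + 2 = K at hK1 hK2 hK3
  have hcM : 16 * (c * M) ≤ M := by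
    have h1 : 16 * c ≤ 1 := by nlinarith
    nlinarith
  have hxM : x ≤ 4 * c * M := by nlinarith
  have hKM : (K : ℝ) ≤ M := by linarith
  have hK0 : (2 : ℝ) ≤ K := by exact_mod_cast hK3
  have hlK : Real.log K ≤ Real.log M := Real.log_le_log (by linarith) hKM
  have hcard := hC K hK3 (Finset.Icc (M + 1) (2 * M)) fun j hj => by
    rw [Finset.mem_Icc] at hj
    refine twice_of_ncard_lt a hfin K j ?_
    have h1 := not_le.1 (hn₀ (2 ^ j) (by have := j.lt_two_pow_self; omega))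
    have hj1 : (M : ℝ) ≤ j := by exact_mod_cast (show M ≤ j by omega)
    have hj2 : (j : ℝ) ≤ 2 * M := by exact_mod_cast hj.2
    have h2 : Real.log ((2 ^ j : ℕ) : ℝ) = j * Real.log 2 := by
      push_cast
      rw [Real.log_pow]
    have h3 : Real.log M / 2 ≤ Real.log (j * Real.log 2) := by
      have h4 : (M : ℝ) / 2 ≤ j * Real.log 2 := by nlinarith
      have h5 := Real.log_le_log (by linarith) h4
      rw [Real.log_div (by linarith) (by norm_num)] at h5
      linarith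
    have h6 : c * ((2 ^ j : ℕ) : ℝ) * (j * Real.log 2) / Real.log (j * Real.log 2) ≤
        x * ((2 ^ j : ℕ) : ℝ) := by
      rw [div_le_iff₀ (by linarith)]
      have h7 : (0 : ℝ) ≤ ((2 ^ j : ℕ) : ℝ) := by positivity
      have h8 : j * Real.log 2 ≤ 2 * M := by nlinarith
      have h9 : c * (j * Real.log 2) ≤ x * Real.log (j * Real.log 2) := by
        have := mul_le_mul_of_nonneg_left h3 hx0
        have := mul_le_mul_of_nonneg_left h8 hc0.le
        linarith
      have := mul_le_mul_of_nonneg_left h9 h7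
      linarith
    rw [h2] at h1
    have h10 : x * ((2 ^ j : ℕ) : ℝ) ≤ K * ((2 ^ j : ℕ) : ℝ) :=
      mul_le_mul_of_nonneg_right hK1 (by positivity)
    exact_mod_cast (h1.trans_le h6).trans_le h10
  rw [Nat.card_Icc, show 2 * M + 1 - (M + 1) = M by omega] at hcard
  have h11 : C * K * Real.log K ≤ C * ((x + 3) * Real.log M) := by
    rw [mul_assoc]
    refine mul_le_mul_of_nonneg_left ?_ hC0
    exact mul_le_mul hK2 hlK (Real.log_nonneg (by linarith)) (by linarith)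
  have h12 : (x + 3) * Real.log M ≤ 7 * (c * M) := by nlinarith
  have h13 := mul_le_mul_of_nonneg_left h12 hC0
  have h14 : 16 * (C * (c * M)) ≤ M := by
    have h1 : 16 * (C * c) ≤ 1 := by nlinarith
    nlinarith
  linarith

end Pool.Agent.P.MP_c8ecb2_nt.RP
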