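import Mathlib
import Pool.Agent.P.MP_c8ecb2_nt.RP.Defs

set_option autoImplicit false

namespace Pool.Agent.P.MP_c8ecb2_nt.RP

open MvPolynomial

namespace Count

theorem emb_gap {n : ℕ} (e : Fin n ↪o ℕ) (t : ℕ) :
    ∀ (a : ℕ) (h : a + t < n), e ⟨a, by omega⟩ + t ≤ e ⟨a + t, h⟩ := by
  induction t with
  | zero => intro a h; simp
  | succ t ih =>
    intro a h
    have h1 := ih a (by omega)
    have h2 : e ⟨a + t, by omega⟩ < e ⟨a + (t + 1), h⟩ := e.strictMono (by simp)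
    omega

theorem half_le_log {K : ℕ} (hK : 2 ≤ K) : 1 / 2 ≤ Real.log K := by
  have h1 : Real.log 2 ≤ Real.log K := Real.log_le_log (by norm_num) (by exact_mod_cast hK)
  linarith [Real.log_two_gt_d9]

theorem dig_step (b : ℕ) (hb : 2 ≤ b) (α : ℝ) (i : ℕ) :
    Int.fract (α * (b : ℝ) ^ i) * b = dig b α (i + 1) + Int.fract (α * (b : ℝ) ^ (i + 1)) := by
  have hb0 : (0 : ℝ) < b := by exact_mod_cast (by omega : 0 < b)
  set x := α * (b : ℝ) ^ i with hx
  have e1 : α * (b : ℝ) ^ (i + 1) = x * b := by rw [hx]; ring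
  have a1 := Int.floor_le x
  have a2 := Int.lt_floor_add_one x
  have h1 : ⌊x⌋ * (b : ℤ) ≤ ⌊x * b⌋ := by
    rw [Int.le_floor]; push_cast; nlinarith
  have h2 : ⌊x * b⌋ < (⌊x⌋ + 1) * (b : ℤ) := by
    rw [Int.floor_lt]; push_cast; nlinarith
  have h3 : ⌊x * b⌋ % (b : ℤ) = ⌊x * b⌋ - ⌊x⌋ * b := by
    have h4 : ⌊x * b⌋ = (⌊x * b⌋ - ⌊x⌋ * b) + ⌊x⌋ * b := by ring
    rw [h4, Int.add_mul_emod_self_right, Int.emod_eq_of_lt (by linarith) (by linarith)]
    ring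
  rw [dig, e1, h3, Int.fract, Int.fract]
  push_cast; ring

theorem fract_close (b : ℕ) (hb : 2 ≤ b) (α : ℝ) (r R n : ℕ)
    (h : ∀ t < n, dig b α (r + 1 + t) = dig b α (R + 1 + t)) :
    |Int.fract (α * (b : ℝ) ^ R) - Int.fract (α * (b : ℝ) ^ r)| * (b : ℝ) ^ n ≤ 1 := by
  have key : ∀ t ≤ n, (Int.fract (α * (b : ℝ) ^ R) - Int.fract (α * (b : ℝ) ^ r)) * (b : ℝ) ^ t =
      Int.fract (α * (b : ℝ) ^ (R + t)) - Int.fract (α * (b : ℝ) ^ (r + t)) := by
    intro t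
    induction t with
    | zero => intro _; simp
    | succ t ih =>
      intro ht
      have h1 := dig_step b hb α (R + t)
      have h2 := dig_step b hb α (r + t)
      have h3 := h t (by omega)
      rw [show r + 1 + t = r + t + 1 by ring, show R + 1 + t = R + t + 1 by ring] at h3
      rw [pow_succ, ← mul_assoc, ih (by omega), sub_mul, h1, h2, h3, ← add_assoc R, ← add_assoc r]
      ring
  rw [← abs_of_nonneg (show (0 : ℝ) ≤ (b : ℝ) ^ n by positivity), ← abs_mul, key n le_rfl, abs_le]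
  have a1 := Int.fract_nonneg (α * (b : ℝ) ^ (R + n))
  have a2 := Int.fract_lt_one (α * (b : ℝ) ^ (R + n))
  have a3 := Int.fract_nonneg (α * (b : ℝ) ^ (r + n))
  have a4 := Int.fract_lt_one (α * (b : ℝ) ^ (r + n))
  constructor <;> linarith

theorem card_le_add (s : Finset ℕ) (j : ℕ) : s.card ≤ j + (s.filter (fun i => j ≤ i)).card := by
  have h1 := Finset.card_filter_add_card_filter_not (s := s) (fun i => j ≤ i)
  have h2 : (s.filter (fun i => ¬ j ≤ i)).card ≤ j := by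
    refine (Finset.card_le_card (t := Finset.range j) fun i hi => ?_).trans (by simp)
    exact Finset.mem_range.2 (not_le.1 (Finset.mem_filter.1 hi).2)
  omega

end Count

theorem count_of_core (Q : ℕ → ℕ → Prop) (C : ℕ) (hC : 1 ≤ C)
    (hcore : ∀ K g j₀ : ℕ, 1 ≤ K → 96 * (C * K) * (C * K + 1) + 1 ≤ 2 ^ g →
      C * (C * K) * (96 * (C * K) * (C * K + 1)) ^ (C * K) ≤ 2 ^ j₀ →
      ∀ j : Fin (C * K) → ℕ, (∀ h, j₀ ≤ j h) →
        (∀ h h' : Fin (C * K), h'.val = h.val + 1 → j h + g ≤ j h') → ¬ ∀ h, Q K (j h)) :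
    ∃ C' : ℝ, ∀ K : ℕ, 2 ≤ K → ∀ s : Finset ℕ, (∀ j ∈ s, Q K j) →
      (s.card : ℝ) ≤ C' * K * Real.log K := by
  set a : ℝ := Real.log (193 * (C : ℝ) ^ 2) with ha
  have hC1 : (1 : ℝ) ≤ C := by exact_mod_cast hC
  have ha0 : 0 ≤ a := Real.log_nonneg (by nlinarith)
  refine ⟨3 * C * (4 * a + 6), fun K hK s hs => ?_⟩
  set m := C * K with hm
  have hm1 : 1 ≤ m := Nat.mul_pos hC (by omega)
  have hCm : C ≤ m := Nat.le_mul_of_pos_right C (by omega)
  set g := Nat.clog 2 (96 * m * (m + 1) + 1) with hg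
  have hg1 : 96 * m * (m + 1) + 1 ≤ 2 ^ g := Nat.le_pow_clog (by norm_num) _
  have hA : 1 < 96 * m * (m + 1) + 1 := by nlinarith
  have hg0 : 0 < g := Nat.clog_pos (by norm_num) hA
  have hg2 : 2 ^ (g - 1) < 96 * m * (m + 1) + 1 := Nat.pow_pred_clog_lt_self (by norm_num) hA
  have hj : C * m * (96 * m * (m + 1)) ^ m ≤ 2 ^ (g * (m + 1)) := by
    rw [pow_mul 2 g (m + 1), pow_succ, mul_comm]
    refine Nat.mul_le_mul (Nat.pow_le_pow_left (by omega) m) ?_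
    nlinarith
  have hcard : (s.filter (fun i => g * (m + 1) ≤ i)).card < m * g := by
    by_contra hc
    push Not at hc
    set s' := s.filter (fun i => g * (m + 1) ≤ i) with hs'
    have hlt : ∀ h : Fin m, h.val * g < s'.card := fun h =>
      lt_of_lt_of_le (Nat.mul_lt_mul_of_pos_right h.2 hg0) hc
    have hmem : ∀ h : Fin m, s'.orderEmbOfFin rfl ⟨h.val * g, hlt h⟩ ∈ s' := fun h =>
      Finset.orderEmbOfFin_mem s' rfl _
    refine hcore K g (g * (m + 1)) (by omega) hg1 hj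
      (fun h => s'.orderEmbOfFin rfl ⟨h.val * g, hlt h⟩)
      (fun h => (Finset.mem_filter.1 (hmem h)).2) (fun h h' hh => ?_)
      (fun h => hs _ (Finset.mem_filter.1 (hmem h)).1)
    have e : h'.val * g = h.val * g + g := by rw [hh]; ring
    have := Count.emb_gap (s'.orderEmbOfFin rfl) g (h.val * g) (e ▸ hlt h')
    simp only [e]
    exact this
  have h1 := Count.card_le_add s (g * (m + 1))
  have h2 : s.card ≤ 3 * m * g := by nlinarith
  have hL := Count.half_le_log hK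
  have hK0 : (0 : ℝ) < K := by exact_mod_cast (by omega : 0 < K)
  have h3 : (g : ℝ) ≤ (4 * a + 6) * Real.log K := by
    have b1 : (2 : ℝ) ^ (g - 1) ≤ 193 * (C : ℝ) ^ 2 * (K : ℝ) ^ 2 := by
      have : 2 ^ (g - 1) ≤ 193 * C ^ 2 * K ^ 2 := by
        have : 193 * C ^ 2 * K ^ 2 = 193 * m ^ 2 := by rw [hm]; ring
        rw [this]; nlinarith
      exact_mod_cast this
    have b2 := Real.log_le_log (by positivity) b1
    rw [Real.log_pow, Real.log_mul (by positivity) (by positivity), Real.log_pow, ← ha,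
      Nat.cast_sub hg0] at b2
    push_cast at b2
    have b3 : (1 : ℝ) ≤ g := by exact_mod_cast hg0
    have b4 : ((g : ℝ) - 1) * (1 / 2) ≤ ((g : ℝ) - 1) * Real.log 2 :=
      mul_le_mul_of_nonneg_left (by linarith [Real.log_two_gt_d9]) (by linarith)
    nlinarith
  have h4 : (s.card : ℝ) ≤ 3 * (C * K) * g := by exact_mod_cast h2
  have h5 := mul_le_mul_of_nonneg_left h3 (show (0 : ℝ) ≤ 3 * (C * K) by positivity)
  nlinarith

theorem twice_count (b : ℕ) (hb : 2 ≤ b) (α : ℝ) (halg : IsAlgebraic ℚ α) (hirr : Irrational α)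
    (hrep : ∀ ξ : ℝ, IsIntegral ℤ ξ → Irrational ξ → ∃ C' : ℝ, ∀ K : ℕ, 2 ≤ K →
      ∀ s : Finset ℕ, (∀ j ∈ s, Rep ξ b K j) → (s.card : ℝ) ≤ C' * K * Real.log K) :
    ∃ C : ℝ, ∀ K : ℕ, 2 ≤ K → ∀ s : Finset ℕ, (∀ j ∈ s, Twice (dig b α) K j) →
      (s.card : ℝ) ≤ C * K * Real.log K := by
  obtain ⟨a₀, ha0, hint⟩ := ((IsFractionRing.isAlgebraic_iff ℤ ℚ ℝ).2 halg).exists_integral_multiple
  rw [zsmul_eq_mul] at hint
  obtain ⟨C', hC'⟩ := hrep _ hint (hirr.intCast_mul ha0)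
  have hC0 : 0 ≤ C' := by
    have h1 := hC' 2 le_rfl ∅ (by simp)
    have h2 := Count.half_le_log (le_refl 2)
    simp only [Finset.card_empty, Nat.cast_zero] at h1
    by_contra hc
    push Not at hc
    push_cast at h1 h2
    nlinarith
  refine ⟨(a₀.natAbs + 3 : ℕ) + 32 * C', fun K hK s hs => ?_⟩
  set s' := s.filter (fun i => a₀.natAbs + 3 ≤ i) with hs'
  have h1 := Count.card_le_add s (a₀.natAbs + 3)
  have h2 : (s'.image (fun j => j - 3)).card = s'.card := by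
    refine Finset.card_image_of_injOn fun x hx y hy hxy => ?_
    have a1 := (Finset.mem_filter.1 hx).2
    have a2 := (Finset.mem_filter.1 hy).2
    have a3 : x - 3 = y - 3 := hxy
    omega
  have h3 := hC' (8 * K) (by omega) (s'.image (fun j => j - 3)) (by
    intro w hw
    obtain ⟨j, hj, rfl⟩ := Finset.mem_image.1 hw
    obtain ⟨hj1, hj2⟩ := Finset.mem_filter.1 hj
    obtain ⟨i, i', hi, hii, hi', ht⟩ := hs j hj1
    obtain ⟨w, rfl⟩ : ∃ w, j = w + 3 := ⟨j - 3, by omega⟩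
    obtain ⟨r, rfl⟩ : ∃ r, i = r + 1 := ⟨i - 1, by omega⟩
    obtain ⟨R, rfl⟩ : ∃ R, i' = R + 1 := ⟨i' - 1, by omega⟩
    rw [Nat.add_sub_cancel]
    refine ⟨R, r, a₀ * (⌊α * (b : ℝ) ^ R⌋ - ⌊α * (b : ℝ) ^ r⌋), by omega, ?_, ?_⟩
    · have : K * 2 ^ (w + 3) = 8 * K * 2 ^ w := by ring
      omega
    · have b1 := Count.fract_close b hb α r R _ ht
      have b2 : (a₀ : ℝ) * α * (b : ℝ) ^ R - a₀ * α * (b : ℝ) ^ r -
          ((a₀ * (⌊α * (b : ℝ) ^ R⌋ - ⌊α * (b : ℝ) ^ r⌋) : ℤ) : ℝ) =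
          a₀ * (Int.fract (α * (b : ℝ) ^ R) - Int.fract (α * (b : ℝ) ^ r)) := by
        rw [Int.fract, Int.fract]; push_cast; ring
      have b3 : |(a₀ : ℝ)| ≤ (b : ℝ) ^ (4 * 2 ^ w) := by
        have c1 : a₀.natAbs ≤ b ^ (4 * 2 ^ w) := by
          have d1 : w < 2 ^ w := Nat.lt_two_pow_self
          have d2 : 4 * 2 ^ w < 2 ^ (4 * 2 ^ w) := Nat.lt_two_pow_self
          have d3 : 2 ^ (4 * 2 ^ w) ≤ b ^ (4 * 2 ^ w) := Nat.pow_le_pow_left hb _
          omega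
        have c2 : ((a₀.natAbs : ℕ) : ℝ) ≤ (b : ℝ) ^ (4 * 2 ^ w) := by exact_mod_cast c1
        rwa [Nat.cast_natAbs, Int.cast_abs] at c2
      rw [b2, abs_mul]
      rw [show 2 ^ (w + 3) = 4 * 2 ^ w + 4 * 2 ^ w by ring, pow_add] at b1
      have b4 := mul_le_mul_of_nonneg_right b3
        (show 0 ≤ |Int.fract (α * (b : ℝ) ^ R) - Int.fract (α * (b : ℝ) ^ r)| *
          (b : ℝ) ^ (4 * 2 ^ w) by positivity)
      nlinarith)
  rw [h2] at h3
  have hL := Count.half_le_log hK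
  have hK2 : (2 : ℝ) ≤ K := by exact_mod_cast hK
  have h4 : Real.log ((8 * K : ℕ) : ℝ) ≤ 4 * Real.log K := by
    have : ((8 * K : ℕ) : ℝ) ≤ (K : ℝ) ^ 4 := by
      push_cast
      have := pow_le_pow_left₀ (by norm_num) hK2 3
      nlinarith
    have h5 := Real.log_le_log (by positivity) this
    rw [Real.log_pow] at h5
    exact_mod_cast h5
  have h6 : C' * ((8 * K : ℕ) : ℝ) * Real.log ((8 * K : ℕ) : ℝ) ≤ 32 * C' * K * Real.log K := by
    have := mul_le_mul_of_nonneg_left h4 (show 0 ≤ C' * ((8 * K : ℕ) : ℝ) by positivity)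
    refine this.trans (le_of_eq ?_)
    push_cast; ring
  have h7 : (s.card : ℝ) ≤ ((a₀.natAbs + 3 : ℕ) : ℝ) + s'.card := by exact_mod_cast h1
  have h8 : (1 : ℝ) ≤ K * Real.log K := by nlinarith
  have h9 := mul_le_mul_of_nonneg_left h8 (show (0 : ℝ) ≤ ((a₀.natAbs + 3 : ℕ) : ℝ) by positivity)
  nlinarith

end Pool.Agent.P.MP_c8ecb2_nt.RP
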