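import Mathlib
import Pool.Agent.P.MP_c8ecb2_nt.RP.Defs

set_option autoImplicit false

namespace Pool.Agent.P.MP_c8ecb2_nt.RP

open MvPolynomial

private theorem liouville_bound (ξ : ℝ) (hirr : Irrational ξ) (halg : IsAlgebraic ℤ ξ) :
    ∃ (A : ℝ) (D : ℕ), 0 < A ∧ 1 ≤ D ∧ ∀ (a : ℤ) (v : ℕ), 1 ≤ v →
      (1 : ℝ) ≤ (v : ℝ) ^ D * (|ξ - a / v| * A) := by
  obtain ⟨f, f0, hf⟩ := halg
  have hf' : Polynomial.eval ξ (Polynomial.map (algebraMap ℤ ℝ) f) = 0 := by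
    rw [Polynomial.eval_map_algebraMap]; exact hf
  obtain ⟨A, hA, h⟩ := Liouville.exists_pos_real_of_irrational_root hirr f0 hf'
  refine ⟨A, f.natDegree + 1, hA, by omega, fun a v hv => ?_⟩
  obtain ⟨w, rfl⟩ : ∃ w, v = w + 1 := ⟨v - 1, by omega⟩
  have h1 := h a w
  have h2 : (1 : ℝ) ≤ (w : ℝ) + 1 := by have := Nat.cast_nonneg (α := ℝ) w; linarith
  push_cast
  refine h1.trans (mul_le_mul_of_nonneg_right (pow_le_pow_right₀ h2 (by omega)) ?_)
  positivity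

private theorem one_le_ht (β : ℚ) : 1 ≤ ht β := by
  unfold ht
  have : (1 : ℝ) ≤ (β.den : ℝ) := by exact_mod_cast β.den_pos
  exact this.trans (le_max_right _ _)

private theorem exists_bezout (p : ℤ) (q : ℕ) (hq : 0 < q) (h : IsCoprime p (q : ℤ)) :
    ∃ p' q' : ℤ, 0 ≤ q' ∧ q' ≤ q ∧ p * q' - p' * q = 1 := by
  obtain ⟨u, v, huv⟩ := h
  have hq' : (0 : ℤ) < q := by exact_mod_cast hq
  refine ⟨-(v + u / q * p), u % q, Int.emod_nonneg _ hq'.ne', (Int.emod_lt_of_pos _ hq').le, ?_⟩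
  have := Int.emod_add_mul_ediv u q
  linear_combination huv + p * this

/-- the height bound in the first case -/
private theorem height_one (ξ A N : ℝ) (D n : ℕ) (β : ℚ) (hξ : ξ ≠ 0) (hA : 0 < A) (hN : 1 ≤ N)
    (hn : 1 ≤ n)
    (hL : ∀ (a : ℤ) (v : ℕ), 1 ≤ v → (1 : ℝ) ≤ (v : ℝ) ^ D * (|ξ - a / v| * A))
    (h : |ξ * n + β| * N ^ 2 ≤ 1) : N ≤ A * (2 / |ξ|) ^ D * ht β ^ D := by
  have hv : 1 ≤ β.den := β.den_pos
  have hvR : (1 : ℝ) ≤ β.den := by exact_mod_cast hv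
  have hnR : (1 : ℝ) ≤ n := by exact_mod_cast hn
  have hβ : (β : ℝ) = (β.num : ℝ) / (β.den : ℝ) := by exact_mod_cast (Rat.num_div_den β).symm
  have h1 := hL (-β.num) (β.den * n) (Nat.mul_pos hv hn)
  have h2 : ξ - ((-β.num : ℤ) : ℝ) / ((β.den * n : ℕ) : ℝ) = (ξ * n + β) / n := by
    rw [hβ]; push_cast; field_simp; ring
  rw [h2, abs_div, abs_of_pos (by linarith : (0 : ℝ) < n)] at h1
  have hN2 : (1 : ℝ) ≤ N ^ 2 := one_le_pow₀ hN
  have h3 : |ξ * n + β| ≤ 1 := by nlinarith [abs_nonneg (ξ * n + β)]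
  have h4 : |ξ * n + β| / n * N ≤ 1 := by
    have h5 : |ξ * n + β| / n ≤ |ξ * n + β| := div_le_self (abs_nonneg _) hnR
    have h6 : N ≤ N ^ 2 := by nlinarith
    calc |ξ * n + β| / n * N ≤ |ξ * n + β| * N ^ 2 :=
          mul_le_mul h5 h6 (by linarith) (abs_nonneg _)
      _ ≤ 1 := h
  have hξ' : 0 < |ξ| := abs_pos.mpr hξ
  have h7 : ((β.den * n : ℕ) : ℝ) ≤ 2 / |ξ| * ht β := by
    have h8 : |ξ| * n ≤ |(β : ℝ)| + 1 := by
      have : |ξ * n| ≤ |ξ * n + β| + |(β : ℝ)| := by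
        have := abs_sub (ξ * n + β) (β : ℝ)
        simpa using this
      rw [abs_mul, abs_of_pos (by linarith : (0 : ℝ) < n)] at this
      linarith
    have h9 : |(β : ℝ)| * β.den = |(β.num : ℝ)| := by
      rw [hβ, abs_div, abs_of_pos (by linarith : (0 : ℝ) < β.den)]; field_simp
    have h10 : |(β.num : ℝ)| ≤ ht β := le_max_left _ _
    have h11 : (β.den : ℝ) ≤ ht β := le_max_right _ _
    rw [div_mul_eq_mul_div, le_div_iff₀ hξ']
    push_cast
    nlinarith [mul_le_mul_of_nonneg_right h8 (by linarith : (0 : ℝ) ≤ β.den)]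
  have h12 : ((β.den * n : ℕ) : ℝ) ^ D ≤ (2 / |ξ| * ht β) ^ D :=
    pow_le_pow_left₀ (Nat.cast_nonneg _) h7 D
  have h13 : (0 : ℝ) ≤ ((β.den * n : ℕ) : ℝ) ^ D := by positivity
  calc N = 1 * N := (one_mul _).symm
    _ ≤ ((β.den * n : ℕ) : ℝ) ^ D * (|ξ * n + β| / n * A) * N :=
        mul_le_mul_of_nonneg_right h1 (by linarith)
    _ = A * ((β.den * n : ℕ) : ℝ) ^ D * (|ξ * n + β| / n * N) := by ring
    _ ≤ A * ((β.den * n : ℕ) : ℝ) ^ D * 1 :=
        mul_le_mul_of_nonneg_left h4 (by positivity)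
    _ ≤ A * (2 / |ξ| * ht β) ^ D := by
        rw [mul_one]; exact mul_le_mul_of_nonneg_left h12 hA.le
    _ = A * (2 / |ξ|) ^ D * ht β ^ D := by rw [mul_pow]; ring

/-- the height bound in the second case -/
private theorem height_two (ξ A N : ℝ) (D : ℕ) (β : ℚ) (hA : 0 < A) (hN : 1 ≤ N)
    (hL : ∀ (a : ℤ) (v : ℕ), 1 ≤ v → (1 : ℝ) ≤ (v : ℝ) ^ D * (|ξ - a / v| * A))
    (h : |ξ - β| * N ≤ 1) : N ≤ A * ht β ^ D := by
  have hβ : (β : ℝ) = (β.num : ℝ) / (β.den : ℝ) := by exact_mod_cast (Rat.num_div_den β).symm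
  have h1 := hL β.num β.den β.den_pos
  rw [← hβ] at h1
  have h11 : (β.den : ℝ) ≤ ht β := le_max_right _ _
  have h12 : (β.den : ℝ) ^ D ≤ ht β ^ D := pow_le_pow_left₀ (Nat.cast_nonneg _) h11 D
  calc N = 1 * N := (one_mul _).symm
    _ ≤ (β.den : ℝ) ^ D * (|ξ - β| * A) * N := mul_le_mul_of_nonneg_right h1 (by linarith)
    _ = A * (β.den : ℝ) ^ D * (|ξ - β| * N) := by ring
    _ ≤ A * (β.den : ℝ) ^ D * 1 := mul_le_mul_of_nonneg_left h (by positivity)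
    _ ≤ A * ht β ^ D := by rw [mul_one]; exact mul_le_mul_of_nonneg_left h12 hA.le

/-- the block when the denominator is large -/
private theorem block_one (ξ : ℝ) (b ℓ R r : ℕ) (P p p' q q' : ℤ) (hb : 2 ≤ b)
    (hq1 : (b : ℝ) ^ ℓ ≤ q) (hq2 : (q : ℝ) ≤ (b : ℝ) ^ (2 * ℓ)) (hq'0 : 0 ≤ q') (hq' : q' ≤ q)
    (hdet : p * q' - p' * q = 1)
    (happ : |(p : ℝ) - ξ * (b : ℝ) ^ r * q| * (b : ℝ) ^ (2 * ℓ) ≤ 1)
    (hP : |ξ * (b : ℝ) ^ R - ξ * (b : ℝ) ^ r - P| * (b : ℝ) ^ (4 * ℓ) ≤ 1) :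
    Block ξ b ℓ R r ![![p + P * q, p, q], ![p' + P * q', p', q']]
      ![-Real.logb b q, -Real.logb b q, Real.logb b q] 1 (-(P : ℚ) / (b : ℚ) ^ r) := by
  have hb1 : (1 : ℝ) < b := by exact_mod_cast (by omega : 1 < b)
  have hb0 : (0 : ℝ) < b := by linarith
  have hbl : (1 : ℝ) ≤ (b : ℝ) ^ ℓ := one_le_pow₀ hb1.le
  have hq0 : (0 : ℝ) < q := by linarith
  have hlo : (ℓ : ℝ) ≤ Real.logb b q := by
    rw [Real.le_logb_iff_rpow_le hb1 hq0, Real.rpow_natCast]; exact hq1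
  have hhi : Real.logb b q ≤ 2 * ℓ := by
    rw [Real.logb_le_iff_le_rpow hb1 hq0]
    have : (2 * ℓ : ℝ) = ((2 * ℓ : ℕ) : ℝ) := by push_cast; ring
    rw [this, Real.rpow_natCast]; exact hq2
  have hl0 : (0 : ℝ) ≤ ℓ := Nat.cast_nonneg _
  have e1 : (b : ℝ) ^ Real.logb b q = q := Real.rpow_logb hb0 hb1.ne' hq0
  have e2 : (b : ℝ) ^ (-Real.logb b q) = 1 / q := by
    rw [Real.rpow_neg hb0.le, e1, one_div]
  set N : ℝ := (b : ℝ) ^ (2 * ℓ) with hNdef
  have hN0 : 0 < N := by positivity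
  have hN2 : (b : ℝ) ^ (4 * ℓ) = N ^ 2 := by rw [hNdef, ← pow_mul]; congr 1; ring
  rw [hN2] at hP
  set θ : ℝ := ξ * (b : ℝ) ^ r with hθ
  set η : ℝ := ξ * (b : ℝ) ^ R - θ - P with hη
  have hq'0R : (0 : ℝ) ≤ q' := by exact_mod_cast hq'0
  have hq'R : (q' : ℝ) ≤ q := by exact_mod_cast hq'
  have a1 : |(p : ℝ) - θ * q| * q ≤ 1 :=
    (mul_le_mul_of_nonneg_left hq2 (abs_nonneg _)).trans happ
  have a1' : |(p : ℝ) - θ * q| ≤ 2 / q := by rw [le_div_iff₀ hq0]; linarith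
  have a2 : |(p' : ℝ) - θ * q'| ≤ 2 / q := by
    rw [le_div_iff₀ hq0]
    have hdetR : (p : ℝ) * q' - p' * q = 1 := by exact_mod_cast hdet
    have h1 : ((p' : ℝ) - θ * q') * q = ((p : ℝ) - θ * q) * q' - 1 := by linear_combination -hdetR
    have h2 : |(p' : ℝ) - θ * q'| * q = |((p : ℝ) - θ * q) * q' - 1| := by
      rw [← h1, abs_mul, abs_of_pos hq0]
    rw [h2]
    have h3 := abs_sub (((p : ℝ) - θ * q) * q') 1
    rw [abs_mul, abs_of_nonneg hq'0R, abs_one] at h3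
    have h4 := mul_le_mul_of_nonneg_left hq'R (abs_nonneg ((p : ℝ) - θ * q))
    linarith
  have a3 : |η| * q ≤ 1 / q := by
    rw [le_div_iff₀ hq0]
    have h1 : (q : ℝ) * q ≤ N ^ 2 := by nlinarith
    have h2 := mul_le_mul_of_nonneg_left h1 (abs_nonneg η)
    nlinarith
  have a4 : ∀ u v : ℝ, 0 ≤ v → v ≤ q → |u - θ * v| ≤ 2 / q →
      |u + P * v - ξ * (b : ℝ) ^ R * v| ≤ 3 * (1 / q) := by
    intro u v hv0 hv h
    have h1 : u + P * v - ξ * (b : ℝ) ^ R * v = (u - θ * v) - η * v := by rw [hη]; ring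
    rw [h1]
    have h2 := abs_sub (u - θ * v) (η * v)
    rw [abs_mul, abs_of_nonneg hv0] at h2
    have h3 := mul_le_mul_of_nonneg_left hv (abs_nonneg η)
    have h4 : (2 : ℝ) / q = 2 * (1 / q) := by ring
    linarith
  have h1q : (0 : ℝ) < 1 / q := by positivity
  have h2q : (2 : ℝ) / q = 2 * (1 / q) := by ring
  have hbr : (b : ℚ) ^ r ≠ 0 := pow_ne_zero _ (by exact_mod_cast (by omega : b ≠ 0))
  refine ⟨?_, ?_, ?_, ?_, ?_, ?_, ?_⟩
  · intro c
    fin_cases c <;> simp only [Fin.zero_eta, Fin.mk_one, Fin.reduceFinMk, Matrix.cons_val_zero,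
      Matrix.cons_val_one, Matrix.cons_val, abs_neg] <;> rw [abs_of_nonneg (by linarith)] <;>
      exact hhi
  · rw [Fin.sum_univ_three]
    simp only [Matrix.cons_val_zero, Matrix.cons_val_one, Matrix.cons_val]
    linarith
  · intro s
    fin_cases s
    · simp only [Fin.zero_eta, Matrix.cons_val_zero, Matrix.cons_val, e2]
      push_cast
      exact a4 p q hq0.le le_rfl a1'
    · simp only [Fin.mk_one, Matrix.cons_val_zero, Matrix.cons_val_one, Matrix.cons_val, e2]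
      push_cast
      exact a4 p' q' hq'0R hq'R a2
  · intro s
    fin_cases s
    · simp only [Fin.zero_eta, Matrix.cons_val_zero, Matrix.cons_val_one, Matrix.cons_val, e2]
      linarith
    · simp only [Fin.mk_one, Matrix.cons_val_zero, Matrix.cons_val_one, Matrix.cons_val, e2]
      linarith
  · intro s
    fin_cases s
    · simp only [Fin.zero_eta, Matrix.cons_val_zero, Matrix.cons_val, e1]
      rw [abs_of_pos hq0]; linarith
    · simp only [Fin.mk_one, Matrix.cons_val_zero, Matrix.cons_val_one, Matrix.cons_val, e1]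
      rw [abs_of_nonneg hq'0R]; linarith
  · intro s
    fin_cases s
    · simp only [Fin.zero_eta, Matrix.cons_val_zero, Matrix.cons_val_one, Matrix.cons_val]
      push_cast
      field_simp
      ring
    · simp only [Fin.mk_one, Matrix.cons_val_zero, Matrix.cons_val_one, Matrix.cons_val]
      push_cast
      field_simp
      ring
  · simp only [Matrix.cons_val_zero, Matrix.cons_val_one, Matrix.cons_val]
    have : (p + P * q) * q' - (p' + P * q') * q = 1 := by linear_combination hdet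
    rw [this]; exact one_ne_zero

/-- the block when the denominator is small -/
private theorem block_two (ξ : ℝ) (b ℓ R r : ℕ) (p q : ℤ) (hb : 2 ≤ b) (hq0 : 0 < q)
    (hq1 : (q : ℝ) ≤ (b : ℝ) ^ ℓ)
    (happ : |(p : ℝ) - ξ * (b : ℝ) ^ r * q| * (b : ℝ) ^ (2 * ℓ) ≤ 1) :
    Block ξ b ℓ R r ![![round (ξ * (b : ℝ) ^ R * q), p, q], ![1, 0, 0]]
      ![0, -(2 * ℓ : ℝ), ℓ] 0 ((p : ℚ) / (q * (b : ℚ) ^ r)) := by
  have hb1 : (1 : ℝ) < b := by exact_mod_cast (by omega : 1 < b)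
  have hb0 : (0 : ℝ) < b := by linarith
  have hl0 : (0 : ℝ) ≤ ℓ := Nat.cast_nonneg _
  have hq0R : (0 : ℝ) < q := by exact_mod_cast hq0
  have e1 : (b : ℝ) ^ (-(2 * ℓ : ℝ)) = 1 / (b : ℝ) ^ (2 * ℓ) := by
    have : (2 * ℓ : ℝ) = ((2 * ℓ : ℕ) : ℝ) := by push_cast; ring
    rw [Real.rpow_neg hb0.le, this, Real.rpow_natCast, one_div]
  have hN0 : (0 : ℝ) < (b : ℝ) ^ (2 * ℓ) := by positivity
  have hbr : (b : ℚ) ^ r ≠ 0 := pow_ne_zero _ (by exact_mod_cast (by omega : b ≠ 0))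
  have hqQ : (q : ℚ) ≠ 0 := by exact_mod_cast hq0.ne'
  refine ⟨?_, ?_, ?_, ?_, ?_, ?_, ?_⟩
  · intro c
    fin_cases c <;> simp only [Fin.zero_eta, Fin.mk_one, Fin.reduceFinMk, Matrix.cons_val_zero,
      Matrix.cons_val_one, Matrix.cons_val, abs_neg] <;> rw [abs_of_nonneg (by linarith)] <;>
      linarith
  · rw [Fin.sum_univ_three]
    simp only [Matrix.cons_val_zero, Matrix.cons_val_one, Matrix.cons_val]
    linarith
  · intro s
    fin_cases s
    · simp only [Fin.zero_eta, Matrix.cons_val_zero, Matrix.cons_val, Real.rpow_zero]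
      have := abs_sub_round (ξ * (b : ℝ) ^ R * q)
      rw [abs_sub_comm] at this
      linarith
    · simp only [Fin.mk_one, Matrix.cons_val_zero, Matrix.cons_val_one, Matrix.cons_val,
        Real.rpow_zero]
      norm_num
  · intro s
    fin_cases s
    · simp only [Fin.zero_eta, Matrix.cons_val_zero, Matrix.cons_val_one, Matrix.cons_val, e1]
      have h1 : |(p : ℝ) - ξ * (b : ℝ) ^ r * q| ≤ 1 / (b : ℝ) ^ (2 * ℓ) := by
        rw [le_div_iff₀ hN0]; exact happ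
      have h2 : (0 : ℝ) < 1 / (b : ℝ) ^ (2 * ℓ) := by positivity
      linarith
    · simp only [Fin.mk_one, Matrix.cons_val_zero, Matrix.cons_val_one, Matrix.cons_val, e1]
      simp only [Int.cast_zero, mul_zero, sub_zero, abs_zero]
      positivity
  · intro s
    fin_cases s
    · simp only [Fin.zero_eta, Matrix.cons_val_zero, Matrix.cons_val, Real.rpow_natCast]
      rw [abs_of_pos hq0R]
      have : (0 : ℝ) < (b : ℝ) ^ ℓ := by positivity
      linarith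
    · simp only [Fin.mk_one, Matrix.cons_val_zero, Matrix.cons_val_one, Matrix.cons_val,
        Real.rpow_natCast]
      simp only [Int.cast_zero, abs_zero]
      positivity
  · intro s
    fin_cases s
    · simp only [Fin.zero_eta, Matrix.cons_val_zero, Matrix.cons_val_one, Matrix.cons_val]
      field_simp
      ring
    · simp only [Fin.mk_one, Matrix.cons_val_zero, Matrix.cons_val_one, Matrix.cons_val]
      simp
  · simp only [Matrix.cons_val_zero, Matrix.cons_val_one, Matrix.cons_val]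
    omega

theorem exists_block (ξ : ℝ) (hirr : Irrational ξ) (halg : IsAlgebraic ℤ ξ) :
    ∃ (C : ℝ) (D : ℕ), 1 ≤ C ∧ 1 ≤ D ∧ ∀ (b ℓ R r : ℕ) (P : ℤ), 2 ≤ b → 1 ≤ ℓ → r < R →
      |ξ * (b : ℝ) ^ R - ξ * (b : ℝ) ^ r - P| * (b : ℝ) ^ (4 * ℓ) ≤ 1 →
      ∃ (y : Fin 2 → Fin 3 → ℤ) (α : Fin 3 → ℝ) (κ β : ℚ),
        Block ξ b ℓ R r y α κ β ∧ (b : ℝ) ^ (2 * ℓ) ≤ C * ht β ^ D := by
  obtain ⟨A, D, hA, hD, hL⟩ := liouville_bound ξ hirr halg
  have hξ : ξ ≠ 0 := hirr.ne_zero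
  have hξ' : 0 < |ξ| := abs_pos.mpr hξ
  have hA2 : 0 < A * (2 / |ξ|) ^ D := by positivity
  refine ⟨1 + A + A * (2 / |ξ|) ^ D, D, by linarith, hD, ?_⟩
  intro b ℓ R r P hb _ hrR hP
  have hb1 : (1 : ℝ) < b := by exact_mod_cast (by omega : 1 < b)
  have hb0 : (0 : ℝ) < b := by linarith
  have hN1 : (1 : ℝ) ≤ (b : ℝ) ^ (2 * ℓ) := one_le_pow₀ hb1.le
  have hbr1 : (1 : ℝ) ≤ (b : ℝ) ^ r := one_le_pow₀ hb1.le
  obtain ⟨x, hx, hxd⟩ := Real.exists_rat_abs_sub_le_and_den_le (ξ * (b : ℝ) ^ r)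
    (n := b ^ (2 * ℓ)) (pow_pos (by omega) _)
  have hd0 : (0 : ℝ) < x.den := by exact_mod_cast x.den_pos
  have hd1 : (1 : ℝ) ≤ x.den := by exact_mod_cast x.den_pos
  have hxe : (x : ℝ) = (x.num : ℝ) / (x.den : ℝ) := by exact_mod_cast (Rat.num_div_den x).symm
  have hxdR : (((x.den : ℤ) : ℝ)) ≤ (b : ℝ) ^ (2 * ℓ) := by exact_mod_cast hxd
  have happ : |(x.num : ℝ) - ξ * (b : ℝ) ^ r * ((x.den : ℤ) : ℝ)| * (b : ℝ) ^ (2 * ℓ) ≤ 1 := by
    have h1 : (x.num : ℝ) - ξ * (b : ℝ) ^ r * ((x.den : ℤ) : ℝ) =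
        -((ξ * (b : ℝ) ^ r - x) * x.den) := by
      rw [hxe]; push_cast; field_simp; ring
    rw [h1, abs_neg, abs_mul, abs_of_pos hd0]
    push_cast at hx
    rw [le_div_iff₀ (by positivity)] at hx
    nlinarith [mul_nonneg (abs_nonneg (ξ * (b : ℝ) ^ r - x)) hd0.le]
  rcases le_total ((b : ℝ) ^ ℓ) ((x.den : ℤ) : ℝ) with hcase | hcase
  · have hcop : IsCoprime x.num (x.den : ℤ) := by
      rw [Int.isCoprime_iff_gcd_eq_one]; exact x.reduced
    obtain ⟨p', q', hq'0, hq', hdet⟩ := exists_bezout x.num x.den x.den_pos hcop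
    refine ⟨_, _, _, _, block_one ξ b ℓ R r P x.num p' x.den q' hb hcase hxdR hq'0 hq' hdet
      happ hP, ?_⟩
    have hn : 1 ≤ b ^ (R - r) - 1 := by
      have : 1 < b ^ (R - r) := Nat.one_lt_pow (by omega) (by omega)
      omega
    have hnR : ((b ^ (R - r) - 1 : ℕ) : ℝ) = (b : ℝ) ^ (R - r) - 1 := by
      rw [Nat.cast_sub (by omega)]; push_cast; ring
    have hR : (b : ℝ) ^ R = (b : ℝ) ^ r * (b : ℝ) ^ (R - r) := by
      rw [← pow_add]; congr 1; omega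
    have h1 := height_one ξ A ((b : ℝ) ^ (2 * ℓ)) D (b ^ (R - r) - 1) (-(P : ℚ) / (b : ℚ) ^ r) hξ
      hA hN1 hn hL (by
        have h2 : ξ * (b : ℝ) ^ R - ξ * (b : ℝ) ^ r - P = (b : ℝ) ^ r *
            (ξ * ((b ^ (R - r) - 1 : ℕ) : ℝ) + ((-(P : ℚ) / (b : ℚ) ^ r : ℚ) : ℝ)) := by
          rw [hnR, hR]; push_cast; field_simp; ring
        rw [h2, abs_mul, abs_of_pos (by positivity : (0 : ℝ) < (b : ℝ) ^ r)] at hP
        have h3 : ((b : ℝ) ^ (2 * ℓ)) ^ 2 = (b : ℝ) ^ (4 * ℓ) := by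
          rw [← pow_mul]; congr 1; ring
        rw [h3]
        refine le_trans ?_ hP
        exact mul_le_mul_of_nonneg_right (le_mul_of_one_le_left (abs_nonneg _) hbr1)
          (by positivity))
    refine h1.trans (mul_le_mul_of_nonneg_right (by linarith) ?_)
    exact pow_nonneg (by linarith [one_le_ht (-(P : ℚ) / (b : ℚ) ^ r)]) _
  · refine ⟨_, _, _, _, block_two ξ b ℓ R r x.num x.den hb (by exact_mod_cast x.den_pos) hcase
      happ, ?_⟩
    have h1 := height_two ξ A ((b : ℝ) ^ (2 * ℓ)) D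
      ((x.num : ℚ) / (((x.den : ℤ) : ℚ) * (b : ℚ) ^ r)) hA hN1 hL (by
        have h2 : (x.num : ℝ) - ξ * (b : ℝ) ^ r * ((x.den : ℤ) : ℝ) = -(((b : ℝ) ^ r * x.den) *
            (ξ - (((x.num : ℚ) / (((x.den : ℤ) : ℚ) * (b : ℚ) ^ r) : ℚ) : ℝ))) := by
          push_cast; field_simp; ring
        rw [h2, abs_neg, abs_mul, abs_of_pos (by positivity : (0 : ℝ) < (b : ℝ) ^ r * x.den)]
          at happ
        refine le_trans ?_ happ
        exact mul_le_mul_of_nonneg_right (le_mul_of_one_le_left (abs_nonneg _)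
          (one_le_mul_of_one_le_of_one_le hbr1 hd1)) (by positivity))
    refine h1.trans (mul_le_mul_of_nonneg_right (by linarith) ?_)
    exact pow_nonneg (by linarith [one_le_ht ((x.num : ℚ) / (((x.den : ℤ) : ℚ) * (b : ℚ) ^ r))]) _

end Pool.Agent.P.MP_c8ecb2_nt.RP
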