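import Mathlib
import Pool.Agent.P.MP_c8ecb2_nt.RP.Norm

set_option autoImplicit false

namespace Pool.Agent.P.MP_c8ecb2_nt.RP

open MvPolynomial

variable {σ R : Type*} [CommRing R]

private theorem tay_prod_monomial {S ι : Type*} [CommRing S] (s : Finset ι) (f : ι → σ →₀ ℕ)
    (g : ι → S) :
    ∏ i ∈ s, (monomial (f i) (g i) : MvPolynomial σ S) =
      monomial (∑ i ∈ s, f i) (∏ i ∈ s, g i) := by
  classical
  induction s using Finset.induction_on with
  | empty => simp
  | insert a s ha ih =>
    rw [Finset.prod_insert ha, Finset.prod_insert ha, Finset.sum_insert ha, ih, monomial_mul]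

private theorem tay_factor (i : σ) (n : ℕ) :
    (C (X i) + X i : MvPolynomial σ (MvPolynomial σ R)) ^ n =
      ∑ k ∈ Finset.range (n + 1), monomial (Finsupp.single i k)
        (monomial (Finsupp.single i (n - k)) ((n.choose k : ℕ) : R)) := by
  rw [add_comm, add_pow]
  refine Finset.sum_congr rfl fun k _ => ?_
  rw [← map_pow, X_pow_eq_monomial, X_pow_eq_monomial, ← map_natCast C, ← map_natCast C,
    mul_assoc, ← map_mul, mul_comm, C_mul_monomial, mul_one, mul_comm, C_mul_monomial, mul_one]

private theorem tay_monomial [Fintype σ] [DecidableEq σ] (f : σ →₀ ℕ) (a : R) :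
    tay (monomial f a) = ∑ g ∈ Fintype.piFinset fun i => Finset.range (f i + 1),
      monomial (Finsupp.equivFunOnFinite.symm g)
        (monomial (Finsupp.equivFunOnFinite.symm fun i => f i - g i)
          (a * ((∏ i, (f i).choose (g i) : ℕ) : R))) := by
  rw [tay, aeval_monomial, Finsupp.prod_fintype _ _ (fun _ => pow_zero _)]
  simp_rw [tay_factor]
  rw [Finset.prod_univ_sum, Finset.mul_sum]
  refine Finset.sum_congr rfl fun g _ => ?_
  rw [tay_prod_monomial, tay_prod_monomial, MvPolynomial.algebraMap_apply, algebraMap_eq,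
    C_mul_monomial,
    C_mul_monomial, Nat.cast_prod]
  have h : ∀ u : σ → ℕ, ∑ i, Finsupp.single i (u i) = Finsupp.equivFunOnFinite.symm u := by
    intro u
    ext j
    simp [Finsupp.finsetSum_apply, Finsupp.single_apply]
  rw [h, h]

theorem coeff_hd [Fintype σ] (τ e : σ →₀ ℕ) (P : MvPolynomial σ R) :
    coeff e (hd τ P) = ((∏ i, (e i + τ i).choose (τ i) : ℕ) : R) * coeff (e + τ) P := by
  classical
  unfold hd
  induction P using MvPolynomial.induction_on' with
  | add p q hp hq => rw [map_add, coeff_add, coeff_add, coeff_add, hp, hq, mul_add]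
  | monomial f a =>
    rw [tay_monomial, coeff_sum, coeff_sum, coeff_monomial,
      Finset.sum_eq_single (fun i => τ i)]
    · have h1 : Finsupp.equivFunOnFinite.symm (fun i => τ i) = τ := by
        ext j; simp
      rw [coeff_monomial, if_pos h1, coeff_monomial]
      by_cases hf : f = e + τ
      · subst hf
        rw [if_pos rfl, if_pos, mul_comm]
        · simp
        · ext j; simp
      · rw [if_neg hf, mul_zero]
        split_ifs with h2
        · have h3 : ∃ j, f j < τ j := by
            by_contra h4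
            push Not at h4
            apply hf
            ext j
            have := DFunLike.congr_fun h2 j
            simp only [Finsupp.equivFunOnFinite_symm_apply_apply] at this
            have h5 := h4 j
            rw [Finsupp.add_apply]
            omega
          obtain ⟨j, hj⟩ := h3
          rw [Finset.prod_eq_zero (Finset.mem_univ j) (Nat.choose_eq_zero_of_lt hj)]
          simp
        · rfl
    · intro g _ hg
      rw [coeff_monomial, if_neg, coeff_zero]
      intro h
      apply hg
      funext j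
      rw [← h]
      simp
    · intro h
      have h3 : ∃ j, f j < τ j := by
        by_contra h4
        push Not at h4
        apply h
        rw [Fintype.mem_piFinset]
        intro j
        exact Finset.mem_range.mpr (Nat.lt_succ_of_le (h4 j))
      obtain ⟨j, hj⟩ := h3
      rw [Finset.prod_eq_zero (Finset.mem_univ j) (Nat.choose_eq_zero_of_lt hj)]
      simp

theorem degreeOf_hd_le [Fintype σ] (τ : σ →₀ ℕ) (P : MvPolynomial σ R) (i : σ) :
    degreeOf i (hd τ P) ≤ degreeOf i P := by
  rw [degreeOf_le_iff]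
  intro e he
  have h : e + τ ∈ P.support := by
    rw [mem_support_iff] at he ⊢
    intro h0
    rw [coeff_hd, h0, mul_zero] at he
    exact he rfl
  have h2 := monomial_le_degreeOf i h
  rw [Finsupp.add_apply] at h2
  omega

theorem hd_zero (P : MvPolynomial σ R) : hd 0 P = P := by
  unfold hd
  rw [← constantCoeff_eq]
  have h : (constantCoeff : MvPolynomial σ (MvPolynomial σ R) →+* MvPolynomial σ R).comp
      (tay : MvPolynomial σ R →ₐ[R] _).toRingHom = RingHom.id _ := by
    refine ringHom_ext (fun a => ?_) fun i => ?_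
    · simp [tay]
    · simp [tay]
  exact DFunLike.congr_fun h P

theorem hd_hd [Fintype σ] (τ τ' : σ →₀ ℕ) (P : MvPolynomial σ R) :
    hd τ (hd τ' P) = C ((∏ i, (τ i + τ' i).choose (τ' i) : ℕ) : R) * hd (τ + τ') P := by
  ext e
  rw [coeff_C_mul, coeff_hd, coeff_hd, coeff_hd, ← mul_assoc, ← mul_assoc, ← Nat.cast_mul,
    ← Nat.cast_mul, ← Finset.prod_mul_distrib, ← Finset.prod_mul_distrib, add_assoc e τ τ']
  congr 2
  refine Finset.prod_congr rfl fun i _ => ?_
  rw [Finsupp.add_apply, Finsupp.add_apply]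
  generalize e i = a
  generalize τ i = b
  generalize τ' i = c
  have h := Nat.choose_mul (n := a + (b + c)) (k := b + c) (s := c) (Nat.le_add_left c b)
  have h1 : a + (b + c) - c = a + b := by omega
  have h2 : b + c - c = b := by omega
  rw [h1, h2] at h
  rw [add_assoc, mul_comm, ← h, mul_comm]

theorem taylor_eval₂ {T : Type*} [CommRing T] (φ : R →+* T) (x y : σ → T)
    (P : MvPolynomial σ R) :
    eval₂ φ (fun i => x i + y i) P =
      ∑ τ ∈ (tay P).support, eval₂ φ x (hd τ P) * τ.prod fun i k => y i ^ k := by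
  have h : (eval₂Hom (eval₂Hom φ x) y).comp (tay : MvPolynomial σ R →ₐ[R] _).toRingHom =
      eval₂Hom φ fun i => x i + y i := by
    refine ringHom_ext (fun a => ?_) fun i => ?_
    · simp [tay]
    · simp [tay]
  have h2 : eval₂ (eval₂Hom φ x) y (tay P) = eval₂ φ (fun i => x i + y i) P :=
    DFunLike.congr_fun h P
  rw [← h2, eval₂_eq]
  rfl

theorem sum_wn_hd_le [Fintype σ] {ν : R → ℝ} (hν : IsNrm ν) (P : MvPolynomial σ R) (d : σ → ℕ)
    (hdeg : ∀ i, degreeOf i P ≤ d i) (s : Finset (σ →₀ ℕ)) :
    ∑ τ ∈ s, wn ν (fun _ => 1) (hd τ P) ≤ 2 ^ (∑ i, d i) * wn ν (fun _ => 1) P := by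
  classical
  have h01 : ∀ _ : σ, (0 : ℝ) ≤ 1 := fun _ => zero_le_one
  have hν1 : IsNrm (wn ν (fun _ : σ => (1 : ℝ))) := isNrm_wn hν h01
  have hν2 : IsNrm (wn (wn ν (fun _ : σ => (1 : ℝ))) (fun _ : σ => (1 : ℝ))) := isNrm_wn hν1 h01
  have h1 : ∑ τ ∈ s, wn ν (fun _ => 1) (hd τ P) ≤
      wn (wn ν (fun _ : σ => (1 : ℝ))) (fun _ : σ => (1 : ℝ)) (tay P) := by
    rw [wn_eq_sum hν1 (tay P) (Finset.subset_union_right (s₁ := s))]
    simp_rw [mw_one, mul_one]
    exact Finset.sum_le_sum_of_subset_of_nonneg Finset.subset_union_left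
      fun τ _ _ => hν1.nonneg _
  have h2 : wn (wn ν (fun _ : σ => (1 : ℝ))) (fun _ : σ => (1 : ℝ)) (tay P) ≤
      wn ν (fun _ => 2) P := by
    rw [tay, aeval_def]
    refine eval₂_le_wn hν hν2 _ _ (fun a => ?_) (fun i => ?_) P
    · rw [MvPolynomial.algebraMap_apply, algebraMap_eq, wn_C hν1, wn_C hν]
    · refine (hν2.add_le _ _).trans ?_
      have h3 := wn_X_le hν h01 i
      have h4 := wn_X_le hν1 h01 i
      rw [wn_C hν1]
      linarith
  refine h1.trans (h2.trans ?_)
  rw [wn, wn, Finset.mul_sum]
  refine Finset.sum_le_sum fun e he => ?_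
  rw [mw_one, mul_one, mul_comm, mw_eq_prod, Finset.prod_pow_eq_pow_sum]
  refine mul_le_mul_of_nonneg_right (pow_le_pow_right₀ one_le_two ?_) (hν.nonneg _)
  exact Finset.sum_le_sum fun i _ => (monomial_le_degreeOf i he).trans (hdeg i)

end Pool.Agent.P.MP_c8ecb2_nt.RP
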