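import Mathlib
import Pool.Agent.P.MP_c8ecb2_nt.RP.Taylor

set_option autoImplicit false

namespace Pool.Agent.P.MP_c8ecb2_nt.RP

open MvPolynomial

/-- a function on a finite type as a finitely supported function -/
private noncomputable def fs {m : ℕ} (k : Fin m → ℕ) : Fin m →₀ ℕ :=
  Finsupp.equivFunOnFinite.symm k

private theorem fs_apply {m : ℕ} (k : Fin m → ℕ) (h : Fin m) : fs k h = k h := rfl

private theorem prod_X_pow_fs {m : ℕ} {S : Type*} [CommRing S] (k : Fin m → ℕ) :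
    (∏ h, (X h : MvPolynomial (Fin m) S) ^ k h) = monomial (fs k) 1 := by
  rw [monomial_eq, C_1, one_mul, Finsupp.prod_fintype _ _ (fun _ => pow_zero _)]
  rfl

/-- images of the variables -/
private noncomputable def lam {m : ℕ} (b : ℕ) (R r : Fin m → ℕ) (y : Fin m → Fin 2 → Fin 3 → ℤ)
    (p : Fin m × Fin 3) : MvPolynomial (Fin m) (MvPolynomial (Fin m) ℚ) :=
  ![C (C (((y p.1 0 0 * y p.1 1 2 - y p.1 1 0 * y p.1 0 2 : ℤ) : ℚ)⁻¹) *
        (C ((y p.1 1 2 : ℚ) * (b : ℚ) ^ R p.1) * X p.1 - C (y p.1 1 0 : ℚ))),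
    C (C (((y p.1 0 0 * y p.1 1 2 - y p.1 1 0 * y p.1 0 2 : ℤ) : ℚ)⁻¹) *
        (C (y p.1 0 0 : ℚ) - C ((y p.1 0 2 : ℚ) * (b : ℚ) ^ R p.1) * X p.1)),
    C (C ((b : ℚ) ^ r p.1)) * X p.1] p.2

private theorem lam_prod {m : ℕ} (b : ℕ) (R r : Fin m → ℕ) (y : Fin m → Fin 2 → Fin 3 → ℤ)
    (τ : Fin m × Fin 3 →₀ ℕ) :
    ∃ w : MvPolynomial (Fin m) ℚ,
      ∏ p, lam b R r y p ^ τ p = monomial (fs fun h => τ (h, 2)) w := by
  have h1 : ∀ h : Fin m, ∃ w : MvPolynomial (Fin m) ℚ,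
      ∏ c : Fin 3, lam b R r y (h, c) ^ τ (h, c) = C w * X h ^ τ (h, 2) := by
    intro h
    rw [Fin.prod_univ_three]
    simp only [lam, Matrix.cons_val_zero, Matrix.cons_val_one, Matrix.cons_val_two,
      Matrix.head_cons, Matrix.tail_cons]
    rw [mul_pow, ← C_pow, ← C_pow, ← C_pow, ← C_mul, ← mul_assoc, ← C_mul]
    exact ⟨_, rfl⟩
  choose w hw using h1
  refine ⟨∏ h, w h, ?_⟩
  rw [Fintype.prod_prod_type, Finset.prod_congr rfl fun h _ => hw h, Finset.prod_mul_distrib,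
    prod_X_pow_fs, ← map_prod, C_mul_monomial, mul_one]

private theorem lam_lin {m : ℕ} (b : ℕ) (hb : 1 ≤ b) (R r : Fin m → ℕ)
    (y : Fin m → Fin 2 → Fin 3 → ℤ) (κ β : Fin m → ℚ)
    (hplane : ∀ h s, (y h s 1 : ℚ) = κ h * y h s 0 + β h * (b : ℚ) ^ r h * y h s 2)
    (hdet : ∀ h, y h 0 0 * y h 1 2 - y h 1 0 * y h 0 2 ≠ 0) (h : Fin m) :
    eval₂Hom (Int.castRingHom _) (lam b R r y) (lin y h 0) = C (C ((b : ℚ) ^ R h) * X h) ∧
    eval₂Hom (Int.castRingHom _) (lam b R r y) (lin y h 1) =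
      C (C ((b : ℚ) ^ r h)) *
        (C (C (κ h * (b : ℚ) ^ R h / (b : ℚ) ^ r h) * X h + C (β h)) + X h) ∧
    eval₂Hom (Int.castRingHom _) (lam b R r y) (lin y h 2) = 1 := by
  have hD : ((y h 0 0 * y h 1 2 - y h 1 0 * y h 0 2 : ℤ) : ℚ) ≠ 0 := by exact_mod_cast hdet h
  have hb' : ((b : ℚ) ^ r h) ≠ 0 := pow_ne_zero _ (by exact_mod_cast (by omega : b ≠ 0))
  set D : ℚ := ((y h 0 0 * y h 1 2 - y h 1 0 * y h 0 2 : ℤ) : ℚ) with hDdef
  have hD' : D = (y h 0 0 : ℚ) * y h 1 2 - y h 1 0 * y h 0 2 := by rw [hDdef]; push_cast; ring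
  have key : ∀ c : Fin 3, eval₂Hom (Int.castRingHom _) (lam b R r y)
      (C (y h 0 c) * X (h, 0) + C (y h 1 c) * X (h, 1)) =
      C (C (D⁻¹ * ((y h 0 c : ℚ) * y h 1 2 - y h 1 c * y h 0 2) * (b : ℚ) ^ R h) * X h +
        C (D⁻¹ * ((y h 1 c : ℚ) * y h 0 0 - y h 0 c * y h 1 0))) := by
    intro c
    have e1 : ∀ a : ℤ, (Int.castRingHom (MvPolynomial (Fin m) (MvPolynomial (Fin m) ℚ))) a =
        C (C (a : ℚ)) := by intro a; simp
    simp only [map_add, map_mul, eval₂Hom_C, eval₂Hom_X', lam, Matrix.cons_val_zero,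
      Matrix.cons_val_one, e1, map_sub, ← hDdef]
    ring
  refine ⟨?_, ?_, ?_⟩
  · rw [lin, if_neg (by decide), add_zero, key]
    congr 1
    have e1 : D⁻¹ * ((y h 0 0 : ℚ) * y h 1 2 - y h 1 0 * y h 0 2) * (b : ℚ) ^ R h =
        (b : ℚ) ^ R h := by rw [← hD', inv_mul_cancel₀ hD, one_mul]
    have e2 : D⁻¹ * ((y h 1 0 : ℚ) * y h 0 0 - y h 0 0 * y h 1 0) = 0 := by ring
    rw [e1, e2, C_0, add_zero]
  · rw [lin, if_pos rfl, map_add, key, eval₂Hom_X']
    have e1 : D⁻¹ * ((y h 0 1 : ℚ) * y h 1 2 - y h 1 1 * y h 0 2) * (b : ℚ) ^ R h =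
        (b : ℚ) ^ r h * (κ h * (b : ℚ) ^ R h / (b : ℚ) ^ r h) := by
      rw [hplane h 0, hplane h 1]
      have : (κ h * y h 0 0 + β h * (b : ℚ) ^ r h * y h 0 2) * y h 1 2 -
          (κ h * y h 1 0 + β h * (b : ℚ) ^ r h * y h 1 2) * y h 0 2 = D * κ h := by
        rw [hD']; ring
      rw [this]; field_simp
    have e2 : D⁻¹ * ((y h 1 1 : ℚ) * y h 0 0 - y h 0 1 * y h 1 0) = (b : ℚ) ^ r h * β h := by
      rw [hplane h 0, hplane h 1]
      have : (κ h * y h 1 0 + β h * (b : ℚ) ^ r h * y h 1 2) * y h 0 0 -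
          (κ h * y h 0 0 + β h * (b : ℚ) ^ r h * y h 0 2) * y h 1 0 =
          D * ((b : ℚ) ^ r h * β h) := by
        rw [hD']; ring
      rw [this]; field_simp
    rw [e1, e2]
    simp only [lam, Matrix.cons_val_two, Matrix.head_cons, Matrix.tail_cons, map_add, map_mul]
    ring
  · rw [lin, if_neg (by decide), add_zero, key]
    have e1 : D⁻¹ * ((y h 0 2 : ℚ) * y h 1 2 - y h 1 2 * y h 0 2) * (b : ℚ) ^ R h = 0 := by ring
    have e2 : D⁻¹ * ((y h 1 2 : ℚ) * y h 0 0 - y h 0 2 * y h 1 0) = 1 := by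
      have : (y h 1 2 : ℚ) * y h 0 0 - y h 0 2 * y h 1 0 = D := by rw [hD']; ring
      rw [this, inv_mul_cancel₀ hD]
    rw [e1, e2, C_0, zero_mul, zero_add, C_1, C_1]

private theorem lam_Phi {m : ℕ} (b : ℕ) (hb : 1 ≤ b) (d R r : Fin m → ℕ) (ψ₀ : ℕ)
    (c : (Fin m → Fin 3 → ℕ) → ℤ) (y : Fin m → Fin 2 → Fin 3 → ℤ) (κ β : Fin m → ℚ)
    (hplane : ∀ h s, (y h s 1 : ℚ) = κ h * y h s 0 + β h * (b : ℚ) ^ r h * y h s 2)
    (hdet : ∀ h, y h 0 0 * y h 1 2 - y h 1 0 * y h 0 2 ≠ 0) :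
    eval₂Hom (Int.castRingHom _) (lam b R r y) (Phi b d R r ψ₀ c y) =
      ∑ e ∈ En d R r ψ₀, C (monomial (fs fun h => e h 0) ((b : ℚ) ^ ψ₀ * (c e : ℚ))) *
        ∏ h, (C (C (κ h * (b : ℚ) ^ R h / (b : ℚ) ^ r h) * X h + C (β h)) + X h) ^ e h 1 := by
  rw [Phi, map_sum]
  refine Finset.sum_congr rfl fun e he => ?_
  have hpsi : psi R r e ≤ ψ₀ := (Finset.mem_filter.mp he).2
  have e1 : ∀ a : ℤ, (Int.castRingHom (MvPolynomial (Fin m) (MvPolynomial (Fin m) ℚ))) a =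
      C (C (a : ℚ)) := by intro a; simp
  rw [map_mul, eval₂Hom_C, e1, mon, map_prod]
  have h1 : ∀ h : Fin m, eval₂Hom (Int.castRingHom _) (lam b R r y)
      (∏ c, lin y h c ^ e h c) =
      C (C ((b : ℚ) ^ (R h * e h 0 + r h * e h 1)) * X h ^ e h 0) *
        (C (C (κ h * (b : ℚ) ^ R h / (b : ℚ) ^ r h) * X h + C (β h)) + X h) ^ e h 1 := by
    intro h
    obtain ⟨h0, h1, h2⟩ := lam_lin b hb R r y κ β hplane hdet h
    rw [Fin.prod_univ_three, map_mul, map_mul, map_pow, map_pow, map_pow, h0, h1, h2, one_pow,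
      mul_one, pow_add, pow_mul, pow_mul]
    simp only [map_mul, map_pow, mul_pow]
    ring
  rw [Finset.prod_congr rfl fun h _ => h1 h, Finset.prod_mul_distrib, ← mul_assoc, ← map_prod,
    ← C_mul, Finset.prod_mul_distrib, prod_X_pow_fs, ← map_prod, Finset.prod_pow_eq_pow_sum,
    ← mul_assoc, ← C_mul, C_mul_monomial, mul_one]
  congr 3
  have : (b : ℚ) ^ ψ₀ = (b : ℚ) ^ (ψ₀ - psi R r e) * (b : ℚ) ^ psi R r e := by
    rw [← pow_add, Nat.sub_add_cancel hpsi]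
  rw [this, psi]
  push_cast
  ring

theorem restrict {m : ℕ} (b : ℕ) (hb : 1 ≤ b) (d R r : Fin m → ℕ) (ψ₀ : ℕ)
    (c : (Fin m → Fin 3 → ℕ) → ℤ) (y : Fin m → Fin 2 → Fin 3 → ℤ) (κ β : Fin m → ℚ)
    (hc : ∃ e ∈ En d R r ψ₀, c e ≠ 0)
    (hplane : ∀ h s, (y h s 1 : ℚ) = κ h * y h s 0 + β h * (b : ℚ) ^ r h * y h s 2)
    (hdet : ∀ h, y h 0 0 * y h 1 2 - y h 1 0 * y h 0 2 ≠ 0) (Θ : ℝ)
    (hPhi : ∀ τ ∈ (Phi b d R r ψ₀ c y).support, Θ < ∑ h, (τ (h, 2) : ℝ) / d h) :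
    ∃ f : MvPolynomial (Fin m) ℤ, f ≠ 0 ∧ (∀ h, degreeOf h f ≤ d h) ∧
      len f ≤ ∑ e ∈ En d R r ψ₀, |(c e : ℝ)| ∧
      ∀ τ, wt d τ ≤ Θ → eval₂ (Int.castRingHom ℚ) β (hd τ f) = 0 := by
  classical
  have hsum : ∀ e ∈ En d R r ψ₀, ∀ h, e h 0 + e h 1 + e h 2 = d h := by
    intro e he h
    have h1 : e ∈ Om d := (Finset.mem_filter.mp he).1
    have h2 := Fintype.mem_piFinset.mp h1 h
    rw [Finset.mem_piAntidiag] at h2
    rw [← h2.1, Fin.sum_univ_three]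
  obtain ⟨e₀, he₀, hmin⟩ := Finset.exists_min_image ((En d R r ψ₀).filter fun e => c e ≠ 0)
    (fun e => ∑ h, e h 0) (by
      obtain ⟨e, he, hce⟩ := hc
      exact ⟨e, Finset.mem_filter.mpr ⟨he, hce⟩⟩)
  obtain ⟨he₀E, hce₀⟩ := Finset.mem_filter.mp he₀
  set S := (En d R r ψ₀).filter fun e => ∀ h, e h 0 = e₀ h 0 with hS
  have he₀S : e₀ ∈ S := Finset.mem_filter.mpr ⟨he₀E, fun _ => rfl⟩
  refine ⟨∑ e ∈ S, monomial (fs fun h => e h 1) (c e), ?_, ?_, ?_, ?_⟩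
  · intro h0
    have h1 := congrArg (coeff (fs fun h => e₀ h 1)) h0
    rw [coeff_sum, coeff_zero, Finset.sum_eq_single e₀] at h1
    · rw [coeff_monomial, if_pos rfl] at h1
      exact hce₀ h1
    · intro e he hne
      rw [coeff_monomial, if_neg]
      intro h2
      apply hne
      obtain ⟨heE, he0⟩ := Finset.mem_filter.mp he
      funext h c'
      have h3 : e h 1 = e₀ h 1 := by
        have := congrArg (fun t : Fin m →₀ ℕ => t h) h2
        simpa [fs_apply] using this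
      have h4 := hsum e heE h
      have h5 := hsum e₀ he₀E h
      have h6 := he0 h
      fin_cases c'
      · exact h6
      · exact h3
      · show e h 2 = e₀ h 2
        omega
    · intro h; exact absurd he₀S h
  · intro h
    refine (degreeOf_sum_le _ _ _).trans (Finset.sup_le fun e he => ?_)
    rw [degreeOf_le_iff]
    intro t ht
    have h1 := support_monomial_subset ht
    rw [Finset.mem_singleton] at h1
    rw [h1, fs_apply]
    have := hsum e (Finset.mem_filter.mp he).1 h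
    omega
  · refine (isNrm_len.sum_le _ _).trans ?_
    refine le_trans (Finset.sum_le_sum fun e _ => le_of_eq ?_)
      (Finset.sum_le_sum_of_subset_of_nonneg (Finset.filter_subset _ _)
        fun e _ _ => abs_nonneg (c e : ℝ))
    rw [len, wn_monomial isNrm_iabs, mw_one, mul_one, iabs]
  · intro τ hτ
    have hb' : ((b : ℚ) ^ ψ₀) ≠ 0 := pow_ne_zero _ (by exact_mod_cast (by omega : b ≠ 0))
    have h1 : coeff τ (eval₂Hom (Int.castRingHom _) (lam b R r y) (Phi b d R r ψ₀ c y)) = 0 := by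
      rw [coe_eval₂Hom, eval₂_eq', coeff_sum]
      refine Finset.sum_eq_zero fun t ht => ?_
      obtain ⟨w, hw⟩ := lam_prod b R r y t
      have e1 : ∀ a : ℤ, (Int.castRingHom (MvPolynomial (Fin m) (MvPolynomial (Fin m) ℚ))) a =
          C (C (a : ℚ)) := by intro a; simp
      rw [hw, e1, C_mul_monomial, coeff_monomial, if_neg]
      intro h2
      have h3 := hPhi t ht
      have h4 : wt d τ = ∑ h, (t (h, 2) : ℝ) / d h := by
        rw [← h2]; rfl
      linarith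
    rw [lam_Phi b hb d R r ψ₀ c y κ β hplane hdet, coeff_sum] at h1
    have h2 := congrArg (coeff (fs fun h => e₀ h 0)) h1
    rw [coeff_sum, coeff_zero] at h2
    have h3 : eval₂ (Int.castRingHom ℚ) β
        (hd τ (∑ e ∈ S, monomial (fs fun h => e h 1) (c e))) =
        ∑ e ∈ S, (c e : ℚ) * coeff τ (∏ h, (C (β h) + X h : MvPolynomial (Fin m) ℚ) ^ e h 1) := by
      rw [hd, ← coe_eval₂Hom, ← coeff_map, map_sum, map_sum, coeff_sum]
      refine Finset.sum_congr rfl fun e _ => ?_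
      rw [← coeff_C_mul]
      congr 1
      rw [tay, aeval_monomial, Finsupp.prod_fintype _ _ (fun _ => pow_zero _), map_mul, map_prod]
      congr 1
      · simp
      · refine Finset.prod_congr rfl fun h _ => ?_
        simp [fs_apply]
    rw [h3]
    apply mul_left_cancel₀ hb'
    rw [mul_zero, ← h2, Finset.mul_sum, hS, Finset.sum_filter]
    refine Finset.sum_congr rfl fun e he => ?_
    rw [coeff_C_mul, coeff_monomial_mul']
    by_cases h4 : ∀ h, e h 0 = e₀ h 0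
    · have h5 : (fs fun h => e h 0) = fs fun h => e₀ h 0 := by
        congr 1; funext h; exact h4 h
      rw [if_pos h4, h5, if_pos le_rfl, tsub_self, mul_assoc]
      congr 2
      rw [← constantCoeff_eq, ← coeff_map, map_prod]
      congr 1
      refine Finset.prod_congr rfl fun h _ => ?_
      simp
    · rw [if_neg h4]
      split_ifs with h5
      · by_cases h6 : c e = 0
        · simp [h6]
        · exfalso
          apply h4
          have h7 := hmin e (Finset.mem_filter.mpr ⟨he, h6⟩)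
          have h8 : ∀ h ∈ (Finset.univ : Finset (Fin m)), e h 0 ≤ e₀ h 0 := fun h _ => h5 h
          have h9 := (Finset.sum_eq_sum_iff_of_le h8).mp
            (le_antisymm (Finset.sum_le_sum h8) h7)
          exact fun h => h9 h (Finset.mem_univ _)
      · rfl

end Pool.Agent.P.MP_c8ecb2_nt.RP
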