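import Mathlib
import Pool.Agent.P.MP_c8ecb2_nt.RP.Defs

set_option autoImplicit false

namespace Pool.Agent.P.MP_c8ecb2_nt.RP

open MvPolynomial

theorem exists_chain_prime {m : ℕ} (𝔍 : ℕ → Ideal (MvPolynomial (Fin m) ℚ))
    (hmono : Monotone 𝔍) (h0 : 𝔍 0 ≠ ⊥) (𝔪 : Ideal (MvPolynomial (Fin m) ℚ))
    (h𝔪 : 𝔪.IsPrime) (hm : 𝔍 m ≤ 𝔪) :
    ∃ j < m, ∃ 𝔭 ∈ (𝔍 j).minimalPrimes, 𝔍 (j + 1) ≤ 𝔭 ∧ 𝔭 ≤ 𝔪 := by
  by_contra hcon
  push Not at hcon
  have key : ∀ j ≤ m, ∀ q : Ideal (MvPolynomial (Fin m) ℚ), q.IsPrime → 𝔍 j ≤ q → q ≤ 𝔪 →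
      ((j + 1 : ℕ) : ℕ∞) ≤ q.height := by
    intro j
    induction j with
    | zero =>
      intro _ q hq h1 _
      have hlt : (⊥ : Ideal (MvPolynomial (Fin m) ℚ)) < q :=
        lt_of_lt_of_le (bot_lt_iff_ne_bot.2 h0) h1
      have := Ideal.height_add_one_le_of_lt_of_isPrime hlt
      exact le_trans (by simp) this
    | succ j ih =>
      intro hj q hq h1 h2
      obtain ⟨p, hp, hpq⟩ := Ideal.exists_minimalPrimes_le ((hmono (Nat.le_succ j)).trans h1)
      have hpp : p.IsPrime := hp.1.1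
      have hne : p ≠ q := by
        rintro rfl
        exact hcon j (by omega) p hp h1 h2
      have h3 := Ideal.height_add_one_le_of_lt_of_isPrime (lt_of_le_of_ne hpq hne)
      have h4 := ih (by omega) p hpp hp.1.2 (hpq.trans h2)
      refine le_trans ?_ h3
      rw [Nat.cast_add (j + 1) 1, Nat.cast_one]
      gcongr
  have h1 := key m le_rfl 𝔪 h𝔪 hm le_rfl
  have h2 := Ideal.height_le_ringKrullDim_of_ne_top h𝔪.ne_top
  rw [MvPolynomial.ringKrullDim_of_isNoetherianRing, ringKrullDim_eq_zero_of_field] at h2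
  have h3 : (((m + 1 : ℕ) : ℕ∞) : WithBot ℕ∞) ≤ ((m : ℕ∞) : WithBot ℕ∞) := by
    refine le_trans (WithBot.coe_le_coe.2 h1) (h2.trans ?_)
    simp
  have h4 : m + 1 ≤ m := by exact_mod_cast h3
  omega

theorem chain_generic_aux {m : ℕ} {κ Ω : Type} [Field κ] [Field Ω] [Algebra ℚ κ] [Algebra ℚ Ω]
    [Algebra κ Ω] (x y : Fin m → Ω) (hx : ∀ h, x h ∈ Set.range (algebraMap κ Ω))
    (hy : AlgebraicIndependent κ y) (J : Finset (Fin m)) (hJ : IsCobasis x J) :
    ∃ (z : Fin m → Ω) (kap : Kp m →+* Ω), (∀ h, h ∉ J → z h = x h) ∧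
      ∀ s : Sp m, kap (algebraMap (Sp m) (Kp m) s) = eval₂ (Int.castRingHom Ω) z s := by
  classical
  have : IsScalarTower ℚ κ Ω := IsScalarTower.of_algebraMap_eq' (Subsingleton.elim _ _)
  set z : Fin m → Ω := fun h => if h ∈ J then y h else x h with hz
  have h1 : AlgebraicIndependent ℚ (Sum.elim (fun h : {h : Fin m // h ∈ J} => y h)
      fun h : {h : Fin m // h ∉ J} => x h) :=
    hJ.1.sumElim_of_tower (S := κ) (by rintro _ ⟨h, rfl⟩; exact hx h)
      (hy.comp _ Subtype.val_injective)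
  have h2 : AlgebraicIndependent ℚ z := by
    have h3 := h1.comp (Equiv.sumCompl (· ∈ J)).symm (Equiv.injective _)
    convert h3 using 1
    funext h
    by_cases hh : h ∈ J
    · simp [hz, hh, Equiv.sumCompl_symm_apply_of_pos]
    · simp [hz, hh, Equiv.sumCompl_symm_apply_of_neg]
  have h4 : Function.Injective (eval₂Hom (Int.castRingHom Ω) z : Sp m →+* Ω) := by
    have e : (eval₂Hom (Int.castRingHom Ω) z : Sp m →+* Ω) =
        (aeval z : MvPolynomial (Fin m) ℚ →ₐ[ℚ] Ω).toRingHom.comp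
          (MvPolynomial.map (Int.castRingHom ℚ)) := by
      refine MvPolynomial.ringHom_ext (fun a => ?_) fun i => ?_
      · simp
      · simp
    rw [e, RingHom.coe_comp]
    exact Function.Injective.comp (algebraicIndependent_iff_injective_aeval.1 h2)
      (MvPolynomial.map_injective _ (RingHom.injective_int (Int.castRingHom ℚ)))
  refine ⟨z, IsFractionRing.lift h4, fun h hh => if_neg hh, fun s => ?_⟩
  rw [IsFractionRing.lift_algebraMap]
  rfl

theorem exists_generic {m : ℕ} (𝔭 : Ideal (MvPolynomial (Fin m) ℚ)) (h𝔭 : 𝔭.IsPrime) :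
    ∃ (Ω : Type) (_ : Field Ω) (_ : Algebra ℚ Ω) (x : Fin m → Ω),
      RingHom.ker (aeval x : MvPolynomial (Fin m) ℚ →ₐ[ℚ] Ω) = 𝔭 ∧
      ∀ J : Finset (Fin m), IsCobasis x J → ∃ (z : Fin m → Ω) (kap : Kp m →+* Ω),
        (∀ h, h ∉ J → z h = x h) ∧
        ∀ s : Sp m, kap (algebraMap (Sp m) (Kp m) s) = eval₂ (Int.castRingHom Ω) z s := by
  let κ := FractionRing (MvPolynomial (Fin m) ℚ ⧸ 𝔭)
  let Ω := FractionRing (MvPolynomial (Fin m) κ)
  let φ : MvPolynomial (Fin m) ℚ →+* Ω :=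
    (algebraMap κ Ω).comp ((algebraMap (MvPolynomial (Fin m) ℚ ⧸ 𝔭) κ).comp (Ideal.Quotient.mk 𝔭))
  refine ⟨Ω, inferInstance, inferInstance, fun h => φ (X h), ?_, fun J hJ => ?_⟩
  · have e : ((aeval fun h => φ (X h) : MvPolynomial (Fin m) ℚ →ₐ[ℚ] Ω) :
        MvPolynomial (Fin m) ℚ →+* Ω) = φ := by
      refine MvPolynomial.ringHom_ext' (Subsingleton.elim _ _) fun i => ?_
      simp
    ext s
    rw [RingHom.mem_ker]
    have e' : (aeval fun h => φ (X h) : MvPolynomial (Fin m) ℚ →ₐ[ℚ] Ω) s = φ s :=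
      RingHom.congr_fun e s
    rw [e']
    simp only [φ, RingHom.comp_apply, map_eq_zero, FaithfulSMul.algebraMap_eq_zero_iff,
      Ideal.Quotient.eq_zero_iff_mem]
  · refine chain_generic_aux (κ := κ) _ (fun h => algebraMap (MvPolynomial (Fin m) κ) Ω (X h))
      (fun h => ⟨_, rfl⟩) ?_ J hJ
    exact (algebraicIndependent_X (Fin m) κ).map'
      (f := IsScalarTower.toAlgHom κ (MvPolynomial (Fin m) κ) Ω) (IsFractionRing.injective _ _)

end Pool.Agent.P.MP_c8ecb2_nt.RP
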