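import Mathlib
import Pool.Agent.P.MP_c8ecb2_nt.RP.Defs

set_option autoImplicit false

namespace Pool.Agent.P.MP_c8ecb2_nt.RP

namespace LimitAux

universe u v

section General

variable (K : Type v) {R : Type u} [Field K] [CommRing R] [Algebra K R]

/-- colength of an ideal, as a cardinal -/
noncomputable def cq (I : Ideal R) : Cardinal.{u} := Module.rank K (R ⧸ I)

theorem cq_anti {I J : Ideal R} (h : I ≤ J) : cq K J ≤ cq K I :=
  LinearMap.rank_le_of_surjective (Ideal.Quotient.factorₐ K h).toLinearMap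
    (Ideal.Quotient.factor_surjective h)

theorem cq_top : cq K (⊤ : Ideal R) = 0 := by
  unfold cq
  have : Subsingleton (R ⧸ (⊤ : Ideal R)) := Ideal.Quotient.subsingleton_iff.2 rfl
  exact rank_subsingleton' K _

theorem cq_step {I J : Ideal R} (x : R) (h : ∀ y ∈ J, y * x ∈ I) :
    cq K I ≤ cq K (I ⊔ Ideal.span {x}) + cq K J := by
  let π : (R ⧸ I) →ₗ[K] (R ⧸ (I ⊔ Ideal.span {x})) :=
    (Ideal.Quotient.factorₐ K (le_sup_left : I ≤ I ⊔ Ideal.span {x})).toLinearMap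
  let m : (R ⧸ J) →ₗ[K] (R ⧸ I) :=
    (Submodule.mapQ J I (LinearMap.mulRight R x) (fun y hy => h y hy)).restrictScalars K
  have hk : LinearMap.ker π ≤ LinearMap.range m := by
    intro z hz
    obtain ⟨z, rfl⟩ := Ideal.Quotient.mk_surjective z
    have hz' : z ∈ I ⊔ Ideal.span {x} := Ideal.Quotient.eq_zero_iff_mem.1 hz
    obtain ⟨a, ha, b, hb, rfl⟩ := Submodule.mem_sup.1 hz'
    obtain ⟨c, rfl⟩ := Ideal.mem_span_singleton'.1 hb
    refine ⟨Ideal.Quotient.mk J c, ?_⟩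
    change Ideal.Quotient.mk I (c * x) = Ideal.Quotient.mk I (a + c * x)
    rw [map_add, Ideal.Quotient.eq_zero_iff_mem.2 ha, zero_add]
  have h1 := LinearMap.rank_range_add_rank_ker π
  unfold cq
  rw [← h1]
  exact add_le_add (Submodule.rank_le _) ((Submodule.rank_mono hk).trans (rank_range_le m))

theorem cq_pow (I : Ideal R) (x : R) (N : ℕ) :
    cq K (I ⊔ Ideal.span {x ^ N}) ≤ N * cq K (I ⊔ Ideal.span {x}) := by
  induction N with
  | zero => simp [cq_top]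
  | succ N ih =>
    have h1 := cq_step K (I := I ⊔ Ideal.span {x ^ (N + 1)}) (J := I ⊔ Ideal.span {x ^ N}) x (by
      intro y hy
      obtain ⟨a, ha, b, hb, rfl⟩ := Submodule.mem_sup.1 hy
      obtain ⟨c, rfl⟩ := Ideal.mem_span_singleton'.1 hb
      rw [add_mul]
      refine Ideal.add_mem _ (Ideal.mem_sup_left (I.mul_mem_right _ ha)) (Ideal.mem_sup_right ?_)
      exact Ideal.mem_span_singleton'.2 ⟨c, by ring⟩)
    have h2 : cq K (I ⊔ Ideal.span {x ^ (N + 1)} ⊔ Ideal.span {x}) ≤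
        cq K (I ⊔ Ideal.span {x}) := cq_anti K (sup_le_sup_right le_sup_left _)
    refine h1.trans ((add_le_add h2 ih).trans (le_of_eq ?_))
    push_cast
    ring

theorem cq_pow_finset {ι : Type*} (F : ι → R) (N : ℕ) (s : Finset ι) (I : Ideal R) :
    cq K (I ⊔ Ideal.span ((fun j => F j ^ N) '' s)) ≤
      (N : Cardinal) ^ s.card * cq K (I ⊔ Ideal.span (F '' s)) := by
  classical
  induction s using Finset.induction_on generalizing I with
  | empty => simp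
  | insert a s ha ih =>
    rw [Finset.card_insert_of_notMem ha, Finset.coe_insert, Set.image_insert_eq,
      Set.image_insert_eq, Ideal.span_insert, Ideal.span_insert, ← sup_assoc]
    refine (ih _).trans ?_
    rw [pow_succ, mul_assoc]
    refine mul_le_mul_right ?_ _
    have := cq_pow K (I ⊔ Ideal.span (F '' s)) (F a) N
    rwa [sup_right_comm, sup_assoc I (Ideal.span (F '' s)), sup_comm (Ideal.span (F '' s))] at this

theorem cq_gens (J : Ideal R) (s : Finset R) (I : Ideal R) (h : ∀ x ∈ s, ∀ y ∈ J, y * x ∈ I) :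
    cq K I ≤ cq K (I ⊔ Ideal.span (s : Set R)) + s.card * cq K J := by
  classical
  induction s using Finset.induction_on generalizing I with
  | empty => simp
  | insert a s ha ih =>
    rw [Finset.card_insert_of_notMem ha, Finset.coe_insert, Ideal.span_insert, ← sup_assoc]
    have h1 := cq_step K a (h a (Finset.mem_insert_self a s))
    have h2 := ih (I ⊔ Ideal.span {a}) fun x hx y hy =>
      Ideal.mem_sup_left (h x (Finset.mem_insert_of_mem hx) y hy)
    refine h1.trans ((add_le_add_left h2 _).trans (le_of_eq ?_))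
    push_cast
    ring

theorem cq_pow_lt [IsNoetherianRing R] (I : Ideal R) (hI : cq K I < Cardinal.aleph0) (L : ℕ) :
    cq K (I ^ L) < Cardinal.aleph0 := by
  induction L with
  | zero => simp [cq_top, Cardinal.aleph0_pos]
  | succ L ih =>
    obtain ⟨s, hs⟩ := (IsNoetherian.noetherian (I ^ L) : (I ^ L).FG)
    have h1 := cq_gens K I s (I ^ (L + 1)) fun x hx y hy => by
      rw [pow_succ']
      exact Ideal.mul_mem_mul hy (hs ▸ Ideal.subset_span hx)
    have h2 : cq K (I ^ (L + 1) ⊔ Ideal.span (s : Set R)) ≤ cq K (I ^ L) :=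
      cq_anti K (by
        have : Ideal.span (s : Set R) = I ^ L := hs
        rw [this]; exact le_sup_right)
    exact h1.trans_lt (Cardinal.add_lt_aleph0 (h2.trans_lt ih)
      (Cardinal.mul_lt_aleph0 (Cardinal.natCast_lt_aleph0) hI))

theorem exists_stable [IsNoetherianRing R] {I 𝔫 : Ideal R} (h𝔫 : 𝔫.IsMaximal)
    (hmin : 𝔫 ∈ I.minimalPrimes) : ∃ L₀ : ℕ, ∀ L : ℕ, 𝔫 ^ L₀ ≤ I ⊔ 𝔫 ^ L := by
  have hrad := IsLocalization.AtPrime.radical_map_of_mem_minimalPrimes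
    (A := Localization.AtPrime 𝔫) 𝔫 I hmin
  have hle : 𝔫 ≤ ((I.map (algebraMap R (Localization.AtPrime 𝔫))).comap
      (algebraMap R (Localization.AtPrime 𝔫))).radical := by
    rw [← Ideal.comap_radical, hrad]
    exact Ideal.le_comap_map
  obtain ⟨L₀, hL₀⟩ := Ideal.exists_pow_le_of_le_radical_of_fg hle (IsNoetherian.noetherian 𝔫)
  refine ⟨L₀, fun L a ha => ?_⟩
  have h1 := hL₀ ha
  rw [Ideal.mem_comap, IsLocalization.mem_map_algebraMap_iff (M := 𝔫.primeCompl)] at h1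
  obtain ⟨⟨p, q⟩, hn⟩ := h1
  rw [← map_mul, IsLocalization.eq_iff_exists 𝔫.primeCompl] at hn
  obtain ⟨t, ht⟩ := hn
  obtain ⟨y, i, hi, hy⟩ := Ideal.IsMaximal.exists_inv_pow 𝔫 (x := (t * q : 𝔫.primeCompl).1)
    (t * q).2 L
  have e : a = y * (t.1 * p.1) + a * i := by
    simp only at ht
    rw [← ht]
    simp only [Submonoid.coe_mul] at hy
    linear_combination (-a) * hy
  rw [e]
  exact Ideal.add_mem _ (Ideal.mem_sup_left (I.mul_mem_left _ (I.mul_mem_left _ p.2)))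
    (Ideal.mem_sup_right (Ideal.mul_mem_left _ _ hi))

end General

section Series

open PowerSeries

variable (K : Type v) {A : Type u} [Field K] [CommRing A] [Algebra K A]

theorem cq_series_le {D : Ideal A} {E : Ideal A⟦X⟧} (hX : (X : A⟦X⟧) ∈ E)
    (hD : ∀ a ∈ D, (C a : A⟦X⟧) ∈ E) : cq K E ≤ cq K D := by
  let φ : (A ⧸ D) →ₐ[K] (A⟦X⟧ ⧸ E) :=
    Ideal.quotientMapₐ E (IsScalarTower.toAlgHom K A A⟦X⟧) (fun a ha => hD a ha)
  refine LinearMap.rank_le_of_surjective φ.toLinearMap fun z => ?_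
  obtain ⟨z, rfl⟩ := Ideal.Quotient.mk_surjective z
  refine ⟨Ideal.Quotient.mk D (constantCoeff z), ?_⟩
  change Ideal.Quotient.mk E (C (constantCoeff z)) = Ideal.Quotient.mk E z
  rw [Ideal.Quotient.eq]
  have := eq_X_mul_shift_add_const z
  have e : (C (constantCoeff z) : A⟦X⟧) - z = - (X * mk fun p => coeff (p + 1) z) := by
    linear_combination (-1 : A⟦X⟧) * this
  rw [e]
  exact E.neg_mem (E.mul_mem_right _ hX)

/-- series whose first `n` coefficients lie in `Φ` -/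
def trI (Φ : Ideal A) (n : ℕ) : Ideal A⟦X⟧ where
  carrier := {y | ∀ a < n, coeff a y ∈ Φ}
  zero_mem' := fun a _ => by simp
  add_mem' := fun hx hy a ha => by
    rw [map_add]; exact Φ.add_mem (hx a ha) (hy a ha)
  smul_mem' := fun r y hy a ha => by
    rw [smul_eq_mul, coeff_mul]
    refine Φ.sum_mem fun p hp => Φ.mul_mem_left _ (hy _ ?_)
    have := Finset.HasAntidiagonal.mem_antidiagonal.1 hp
    omega

theorem X_pow_mem_trI (Φ : Ideal A) (n : ℕ) : (X : A⟦X⟧) ^ n ∈ trI Φ n := fun a ha => by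
  rw [coeff_X_pow, if_neg ha.ne]; exact Φ.zero_mem

theorem C_mem_trI {Φ : Ideal A} (n : ℕ) {x : A} (hx : x ∈ Φ) : (C x : A⟦X⟧) ∈ trI Φ n :=
  fun a _ => by
    rw [coeff_C]; split_ifs
    exacts [hx, Φ.zero_mem]

theorem le_cq_trI (Φ : Ideal A) (n : ℕ) : n * cq K Φ ≤ cq K (trI Φ n) := by
  let ψ : A⟦X⟧ →ₗ[K] (Fin n → A ⧸ Φ) := LinearMap.pi fun a =>
    (Ideal.Quotient.mkₐ K Φ).toLinearMap ∘ₗ (coeff (R := A) a).restrictScalars K
  let ψ' : (A⟦X⟧ ⧸ (trI Φ n).restrictScalars K) →ₗ[K] (Fin n → A ⧸ Φ) :=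
    Submodule.liftQ _ ψ fun y hy => by
      ext a
      exact Ideal.Quotient.eq_zero_iff_mem.2 (hy a a.2)
  have hs : Function.Surjective ψ' := by
    intro w
    choose z hz using fun a => Ideal.Quotient.mk_surjective (w a)
    refine ⟨Submodule.Quotient.mk (mk fun a => if h : a < n then z ⟨a, h⟩ else 0), ?_⟩
    ext a
    change Ideal.Quotient.mk Φ (coeff a (mk fun a => if h : a < n then z ⟨a, h⟩ else 0)) = w a
    rw [coeff_mk, dif_pos a.2, hz]
  have h1 := LinearMap.rank_le_of_surjective ψ' hs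
  rw [(Submodule.Quotient.restrictScalarsEquiv K (trI Φ n)).rank_eq, rank_fun_eq_lift_mul] at h1
  simpa [cq] using h1

theorem pow_mem_trI {Φ : Ideal A} {n : ℕ} {f : A} (g : A) (hf : f ^ n ∈ Φ) :
    (C f + X * C g : A⟦X⟧) ^ (n + n) ∈ trI Φ n := by
  refine Ideal.add_pow_mem_of_pow_mem_of_le _ (m := n) (n := n) ?_ ?_ (by omega)
  · rw [← map_pow]; exact C_mem_trI n hf
  · rw [mul_pow]; exact Ideal.mul_mem_right _ _ (X_pow_mem_trI Φ n)

theorem main_bound [IsNoetherianRing A] {ι : Type*} [Fintype ι] (f g : ι → A) (𝔫 : Ideal A)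
    (L₀ : ℕ) (hL₀ : ∀ L : ℕ, 𝔫 ^ L₀ ≤ Ideal.span (Set.range f) ⊔ 𝔫 ^ L) :
    ∃ r : ℕ, ∀ (n L : ℕ) (Φ : Ideal A), (∀ j, f j ^ n ∈ Φ) → 𝔫 ^ L ≤ Φ →
      n * cq K Φ ≤ ((n + n : ℕ) : Cardinal) ^ Fintype.card ι *
        (n * cq K (limI f g ⊔ 𝔫 ^ L₀) + r * cq K (𝔫 ^ L₀)) := by
  classical
  obtain ⟨s, hs⟩ := (IsNoetherian.noetherian (satur (defI f g)) : (satur (defI f g)).FG)
  have hs' : Ideal.span (s : Set A⟦X⟧) = satur (defI f g) := hs
  have hex : ∀ y : A⟦X⟧, ∃ c : ℕ, y ∈ s → X ^ c * y ∈ defI f g := fun y => by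
    by_cases hy : y ∈ s
    · obtain ⟨c, hc⟩ : y ∈ satur (defI f g) := hs' ▸ Ideal.subset_span hy
      exact ⟨c, fun _ => hc⟩
    · exact ⟨0, fun h => absurd h hy⟩
  choose c hc using hex
  set e : ℕ := s.sup c with he
  have hce : ∀ y ∈ s, X ^ e * y ∈ defI f g := fun y hy => by
    obtain ⟨d, hd⟩ := Nat.exists_eq_add_of_le (Finset.le_sup (f := c) hy)
    rw [he, hd, add_comm, pow_add, mul_assoc]
    exact Ideal.mul_mem_left _ _ (hc y hy)
  refine ⟨s.card * e, fun n L Φ hf hΦ => ?_⟩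
  set F : ι → A⟦X⟧ := fun j => C (f j) + X * C (g j) with hF
  set N : Ideal A⟦X⟧ := (𝔫 ^ L).map (C (R := A)) with hN
  set a : Ideal A⟦X⟧ := N ⊔ Ideal.span {X ^ n} with ha
  have hG : defI f g = Ideal.span (F '' (Finset.univ : Finset ι)) := by
    rw [Finset.coe_univ, Set.image_univ]; rfl
  have hFG : ∀ j, F j ∈ defI f g := fun j => Ideal.subset_span ⟨j, rfl⟩
  have hGS : defI f g ≤ satur (defI f g) := fun y hy => ⟨0, by simpa using hy⟩
  have h1 : cq K (trI Φ n) ≤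
      cq K (a ⊔ Ideal.span ((fun j => F j ^ (n + n)) '' (Finset.univ : Finset ι))) := by
    refine cq_anti K (sup_le (sup_le ?_ ?_) ?_)
    · rw [hN, Ideal.map_le_iff_le_comap]
      exact fun x hx => C_mem_trI n (hΦ hx)
    · rw [Ideal.span_le, Set.singleton_subset_iff]
      exact X_pow_mem_trI Φ n
    · rw [Ideal.span_le]
      rintro _ ⟨j, -, rfl⟩
      exact pow_mem_trI (g j) (hf j)
  have h2 := cq_pow_finset K F (n + n) Finset.univ a
  rw [← hG, Finset.card_univ] at h2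
  have h3 := cq_gens K (a ⊔ defI f g ⊔ Ideal.span {X ^ e}) s (a ⊔ defI f g) fun x hx y hy => by
    obtain ⟨p, hp, q, hq, rfl⟩ := Submodule.mem_sup.1 hy
    obtain ⟨w, rfl⟩ := Ideal.mem_span_singleton'.1 hq
    rw [add_mul, mul_assoc]
    exact Ideal.add_mem _ (Ideal.mul_mem_right _ _ hp)
      (Ideal.mem_sup_right (Ideal.mul_mem_left _ _ (hce x hx)))
  rw [hs'] at h3
  have key : ∀ E : Ideal A⟦X⟧, N ≤ E → defI f g ≤ E → X ∈ E →
      ∀ x ∈ 𝔫 ^ L₀, (C x : A⟦X⟧) ∈ E := by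
    intro E hNE hGE hXE x hx
    have : Ideal.span (Set.range f) ⊔ 𝔫 ^ L ≤ E.comap (C (R := A)) := by
      refine sup_le ?_ (Ideal.map_le_iff_le_comap.1 hNE)
      rw [Ideal.span_le]
      rintro _ ⟨j, rfl⟩
      have e1 : (C (f j) : A⟦X⟧) = F j - X * C (g j) := by simp [hF]
      change (C (f j) : A⟦X⟧) ∈ E
      rw [e1]
      exact E.sub_mem (hGE (hFG j)) (E.mul_mem_right _ hXE)
    exact this (hL₀ L hx)
  have h4 : cq K (a ⊔ defI f g ⊔ satur (defI f g)) ≤ n * cq K (limI f g ⊔ 𝔫 ^ L₀) := by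
    have e1 : cq K (a ⊔ defI f g ⊔ satur (defI f g)) ≤
        cq K (N ⊔ satur (defI f g) ⊔ Ideal.span {X ^ n}) :=
      cq_anti K (sup_le (sup_le (le_sup_of_le_left (le_sup_of_le_left le_sup_left)) le_sup_right)
        (le_sup_of_le_left (le_sup_of_le_left le_sup_right)))
    refine e1.trans ((cq_pow K _ _ _).trans (mul_le_mul_right ?_ _))
    have hX : (X : A⟦X⟧) ∈ N ⊔ satur (defI f g) ⊔ Ideal.span {X} :=
      Ideal.mem_sup_right (Ideal.mem_span_singleton_self _)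
    have hle : limI f g ⊔ 𝔫 ^ L₀ ≤
        (N ⊔ satur (defI f g) ⊔ Ideal.span {X}).comap (C (R := A)) := by
      refine sup_le ?_ (key _ (le_sup_of_le_left le_sup_left)
        (le_sup_of_le_left (le_sup_of_le_right hGS)) hX)
      rw [limI, Ideal.map_le_iff_le_comap]
      intro z hz
      change (C (constantCoeff z) : A⟦X⟧) ∈ N ⊔ satur (defI f g) ⊔ Ideal.span {X}
      have := eq_X_mul_shift_add_const z
      have e2 : (C (constantCoeff z) : A⟦X⟧) = z - (X * mk fun p => coeff (p + 1) z) := by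
        linear_combination (-1 : A⟦X⟧) * this
      rw [e2]
      exact Ideal.sub_mem _ (Ideal.mem_sup_left (Ideal.mem_sup_right hz))
        (Ideal.mul_mem_right _ _ hX)
    exact cq_series_le K hX fun x hx => hle hx
  have h5 : cq K (a ⊔ defI f g ⊔ Ideal.span {X ^ e}) ≤ e * cq K (𝔫 ^ L₀) := by
    refine (cq_pow K _ _ _).trans (mul_le_mul_right ?_ _)
    have hX : (X : A⟦X⟧) ∈ a ⊔ defI f g ⊔ Ideal.span {X} :=
      Ideal.mem_sup_right (Ideal.mem_span_singleton_self _)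
    exact cq_series_le K hX (key _ (le_sup_of_le_left (le_sup_of_le_left le_sup_left))
      (le_sup_of_le_left le_sup_right) hX)
  refine (le_cq_trI K Φ n).trans (h1.trans (h2.trans (mul_le_mul_right (h3.trans ?_) _)))
  refine add_le_add h4 ((mul_le_mul_right h5 _).trans (le_of_eq ?_))
  push_cast
  ring

end Series

end LimitAux

open MvPolynomial

theorem lim_lower {K A ι : Type*} [Field K] [CommRing A] [Algebra K A] [IsNoetherianRing A]
    [Fintype ι] (f g : ι → A) (𝔫 : Ideal A) (h𝔫 : 𝔫.IsMaximal) [Module.Finite K (A ⧸ 𝔫)]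
    (hmin : 𝔫 ∈ (Ideal.span (Set.range f)).minimalPrimes) (μ : ℝ) (hμ : LowMult K f 𝔫 μ) :
    ∃ L : ℕ, μ ≤ 2 ^ Fintype.card ι * (Module.finrank K (A ⧸ (limI f g ⊔ 𝔫 ^ L)) : ℝ) := by
  obtain ⟨L₀, hL₀⟩ := LimitAux.exists_stable h𝔫 hmin
  obtain ⟨r, hr⟩ := LimitAux.main_bound K f g 𝔫 L₀ hL₀
  have hfin : LimitAux.cq K (𝔫 ^ L₀) < Cardinal.aleph0 :=
    LimitAux.cq_pow_lt K 𝔫 (Module.rank_lt_aleph0 K _) L₀
  have hfin' : LimitAux.cq K (limI f g ⊔ 𝔫 ^ L₀) < Cardinal.aleph0 :=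
    (LimitAux.cq_anti K le_sup_right).trans_lt hfin
  obtain ⟨ρ₀, hρ₀⟩ := Cardinal.lt_aleph0.1 hfin
  have hρ : LimitAux.cq K (limI f g ⊔ 𝔫 ^ L₀) =
      (Module.finrank K (A ⧸ (limI f g ⊔ 𝔫 ^ L₀)) : Cardinal) :=
    (Cardinal.cast_toNat_of_lt_aleph0 hfin').symm
  refine ⟨L₀, ?_⟩
  set ρ := Module.finrank K (A ⧸ (limI f g ⊔ 𝔫 ^ L₀))
  set k := Fintype.card ι
  have hn : ∀ n : ℕ, 1 ≤ n → μ ≤ 2 ^ k * (ρ : ℝ) + (2 ^ k * (r * ρ₀) : ℝ) / n := by
    intro n hn
    obtain ⟨Φ, L, N, w, h1, h2, h3, h4⟩ := hμ n hn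
    have h5 := hr n L Φ h1 h2
    have h6 : (N : Cardinal) ≤ LimitAux.cq K Φ := by
      simpa [LimitAux.cq] using h3.cardinal_lift_le_rank
    rw [hρ, hρ₀] at h5
    have h7 := (mul_le_mul_right h6 (n : Cardinal)).trans h5
    have h8 : n * N ≤ (n + n) ^ k * (n * ρ + r * ρ₀) := by exact_mod_cast h7
    have h9 : (n : ℝ) * N ≤ (n + n) ^ k * (n * ρ + r * ρ₀) := by exact_mod_cast h8
    have hn0 : (0 : ℝ) < n := by exact_mod_cast hn
    have hk : (0 : ℝ) < (n : ℝ) ^ k := pow_pos hn0 k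
    rw [← two_mul, mul_pow] at h9
    have h10 : (n : ℝ) ^ k * (n * μ) ≤ (n : ℝ) ^ k * (2 ^ k * (n * ρ + r * ρ₀)) := by
      have := mul_le_mul_of_nonneg_left h4 hn0.le
      nlinarith
    have h11 := le_of_mul_le_mul_left h10 hk
    rw [← sub_le_iff_le_add', le_div_iff₀ hn0]
    nlinarith
  have hlim : Filter.Tendsto (fun n : ℕ => 2 ^ k * (ρ : ℝ) + (2 ^ k * (r * ρ₀) : ℝ) / n)
      Filter.atTop (nhds (2 ^ k * (ρ : ℝ) + 0)) :=
    tendsto_const_nhds.add (tendsto_const_div_atTop_nhds_zero_nat _)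
  rw [add_zero] at hlim
  exact ge_of_tendsto hlim (Filter.eventually_atTop.2 ⟨1, hn⟩)

end Pool.Agent.P.MP_c8ecb2_nt.RP
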