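import Mathlib
import Pool.Agent.P.MP_c8ecb2_nt.RP.Defs

set_option autoImplicit false

namespace Pool.Agent.P.MP_c8ecb2_nt.RP

open MvPolynomial

theorem charpoly_dvd_of_surjective {K V W : Type*} [Field K] [AddCommGroup V] [Module K V]
    [Module.Finite K V] [AddCommGroup W] [Module K W] [Module.Finite K W] (π : V →ₗ[K] W)
    (hπ : Function.Surjective π) (S : V →ₗ[K] V) (T : W →ₗ[K] W) (h : π ∘ₗ S = T ∘ₗ π) :
    T.charpoly ∣ S.charpoly := by
  classical
  obtain ⟨σ, hσ⟩ := π.exists_rightInverse_of_surjective (LinearMap.range_eq_top.2 hπ)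
  have hσ' : ∀ w, π (σ w) = w := fun w => LinearMap.congr_fun hσ w
  have hST : ∀ v, π (S v) = T (π v) := fun v => LinearMap.congr_fun h v
  let f : V →ₗ[K] (LinearMap.ker π) × W :=
    LinearMap.prod ((LinearMap.id - σ ∘ₗ π).codRestrict (LinearMap.ker π) fun v => by
      simp [hσ']) π
  let g : (LinearMap.ker π) × W →ₗ[K] V := LinearMap.coprod (LinearMap.ker π).subtype σ
  let e : V ≃ₗ[K] (LinearMap.ker π) × W := LinearEquiv.ofLinearMap f g
    (by
      refine LinearMap.ext fun x => ?_
      obtain ⟨⟨k, hk⟩, w⟩ := x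
      have hk' : π k = 0 := hk
      refine Prod.ext (Subtype.ext ?_) ?_
      · simp [f, g, hσ', hk']
      · simp [f, g, hσ', hk'])
    (by
      refine LinearMap.ext fun v => ?_
      simp [f, g])
  let b1 := Module.finBasis K (LinearMap.ker π)
  let b2 := Module.finBasis K W
  let b := (b1.prod b2).map e.symm
  have hr : ∀ v j, b.repr v (Sum.inr j) = b2.repr (π v) j := fun v j => by
    simp [b, e, f]
  have hl : ∀ i, π (b (Sum.inl i)) = 0 := fun i => by
    have : b (Sum.inl i) = b1 i := by simp [b, e, g]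
    rw [this]
    exact (b1 i).2
  have hr' : ∀ j, π (b (Sum.inr j)) = b2 j := fun j => by
    have : b (Sum.inr j) = σ (b2 j) := by simp [b, e, g]
    rw [this, hσ']
  have h21 : (LinearMap.toMatrix b b S).toBlocks₂₁ = 0 := by
    ext j i
    simp only [Matrix.toBlocks₂₁, Matrix.of_apply, LinearMap.toMatrix_apply, hr, hST, hl, map_zero,
      Finsupp.coe_zero, Pi.zero_apply, Matrix.zero_apply]
  have h22 : (LinearMap.toMatrix b b S).toBlocks₂₂ = LinearMap.toMatrix b2 b2 T := by
    ext j i
    simp only [Matrix.toBlocks₂₂, Matrix.of_apply, LinearMap.toMatrix_apply, hr, hST, hr']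
  rw [← LinearMap.charpoly_toMatrix S b, ← LinearMap.charpoly_toMatrix T b2,
    ← Matrix.fromBlocks_toBlocks (LinearMap.toMatrix b b S), h21, h22,
    Matrix.charpoly_fromBlocks_zero₂₁]
  exact Dvd.intro_left _ rfl

/-- matrix form over a domain: `s • U * Q = Q * M` and `Q * W = s' • 1` -/
theorem charpoly_dvd_pencil {V n N : Type*} [CommRing V] [IsDomain V] [Fintype n] [DecidableEq n]
    [Fintype N] [DecidableEq N] (s s' s'' : V) (hs : s ≠ 0) (hs' : s' ≠ 0) (hs'' : s'' ≠ 0)
    (U : Matrix n n V) (M : Matrix N N V) (Q : Matrix n N V) (W : Matrix N n V)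
    (hUQ : s • (U * Q) = Q * M) (hQW : Q * W = s' • (1 : Matrix n n V))
    (Δ' : Polynomial V) (hΔ : (pencil s M).det = Polynomial.C s'' * Δ') :
    U.charpoly ∣ Δ' := by
  let F := FractionRing V
  let f : V →+* F := algebraMap V F
  have hf : Function.Injective f := IsFractionRing.injective V F
  have hne : ∀ {x : V}, x ≠ 0 → f x ≠ 0 := fun hx h0 => hx (hf (h0.trans (map_zero f).symm))
  have hUQ' : f s • (U.map f * Q.map f) = Q.map f * M.map f := by
    have := congrArg (fun A : Matrix n N V => A.map f) hUQ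
    simp only [Matrix.map_mul] at this
    rw [← this, ← Matrix.map_mul]
    ext i j
    simp only [Matrix.smul_apply, Matrix.map_apply, smul_eq_mul, map_mul]
  have hQW' : Q.map f * W.map f = f s' • (1 : Matrix n n F) := by
    rw [← Matrix.map_mul, hQW]
    ext i j
    simp [Matrix.one_apply, apply_ite f]
  have h1 : (U.map f).charpoly ∣ ((f s)⁻¹ • M.map f).charpoly := by
    rw [← Matrix.charpoly_toLin', ← Matrix.charpoly_toLin']
    refine charpoly_dvd_of_surjective (Matrix.toLin' (Q.map f)) (fun y => ?_) _ _ ?_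
    · refine ⟨(f s')⁻¹ • Matrix.toLin' (W.map f) y, ?_⟩
      rw [map_smul, ← Matrix.toLin'_mul_apply, hQW', map_smul, Matrix.toLin'_one,
        LinearMap.smul_apply, LinearMap.id_apply, smul_smul, inv_mul_cancel₀ (hne hs'), one_smul]
    · rw [← Matrix.toLin'_mul, ← Matrix.toLin'_mul, Matrix.mul_smul, ← hUQ', smul_smul,
        inv_mul_cancel₀ (hne hs), one_smul]
  have h2 : (Polynomial.mapRingHom f).mapMatrix (pencil s M) =
      Polynomial.C (f s) • ((f s)⁻¹ • M.map f).charmatrix := by
    refine Matrix.ext fun i j => ?_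
    by_cases hij : i = j
    · subst hij
      simp only [pencil, RingHom.mapMatrix_apply, Matrix.map_apply, Matrix.sub_apply,
        Matrix.scalar_apply, Matrix.diagonal_apply_eq, Polynomial.coe_mapRingHom,
        Polynomial.map_sub, Polynomial.map_mul, Polynomial.map_C, Polynomial.map_X,
        Matrix.smul_apply, Matrix.charmatrix_apply_eq, smul_eq_mul, mul_sub, ← Polynomial.C_mul,
        mul_inv_cancel_left₀ (hne hs)]
    · simp only [pencil, RingHom.mapMatrix_apply, Matrix.map_apply, Matrix.sub_apply,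
        Matrix.scalar_apply, Matrix.diagonal_apply_ne _ hij, Polynomial.coe_mapRingHom,
        Polynomial.map_neg, Polynomial.map_C, zero_sub,
        Matrix.smul_apply, Matrix.charmatrix_apply_ne _ _ _ hij, smul_eq_mul]
      have e1 := Polynomial.C_mul (a := f s) (b := (f s)⁻¹ * f (M i j))
      rw [mul_inv_cancel_left₀ (hne hs)] at e1
      rw [e1]
      ring
  have h3 := congrArg (Polynomial.mapRingHom f) hΔ
  rw [RingHom.map_det, h2, Matrix.det_smul, map_mul, Polynomial.coe_mapRingHom,
    Polynomial.map_C] at h3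
  have h4 : (U.map f).charpoly ∣ Polynomial.C (f s'') * Δ'.map f := by
    rw [← h3]
    exact h1.mul_left _
  have hu : IsUnit (Polynomial.C (f s'')) := Polynomial.isUnit_C.2 (hne hs'').isUnit
  rw [hu.dvd_mul_left, Matrix.charpoly_map] at h4
  exact (Polynomial.map_dvd_map f hf (Matrix.charpoly_monic U)).1 h4

end Pool.Agent.P.MP_c8ecb2_nt.RP
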