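import Mathlib
import Pool.Agent.P.MP_c8ecb2_nt.RP.CharDvd

set_option autoImplicit false

namespace Pool.Agent.P.MP_c8ecb2_nt.RP

open MvPolynomial

section Aux

variable {K A : Type*} [Field K] [CommRing A] [Algebra K A]

/-- combination of constants with power series coefficients -/
private noncomputable def comb {n : Type*} [Fintype n] (x : n → A) (v : n → PowerSeries K) :
    PowerSeries A :=
  ∑ s, PowerSeries.map (algebraMap K A) (v s) * PowerSeries.C (x s)

private lemma mem_satur (G : Ideal (PowerSeries A)) (y : PowerSeries A) :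
    y ∈ satur G ↔ ∃ c : ℕ, PowerSeries.X ^ c * y ∈ G := Iff.rfl

private lemma le_satur (G : Ideal (PowerSeries A)) : G ≤ satur G := fun y hy =>
  (mem_satur G y).2 ⟨0, by simpa using hy⟩

private lemma satur_sat (G : Ideal (PowerSeries A)) (y : PowerSeries A)
    (h : PowerSeries.X * y ∈ satur G) : y ∈ satur G := by
  obtain ⟨c, hc⟩ := (mem_satur G _).1 h
  exact (mem_satur G y).2 ⟨c + 1, by rw [pow_succ, mul_assoc]; exact hc⟩

/-- the closure of an ideal for the `t`-adic topology -/
private def clo (S : Ideal (PowerSeries A)) : Ideal (PowerSeries A) where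
  carrier := {y | ∀ n : ℕ, ∃ z, y - PowerSeries.X ^ n * z ∈ S}
  zero_mem' := fun _ => ⟨0, by simp⟩
  add_mem' := by
    intro a b ha hb n
    obtain ⟨z, hz⟩ := ha n
    obtain ⟨w, hw⟩ := hb n
    refine ⟨z + w, ?_⟩
    have : a + b - PowerSeries.X ^ n * (z + w) =
        (a - PowerSeries.X ^ n * z) + (b - PowerSeries.X ^ n * w) := by ring
    rw [this]
    exact S.add_mem hz hw
  smul_mem' := by
    intro r a ha n
    obtain ⟨z, hz⟩ := ha n
    refine ⟨r * z, ?_⟩
    have : r • a - PowerSeries.X ^ n * (r * z) = r * (a - PowerSeries.X ^ n * z) := by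
      rw [smul_eq_mul]; ring
    rw [this]
    exact S.mul_mem_left _ hz

private lemma mem_clo (S : Ideal (PowerSeries A)) (y : PowerSeries A) :
    y ∈ clo S ↔ ∀ n : ℕ, ∃ z, y - PowerSeries.X ^ n * z ∈ S := Iff.rfl

private lemma le_clo (S : Ideal (PowerSeries A)) : S ≤ clo S := fun y hy =>
  (mem_clo S y).2 fun _ => ⟨0, by simpa using hy⟩

private lemma clo_sat (S : Ideal (PowerSeries A))
    (hS : ∀ y, PowerSeries.X * y ∈ S → y ∈ S) (y : PowerSeries A)
    (h : PowerSeries.X * y ∈ clo S) : y ∈ clo S := by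
  rw [mem_clo] at h ⊢
  intro n
  obtain ⟨z, hz⟩ := h (n + 1)
  refine ⟨z, hS _ ?_⟩
  have : PowerSeries.X * (y - PowerSeries.X ^ n * z) =
      PowerSeries.X * y - PowerSeries.X ^ (n + 1) * z := by ring
  rw [this]
  exact hz

private lemma clo_cc (S : Ideal (PowerSeries A)) (y : PowerSeries A) (h : y ∈ clo S) :
    PowerSeries.constantCoeff y ∈ S.map (PowerSeries.constantCoeff (R := A)) := by
  obtain ⟨z, hz⟩ := (mem_clo S y).1 h 1
  have := Ideal.mem_map_of_mem (PowerSeries.constantCoeff (R := A)) hz
  simpa using this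

private lemma cc_comb {n : Type*} [Fintype n] (x : n → A) (v : n → PowerSeries K) :
    PowerSeries.constantCoeff (comb x v) = ∑ s, PowerSeries.constantCoeff (v s) • x s := by
  unfold comb
  rw [map_sum]
  refine Finset.sum_congr rfl fun s _ => ?_
  rw [map_mul, PowerSeries.constantCoeff_C, Algebra.smul_def,
    ← PowerSeries.coeff_zero_eq_constantCoeff_apply, PowerSeries.coeff_map,
    PowerSeries.coeff_zero_eq_constantCoeff_apply]

private lemma comb_X_mul {n : Type*} [Fintype n] (x : n → A) (w : n → PowerSeries K) :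
    comb x (fun s => PowerSeries.X * w s) = PowerSeries.X * comb x w := by
  unfold comb
  rw [Finset.mul_sum]
  refine Finset.sum_congr rfl fun s _ => ?_
  rw [map_mul, PowerSeries.map_X, mul_assoc]

private lemma comb_add {n : Type*} [Fintype n] (x : n → A) (v w : n → PowerSeries K) :
    comb x (fun s => v s + w s) = comb x v + comb x w := by
  unfold comb
  rw [← Finset.sum_add_distrib]
  refine Finset.sum_congr rfl fun s _ => ?_
  rw [map_add, add_mul]

private lemma key_indep {n : Type*} [Fintype n] (D : Ideal (PowerSeries A)) (L : Ideal A)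
    (hsat : ∀ y, PowerSeries.X * y ∈ D → y ∈ D)
    (hcc : ∀ y ∈ D, PowerSeries.constantCoeff y ∈ L) (x : n → A)
    (hx : LinearIndependent K fun s => Ideal.Quotient.mk L (x s))
    (v : n → PowerSeries K) (hv : comb x v ∈ D) : v = 0 := by
  have h0 : ∀ v : n → PowerSeries K, comb x v ∈ D → ∀ s, PowerSeries.constantCoeff (v s) = 0 := by
    intro v hv
    have h1 := hcc _ hv
    rw [cc_comb] at h1
    refine Fintype.linearIndependent_iff.1 hx (fun s => PowerSeries.constantCoeff (v s)) ?_
    have h2 := Ideal.Quotient.eq_zero_iff_mem.2 h1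
    rw [map_sum] at h2
    rw [← h2]
    refine Finset.sum_congr rfl fun s _ => ?_
    exact (map_smul (Ideal.Quotient.mkₐ K L) _ _).symm
  have hk : ∀ (k : ℕ) (v : n → PowerSeries K), comb x v ∈ D →
      ∀ s, PowerSeries.coeff k (v s) = 0 := by
    intro k
    induction k with
    | zero => intro v hv s; simpa using h0 v hv s
    | succ k ih =>
      intro v hv s
      have h1 : ∀ s, ∃ w, v s = PowerSeries.X * w := fun s =>
        PowerSeries.X_dvd_iff.2 (h0 v hv s)
      choose w hw using h1
      have h2 : v = fun s => PowerSeries.X * w s := funext hw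
      rw [h2, comb_X_mul] at hv
      rw [hw s, PowerSeries.coeff_succ_X_mul]
      exact ih w (hsat _ hv) s
  funext s
  ext k
  simpa using hk k v hv s

private lemma key_span {n : Type*} [Fintype n] (S : Ideal (PowerSeries A)) (x : n → A)
    (hx : ∀ a : A, ∃ c : n → K, a - ∑ s, c s • x s ∈ S.map (PowerSeries.constantCoeff (R := A)))
    (y : PowerSeries A) : ∃ v : n → PowerSeries K, y - comb x v ∈ clo S := by
  have hstep : ∀ y : PowerSeries A, ∃ (c : n → K) (y' : PowerSeries A),
      y - comb x (fun s => PowerSeries.C (c s)) - PowerSeries.X * y' ∈ S := by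
    intro y
    obtain ⟨c, hc⟩ := hx (PowerSeries.constantCoeff y)
    obtain ⟨σ, hσ, hσ'⟩ := (Ideal.mem_map_iff_of_surjective _
      (PowerSeries.constantCoeff_surj (R := A))).1 hc
    have h1 : PowerSeries.constantCoeff (y - comb x (fun s => PowerSeries.C (c s)) - σ) = 0 := by
      rw [map_sub, map_sub, cc_comb, hσ']
      simp
    obtain ⟨y', hy'⟩ := PowerSeries.X_dvd_iff.2 h1
    refine ⟨c, y', ?_⟩
    rw [← hy']
    simpa using hσ
  choose c T hT using hstep
  let v : PowerSeries A → n → PowerSeries K := fun y s => PowerSeries.mk fun k => c (T^[k] y) s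
  have hv : ∀ y, v y = fun s => PowerSeries.C (c y s) + PowerSeries.X * v (T y) s := by
    intro y
    funext s
    ext k
    cases k with
    | zero => simp [v]
    | succ k =>
      rw [map_add, PowerSeries.coeff_succ_X_mul, PowerSeries.coeff_C]
      simp [v]
  refine ⟨v y, (mem_clo S _).2 fun k => ?_⟩
  induction k generalizing y with
  | zero => exact ⟨y - comb x (v y), by simp⟩
  | succ k ih =>
    obtain ⟨z, hz⟩ := ih (T y)
    refine ⟨z, ?_⟩
    have h1 : y - comb x (v y) - PowerSeries.X ^ (k + 1) * z =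
        (y - comb x (fun s => PowerSeries.C (c y s)) - PowerSeries.X * T y) +
          PowerSeries.X * (T y - comb x (v (T y)) - PowerSeries.X ^ k * z) := by
      conv_lhs => rw [hv y, comb_add, comb_X_mul]
      ring
    rw [h1]
    exact S.add_mem (hT y) (S.mul_mem_left _ hz)

end Aux

section Abstract

variable {V T n N : Type*} [CommRing V] [CommRing T] [Fintype n] [Fintype N]

private lemma abs_comp (φ : V →+* T) (ξ : n → T) (β : N → T) (Q : Matrix n N V)
    (hQ : ∀ i, β i = ∑ s, φ (Q s i) * ξ s) (w : N → V) :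
    ∑ l, φ (w l) * β l = ∑ s, φ (∑ l, Q s l * w l) * ξ s := by
  simp only [hQ, map_sum, map_mul, Finset.mul_sum, Finset.sum_mul]
  rw [Finset.sum_comm]
  refine Finset.sum_congr rfl fun s _ => Finset.sum_congr rfl fun l _ => by ring

private lemma abs_eq (φ : V →+* T) (ξ : n → T)
    (hind : ∀ v : n → V, ∑ s, φ (v s) * ξ s = 0 → v = 0) (v w : n → V)
    (h : ∑ s, φ (v s) * ξ s = ∑ s, φ (w s) * ξ s) : v = w := by
  have := hind (v - w) (by
    simp only [Pi.sub_apply, map_sub, sub_mul, Finset.sum_sub_distrib, h, sub_self])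
  exact sub_eq_zero.1 this

private lemma abs_UQ (φ : V →+* T) (ξ : n → T) (β : N → T) (ω : T)
    (hind : ∀ v : n → V, ∑ s, φ (v s) * ξ s = 0 → v = 0)
    (Q : Matrix n N V) (U : Matrix n n V) (M : Matrix N N V) (s₀ : V)
    (hQ : ∀ i, β i = ∑ s, φ (Q s i) * ξ s) (hU : ∀ s, ω * ξ s = ∑ s', φ (U s' s) * ξ s')
    (hM : ∀ i, φ s₀ * (ω * β i) = ∑ l, φ (M l i) * β l) : s₀ • (U * Q) = Q * M := by
  ext s i
  have h1 := abs_comp φ ξ β Q hQ fun l => M l i
  have h2 := abs_comp φ ξ (fun s => ω * ξ s) U hU fun l => Q l i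
  have h3 : ω * β i = ∑ l, φ (Q l i) * (ω * ξ l) := by
    rw [hQ i, Finset.mul_sum]
    exact Finset.sum_congr rfl fun l _ => by ring
  have h4 := abs_eq φ ξ hind (fun s => s₀ * ∑ l, U s l * Q l i) (fun s => ∑ l, Q s l * M l i) (by
    rw [← h1, ← hM i, h3, h2, Finset.mul_sum]
    exact Finset.sum_congr rfl fun l _ => by rw [map_mul, mul_assoc])
  simpa [Matrix.mul_apply] using congrFun h4 s

private lemma abs_QW [DecidableEq n] (φ : V →+* T) (ξ : n → T) (β : N → T)
    (hind : ∀ v : n → V, ∑ s, φ (v s) * ξ s = 0 → v = 0)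
    (Q : Matrix n N V) (W : Matrix N n V) (s₀ : V)
    (hQ : ∀ i, β i = ∑ s, φ (Q s i) * ξ s)
    (hW : ∀ s, φ s₀ * ξ s = ∑ l, φ (W l s) * β l) : Q * W = s₀ • (1 : Matrix n n V) := by
  ext s' s
  have h1 := abs_comp φ ξ β Q hQ fun l => W l s
  have h4 := abs_eq φ ξ hind (fun s' => ∑ l, Q s' l * W l s) (fun s' => if s' = s then s₀ else 0) (by
    rw [← h1, ← hW s]
    simp [apply_ite φ])
  simpa [Matrix.mul_apply, Matrix.one_apply] using congrFun h4 s'

end Abstract

theorem lim_finite {K A ι N : Type*} [Field K] [CommRing A] [Algebra K A] [Fintype N]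
    (f g : ι → A) (b : N → A)
    (hspan : ∀ x : A, ∃ (c : ℕ) (v : N → PowerSeries K),
      PowerSeries.X ^ c * PowerSeries.C x -
        ∑ i, PowerSeries.map (algebraMap K A) (v i) * PowerSeries.C (b i) ∈ defI f g) :
    Module.Finite K (A ⧸ limI f g) ∧ Module.finrank K (A ⧸ limI f g) ≤ Fintype.card N := by
  have hr : Module.rank K (A ⧸ limI f g) ≤ (Fintype.card N : ℕ) := by
    refine rank_le fun s hs => ?_
    choose x hx using fun i : s => Ideal.Quotient.mk_surjective (I := limI f g) i.1
    have hx' : LinearIndependent K fun i : s => Ideal.Quotient.mk (limI f g) (x i) := by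
      simpa only [hx] using hs
    choose c W hW using fun i : s => hspan (x i)
    have hW' : LinearIndependent (PowerSeries K) W := by
      refine Fintype.linearIndependent_iff.2 fun a ha i => ?_
      have h1 : comb x (fun i => a i * PowerSeries.X ^ c i) ∈ defI f g := by
        have h2 : comb x (fun i => a i * PowerSeries.X ^ c i) =
            ∑ i, PowerSeries.map (algebraMap K A) (a i) *
              (PowerSeries.X ^ c i * PowerSeries.C (x i) -
                ∑ l, PowerSeries.map (algebraMap K A) (W i l) * PowerSeries.C (b l)) := by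
          have h3 : ∑ i, PowerSeries.map (algebraMap K A) (a i) *
              ∑ l, PowerSeries.map (algebraMap K A) (W i l) * PowerSeries.C (b l) = 0 := by
            simp only [Finset.mul_sum]
            rw [Finset.sum_comm]
            refine Finset.sum_eq_zero fun l _ => ?_
            have h4 := congrArg (PowerSeries.map (algebraMap K A)) (congrFun ha l)
            simp only [Finset.sum_apply, Pi.smul_apply, smul_eq_mul, map_sum, map_mul,
              Pi.zero_apply, map_zero] at h4
            simp only [← mul_assoc]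
            rw [← Finset.sum_mul, h4, zero_mul]
          simp only [mul_sub, Finset.sum_sub_distrib, h3, sub_zero, comb, map_mul, map_pow,
            PowerSeries.map_X, mul_assoc]
        rw [h2]
        exact Ideal.sum_mem _ fun i _ => Ideal.mul_mem_left _ _ (hW i)
      have h5 := key_indep (satur (defI f g)) (limI f g) (satur_sat _)
        (fun y hy => Ideal.mem_map_of_mem _ hy) x hx' _ (le_satur _ h1)
      have h6 := congrFun h5 i
      simp only [Pi.zero_apply, mul_eq_zero] at h6
      exact h6.resolve_right (pow_ne_zero _ PowerSeries.X_ne_zero)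
    have := hW'.fintype_card_le_finrank
    simpa using this
  have hfin : Module.Finite K (A ⧸ limI f g) :=
    Module.rank_lt_aleph0_iff.1 (hr.trans_lt (Cardinal.natCast_lt_aleph0))
  exact ⟨hfin, Module.finrank_le_of_rank_le hr⟩

theorem lim_charpoly {K A ι N : Type*} [Field K] [CommRing A] [Algebra K A] [Fintype N]
    [DecidableEq N] (f g : ι → A) (b : N → A)
    (hspan : ∀ x : A, ∃ (c : ℕ) (v : N → PowerSeries K),
      PowerSeries.X ^ c * PowerSeries.C x -
        ∑ i, PowerSeries.map (algebraMap K A) (v i) * PowerSeries.C (b i) ∈ defI f g)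
    (u : A) (c : ℕ) (M : Matrix N N (PowerSeries K))
    (hM : ∀ i, PowerSeries.X ^ c * PowerSeries.C (u * b i) -
        ∑ l, PowerSeries.map (algebraMap K A) (M l i) * PowerSeries.C (b l) ∈ defI f g)
    (a : ℕ) (Δ' : Polynomial (PowerSeries K))
    (hΔ : (pencil (PowerSeries.X ^ c) M).det = Polynomial.C (PowerSeries.X ^ a) * Δ')
    [Module.Finite K (A ⧸ limI f g)] :
    (LinearMap.mulLeft K (Ideal.Quotient.mk (limI f g) u)).charpoly ∣
      Δ'.map (PowerSeries.constantCoeff (R := K)) := by
  classical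
  let B := Module.finBasis K (A ⧸ limI f g)
  choose x hx using fun s => Ideal.Quotient.mk_surjective (I := limI f g) (B s)
  have hx' : LinearIndependent K fun s => Ideal.Quotient.mk (limI f g) (x s) := by
    simpa only [hx] using B.linearIndependent
  have hmk : ∀ cf : Fin (Module.finrank K (A ⧸ limI f g)) → K,
      Ideal.Quotient.mk (limI f g) (∑ s, cf s • x s) = ∑ s, cf s • B s := by
    intro cf
    rw [map_sum]
    refine Finset.sum_congr rfl fun s _ => ?_
    rw [← hx s]
    exact map_smul (Ideal.Quotient.mkₐ K (limI f g)) _ _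
  have hsp : ∀ y : PowerSeries A, ∃ v, y - comb (K := K) x v ∈ clo (satur (defI f g)) := by
    refine key_span _ x fun a => ⟨fun s => B.repr (Ideal.Quotient.mk _ a) s, ?_⟩
    change _ ∈ limI f g
    rw [← Ideal.Quotient.eq, hmk, B.sum_repr]
  set D := clo (satur (defI f g)) with hD
  have hle : defI f g ≤ D := (le_satur _).trans (le_clo _)
  let φ : PowerSeries K →+* PowerSeries A ⧸ D :=
    (Ideal.Quotient.mk D).comp (PowerSeries.map (algebraMap K A))
  have hφ : ∀ {m : Type _} [Fintype m] (z : m → A) (v : m → PowerSeries K),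
      Ideal.Quotient.mk D (comb z v) =
        ∑ s, φ (v s) * Ideal.Quotient.mk D (PowerSeries.C (z s)) := by
    intro m _ z v
    simp [comb, φ]
  have hφN : ∀ (v : N → PowerSeries K),
      Ideal.Quotient.mk D (∑ l, PowerSeries.map (algebraMap K A) (v l) * PowerSeries.C (b l)) =
        ∑ s, φ (v s) * Ideal.Quotient.mk D (PowerSeries.C (b s)) := by
    intro v
    simp [φ]
  have hind : ∀ v : Fin (Module.finrank K (A ⧸ limI f g)) → PowerSeries K,
      ∑ s, φ (v s) * Ideal.Quotient.mk D (PowerSeries.C (x s)) = 0 → v = 0 := by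
    intro v hv
    rw [← hφ, Ideal.Quotient.eq_zero_iff_mem] at hv
    exact key_indep D (limI f g) (clo_sat _ (satur_sat _)) (clo_cc _) x hx' v hv
  choose Q hQ using fun i => hsp (PowerSeries.C (b i))
  choose U hU using fun s => hsp (PowerSeries.C (u * x s))
  choose e W hW using fun s => hspan (x s)
  have hQ' : ∀ i, Ideal.Quotient.mk D (PowerSeries.C (b i)) =
      ∑ s, φ ((Matrix.of fun s i => Q i s) s i) * Ideal.Quotient.mk D (PowerSeries.C (x s)) := by
    intro i
    rw [Ideal.Quotient.eq.2 (hQ i), hφ]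
    rfl
  have hUQ := abs_UQ φ (fun s => Ideal.Quotient.mk D (PowerSeries.C (x s)))
    (fun i => Ideal.Quotient.mk D (PowerSeries.C (b i))) (Ideal.Quotient.mk D (PowerSeries.C u))
    hind (Matrix.of fun s i => Q i s) (Matrix.of fun s' s => U s s') M (PowerSeries.X ^ c) hQ'
    (by
      intro s
      rw [← map_mul, ← map_mul, Ideal.Quotient.eq.2 (hU s), hφ]
      rfl)
    (by
      intro i
      rw [← hφN fun l => M l i, ← Ideal.Quotient.eq.2 (hle (hM i))]
      simp [φ])
  have hQW := abs_QW φ (fun s => Ideal.Quotient.mk D (PowerSeries.C (x s)))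
    (fun i => Ideal.Quotient.mk D (PowerSeries.C (b i))) hind (Matrix.of fun s i => Q i s)
    (Matrix.of fun l s => PowerSeries.X ^ (∑ s', e s' - e s) * W s l)
    (PowerSeries.X ^ (∑ s', e s')) hQ'
    (by
      intro s
      have h1 : e s ≤ ∑ s', e s' :=
        Finset.single_le_sum (f := e) (fun _ _ => Nat.zero_le _) (Finset.mem_univ s)
      have h2 := Ideal.Quotient.eq.2 (hle (hW s))
      rw [hφN] at h2
      simp only [Matrix.of_apply, map_mul, mul_assoc]
      rw [← Finset.mul_sum, ← h2]
      conv_lhs => rw [← Nat.sub_add_cancel h1, pow_add, map_mul, mul_assoc]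
      simp [φ])
  have hdvd := charpoly_dvd_pencil (PowerSeries.X ^ c) (PowerSeries.X ^ (∑ s', e s'))
    (PowerSeries.X ^ a) (pow_ne_zero _ PowerSeries.X_ne_zero)
    (pow_ne_zero _ PowerSeries.X_ne_zero) (pow_ne_zero _ PowerSeries.X_ne_zero) _ M _ _ hUQ hQW
    Δ' hΔ
  have hmat : LinearMap.toMatrix B B (LinearMap.mulLeft K (Ideal.Quotient.mk (limI f g) u)) =
      (Matrix.of fun s' s => U s s').map (PowerSeries.constantCoeff (R := K)) := by
    ext s' s
    have h1 := clo_cc _ _ (hU s)
    rw [map_sub, cc_comb, PowerSeries.constantCoeff_C] at h1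
    have h2 := Ideal.Quotient.eq.2 (show _ ∈ limI f g from h1)
    rw [hmk, map_mul, hx] at h2
    rw [LinearMap.toMatrix_apply, LinearMap.mulLeft_apply, h2, B.repr_sum_self]
    rfl
  rw [← LinearMap.charpoly_toMatrix _ B, hmat, Matrix.charpoly_map]
  exact Polynomial.map_dvd _ hdvd

end Pool.Agent.P.MP_c8ecb2_nt.RP
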