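import Mathlib
import Pool.Agent.P.MP_c8ecb2_nt.RP.Limit
import Pool.Agent.P.MP_c8ecb2_nt.RP.Split

set_option autoImplicit false

namespace Pool.Agent.P.MP_c8ecb2_nt.RP

open MvPolynomial

/-- If `u - β` is nilpotent in a finite algebra, multiplication by `u` has characteristic
polynomial a power of `X - β`. -/
theorem charpoly_mulLeft_of_nilpotent {K W : Type*} [Field K] [CommRing W] [Algebra K W]
    [Module.Finite K W] (u : W) (β : K) (h : IsNilpotent (u - algebraMap K W β)) :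
    (LinearMap.mulLeft K u).charpoly =
      (Polynomial.X - Polynomial.C β) ^ Module.finrank K W := by
  have h1 : IsNilpotent (LinearMap.mulLeft K (u - algebraMap K W β) : Module.End K W) := by
    obtain ⟨n, hn⟩ := h
    exact ⟨n, by rw [LinearMap.pow_mulLeft, hn]; ext; simp⟩
  have h2 : (LinearMap.mulLeft K u : Module.End K W) =
      LinearMap.mulLeft K (u - algebraMap K W β) - (-β) • (1 : Module.End K W) := by
    ext x
    simp [sub_mul, Algebra.smul_def]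
  rw [h2, LinearMap.charpoly_sub_smul, h1.charpoly_eq_X_pow_finrank]
  simp [sub_eq_add_neg]

theorem conserve_card {K A ι N : Type*} [Field K] [CommRing A] [Algebra K A] [IsNoetherianRing A]
    [Fintype ι] [Fintype N] (f g : ι → A) (𝔫 : Ideal A) (h𝔫 : 𝔫.IsMaximal)
    [Module.Finite K (A ⧸ 𝔫)] (hmin : 𝔫 ∈ (Ideal.span (Set.range f)).minimalPrimes) (μ : ℝ)
    (hμ : LowMult K f 𝔫 μ) (b : N → A)
    (hspan : ∀ x : A, ∃ (c : ℕ) (v : N → PowerSeries K),
      PowerSeries.X ^ c * PowerSeries.C x -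
        ∑ i, PowerSeries.map (algebraMap K A) (v i) * PowerSeries.C (b i) ∈ defI f g) :
    μ ≤ 2 ^ Fintype.card ι * (Fintype.card N : ℝ) := by
  obtain ⟨L, hL⟩ := lim_lower f g 𝔫 h𝔫 hmin μ hμ
  obtain ⟨hfin, hle⟩ := lim_finite (K := K) f g b hspan
  have h1 : Module.finrank K (A ⧸ (limI f g ⊔ 𝔫 ^ L)) ≤ Module.finrank K (A ⧸ limI f g) :=
    LinearMap.finrank_le_finrank_of_surjective
      (f := (Ideal.Quotient.factorₐ K (le_sup_left : limI f g ≤ limI f g ⊔ 𝔫 ^ L)).toLinearMap)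
      (Ideal.Quotient.factor_surjective le_sup_left)
  refine hL.trans (mul_le_mul_of_nonneg_left ?_ (by positivity))
  exact_mod_cast h1.trans hle

theorem conserve {K A ι N : Type*} [Field K] [CommRing A] [Algebra K A] [IsNoetherianRing A]
    [Fintype ι] [Fintype N] [DecidableEq N] (f g : ι → A) (𝔫 : Ideal A) (h𝔫 : 𝔫.IsMaximal)
    [Module.Finite K (A ⧸ 𝔫)] (hmin : 𝔫 ∈ (Ideal.span (Set.range f)).minimalPrimes) (μ : ℝ)
    (hμ : LowMult K f 𝔫 μ) (b : N → A)
    (hspan : ∀ x : A, ∃ (c : ℕ) (v : N → PowerSeries K),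
      PowerSeries.X ^ c * PowerSeries.C x -
        ∑ i, PowerSeries.map (algebraMap K A) (v i) * PowerSeries.C (b i) ∈ defI f g)
    (u : A) (c : ℕ) (M : Matrix N N (PowerSeries K))
    (hM : ∀ i, PowerSeries.X ^ c * PowerSeries.C (u * b i) -
        ∑ l, PowerSeries.map (algebraMap K A) (M l i) * PowerSeries.C (b l) ∈ defI f g)
    (a : ℕ) (Δ' : Polynomial (PowerSeries K))
    (hΔ : (pencil (PowerSeries.X ^ c) M).det = Polynomial.C (PowerSeries.X ^ a) * Δ')
    (β : K) (hβ : u - algebraMap K A β ∈ 𝔫) :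
    ∃ ρ : ℕ, μ ≤ 2 ^ Fintype.card ι * (ρ : ℝ) ∧
      (Polynomial.X - Polynomial.C β) ^ ρ ∣ Δ'.map (PowerSeries.constantCoeff (R := K)) := by
  obtain ⟨L, hL⟩ := lim_lower f g 𝔫 h𝔫 hmin μ hμ
  obtain ⟨hfin, -⟩ := lim_finite (K := K) f g b hspan
  let π : (A ⧸ limI f g) →ₗ[K] (A ⧸ (limI f g ⊔ 𝔫 ^ L)) :=
    (Ideal.Quotient.factorₐ K (le_sup_left : limI f g ≤ limI f g ⊔ 𝔫 ^ L)).toLinearMap
  have hπ : Function.Surjective π := Ideal.Quotient.factor_surjective le_sup_left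
  have hfin' : Module.Finite K (A ⧸ (limI f g ⊔ 𝔫 ^ L)) := Module.Finite.of_surjective π hπ
  refine ⟨_, hL, ?_⟩
  have hnil : IsNilpotent (Ideal.Quotient.mk (limI f g ⊔ 𝔫 ^ L) u -
      algebraMap K (A ⧸ (limI f g ⊔ 𝔫 ^ L)) β) := by
    refine ⟨L, ?_⟩
    rw [← Ideal.Quotient.mk_algebraMap, ← map_sub, ← map_pow, Ideal.Quotient.eq_zero_iff_mem]
    exact Ideal.mem_sup_right (Ideal.pow_mem_pow hβ L)
  rw [← charpoly_mulLeft_of_nilpotent _ β hnil]
  refine (charpoly_dvd_of_surjective π hπ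
    (LinearMap.mulLeft K (Ideal.Quotient.mk (limI f g) u)) _ ?_).trans
    (lim_charpoly f g b hspan u c M hM a Δ' hΔ)
  refine LinearMap.ext fun x => ?_
  obtain ⟨x, rfl⟩ := Ideal.Quotient.mk_surjective x
  simp [π]

end Pool.Agent.P.MP_c8ecb2_nt.RP
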