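import Mathlib
import Pool.Agent.P.MP_c8ecb2_nt.RP.Norm

set_option autoImplicit false

namespace Pool.Agent.P.MP_c8ecb2_nt.RP

open MvPolynomial

theorem normal_form {ι S T : Type*} [Fintype ι] [DecidableEq ι] [CommRing S] [CommRing T]
    {ν : S → ℝ} (hν : IsNrm ν) (f : ι → MvPolynomial ι S) (d : ι → ℕ) (hdpos : ∀ i, 0 < d i)
    (hdeg : ∀ j i, degreeOf i (f j) ≤ d i) (s : ℝ) (hs : 1 ≤ s)
    (hf : ∀ j, wn ν (fun _ => 1) (f j) ≤ s) (ψ : Polynomial S →+* T) (x : ι → T) (G : Ideal T)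
    (hG : ∀ j, eval₂ (ψ.comp Polynomial.C) x (f j) +
      ψ Polynomial.X * x j ^ ((Fintype.card ι + 1) * d j) ∈ G)
    (c : ℕ) (e : ι → ℕ) (he : ∑ i, (e i : ℝ) / d i ≤ c) :
    ∃ v : ((i : ι) → Fin ((Fintype.card ι + 1) * d i)) → Polynomial S,
      ψ Polynomial.X ^ c * ∏ i, x i ^ e i - ∑ e', ψ (v e') * ∏ i, x i ^ (e' i : ℕ) ∈ G ∧
      ∑ e', pn ν (v e') * s ^ (∑ i, ((e' i : ℕ) : ℝ) / d i) ≤ s ^ (∑ i, (e i : ℝ) / d i) := by
  classical
  have hs0 : 0 < s := zero_lt_one.trans_le hs
  have small : ∀ (c : ℕ) (e : ι → ℕ), (∀ i, e i < (Fintype.card ι + 1) * d i) →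
      ∃ v : ((i : ι) → Fin ((Fintype.card ι + 1) * d i)) → Polynomial S,
      ψ Polynomial.X ^ c * ∏ i, x i ^ e i - ∑ e', ψ (v e') * ∏ i, x i ^ (e' i : ℕ) ∈ G ∧
      ∑ e', pn ν (v e') * s ^ (∑ i, ((e' i : ℕ) : ℝ) / d i) ≤ s ^ (∑ i, (e i : ℝ) / d i) := by
    intro c e h
    refine ⟨Pi.single (fun i => ⟨e i, h i⟩) (Polynomial.X ^ c), ?_, ?_⟩
    · rw [Finset.sum_eq_single (fun i => (⟨e i, h i⟩ : Fin _))
        (fun b _ hb => by rw [Pi.single_eq_of_ne hb, map_zero, zero_mul]) (by simp)]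
      simp
    · rw [Finset.sum_eq_single (fun i => (⟨e i, h i⟩ : Fin _))
        (fun b _ hb => by rw [Pi.single_eq_of_ne hb, (isNrm_pn hν).zero, zero_mul]) (by simp),
        Pi.single_eq_same]
      refine mul_le_of_le_one_left (Real.rpow_nonneg hs0.le _) ?_
      simpa using (isNrm_pn hν).pow_le' (pn_X_le hν) c
  have big : ∀ (e : ι → ℕ) (j : ι), (Fintype.card ι + 1) * d j ≤ e j → ∃ r : ι → ℕ,
      ∏ i, x i ^ e i = x j ^ ((Fintype.card ι + 1) * d j) * ∏ i, x i ^ r i ∧
      ∑ i, (e i : ℝ) / d i = (Fintype.card ι + 1) + ∑ i, (r i : ℝ) / d i := by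
    intro e j h
    obtain ⟨r, hr⟩ : ∃ r : ι → ℕ, e = Pi.single j ((Fintype.card ι + 1) * d j) + r := by
      refine ⟨fun i => e i - (Pi.single j ((Fintype.card ι + 1) * d j) : ι → ℕ) i, ?_⟩
      funext i
      by_cases hi : i = j
      · subst hi; simp only [Pi.add_apply, Pi.single_eq_same]; omega
      · simp [Pi.single_eq_of_ne hi]
    refine ⟨r, ?_, ?_⟩
    · rw [hr]
      simp only [Pi.add_apply, pow_add, Finset.prod_mul_distrib]
      rw [Finset.prod_eq_single j (fun b _ hb => by rw [Pi.single_eq_of_ne hb, pow_zero]) (by simp),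
        Pi.single_eq_same]
    · rw [hr]
      simp only [Pi.add_apply, Nat.cast_add, add_div, Finset.sum_add_distrib]
      rw [Finset.sum_eq_single j (fun b _ hb => by rw [Pi.single_eq_of_ne hb]; simp) (by simp),
        Pi.single_eq_same]
      have : (d j : ℝ) ≠ 0 := by exact_mod_cast (hdpos j).ne'
      push_cast
      field_simp
  have hw : ∀ r : ι → ℕ, 0 ≤ ∑ i, (r i : ℝ) / d i := fun r =>
    Finset.sum_nonneg fun i _ => by positivity
  induction c generalizing e with
  | zero =>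
    refine small 0 e fun j => not_le.1 fun h => ?_
    obtain ⟨r, -, h2⟩ := big e j h
    have := hw r
    have h3 : (0 : ℝ) ≤ Fintype.card ι := Nat.cast_nonneg _
    rw [Nat.cast_zero] at he
    linarith
  | succ c ih =>
    by_cases h : ∀ i, e i < (Fintype.card ι + 1) * d i
    · exact small _ e h
    obtain ⟨j, hj⟩ := not_forall.1 h
    obtain ⟨r, h1, h2⟩ := big e j (not_lt.1 hj)
    have hwa : ∀ a ∈ (f j).support,
        ∑ i, ((r i + a i : ℕ) : ℝ) / d i ≤ ∑ i, (e i : ℝ) / d i - 1 := by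
      intro a ha
      have h3 : ∑ i, (a i : ℝ) / d i ≤ ∑ _i : ι, (1 : ℝ) := Finset.sum_le_sum fun i _ =>
        div_le_one_of_le₀ (by exact_mod_cast (monomial_le_degreeOf i ha).trans (hdeg j i))
          (Nat.cast_nonneg _)
      simp only [Finset.sum_const, Finset.card_univ, nsmul_eq_mul, mul_one] at h3
      simp only [Nat.cast_add, add_div, Finset.sum_add_distrib]
      linarith
    have key := fun (a : ι →₀ ℕ) (ha : a ∈ (f j).support) =>
      ih (fun i => r i + a i) (by have := hwa a ha; push_cast at he this ⊢; linarith)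
    choose! v hv1 hv2 using key
    refine ⟨fun e' => ∑ a ∈ (f j).support, -(Polynomial.C (coeff a (f j)) * v a e'), ?_, ?_⟩
    · have e1 : ψ Polynomial.X ^ (c + 1) * ∏ i, x i ^ e i -
          ∑ e', ψ (∑ a ∈ (f j).support, -(Polynomial.C (coeff a (f j)) * v a e')) *
            ∏ i, x i ^ (e' i : ℕ) =
          (ψ Polynomial.X ^ c * ∏ i, x i ^ r i) * (eval₂ (ψ.comp Polynomial.C) x (f j) +
            ψ Polynomial.X * x j ^ ((Fintype.card ι + 1) * d j)) -
          ∑ a ∈ (f j).support, ψ (Polynomial.C (coeff a (f j))) *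
            (ψ Polynomial.X ^ c * ∏ i, x i ^ (r i + a i) -
              ∑ e', ψ (v a e') * ∏ i, x i ^ (e' i : ℕ)) := by
        rw [eval₂_eq', h1]
        simp only [map_sum, map_neg, map_mul, Finset.sum_mul, mul_sub, Finset.sum_sub_distrib,
          mul_add, Finset.mul_sum, pow_add, Finset.prod_mul_distrib, RingHom.comp_apply, neg_mul,
          Finset.sum_neg_distrib]
        rw [Finset.sum_comm]
        have e2 : ∀ a : ι →₀ ℕ, (ψ Polynomial.X ^ c * ∏ i, x i ^ r i) *
            (ψ (Polynomial.C (coeff a (f j))) * ∏ i, x i ^ a i) =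
            ψ (Polynomial.C (coeff a (f j))) *
              (ψ Polynomial.X ^ c * ((∏ i, x i ^ r i) * ∏ i, x i ^ a i)) := fun a => by ring
        simp only [e2, mul_assoc (ψ (Polynomial.C _))]
        ring
      rw [e1]
      exact G.sub_mem (G.mul_mem_left _ (hG j))
        (G.sum_mem fun a ha => G.mul_mem_left _ (hv1 a ha))
    · calc _ ≤ ∑ e' : (i : ι) → Fin ((Fintype.card ι + 1) * d i), ∑ a ∈ (f j).support,
            ν (coeff a (f j)) * (pn ν (v a e') * s ^ (∑ i, ((e' i : ℕ) : ℝ) / d i)) := by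
            refine Finset.sum_le_sum fun e' _ => ?_
            simp only [← mul_assoc]
            rw [← Finset.sum_mul]
            refine mul_le_mul_of_nonneg_right ((pn_sum_le hν _ _).trans
              (Finset.sum_le_sum fun a _ => ?_)) (Real.rpow_nonneg hs0.le _)
            rw [(isNrm_pn hν).neg, ← pn_C hν]
            exact (isNrm_pn hν).mul_le _ _
        _ ≤ ∑ a ∈ (f j).support, ν (coeff a (f j)) * s ^ (∑ i, (e i : ℝ) / d i - 1) := by
            rw [Finset.sum_comm]
            refine Finset.sum_le_sum fun a ha => ?_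
            rw [← Finset.mul_sum]
            exact mul_le_mul_of_nonneg_left ((hv2 a ha).trans
              (Real.rpow_le_rpow_of_exponent_le hs (hwa a ha))) (hν.nonneg _)
        _ ≤ s * s ^ (∑ i, (e i : ℝ) / d i - 1) := by
            rw [← Finset.sum_mul]
            refine mul_le_mul_of_nonneg_right ?_ (Real.rpow_nonneg hs0.le _)
            have := hf j
            simpa only [wn, mw_one, mul_one] using this
        _ = _ := by
            rw [Real.rpow_sub_one hs0.ne']
            field_simp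

end Pool.Agent.P.MP_c8ecb2_nt.RP
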