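import Mathlib
import Pool.Agent.P.MP_c8ecb2_nt.RP.NormalForm
import Pool.Agent.P.MP_c8ecb2_nt.RP.Conserve

set_option autoImplicit false

namespace Pool.Agent.P.MP_c8ecb2_nt.RP

open MvPolynomial

private theorem elim_split {S : Type*} [CommRing S] [Nontrivial S]
    (Δ : Polynomial (Polynomial S)) (hΔ : Δ ≠ 0) :
    ∃ (a : ℕ) (Δ' : Polynomial (Polynomial S)), Δ = Polynomial.C (Polynomial.X ^ a) * Δ' ∧
      Δ'.map Polynomial.constantCoeff ≠ 0 := by
  classical
  have hex : ∃ n : ℕ, ¬ (Polynomial.C (Polynomial.X ^ (n + 1) : Polynomial S) ∣ Δ) := by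
    obtain ⟨i, hi⟩ : ∃ i, Δ.coeff i ≠ 0 := by
      by_contra h
      push Not at h
      exact hΔ (Polynomial.ext fun i => by simpa using h i)
    refine ⟨(Δ.coeff i).natDegree, fun h => ?_⟩
    rw [Polynomial.C_dvd_iff_dvd_coeff] at h
    have h1 := Polynomial.X_pow_dvd_iff.mp (h i) (Δ.coeff i).natDegree (Nat.lt_succ_self _)
    exact hi (Polynomial.leadingCoeff_eq_zero.mp h1)
  have h0 : Polynomial.C (Polynomial.X ^ (Nat.find hex) : Polynomial S) ∣ Δ := by
    rcases Nat.eq_zero_or_pos (Nat.find hex) with h | h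
    · rw [h]; simp
    · have := Nat.find_min hex (m := Nat.find hex - 1) (by omega)
      rw [show Nat.find hex - 1 + 1 = Nat.find hex by omega] at this
      exact not_not.mp this
  obtain ⟨Δ', hΔ'⟩ := h0
  refine ⟨Nat.find hex, Δ', hΔ', fun h => Nat.find_spec hex ?_⟩
  have h1 : Polynomial.C (Polynomial.X : Polynomial S) ∣ Δ' := by
    rw [Polynomial.C_dvd_iff_dvd_coeff]
    intro i
    rw [Polynomial.X_dvd_iff]
    have := congrArg (fun p => Polynomial.coeff p i) h
    simpa using this
  obtain ⟨q, hq⟩ := h1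
  refine ⟨q, ?_⟩
  conv_lhs => rw [hΔ', hq]
  rw [pow_succ, map_mul, mul_assoc]

private theorem elim_det_ne {S N : Type*} [CommRing S] [Nontrivial S] [Fintype N] [DecidableEq N]
    (c : ℕ) (M : Matrix N N (Polynomial S)) :
    (pencil (Polynomial.X ^ c : Polynomial S) M).det ≠ 0 := by
  intro h
  have h1 := Polynomial.coeff_det_X_add_C_card
    (Matrix.scalar N (Polynomial.X ^ c : Polynomial S)) (-M)
  have h2 : (Polynomial.X : Polynomial (Polynomial S)) •
      (Matrix.scalar N (Polynomial.X ^ c : Polynomial S)).map Polynomial.C +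
        (-M).map Polynomial.C = pencil (Polynomial.X ^ c : Polynomial S) M := by
    ext l i : 2
    by_cases hli : l = i
    · subst hli
      simp [pencil, mul_comm, sub_eq_add_neg]
    · simp [pencil, hli]
  rw [h2, h, Matrix.scalar_apply, Matrix.det_diagonal, Finset.prod_const, ← pow_mul] at h1
  exact (Polynomial.monic_X_pow (R := S) _).ne_zero (by simpa using h1.symm)

private theorem elim_pencil_map {V W N : Type*} [CommRing V] [CommRing W] [Fintype N]
    [DecidableEq N] (φ : V →+* W) (s : V) (M : Matrix N N V) :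
    (pencil (φ s) (M.map φ)).det = (pencil s M).det.map φ := by
  rw [← Polynomial.coe_mapRingHom, RingHom.map_det]
  congr 1
  ext l i : 2
  by_cases hli : l = i
  · subst hli
    simp [pencil]
  · simp [pencil, hli]

private theorem elim_norm {S N : Type*} [CommRing S] [Fintype N] [DecidableEq N]
    {ν : S → ℝ} (hν : IsNrm ν) (c : ℕ) (M : Matrix N N (Polynomial S)) (ω : N → ℝ)
    (hω : ∀ i, 0 < ω i) (B : ℝ) (hB : 1 ≤ B)
    (hM : ∀ i, ∑ l, pn ν (M l i) * ω l ≤ ω i * B) :
    pn (pn ν) (pencil (Polynomial.X ^ c : Polynomial S) M).det ≤ (2 * B) ^ Fintype.card N := by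
  have h1 := isNrm_pn hν
  have h2 := isNrm_pn h1
  refine (h2.det_le _ ω hω).trans ?_
  rw [← Finset.card_univ, ← Finset.prod_const]
  refine Finset.prod_le_prod (fun i _ => Finset.sum_nonneg fun l _ =>
    div_nonneg (mul_nonneg (h2.nonneg _) (hω l).le) (hω i).le) fun i _ => ?_
  have h3 : ∀ l, pn (pn ν) (pencil (Polynomial.X ^ c : Polynomial S) M l i) ≤
      (if l = i then 1 else 0) + pn ν (M l i) := by
    intro l
    have h4 : pencil (Polynomial.X ^ c : Polynomial S) M l i =
        (if l = i then Polynomial.C (Polynomial.X ^ c) * Polynomial.X else 0) -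
          Polynomial.C (M l i) := by
      by_cases hli : l = i
      · subst hli
        simp [pencil]
      · simp [pencil, hli]
    rw [h4]
    refine (h2.sub_le _ _).trans ?_
    rw [pn_C h1]
    gcongr
    split_ifs
    · have h5 : pn (pn ν) (Polynomial.C (Polynomial.X ^ c : Polynomial S)) ≤ 1 := by
        rw [pn_C h1]
        simpa using h1.pow_le' (pn_X_le hν) c
      simpa using h2.mul_le' h5 (pn_X_le h1)
    · exact h2.zero.le
  calc ∑ l, pn (pn ν) (pencil (Polynomial.X ^ c : Polynomial S) M l i) * ω l / ω i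
      ≤ ∑ l, ((if l = i then 1 else 0) + pn ν (M l i)) * ω l / ω i := by
        refine Finset.sum_le_sum fun l _ => ?_
        exact div_le_div_of_nonneg_right (mul_le_mul_of_nonneg_right (h3 l) (hω l).le) (hω i).le
    _ = (ω i + ∑ l, pn ν (M l i) * ω l) / ω i := by
        rw [← Finset.sum_div]
        congr 1
        simp [add_mul, Finset.sum_add_distrib]
    _ ≤ (ω i + ω i * B) / ω i := by
        exact div_le_div_of_nonneg_right (by linarith [hM i]) (hω i).le
    _ = 1 + B := by
        have := (hω i).ne'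
        field_simp
    _ ≤ 2 * B := by linarith

private theorem elim_span_smul {K A N : Type*} [Field K] [CommRing A] [Algebra K A] [Fintype N]
    (G : Ideal (PowerSeries A)) (b : N → A) (r : K) (y : A)
    (h : ∃ (c : ℕ) (v : N → PowerSeries K), PowerSeries.X ^ c * PowerSeries.C y -
      ∑ i, PowerSeries.map (algebraMap K A) (v i) * PowerSeries.C (b i) ∈ G) :
    ∃ (c : ℕ) (v : N → PowerSeries K), PowerSeries.X ^ c * PowerSeries.C (algebraMap K A r * y) -
      ∑ i, PowerSeries.map (algebraMap K A) (v i) * PowerSeries.C (b i) ∈ G := by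
  obtain ⟨c, v, hv⟩ := h
  refine ⟨c, fun i => PowerSeries.C r * v i, ?_⟩
  have e : PowerSeries.X ^ c * PowerSeries.C (algebraMap K A r * y) -
      ∑ i, PowerSeries.map (algebraMap K A) (PowerSeries.C r * v i) * PowerSeries.C (b i) =
      PowerSeries.C (algebraMap K A r) * (PowerSeries.X ^ c * PowerSeries.C y -
      ∑ i, PowerSeries.map (algebraMap K A) (v i) * PowerSeries.C (b i)) := by
    simp only [map_mul, PowerSeries.map_C, mul_sub, Finset.mul_sum, mul_assoc, mul_left_comm]
  rw [e]
  exact G.mul_mem_left _ hv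

private theorem elim_span_add {K A N : Type*} [Field K] [CommRing A] [Algebra K A] [Fintype N]
    (G : Ideal (PowerSeries A)) (b : N → A) (p q : A)
    (hp : ∃ (c : ℕ) (v : N → PowerSeries K), PowerSeries.X ^ c * PowerSeries.C p -
      ∑ i, PowerSeries.map (algebraMap K A) (v i) * PowerSeries.C (b i) ∈ G)
    (hq : ∃ (c : ℕ) (v : N → PowerSeries K), PowerSeries.X ^ c * PowerSeries.C q -
      ∑ i, PowerSeries.map (algebraMap K A) (v i) * PowerSeries.C (b i) ∈ G) :
    ∃ (c : ℕ) (v : N → PowerSeries K), PowerSeries.X ^ c * PowerSeries.C (p + q) -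
      ∑ i, PowerSeries.map (algebraMap K A) (v i) * PowerSeries.C (b i) ∈ G := by
  obtain ⟨c, v, hv⟩ := hp
  obtain ⟨c', v', hv'⟩ := hq
  refine ⟨c + c', fun i => PowerSeries.X ^ c' * v i + PowerSeries.X ^ c * v' i, ?_⟩
  have e : PowerSeries.X ^ (c + c') * PowerSeries.C (p + q) -
      ∑ i, PowerSeries.map (algebraMap K A)
        (PowerSeries.X ^ c' * v i + PowerSeries.X ^ c * v' i) * PowerSeries.C (b i) =
      PowerSeries.X ^ c' * (PowerSeries.X ^ c * PowerSeries.C p -
        ∑ i, PowerSeries.map (algebraMap K A) (v i) * PowerSeries.C (b i)) +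
      PowerSeries.X ^ c * (PowerSeries.X ^ c' * PowerSeries.C q -
        ∑ i, PowerSeries.map (algebraMap K A) (v' i) * PowerSeries.C (b i)) := by
    simp only [map_add, map_mul, map_pow, PowerSeries.map_X, add_mul, Finset.sum_add_distrib,
      mul_assoc, ← Finset.mul_sum]
    ring
  rw [e]
  exact G.add_mem (G.mul_mem_left _ hv) (G.mul_mem_left _ hv')

theorem elim {ι S K : Type*} [Fintype ι] [DecidableEq ι] [CommRing S] [Nontrivial S] [Field K]
    [Algebra S K] {ν : S → ℝ} (hν : IsNrm ν) (f : ι → MvPolynomial ι S) (d : ι → ℕ)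
    (hdpos : ∀ i, 0 < d i) (hdeg : ∀ j i, degreeOf i (f j) ≤ d i) (s : ℝ) (hs : 1 ≤ s)
    (hf : ∀ j, wn ν (fun _ => 1) (f j) ≤ s) (𝔫 : Ideal (MvPolynomial ι K)) (h𝔫 : 𝔫.IsMaximal)
    [Module.Finite K (MvPolynomial ι K ⧸ 𝔫)]
    (hmin : 𝔫 ∈ (Ideal.span (Set.range fun j => map (algebraMap S K) (f j))).minimalPrimes)
    (μ : ℝ) (hμ : LowMult K (fun j => map (algebraMap S K) (f j)) 𝔫 μ) :
    μ ≤ (2 * (Fintype.card ι + 1) : ℝ) ^ Fintype.card ι * ∏ i, (d i : ℝ) ∧
    ∀ (a : ι) (β : K), X a - C β ∈ 𝔫 → ∃ (ρ : ℕ) (R₀ : Polynomial S), R₀ ≠ 0 ∧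
      μ ≤ 2 ^ Fintype.card ι * (ρ : ℝ) ∧
      (Polynomial.X - Polynomial.C β) ^ ρ ∣ R₀.map (algebraMap S K) ∧
      ∀ i, ν (R₀.coeff i) ≤
        (2 * s ^ (1 / (d a : ℝ))) ^ ((Fintype.card ι + 1) ^ Fintype.card ι * ∏ i, d i) := by
  classical
  set k := Fintype.card ι with hk
  let N := (i : ι) → Fin ((k + 1) * d i)
  let g : ι → MvPolynomial ι K := fun j => X j ^ ((k + 1) * d j)
  let b : N → MvPolynomial ι K := fun e' => ∏ i, X i ^ (e' i : ℕ)
  let φ : Polynomial S →+* PowerSeries K :=
    Polynomial.coeToPowerSeries.ringHom.comp (Polynomial.mapRingHom (algebraMap S K))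
  let ψ : Polynomial S →+* PowerSeries (MvPolynomial ι K) :=
    (PowerSeries.map (algebraMap K (MvPolynomial ι K))).comp φ
  let x : ι → PowerSeries (MvPolynomial ι K) := fun i => PowerSeries.C (X i)
  let G := defI (fun j => map (algebraMap S K) (f j)) g
  have hφX : φ Polynomial.X = PowerSeries.X := by simp [φ]
  have hψX : ψ Polynomial.X = PowerSeries.X := by simp [ψ, hφX]
  have hψ : ∀ p, ψ p = PowerSeries.map (algebraMap K (MvPolynomial ι K)) (φ p) := fun _ => rfl
  have hev : ∀ p : MvPolynomial ι S, eval₂ (ψ.comp Polynomial.C) x p =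
      PowerSeries.C (map (algebraMap S K) p) := by
    intro p
    have : eval₂Hom (ψ.comp Polynomial.C) x =
        (PowerSeries.C (R := MvPolynomial ι K)).comp (map (algebraMap S K)) := by
      refine MvPolynomial.ringHom_ext (fun r => ?_) (fun i => ?_)
      · simp [ψ, φ]
      · simp [x]
    exact RingHom.congr_fun this p
  have hG : ∀ j, eval₂ (ψ.comp Polynomial.C) x (f j) +
      ψ Polynomial.X * x j ^ ((Fintype.card ι + 1) * d j) ∈ G := by
    intro j
    rw [hev, hψX]
    refine Ideal.subset_span ⟨j, ?_⟩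
    simp [x, g, hk]
  have hxb : ∀ e : ι → ℕ, ∏ i, x i ^ e i = PowerSeries.C (∏ i, X i ^ e i) := by
    intro e
    simp [x]
  have hNF := normal_form hν f d hdpos hdeg s hs hf ψ x G hG
  simp only [hxb, hψX] at hNF
  have hcard : Fintype.card N = (k + 1) ^ k * ∏ i, d i := by
    simp [N, Finset.prod_mul_distrib, hk]
  have hspan : ∀ y : MvPolynomial ι K, ∃ (c : ℕ) (v : N → PowerSeries K),
      PowerSeries.X ^ c * PowerSeries.C y -
        ∑ i, PowerSeries.map (algebraMap K (MvPolynomial ι K)) (v i) * PowerSeries.C (b i) ∈ G := by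
    intro y
    induction y using MvPolynomial.induction_on' with
    | monomial e r =>
      obtain ⟨v, hv, -⟩ := hNF ⌈∑ i, (e i : ℝ) / d i⌉₊ e (Nat.le_ceil _)
      have h1 : (monomial e r : MvPolynomial ι K) =
          algebraMap K (MvPolynomial ι K) r * ∏ i, X i ^ e i := by
        rw [monomial_eq, Finsupp.prod_fintype _ _ (fun _ => pow_zero _), algebraMap_eq]
      rw [h1]
      exact elim_span_smul G b r _ ⟨_, fun i => φ (v i), hv⟩
    | add p q hp hq => exact elim_span_add G b p q hp hq
  refine ⟨?_, fun a β hβ => ?_⟩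
  · have := conserve_card (fun j => map (algebraMap S K) (f j)) g 𝔫 h𝔫 hmin μ hμ b hspan
    rw [hcard] at this
    refine this.trans (le_of_eq ?_)
    push_cast
    rw [mul_pow]
    ring
  · let c := k * (k + 1) + 1
    let ex : N → ι → ℕ := fun i j => (i j : ℕ) + if j = a then 1 else 0
    have hda : (0 : ℝ) < d a := by exact_mod_cast hdpos a
    have hw : ∀ i : N, ∑ j, (ex i j : ℝ) / d j = ∑ j, ((i j : ℕ) : ℝ) / d j + 1 / (d a : ℝ) := by
      intro i
      have : ∀ j, (ex i j : ℝ) / d j =
          ((i j : ℕ) : ℝ) / d j + if j = a then 1 / (d a : ℝ) else 0 := by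
        intro j
        by_cases hj : j = a
        · subst hj
          simp [ex, add_div]
        · simp [ex, hj]
      simp [this, Finset.sum_add_distrib]
    have hwc : ∀ i : N, ∑ j, (ex i j : ℝ) / d j ≤ c := by
      intro i
      rw [hw]
      have h1 : ∑ j, ((i j : ℕ) : ℝ) / d j ≤ ∑ _j : ι, ((k : ℝ) + 1) := by
        refine Finset.sum_le_sum fun j _ => ?_
        have hdj : (0 : ℝ) < d j := by exact_mod_cast hdpos j
        rw [div_le_iff₀ hdj]
        exact_mod_cast (i j).2.le
      have h2 : 1 / (d a : ℝ) ≤ 1 := by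
        rw [div_le_one hda]
        exact_mod_cast hdpos a
      rw [Finset.sum_const, Finset.card_univ, ← hk, nsmul_eq_mul] at h1
      simp only [c]
      push_cast
      linarith
    choose v hv1 hv2 using fun i : N => hNF c (ex i) (hwc i)
    let M : Matrix N N (Polynomial S) := Matrix.of fun l i => v i l
    obtain ⟨a₀, Δ', hΔ, hne⟩ := elim_split _ (elim_det_ne c M)
    have hM : ∀ i, PowerSeries.X ^ c * PowerSeries.C (X a * b i) -
        ∑ l, PowerSeries.map (algebraMap K (MvPolynomial ι K)) ((M.map φ) l i) *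
          PowerSeries.C (b l) ∈ G := by
      intro i
      have h1 : (X a * b i : MvPolynomial ι K) = ∏ j, X j ^ ex i j := by
        have h2 : ∀ j, (X j ^ (if j = a then 1 else 0) : MvPolynomial ι K) =
            if j = a then X a else 1 := by
          intro j
          split_ifs with h
          · rw [h, pow_one]
          · rw [pow_zero]
        simp only [b, ex, pow_add, Finset.prod_mul_distrib, h2, Finset.prod_ite_eq',
          Finset.mem_univ, if_true]
        rw [mul_comm]
      rw [h1]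
      exact hv1 i
    have hΔφ : (pencil (PowerSeries.X ^ c) (M.map φ)).det =
        Polynomial.C (PowerSeries.X ^ a₀) * Δ'.map φ := by
      have := elim_pencil_map φ (Polynomial.X ^ c) M
      rw [map_pow, hφX] at this
      rw [this, hΔ, Polynomial.map_mul, Polynomial.map_C, map_pow, hφX]
    obtain ⟨ρ, hρ, hdvd⟩ := conserve (fun j => map (algebraMap S K) (f j)) g 𝔫 h𝔫 hmin μ hμ b
      hspan (X a) c (M.map φ) hM a₀ (Δ'.map φ) hΔφ β hβ
    refine ⟨ρ, Δ'.map Polynomial.constantCoeff, hne, hρ, ?_, fun i => ?_⟩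
    · rw [Polynomial.map_map] at hdvd ⊢
      have h1 : (algebraMap S K).comp Polynomial.constantCoeff =
          (PowerSeries.constantCoeff (R := K)).comp φ := by
        refine Polynomial.ringHom_ext (fun r => ?_) ?_
        · simp [φ]
        · simp [φ]
      rw [h1]
      exact hdvd
    · have hs0 : 0 < s := by linarith
      have h1 : (Δ'.map Polynomial.constantCoeff).coeff i =
          ((pencil (Polynomial.X ^ c : Polynomial S) M).det.coeff i).coeff a₀ := by
        rw [hΔ, Polynomial.coeff_C_mul, Polynomial.coeff_map, Polynomial.constantCoeff_apply]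
        simpa using (Polynomial.coeff_X_pow_mul (Δ'.coeff i) a₀ 0).symm
      rw [h1, ← hcard]
      refine (coeff_le_pn hν _ _).trans ((coeff_le_pn (isNrm_pn hν) _ _).trans ?_)
      refine elim_norm hν c M (fun l => s ^ (∑ j, ((l j : ℕ) : ℝ) / d j))
        (fun l => Real.rpow_pos_of_pos hs0 _) _
        (Real.one_le_rpow hs (by positivity)) fun i => ?_
      rw [← Real.rpow_add hs0, ← hw]
      exact hv2 i

end Pool.Agent.P.MP_c8ecb2_nt.RP
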