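import Mathlib
import Pool.Agent.P.MP_c8ecb2_nt.RP.Norm

set_option autoImplicit false

namespace Pool.Agent.P.MP_c8ecb2_nt.RP

open MvPolynomial

/-- the primitive linear polynomial with root `β` -/
private noncomputable def linB (m : ℕ) (β : ℚ) : Polynomial (Sp m) :=
  Polynomial.C (C (β.den : ℤ)) * Polynomial.X + Polynomial.C (C (-β.num))

private theorem den_ne (m : ℕ) (β : ℚ) : (C (β.den : ℤ) : Sp m) ≠ 0 := by
  rw [Ne, C_eq_zero]
  exact_mod_cast β.den_ne_zero

private theorem linB_primitive (m : ℕ) (β : ℚ) : (linB m β).IsPrimitive := by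
  intro r hr
  rw [Polynomial.C_dvd_iff_dvd_coeff] at hr
  have h0 := hr 0
  have h1 := hr 1
  simp only [linB, Polynomial.coeff_add, Polynomial.coeff_C_mul, Polynomial.coeff_X_zero,
    mul_zero, Polynomial.coeff_C_zero, zero_add, Polynomial.coeff_X_one, mul_one,
    Polynomial.coeff_C_succ, add_zero] at h0 h1
  have hc : IsCoprime (-β.num) (β.den : ℤ) := by
    apply IsCoprime.neg_left
    rw [Int.isCoprime_iff_gcd_eq_one]
    exact β.reduced
  have hc' : IsCoprime (C (-β.num) : Sp m) (C (β.den : ℤ)) := hc.map (C : ℤ →+* Sp m)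
  exact hc'.isUnit_of_dvd' h0 h1

private theorem linB_pow_primitive (m : ℕ) (β : ℚ) (ρ : ℕ) : (linB m β ^ ρ).IsPrimitive := by
  let : NormalizedGCDMonoid (Sp m) := Nonempty.some inferInstance
  induction ρ with
  | zero => simp
  | succ n ih => rw [pow_succ]; exact ih.mul (linB_primitive m β)

private theorem linB_map (m : ℕ) (β : ℚ) :
    (linB m β).map (algebraMap (Sp m) (Kp m)) =
      Polynomial.C (β.den : Kp m) * (Polynomial.X - Polynomial.C (β : Kp m)) := by
  have h : (β.den : Kp m) * (β : Kp m) = (β.num : Kp m) := by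
    have := congrArg (Rat.cast : ℚ → Kp m) (Rat.den_mul_eq_num β)
    rwa [Rat.cast_mul, Rat.cast_natCast, Rat.cast_intCast] at this
  rw [mul_sub, ← Polynomial.C_mul, h]
  simp [linB, sub_eq_add_neg]

private theorem trailing_pow {R : Type*} [CommRing R] [IsDomain R] (p : Polynomial R) (n : ℕ) :
    (p ^ n).trailingCoeff = p.trailingCoeff ^ n := by
  induction n with
  | zero => simp [Polynomial.trailingCoeff]
  | succ n ih => rw [pow_succ, Polynomial.trailingCoeff_mul, ih, pow_succ]

private theorem le_of_C_mul {m : ℕ} (a : ℤ) (ρ : ℕ) (s : Sp m) (hs : s ≠ 0) :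
    |(a : ℝ)| ^ ρ ≤ len ((C a : Sp m) ^ ρ * s) := by
  rw [← C_pow, len_C_mul, Int.cast_pow, abs_pow]
  exact le_mul_of_one_le_right (by positivity) (one_le_len hs)

theorem ht_pow_le {m : ℕ} (β : ℚ) (ρ : ℕ) (R₀ : Polynomial (Sp m)) (hR : R₀ ≠ 0) (H : ℝ)
    (hH : ∀ i, len (R₀.coeff i) ≤ H)
    (hdvd : (Polynomial.X - Polynomial.C (β : Kp m)) ^ ρ ∣ R₀.map (algebraMap (Sp m) (Kp m))) :
    ht β ^ ρ ≤ H := by
  have hd : linB m β ^ ρ ∣ R₀ := by
    apply (linB_pow_primitive m β ρ).dvd_of_fraction_map_dvd_fraction_map (K := Kp m)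
    rw [Polynomial.map_pow, linB_map, mul_pow]
    have hu : IsUnit ((Polynomial.C (β.den : Kp m)) ^ ρ) := by
      apply IsUnit.pow
      rw [Polynomial.isUnit_C, isUnit_iff_ne_zero]
      exact_mod_cast β.den_ne_zero
    exact hu.mul_left_dvd.2 hdvd
  obtain ⟨Q, hQ⟩ := hd
  have hQ0 : Q ≠ 0 := by
    rintro rfl
    exact hR (by simpa using hQ)
  have h1 : (β.den : ℝ) ^ ρ ≤ H := by
    have hl : R₀.leadingCoeff = (C (β.den : ℤ) : Sp m) ^ ρ * Q.leadingCoeff := by
      rw [hQ, Polynomial.leadingCoeff_mul, Polynomial.leadingCoeff_pow, linB,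
        Polynomial.leadingCoeff_linear (den_ne m β)]
    have h := le_of_C_mul (β.den : ℤ) ρ Q.leadingCoeff (Polynomial.leadingCoeff_ne_zero.2 hQ0)
    rw [← hl] at h
    have h' := h.trans (hH _)
    simpa using h'
  rcases le_total |(β.num : ℝ)| (β.den : ℝ) with hle | hle
  · rw [ht, max_eq_right hle]; exact h1
  · rw [ht, max_eq_left hle]
    have hn : β.num ≠ 0 := by
      intro h0
      rw [h0] at hle
      have : (0 : ℝ) < β.den := by exact_mod_cast β.den_pos
      simp at hle
    have hc0 : (linB m β).coeff 0 = C (-β.num) := by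
      simp only [linB, Polynomial.coeff_add, Polynomial.coeff_C_mul, Polynomial.coeff_X_zero,
        mul_zero, Polynomial.coeff_C_zero, zero_add]
    have hne : (linB m β).coeff 0 ≠ 0 := by
      rw [hc0, Ne, C_eq_zero]; exact neg_ne_zero.2 hn
    have ht0 : (linB m β).trailingCoeff = C (-β.num) := by
      rw [Polynomial.trailingCoeff, Polynomial.natTrailingDegree_eq_zero.2 (Or.inr hne), hc0]
    have hl : R₀.trailingCoeff = (C (-β.num) : Sp m) ^ ρ * Q.trailingCoeff := by
      rw [hQ, Polynomial.trailingCoeff_mul, trailing_pow, ht0]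
    have h := le_of_C_mul (-β.num) ρ Q.trailingCoeff
      (Polynomial.trailingCoeff_nonzero_iff_nonzero.2 hQ0)
    rw [← hl] at h
    have h' := h.trans (hH _)
    simpa using h'

end Pool.Agent.P.MP_c8ecb2_nt.RP
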