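import Mathlib
import Pool.Agent.P.MP_c8ecb2_nt.RP.Norm

set_option autoImplicit false

namespace Pool.Agent.P.MP_c8ecb2_nt.RP

open MvPolynomial

namespace Sep

theorem exists_int_multiple {σ Ω : Type*} [Field Ω] [Algebra ℚ Ω] (x : σ → Ω) (S : Set σ)
    (b : Ω) (hb : b ∈ Algebra.adjoin ℚ (x '' S)) :
    ∃ N : ℤ, N ≠ 0 ∧ ∃ r : MvPolynomial S ℤ,
      eval₂Hom (Int.castRingHom Ω) (fun i : S => x i) r = N * b := by
  induction hb using Algebra.adjoin_induction with
  | mem y hy =>
    obtain ⟨i, hi, rfl⟩ := hy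
    exact ⟨1, one_ne_zero, X ⟨i, hi⟩, by simp⟩
  | algebraMap q =>
    refine ⟨q.den, by exact_mod_cast q.den_ne_zero, C q.num, ?_⟩
    have h1 : ((q.den : ℚ) * q) = q.num := by
      rw [mul_comm]; exact Rat.mul_den_eq_num q
    have h2 := congrArg (algebraMap ℚ Ω) h1
    simp only [map_mul, map_natCast, map_intCast] at h2
    rw [Int.cast_natCast, h2, coe_eval₂Hom, eval₂_C, eq_intCast]
  | add a b _ _ ha hb =>
    obtain ⟨N, hN, r, hr⟩ := ha
    obtain ⟨N', hN', r', hr'⟩ := hb
    refine ⟨N * N', mul_ne_zero hN hN', (N' : MvPolynomial S ℤ) * r + (N : MvPolynomial S ℤ) * r', ?_⟩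
    rw [map_add, map_mul, map_mul, hr, hr', map_intCast, map_intCast]
    push_cast
    ring
  | mul a b _ _ ha hb =>
    obtain ⟨N, hN, r, hr⟩ := ha
    obtain ⟨N', hN', r', hr'⟩ := hb
    refine ⟨N * N', mul_ne_zero hN hN', r * r', ?_⟩
    rw [map_mul, hr, hr']
    push_cast
    ring

theorem exists_poly_multiple {σ Ω : Type*} [Field Ω] [Algebra ℚ Ω] (x : σ → Ω) (S : Set σ)
    (q : Polynomial (Algebra.adjoin ℚ (x '' S))) :
    ∃ N : ℤ, N ≠ 0 ∧ ∃ p : Polynomial (MvPolynomial S ℤ),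
      p.map (eval₂Hom (Int.castRingHom Ω) (fun i : S => x i)) =
        (N : Polynomial Ω) * q.map (algebraMap _ Ω) := by
  induction q using Polynomial.induction_on' with
  | add a b ha hb =>
    obtain ⟨N, hN, r, hr⟩ := ha
    obtain ⟨N', hN', r', hr'⟩ := hb
    refine ⟨N * N', mul_ne_zero hN hN', (N' : Polynomial (MvPolynomial S ℤ)) * r +
      (N : Polynomial (MvPolynomial S ℤ)) * r', ?_⟩
    rw [Polynomial.map_add, Polynomial.map_mul, Polynomial.map_mul, hr, hr',
      Polynomial.map_intCast, Polynomial.map_intCast, Polynomial.map_add]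
    push_cast
    ring
  | monomial n a =>
    obtain ⟨N, hN, r, hr⟩ := exists_int_multiple x S a a.2
    refine ⟨N, hN, Polynomial.monomial n r, ?_⟩
    rw [Polynomial.map_monomial, Polynomial.map_monomial, hr, ← Polynomial.C_mul_monomial,
      map_intCast]
    rfl

theorem exists_sep {R Ω : Type*} [CommRing R] [Field Ω] [CharZero Ω] (φ : R →+* Ω) (y : Ω) :
    ∀ (n : ℕ) (p : Polynomial R), (p.map φ).natDegree = n → p.map φ ≠ 0 → (p.map φ).eval y = 0 →
      ∃ p' : Polynomial R, (p'.map φ).eval y = 0 ∧ (p'.derivative.map φ).eval y ≠ 0 := by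
  intro n
  induction n using Nat.strong_induction_on with
  | _ n ih =>
    intro p hn h0 hy
    by_cases hd : (p.derivative.map φ).eval y = 0
    · have hpos : (p.map φ).natDegree ≠ 0 := by
        intro hz
        rw [Polynomial.eq_C_of_natDegree_eq_zero hz] at hy h0
        rw [Polynomial.eval_C] at hy
        exact h0 (by rw [hy, map_zero])
      refine ih _ ?_ p.derivative rfl ?_ hd
      · rw [← Polynomial.derivative_map, ← hn]
        exact Polynomial.natDegree_derivative_lt hpos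
      · rw [← Polynomial.derivative_map]
        intro hz
        exact hpos (Polynomial.derivative_eq_zero.mp hz)
    · exact ⟨p, hy, hd⟩

theorem eval₂_lift {σ Ω : Type*} [CommRing Ω] (x : σ → Ω) (S : Set σ) (h : σ)
    (p : Polynomial (MvPolynomial S ℤ)) :
    eval₂ (Int.castRingHom Ω) x
        (p.eval₂ (rename (Subtype.val : S → σ) : MvPolynomial S ℤ →ₐ[ℤ] _).toRingHom (X h)) =
      (p.map (eval₂Hom (Int.castRingHom Ω) (fun i : S => x i))).eval (x h) := by
  rw [← coe_eval₂Hom, Polynomial.hom_eval₂, Polynomial.eval_map]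
  congr 1
  · exact ringHom_ext (fun r => by simp) (fun i => by simp)
  · simp

theorem pderiv_lift {σ : Type*} (S : Set σ) (h : σ) (hh : h ∉ S)
    (p : Polynomial (MvPolynomial S ℤ)) :
    pderiv h (p.eval₂ (rename (Subtype.val : S → σ) : MvPolynomial S ℤ →ₐ[ℤ] _).toRingHom (X h)) =
      p.derivative.eval₂ (rename (Subtype.val : S → σ) : MvPolynomial S ℤ →ₐ[ℤ] _).toRingHom
        (X h) := by
  classical
  induction p using Polynomial.induction_on' with
  | add a b ha hb => rw [Polynomial.eval₂_add, map_add, ha, hb, map_add, Polynomial.eval₂_add]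
  | monomial n a =>
    have h0 : pderiv h (rename (Subtype.val : S → σ) a) = 0 := by
      apply pderiv_eq_zero_of_notMem_vars
      intro hv
      obtain ⟨i, -, hi⟩ := mem_vars_rename _ _ hv
      exact hh (hi ▸ i.2)
    rw [Polynomial.derivative_monomial, Polynomial.eval₂_monomial, Polynomial.eval₂_monomial]
    simp only [AlgHom.toRingHom_eq_coe, RingHom.coe_coe, Derivation.leibniz, h0,
      Derivation.leibniz_pow, pderiv_X_self, smul_eq_mul, map_mul, map_natCast, mul_zero,
      add_zero, mul_one, nsmul_eq_mul]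
    ring

theorem lift_mem_supported {σ : Type*} (S : Set σ) (h : σ) (p : Polynomial (MvPolynomial S ℤ)) :
    p.eval₂ (rename (Subtype.val : S → σ) : MvPolynomial S ℤ →ₐ[ℤ] _).toRingHom (X h) ∈
      supported ℤ {i | i = h ∨ i ∈ S} := by
  induction p using Polynomial.induction_on' with
  | add a b ha hb =>
    rw [Polynomial.eval₂_add]
    exact add_mem ha hb
  | monomial n a =>
    rw [Polynomial.eval₂_monomial]
    have hm : h ∈ {i | i = h ∨ i ∈ S} := Or.inl rfl
    refine mul_mem ?_ (pow_mem (X_mem_supported.mpr hm) n)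
    have : rename (Subtype.val : S → σ) a ∈ supported ℤ S := by
      rw [supported_eq_range_rename]
      exact ⟨a, rfl⟩
    exact supported_mono (fun i hi => Or.inr hi) this

theorem degreeOf_iotaJ_le {m : ℕ} (J : Finset (Fin m)) (Q : Sp m) (i : J) :
    degreeOf i (iotaJ J Q) ≤ degreeOf i.1 Q := by
  unfold iotaJ
  rw [coe_eval₂Hom, eval₂_eq']
  refine (degreeOf_sum_le _ _ _).trans (Finset.sup_le fun e he => ?_)
  refine (degreeOf_mul_le _ _ _).trans ?_
  have h1 : degreeOf i ((Int.castRingHom (MvPolynomial J (Sp m))) (coeff e Q)) = 0 := by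
    rw [eq_intCast, ← map_intCast (C : Sp m →+* MvPolynomial J (Sp m)), degreeOf_C]
  rw [h1, zero_add]
  refine (degreeOf_prod_le _ _ _).trans (le_trans ?_ (monomial_le_degreeOf i.1 he))
  refine (Finset.sum_le_sum (g := fun h : Fin m => if h = i.1 then e h else 0)
    fun h _ => ?_).trans (by simp)
  refine (degreeOf_pow_le _ _ _).trans ?_
  by_cases hh : h ∈ J
  · rw [dif_pos hh]
    by_cases hi : h = i.1
    · subst hi
      simp
    · rw [degreeOf_X_of_ne (fun h' => hi (congrArg Subtype.val h').symm)]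
      simp
  · rw [dif_neg hh, degreeOf_C]
    simp

end Sep

theorem exists_sep_relation {m : ℕ} {Ω : Type*} [Field Ω] [Algebra ℚ Ω] {x : Fin m → Ω}
    {I : Finset (Fin m)} (hI : IsCobasis x I) (h : Fin m) (hh : h ∈ I) :
    ∃ Q : Sp m, (∀ i ∈ Q.vars, i = h ∨ i ∉ I) ∧ eval₂ (Int.castRingHom Ω) x Q = 0 ∧
      eval₂ (Int.castRingHom Ω) x (pderiv h Q) ≠ 0 := by
  have : CharZero Ω := algebraRat.charZero Ω
  obtain ⟨q, hq0, hq⟩ := hI.2 h
  obtain ⟨N, hN, p, hp⟩ := Sep.exists_poly_multiple x {h | h ∉ I} q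
  have h1 : q.map (algebraMap _ Ω) ≠ 0 :=
    (Polynomial.map_ne_zero_iff Subtype.val_injective).mpr hq0
  have h2 : (N : Polynomial Ω) ≠ 0 := by exact_mod_cast hN
  obtain ⟨p', a1, a2⟩ := Sep.exists_sep _ (x h) _ p rfl (by rw [hp]; exact mul_ne_zero h2 h1)
    (by rw [hp, Polynomial.eval_mul, Polynomial.eval_map, ← Polynomial.aeval_def, hq, mul_zero])
  refine ⟨p'.eval₂ (rename (Subtype.val : {h | h ∉ I} → Fin m) :
    MvPolynomial {h | h ∉ I} ℤ →ₐ[ℤ] _).toRingHom (X h), fun i hi => ?_, ?_, ?_⟩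
  · exact mem_supported.mp (Sep.lift_mem_supported {h | h ∉ I} h p') (Finset.mem_coe.mpr hi)
  · rw [Sep.eval₂_lift]
    exact a1
  · rw [Sep.pderiv_lift _ _ (by simpa using hh), Sep.eval₂_lift]
    exact a2

theorem degreeOf_fJ_le {m n : ℕ} (J : Finset (Fin m)) (P : Fin n → Sp m) (d : Fin m → ℕ)
    (hP : ∀ τ h, degreeOf h (P τ) ≤ d h) (j i : J) : degreeOf i (fJ J P j) ≤ d i := by
  unfold fJ
  refine (degreeOf_sum_le _ _ _).trans (Finset.sup_le fun τ _ => ?_)
  exact (degreeOf_C_mul_le _ _ _).trans ((Sep.degreeOf_iotaJ_le J _ i).trans (hP τ i))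

theorem wn_fJ_le {m n : ℕ} (J : Finset (Fin m)) (P : Fin n → Sp m) (j : J) :
    wn len (fun _ => 1) (fJ J P j) ≤ ∑ τ, len (P τ) := by
  have hν : IsNrm (wn (len (σ := Fin m)) (fun _ : J => (1 : ℝ))) :=
    isNrm_wn isNrm_len fun _ => zero_le_one
  have hX : ∀ h : Fin m, len (X h : Sp m) ≤ 1 := fun h =>
    wn_X_le isNrm_iabs (fun _ => zero_le_one) h
  unfold fJ
  refine (hν.sum_le _ _).trans (Finset.sum_le_sum fun τ _ => ?_)
  have h1 : wn len (fun _ : J => (1 : ℝ)) (C (X j.1 ^ (τ : ℕ) : Sp m)) ≤ 1 := by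
    rw [wn_C isNrm_len]
    simpa using isNrm_len.pow_le' (hX j.1) τ
  have h2 : wn len (fun _ : J => (1 : ℝ)) (iotaJ J (P τ)) ≤ len (P τ) := by
    unfold iotaJ
    rw [coe_eval₂Hom]
    refine eval₂_le_wn isNrm_iabs hν _ _ (fun a => ?_) (fun h => ?_) _
    · rw [eq_intCast, ← map_intCast (C : Sp m →+* MvPolynomial J (Sp m)), wn_C isNrm_len,
        ← eq_intCast (C : ℤ →+* Sp m)]
      exact (wn_C isNrm_iabs a).le
    · by_cases hh : h ∈ J
      · rw [dif_pos hh]
        exact wn_X_le isNrm_len (fun _ => zero_le_one) _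
      · rw [dif_neg hh, wn_C isNrm_len]
        exact hX h
  simpa using hν.mul_le' h1 h2

end Pool.Agent.P.MP_c8ecb2_nt.RP
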