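import Mathlib
import Pool.Agent.P.MP_c8ecb2_nt.RP.Sep

set_option autoImplicit false

namespace Pool.Agent.P.MP_c8ecb2_nt.RP

open MvPolynomial

variable {m : ℕ} {Ω : Type*} [Field Ω] [Algebra ℚ Ω]

/-- substitute `T` for the variable `j` and constants for the other variables -/
private noncomputable def evT {S : Type*} [CommRing S] (j : Fin m) (y : Fin m → S) :
    Sp m →+* Polynomial S :=
  eval₂Hom (Int.castRingHom _) fun h => if h = j then Polynomial.X else Polynomial.C (y h)

private theorem evT_X {S : Type*} [CommRing S] (j : Fin m) (y : Fin m → S) (h : Fin m) :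
    evT j y (X h) = if h = j then Polynomial.X else Polynomial.C (y h) := by
  simp [evT]

private theorem evT_C {S : Type*} [CommRing S] (j : Fin m) (y : Fin m → S) (a : ℤ) :
    evT j y (C a) = (a : Polynomial S) := by
  simp [evT]

private theorem derivative_evT {S : Type*} [CommRing S] (j : Fin m) (y : Fin m → S) (Q : Sp m) :
    Polynomial.derivative (evT j y Q) = evT j y (pderiv j Q) := by
  induction Q using MvPolynomial.induction_on with
  | C a => rw [evT_C, pderiv_C, map_zero]; simp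
  | add p q hp hq => simp only [map_add, hp, hq]
  | mul_X p i hp =>
    rw [map_mul, Polynomial.derivative_mul, hp, pderiv_mul, map_add, map_mul, map_mul, evT_X]
    by_cases h : i = j
    · subst h
      simp
    · simp [h, pderiv_X_of_ne h]

private theorem eval₂_evT {S T : Type*} [CommRing S] [CommRing T] (φ : S →+* T) (j : Fin m)
    (y : Fin m → S) (a : T) (Q : Sp m) :
    Polynomial.eval₂ φ a (evT j y Q) =
      eval₂ (Int.castRingHom T) (fun h => if h = j then a else φ (y h)) Q := by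
  have : (Polynomial.eval₂RingHom φ a).comp (evT j y) =
      eval₂Hom (Int.castRingHom T) (fun h => if h = j then a else φ (y h)) := by
    apply MvPolynomial.ringHom_ext
    · intro r
      simp
    · intro i
      by_cases h : i = j <;> simp [evT_X, h]
  exact RingHom.congr_fun this Q

private theorem map_evT {S T : Type*} [CommRing S] [CommRing T] (φ : S →+* T) (j : Fin m)
    (y : Fin m → S) (Q : Sp m) :
    (evT j y Q).map φ = evT j (fun h => φ (y h)) Q := by
  have : (Polynomial.mapRingHom φ).comp (evT j y) = evT j (fun h => φ (y h)) := by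
    apply MvPolynomial.ringHom_ext
    · intro r
      simp
    · intro i
      by_cases h : i = j <;> simp [evT_X, h]
  exact RingHom.congr_fun this Q

private theorem evT_congr {S : Type*} [CommRing S] (j : Fin m) {y y' : Fin m → S} {Q : Sp m}
    (h : ∀ i ∈ Q.vars, i ≠ j → y i = y' i) : evT j y Q = evT j y' Q := by
  refine eval₂Hom_congr' rfl ?_ rfl
  intro i hi _
  by_cases hij : i = j
  · simp [hij]
  · simp [hij, h i hi hij]

/-- the parameters as elements of the parameter field -/
private noncomputable def par (m : ℕ) (h : Fin m) : Kp m := algebraMap (Sp m) (Kp m) (X h)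

/-- the point of `D` attached to a homomorphism from the polynomial ring over the parameters -/
private noncomputable def pt {D : Type*} [CommRing D] {J : Finset (Fin m)}
    (ψ : MvPolynomial J (Kp m) →+* D) (h : Fin m) : D :=
  if hh : h ∈ J then ψ (X ⟨h, hh⟩) else ψ (C (par m h))

private theorem hom_iotaJ {D : Type*} [CommRing D] {J : Finset (Fin m)}
    (ψ : MvPolynomial J (Kp m) →+* D) (Q : Sp m) :
    ψ (map (algebraMap (Sp m) (Kp m)) (iotaJ J Q)) = eval₂ (Int.castRingHom D) (pt ψ) Q := by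
  have : (ψ.comp (map (algebraMap (Sp m) (Kp m)))).comp (iotaJ J) =
      eval₂Hom (Int.castRingHom D) (pt ψ) := by
    apply MvPolynomial.ringHom_ext
    · intro r
      simp [iotaJ]
    · intro i
      by_cases h : i ∈ J <;> simp [iotaJ, pt, par, h]
  exact RingHom.congr_fun this Q

private theorem hom_fK {D : Type*} [CommRing D] {J : Finset (Fin m)} {n : ℕ}
    (ψ : MvPolynomial J (Kp m) →+* D) (P : Fin n → Sp m) (j : J) :
    ψ (fK J P j) = ∑ τ : Fin n, ψ (C (par m j.1)) ^ (τ : ℕ) *
      eval₂ (Int.castRingHom D) (pt ψ) (P τ) := by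
  simp only [fK, fJ, map_sum, map_mul, hom_iotaJ, map_C, map_pow, par]

omit [Algebra ℚ Ω] in
private theorem pt_nK {x z : Fin m → Ω} {J : Finset (Fin m)} {kap : Kp m →+* Ω}
    (hz : ∀ h, h ∉ J → z h = x h)
    (hkap : ∀ s : Sp m, kap (algebraMap (Sp m) (Kp m) s) = eval₂ (Int.castRingHom Ω) z s) :
    pt (eval₂Hom kap fun j : J => x j) = x := by
  funext h
  by_cases hh : h ∈ J
  · simp [pt, hh]
  · simp [pt, hh, par, hkap, hz h hh]

/-- a separable relation gives a nonzero polynomial over the parameter field -/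
private theorem exists_rel {x z : Fin m → Ω} {J : Finset (Fin m)} {kap : Kp m →+* Ω}
    (hJ : IsCobasis x J) (hz : ∀ h, h ∉ J → z h = x h)
    (hkap : ∀ s : Sp m, kap (algebraMap (Sp m) (Kp m) s) = eval₂ (Int.castRingHom Ω) z s)
    (j : J) :
    ∃ Q : Sp m, (∀ i ∈ Q.vars, i = j.1 ∨ i ∉ J) ∧ eval₂ (Int.castRingHom Ω) x Q = 0 ∧
      evT j.1 (par m) Q ≠ 0 := by
  obtain ⟨Q, hv, h0, h1⟩ := exists_sep_relation hJ j.1 j.2
  refine ⟨Q, hv, h0, fun hq => h1 ?_⟩
  have h2 : evT j.1 x Q = 0 := by
    have h3 := map_evT kap j.1 (par m) Q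
    rw [hq, Polynomial.map_zero] at h3
    rw [h3]
    apply evT_congr
    intro i hi hij
    rcases hv i hi with h | h
    · exact absurd h hij
    · simp [par, hkap, hz i h]
  have h4 := derivative_evT j.1 x Q
  rw [h2, Polynomial.derivative_zero] at h4
  have h5 := eval₂_evT (RingHom.id Ω) j.1 x (x j.1) (pderiv j.1 Q)
  rw [← h4, Polynomial.eval₂_zero] at h5
  rw [h5]
  congr 1
  funext h
  by_cases hh : h = j.1
  · simp [hh]
  · simp [hh]

private theorem isAlgebraic_of_rel {D : Type*} [CommRing D] [Algebra (Kp m) D]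
    {J : Finset (Fin m)} (ψ : MvPolynomial J (Kp m) →+* D)
    (hψ : ∀ a, ψ (C a) = algebraMap (Kp m) D a)
    (j : J) {Q : Sp m} (hv : ∀ i ∈ Q.vars, i = j.1 ∨ i ∉ J) (hq : evT j.1 (par m) Q ≠ 0)
    (h0 : ψ (map (algebraMap (Sp m) (Kp m)) (iotaJ J Q)) = 0) :
    IsAlgebraic (Kp m) (ψ (X j)) := by
  refine ⟨evT j.1 (par m) Q, hq, ?_⟩
  rw [hom_iotaJ] at h0
  rw [Polynomial.aeval_def, eval₂_evT, ← h0]
  refine eval₂Hom_congr' rfl ?_ rfl
  intro i hi _
  rcases hv i hi with h | h
  · subst h
    simp [pt]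
  · have hij : i ≠ j.1 := fun e => h (e ▸ j.2)
    simp only [hij, if_false, pt, h, dif_neg, not_false_eq_true, hψ]

private theorem isIntegral_quot {K ι : Type*} [Field K] (𝔔 : Ideal (MvPolynomial ι K))
    (h : ∀ j, IsAlgebraic K (Ideal.Quotient.mk 𝔔 (X j))) :
    Algebra.IsIntegral K (MvPolynomial ι K ⧸ 𝔔) := by
  constructor
  intro a
  obtain ⟨p, rfl⟩ := Ideal.Quotient.mk_surjective a
  induction p using MvPolynomial.induction_on with
  | C a => exact isIntegral_algebraMap (x := a)
  | add p q hp hq => rw [map_add]; exact hp.add hq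
  | mul_X p i hp => rw [map_mul]; exact hp.mul (h i).isIntegral

private theorem isMaximal_of_alg {K ι : Type*} [Field K] (𝔔 : Ideal (MvPolynomial ι K))
    [𝔔.IsPrime] (h : ∀ j, IsAlgebraic K (Ideal.Quotient.mk 𝔔 (X j))) : 𝔔.IsMaximal := by
  have := isIntegral_quot 𝔔 h
  exact Ideal.Quotient.maximal_of_isField _
    (isField_of_isIntegral_of_isField' (R := K) (Field.toIsField K))

private theorem nK_alg {x z : Fin m → Ω} {J : Finset (Fin m)} {kap : Kp m →+* Ω}
    (hJ : IsCobasis x J) (hz : ∀ h, h ∉ J → z h = x h)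
    (hkap : ∀ s : Sp m, kap (algebraMap (Sp m) (Kp m) s) = eval₂ (Int.castRingHom Ω) z s)
    (j : J) : IsAlgebraic (Kp m) (Ideal.Quotient.mk (nK J kap x) (X j)) := by
  obtain ⟨Q, hv, h0, hq⟩ := exists_rel hJ hz hkap j
  refine isAlgebraic_of_rel (D := MvPolynomial J (Kp m) ⧸ nK J kap x)
    (Ideal.Quotient.mk (nK J kap x)) (fun _ => rfl) j hv hq ?_
  rw [Ideal.Quotient.eq_zero_iff_mem, nK, RingHom.mem_ker, hom_iotaJ, pt_nK hz hkap, h0]

omit [Algebra ℚ Ω] in
private theorem nK_isPrime {x : Fin m → Ω} {J : Finset (Fin m)} {kap : Kp m →+* Ω} :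
    (nK J kap x).IsPrime := RingHom.ker_isPrime _

theorem nK_isMaximal {x z : Fin m → Ω} {J : Finset (Fin m)} {kap : Kp m →+* Ω}
    (hJ : IsCobasis x J) (hz : ∀ h, h ∉ J → z h = x h)
    (hkap : ∀ s : Sp m, kap (algebraMap (Sp m) (Kp m) s) = eval₂ (Int.castRingHom Ω) z s) :
    (nK J kap x).IsMaximal := by
  have : (nK J kap x).IsPrime := nK_isPrime
  exact isMaximal_of_alg _ (nK_alg hJ hz hkap)

theorem nK_finite {x z : Fin m → Ω} {J : Finset (Fin m)} {kap : Kp m →+* Ω}
    (hJ : IsCobasis x J) (hz : ∀ h, h ∉ J → z h = x h)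
    (hkap : ∀ s : Sp m, kap (algebraMap (Sp m) (Kp m) s) = eval₂ (Int.castRingHom Ω) z s) :
    Module.Finite (Kp m) (MvPolynomial J (Kp m) ⧸ nK J kap x) := by
  have := isIntegral_quot _ (nK_alg hJ hz hkap)
  exact Algebra.IsIntegral.finite (R := Kp m) (A := MvPolynomial J (Kp m) ⧸ nK J kap x)

/-- exchange: `m` independent elements algebraic over `m` generators span the same closure -/
private theorem alg_exchange {D : Type*} [CommRing D] [IsDomain D] [CharZero D]
    (t y : Fin m → D) (ht : AlgebraicIndependent ℤ t)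
    (h : ∀ i, IsAlgebraic (Algebra.adjoin ℤ (Set.range y)) (t i)) (i : Fin m) :
    IsAlgebraic (Algebra.adjoin ℤ (Set.range t)) (y i) := by
  set M := AlgebraicIndependent.matroid ℤ D with hM
  have hI : M.Indep (Set.range t) := ht.to_subtype_range
  have hsub : Set.range t ⊆ M.closure (Set.range y) := by
    rintro _ ⟨k, rfl⟩
    rw [hM, AlgebraicIndependent.matroid_closure_eq]
    exact h k
  have hcard : (Set.range t).encard = m := by
    rw [← Set.image_univ, ht.injective.encard_image]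
    simp
  have hle : M.eRk (M.closure (Set.range y)) ≤ M.eRk (Set.range t) := by
    rw [Matroid.eRk_closure_eq, hI.eRk_eq_encard, hcard]
    refine (M.eRk_le_encard _).trans ?_
    rw [← Set.image_univ]
    refine (Set.encard_image_le _ _).trans ?_
    simp
  have hB := hI.isBasis_of_eRk_ge (Set.finite_range t) hsub hle (M.closure_subset_ground _)
  have hy : y i ∈ M.closure (Set.range t) :=
    hB.subset_closure (M.subset_closure _ (by simp [hM]) ⟨i, rfl⟩)
  rw [hM, AlgebraicIndependent.matroid_closure_eq] at hy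
  exact hy

private theorem isAlgebraic_of_subalg {K D : Type*} [Field K] [CommRing D] [Algebra K D]
    (B : Subalgebra ℤ D) (hB : ∀ b ∈ B, b ∈ Set.range (algebraMap K D)) {a : D}
    (h : IsAlgebraic B a) : IsAlgebraic K a := by
  obtain ⟨p, hp, hpa⟩ := h
  have hl : p.map (algebraMap B D) ∈ Polynomial.lifts (algebraMap K D) := by
    rw [Polynomial.lifts_iff_coeff_lifts]
    intro k
    rw [Polynomial.coeff_map]
    exact hB _ (p.coeff k).2
  obtain ⟨q, hq⟩ := (Polynomial.mem_lifts _).1 hl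
  refine ⟨q, ?_, ?_⟩
  · rintro rfl
    rw [Polynomial.map_zero] at hq
    exact hp ((Polynomial.map_eq_zero_iff Subtype.val_injective).1 hq.symm)
  · rw [← Polynomial.eval_map_algebraMap, hq, Polynomial.eval_map_algebraMap, hpa]

private theorem eval₂_mem_adjoin {D : Type*} [CommRing D] (y : Fin m → D) (Q : Sp m) :
    eval₂ (Int.castRingHom D) y Q ∈ Algebra.adjoin ℤ (Set.range y) := by
  rw [Algebra.adjoin_range_eq_range_aeval]
  exact ⟨Q, by simp [aeval_def, Subsingleton.elim (algebraMap ℤ D) (Int.castRingHom D)]⟩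

private theorem isAlgebraic_of_ne {D : Type*} [CommRing D] [IsDomain D] [Algebra (Kp m) D]
    {J : Finset (Fin m)} (ψ : MvPolynomial J (Kp m) →+* D)
    (hψ : ∀ a, ψ (C a) = algebraMap (Kp m) D a) {n : ℕ} (P : Fin n → Sp m)
    (hf : ∀ j, ψ (fK J P j) = 0) (τ₀ : Fin n)
    (hτ₀ : ψ (map (algebraMap (Sp m) (Kp m)) (iotaJ J (P τ₀))) ≠ 0) (j : J) :
    IsAlgebraic (Kp m) (ψ (X j)) := by
  rw [hom_iotaJ] at hτ₀
  have hinj : Function.Injective (algebraMap (Kp m) D) := (algebraMap (Kp m) D).injective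
  have : CharZero D := charZero_of_injective_algebraMap hinj
  let t : Fin m → D := fun h => algebraMap (Kp m) D (par m h)
  let y : Fin m → D := pt ψ
  have ht : AlgebraicIndependent ℤ t := by
    rw [algebraicIndependent_iff_injective_aeval]
    have : ((aeval t : Sp m →ₐ[ℤ] D) : Sp m →+* D) =
        (algebraMap (Kp m) D).comp (algebraMap (Sp m) (Kp m)) := by
      apply MvPolynomial.ringHom_ext'
      · exact RingHom.ext_int _ _
      · intro i
        simp [t, par]
    have h2 : Function.Injective ((aeval t : Sp m →ₐ[ℤ] D) : Sp m →+* D) := by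
      rw [this]
      exact hinj.comp (IsFractionRing.injective (Sp m) (Kp m))
    exact h2
  have halg : ∀ i, IsAlgebraic (Algebra.adjoin ℤ (Set.range y)) (t i) := by
    intro i
    by_cases hi : i ∈ J
    · let c : Fin n → Algebra.adjoin ℤ (Set.range y) := fun τ =>
        ⟨eval₂ (Int.castRingHom D) y (P τ), eval₂_mem_adjoin y (P τ)⟩
      refine ⟨∑ τ : Fin n, Polynomial.monomial (τ : ℕ) (c τ), ?_, ?_⟩
      · intro h0
        have h1 := congrArg (fun p => Polynomial.coeff p (τ₀ : ℕ)) h0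
        simp only [Polynomial.finsetSum_coeff, Polynomial.coeff_monomial,
          Polynomial.coeff_zero] at h1
        rw [Finset.sum_eq_single τ₀] at h1
        · simp only [if_true] at h1
          exact hτ₀ (congrArg Subtype.val h1)
        · intro b _ hb
          rw [if_neg (fun e => hb (Fin.ext e))]
        · intro hb
          exact absurd (Finset.mem_univ _) hb
      · have h1 := hf ⟨i, hi⟩
        rw [hom_fK] at h1
        rw [map_sum, ← h1]
        refine Finset.sum_congr rfl fun τ _ => ?_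
        rw [Polynomial.aeval_monomial, mul_comm, hψ]
        rfl
    · have h1 : t i ∈ Algebra.adjoin ℤ (Set.range y) := by
        apply Algebra.subset_adjoin
        refine ⟨i, ?_⟩
        simp only [y, pt, hi, dif_neg, not_false_eq_true, hψ, t]
      exact isAlgebraic_algebraMap (R := Algebra.adjoin ℤ (Set.range y)) (A := D) ⟨t i, h1⟩
  have h1 := alg_exchange t y ht halg j.1
  have h2 : y j.1 = ψ (X j) := by
    simp [y, pt]
  rw [← h2]
  refine isAlgebraic_of_subalg _ ?_ h1
  intro b hb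
  have : Algebra.adjoin ℤ (Set.range t) ≤
      subalgebraOfSubring (algebraMap (Kp m) D).range := by
    rw [Algebra.adjoin_le_iff]
    rintro _ ⟨k, rfl⟩
    exact ⟨par m k, rfl⟩
  exact this hb

theorem nK_minimal {x z : Fin m → Ω} {J : Finset (Fin m)} {kap : Kp m →+* Ω}
    (hJ : IsCobasis x J) (hz : ∀ h, h ∉ J → z h = x h)
    (hkap : ∀ s : Sp m, kap (algebraMap (Sp m) (Kp m) s) = eval₂ (Int.castRingHom Ω) z s)
    {n : ℕ} (P : Fin n → Sp m) (hP : ∀ τ, eval₂ (Int.castRingHom Ω) x (P τ) = 0)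
    (hmin : ∀ 𝔮 : Ideal (MvPolynomial (Fin m) ℚ), 𝔮.IsPrime →
      (∀ τ, map (Int.castRingHom ℚ) (P τ) ∈ 𝔮) →
      𝔮 ≤ RingHom.ker (aeval x : MvPolynomial (Fin m) ℚ →ₐ[ℚ] Ω) →
      RingHom.ker (aeval x : MvPolynomial (Fin m) ℚ →ₐ[ℚ] Ω) ≤ 𝔮) :
    nK J kap x ∈ (Ideal.span (Set.range (fK J P))).minimalPrimes := by
  refine ⟨⟨nK_isPrime, ?_⟩, ?_⟩
  · rw [Ideal.span_le]
    rintro _ ⟨j, rfl⟩
    rw [SetLike.mem_coe, nK, RingHom.mem_ker, hom_fK, pt_nK hz hkap]
    simp [hP]
  rintro 𝔔 ⟨h𝔔, hf⟩ hle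
  have hf' : ∀ j, Ideal.Quotient.mk 𝔔 (fK J P j) = 0 := fun j =>
    Ideal.Quotient.eq_zero_iff_mem.2 (hf (Ideal.subset_span ⟨j, rfl⟩))
  suffices H : ∀ j, IsAlgebraic (Kp m) (Ideal.Quotient.mk 𝔔 (X j)) by
    have hmax := isMaximal_of_alg 𝔔 H
    exact (hmax.eq_of_le (nK_isPrime (J := J) (kap := kap) (x := x)).ne_top hle).ge
  by_cases hc : ∀ τ, map (algebraMap (Sp m) (Kp m)) (iotaJ J (P τ)) ∈ 𝔔
  · -- all `P τ` vanish at the new point
    let ρ : MvPolynomial (Fin m) ℚ →+* MvPolynomial J (Kp m) :=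
      eval₂Hom ((C : Kp m →+* MvPolynomial J (Kp m)).comp (Rat.castHom (Kp m)))
        (pt (RingHom.id _))
    have hρ : ∀ Q : Sp m, ρ (map (Int.castRingHom ℚ) Q) =
        map (algebraMap (Sp m) (Kp m)) (iotaJ J Q) := by
      intro Q
      have h1 := hom_iotaJ (RingHom.id (MvPolynomial J (Kp m))) Q
      rw [RingHom.id_apply] at h1
      rw [h1]
      simp only [ρ, coe_eval₂Hom, eval₂_map]
      congr 1
      exact RingHom.ext_int _ _
    have hE : ∀ q, eval₂Hom kap (fun j : J => x j) (ρ q) = aeval x q := by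
      intro q
      have : (eval₂Hom kap (fun j : J => x j)).comp ρ =
          ((aeval x : MvPolynomial (Fin m) ℚ →ₐ[ℚ] Ω) : MvPolynomial (Fin m) ℚ →+* Ω) := by
        apply MvPolynomial.ringHom_ext'
        · exact RingHom.ext_rat _ _
        · intro i
          have h2 := congrFun (pt_nK hz hkap) i
          by_cases hh : i ∈ J
          · simp [ρ, pt, hh]
          · simp only [pt, hh, dif_neg, not_false_eq_true] at h2
            simp only [ρ, pt, hh, RingHom.comp_apply, eval₂Hom_X', dif_neg, not_false_eq_true,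
              RingHom.id_apply, h2]
            simp
      exact RingHom.congr_fun this q
    have h1 := hmin (𝔔.comap ρ) (Ideal.comap_isPrime _ _) (by
        intro τ
        rw [Ideal.mem_comap, hρ]
        exact hc τ) (by
        intro q hq
        have := hle (Ideal.mem_comap.1 hq)
        rw [nK, RingHom.mem_ker, hE] at this
        exact this)
    intro j
    obtain ⟨Q, hv, h0, hq⟩ := exists_rel hJ hz hkap j
    refine isAlgebraic_of_rel (D := MvPolynomial J (Kp m) ⧸ 𝔔)
      (Ideal.Quotient.mk 𝔔) (fun _ => rfl) j hv hq ?_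
    rw [Ideal.Quotient.eq_zero_iff_mem, ← hρ, ← Ideal.mem_comap]
    apply h1
    rw [RingHom.mem_ker, ← hE, hρ, hom_iotaJ, pt_nK hz hkap, h0]
  · -- some `P τ` does not vanish: count transcendence degrees
    push Not at hc
    obtain ⟨τ₀, hτ₀⟩ := hc
    exact isAlgebraic_of_ne (D := MvPolynomial J (Kp m) ⧸ 𝔔) (Ideal.Quotient.mk 𝔔)
      (fun _ => rfl) P hf' τ₀ (fun e => hτ₀ (Ideal.Quotient.eq_zero_iff_mem.1 e))

end Pool.Agent.P.MP_c8ecb2_nt.RP
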