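import Mathlib
import Pool.Agent.P.MP_c8ecb2_nt.RP.Taylor
import Pool.Agent.P.MP_c8ecb2_nt.RP.Sep

set_option autoImplicit false

namespace Pool.Agent.P.MP_c8ecb2_nt.RP

open MvPolynomial

namespace LowerAux

variable {m : ℕ} {Ω : Type*} [Field Ω]

theorem wt_nonneg (d : Fin m → ℕ) (τ : Fin m →₀ ℕ) : 0 ≤ wt d τ :=
  Finset.sum_nonneg fun _ _ => by positivity

theorem wt_add (d : Fin m → ℕ) (τ τ' : Fin m →₀ ℕ) : wt d (τ + τ') = wt d τ + wt d τ' := by
  simp only [wt, Finsupp.add_apply, Nat.cast_add, add_div, Finset.sum_add_distrib]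

theorem coeff_mul_eq_zero (d : Fin m → ℕ) {s s' : ℝ} {f g : MvPowerSeries (Fin m) Ω}
    (hf : ∀ τ, wt d τ < s → MvPowerSeries.coeff τ f = 0)
    (hg : ∀ τ, wt d τ < s' → MvPowerSeries.coeff τ g = 0) (τ : Fin m →₀ ℕ)
    (hτ : wt d τ < s + s') : MvPowerSeries.coeff τ (f * g) = 0 := by
  classical
  rw [MvPowerSeries.coeff_mul]
  refine Finset.sum_eq_zero fun p hp => ?_
  have h1 : p.1 + p.2 = τ := Finset.HasAntidiagonal.mem_antidiagonal.1 hp
  have h2 : wt d p.1 + wt d p.2 = wt d τ := by rw [← wt_add, h1]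
  by_cases h : wt d p.1 < s
  · rw [hf _ h, zero_mul]
  · rw [hg _ (by linarith [not_lt.1 h]), mul_zero]

/-- series all of whose coefficients of weight below `s` vanish -/
def W (Ω : Type*) [Field Ω] (d : Fin m → ℕ) (s : ℝ) : Ideal (MvPowerSeries (Fin m) Ω) where
  carrier := {f | ∀ τ, wt d τ < s → MvPowerSeries.coeff τ f = 0}
  zero_mem' := fun _ _ => by simp
  add_mem' := fun ha hb τ hτ => by rw [map_add, ha τ hτ, hb τ hτ, add_zero]
  smul_mem' := fun r _ ha τ hτ => by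
    rw [smul_eq_mul]
    exact coeff_mul_eq_zero d (s := 0) (fun τ' h => absurd h (not_lt.2 (wt_nonneg d τ'))) ha τ
      (by rwa [zero_add])

theorem mem_W {d : Fin m → ℕ} {s : ℝ} {f : MvPowerSeries (Fin m) Ω} :
    f ∈ W Ω d s ↔ ∀ τ, wt d τ < s → MvPowerSeries.coeff τ f = 0 := Iff.rfl

theorem W_mul {d : Fin m → ℕ} {s s' : ℝ} {f g : MvPowerSeries (Fin m) Ω} (hf : f ∈ W Ω d s)
    (hg : g ∈ W Ω d s') : f * g ∈ W Ω d (s + s') :=
  fun τ hτ => coeff_mul_eq_zero d hf hg τ hτ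

theorem W_anti {d : Fin m → ℕ} {s s' : ℝ} (h : s ≤ s') : W Ω d s' ≤ W Ω d s :=
  fun _ hf τ hτ => hf τ (lt_of_lt_of_le hτ h)

theorem mem_W_zero {d : Fin m → ℕ} (f : MvPowerSeries (Fin m) Ω) : f ∈ W Ω d 0 :=
  fun τ h => absurd h (not_lt.2 (wt_nonneg d τ))

theorem W_pow {d : Fin m → ℕ} {s : ℝ} {f : MvPowerSeries (Fin m) Ω} (hf : f ∈ W Ω d s) (i : ℕ) :
    f ^ i ∈ W Ω d (i * s) := by
  induction i with
  | zero => simpa using mem_W_zero _
  | succ i ih =>
    have := W_mul ih hf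
    rw [pow_succ]
    convert this using 2
    push_cast
    ring

theorem W_prod {d : Fin m → ℕ} {ι : Type*} (t : Finset ι) (a : ι → ℝ)
    (f : ι → MvPowerSeries (Fin m) Ω) (h : ∀ i ∈ t, f i ∈ W Ω d (a i)) :
    ∏ i ∈ t, f i ∈ W Ω d (∑ i ∈ t, a i) := by
  classical
  induction t using Finset.induction_on with
  | empty => simpa using mem_W_zero _
  | insert i t hi ih =>
    rw [Finset.prod_insert hi, Finset.sum_insert hi]
    exact W_mul (h i (Finset.mem_insert_self _ _))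
      (ih fun j hj => h j (Finset.mem_insert_of_mem hj))

theorem X_mem_W (d : Fin m → ℕ) (h : Fin m) :
    (MvPowerSeries.X h : MvPowerSeries (Fin m) Ω) ∈ W Ω d (1 / (d h : ℝ)) := by
  classical
  intro τ hτ
  rw [MvPowerSeries.coeff_X, if_neg]
  rintro rfl
  have : wt d (Finsupp.single h 1) = 1 / (d h : ℝ) := by
    rw [wt, Finset.sum_eq_single h]
    · simp
    · intro b _ hb
      simp [hb.symm]
    · simp
  exact lt_irrefl _ (this ▸ hτ)

theorem mem_W_of_constantCoeff {d : Fin m → ℕ} (hdpos : ∀ h, 0 < d h)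
    {f : MvPowerSeries (Fin m) Ω} (hf : MvPowerSeries.constantCoeff f = 0) :
    f ∈ W Ω d (1 / ((∑ h, d h : ℕ) + 1 : ℝ)) := by
  intro τ hτ
  by_cases h0 : τ = 0
  · rw [h0, MvPowerSeries.coeff_zero_eq_constantCoeff_apply, hf]
  · exfalso
    obtain ⟨h, hh⟩ : ∃ h, τ h ≠ 0 := by
      by_contra hc
      push Not at hc
      exact h0 (Finsupp.ext hc)
    have h1 : (τ h : ℝ) / d h ≤ wt d τ :=
      Finset.single_le_sum (f := fun i => (τ i : ℝ) / (d i : ℝ)) (fun _ _ => by positivity)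
        (Finset.mem_univ h)
    have h2 : (d h : ℝ) ≤ ((∑ h, d h : ℕ) : ℝ) := by
      exact_mod_cast Finset.single_le_sum (f := d) (fun _ _ => Nat.zero_le _) (Finset.mem_univ h)
    have h3 : (0 : ℝ) < d h := by exact_mod_cast hdpos h
    have h4 : (1 : ℝ) ≤ τ h := by exact_mod_cast Nat.one_le_iff_ne_zero.2 hh
    have h5 : 1 / (((∑ h, d h : ℕ) : ℝ) + 1) ≤ (τ h : ℝ) / d h :=
      div_le_div₀ (by positivity) h4 h3 (by linarith)
    linarith

/-- the moving part of the point -/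
noncomputable def Yv (Ω : Type*) [Field Ω] (I : Finset (Fin m)) (h : Fin m) :
    MvPowerSeries (Fin m) Ω :=
  if h ∈ I then MvPowerSeries.X h else 0

theorem Yv_mem_W (d : Fin m → ℕ) (I : Finset (Fin m)) (h : Fin m) :
    Yv Ω I h ∈ W Ω d (1 / (d h : ℝ)) := by
  unfold Yv
  split_ifs
  · exact X_mem_W d h
  · exact zero_mem _

theorem cc_Yv (I : Finset (Fin m)) (h : Fin m) :
    MvPowerSeries.constantCoeff (Yv Ω I h) = 0 := by
  unfold Yv
  split_ifs <;> simp

theorem eval₂_C (x : Fin m → Ω) (Q : Sp m) :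
    eval₂ (Int.castRingHom (MvPowerSeries (Fin m) Ω)) (fun h => MvPowerSeries.C (x h)) Q =
      MvPowerSeries.C (eval₂ (Int.castRingHom Ω) x Q) := by
  rw [eval₂_comp_left]
  congr 1
  exact RingHom.ext_int _ _

theorem eval_mem_W (d : Fin m → ℕ) (I : Finset (Fin m)) (x : Fin m → Ω) (ε : ℝ) (Q : Sp m)
    (hvan : ∀ τ, wt d τ ≤ ε → eval₂ (Int.castRingHom Ω) x (hd τ Q) = 0) :
    eval₂ (Int.castRingHom (MvPowerSeries (Fin m) Ω))
      (fun h => MvPowerSeries.C (x h) + Yv Ω I h) Q ∈ W Ω d ε := by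
  rw [taylor_eval₂]
  refine Submodule.sum_mem _ fun τ _ => ?_
  rw [eval₂_C]
  by_cases hτ : wt d τ ≤ ε
  · rw [hvan τ hτ, map_zero, zero_mul]
    exact zero_mem _
  · refine Ideal.mul_mem_left _ _ (W_anti (le_of_lt (not_le.1 hτ)) ?_)
    rw [Finsupp.prod_fintype _ _ (fun _ => pow_zero _), wt]
    refine W_prod _ _ _ fun i _ => ?_
    have := W_pow (Yv_mem_W (Ω := Ω) d I i) (τ i)
    rwa [mul_one_div] at this

theorem first_order {T : Type*} [CommRing T] (c : Fin m → T) (y : T) (h : Fin m) (Q : Sp m) :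
    ∃ R : T, eval₂ (Int.castRingHom T) (fun i => c i + if i = h then y else 0) Q =
      eval₂ (Int.castRingHom T) c Q +
        y * (eval₂ (Int.castRingHom T) c (pderiv h Q) + y * R) := by
  induction Q using MvPolynomial.induction_on with
  | C a =>
    exact ⟨0, by rw [MvPolynomial.eval₂_C, MvPolynomial.eval₂_C, pderiv_C, eval₂_zero]; ring⟩
  | add p q hp hq =>
    obtain ⟨R, hR⟩ := hp
    obtain ⟨R', hR'⟩ := hq
    refine ⟨R + R', ?_⟩
    rw [eval₂_add, hR, hR', map_add, eval₂_add, eval₂_add]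
    ring
  | mul_X p i hp =>
    obtain ⟨R, hR⟩ := hp
    rw [eval₂_mul, hR, eval₂_X, eval₂_mul, eval₂_X, Derivation.leibniz, smul_eq_mul, smul_eq_mul,
      eval₂_add, eval₂_mul, eval₂_mul, eval₂_X]
    by_cases hi : i = h
    · subst hi
      refine ⟨R * c i + eval₂ (Int.castRingHom T) c (pderiv i p) + y * R, ?_⟩
      rw [if_pos rfl, pderiv_X_self, eval₂_one]
      ring
    · refine ⟨R * c i, ?_⟩
      rw [if_neg hi, pderiv_X_of_ne hi, eval₂_zero]
      ring

theorem eval_sep (I : Finset (Fin m)) (x : Fin m → Ω) (h : Fin m) (hh : h ∈ I) (Q : Sp m)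
    (hv : ∀ i ∈ Q.vars, i = h ∨ i ∉ I) (h0 : eval₂ (Int.castRingHom Ω) x Q = 0)
    (h1 : eval₂ (Int.castRingHom Ω) x (pderiv h Q) ≠ 0) :
    ∃ U : MvPowerSeries (Fin m) Ω, MvPowerSeries.constantCoeff U ≠ 0 ∧
      eval₂ (Int.castRingHom (MvPowerSeries (Fin m) Ω))
        (fun h => MvPowerSeries.C (x h) + Yv Ω I h) Q = MvPowerSeries.X h * U := by
  obtain ⟨R, hR⟩ := first_order (T := MvPowerSeries (Fin m) Ω) (fun i => MvPowerSeries.C (x i))
    (MvPowerSeries.X h) h Q
  rw [eval₂_C, eval₂_C, h0, map_zero, zero_add] at hR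
  refine ⟨_, ?_, Eq.trans ?_ hR⟩
  · simpa using h1
  · refine eval₂Hom_congr' rfl (fun i hi _ => ?_) rfl
    congr 1
    unfold Yv
    rcases hv i hi with rfl | hi'
    · rw [if_pos hh, if_pos rfl]
    · rw [if_neg hi', if_neg]
      rintro rfl
      exact hi' hh

theorem exists_theta {x z : Fin m → Ω} (I J : Finset (Fin m)) {kap : Kp m →+* Ω}
    (hz : ∀ h, h ∉ J → z h = x h)
    (hkap : ∀ s : Sp m, kap (algebraMap (Sp m) (Kp m) s) = eval₂ (Int.castRingHom Ω) z s) :
    ∃ θ : MvPolynomial J (Kp m) →+* MvPowerSeries (Fin m) Ω,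
      (∀ a, MvPowerSeries.constantCoeff (θ a) = eval₂Hom kap (fun j : J => x j) a) ∧
      ∀ Q : Sp m, θ (map (algebraMap (Sp m) (Kp m)) (iotaJ J Q)) =
        eval₂ (Int.castRingHom (MvPowerSeries (Fin m) Ω))
          (fun h => MvPowerSeries.C (x h) + Yv Ω I h) Q := by
  let θ₀ : Sp m →+* MvPowerSeries (Fin m) Ω :=
    eval₂Hom (Int.castRingHom _) fun h =>
      if h ∈ J then MvPowerSeries.C (z h) else MvPowerSeries.C (x h) + Yv Ω I h
  have hθ₀ : (MvPowerSeries.constantCoeff (σ := Fin m) (R := Ω)).comp θ₀ =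
      kap.comp (algebraMap (Sp m) (Kp m)) := by
    refine ringHom_ext' (RingHom.ext_int _ _) fun h => ?_
    simp only [RingHom.comp_apply, hkap, eval₂_X, θ₀, coe_eval₂Hom]
    split_ifs with hh
    · simp
    · simp [cc_Yv, hz h hh]
  have hu : ∀ s : nonZeroDivisors (Sp m), IsUnit (θ₀ s) := by
    intro s
    rw [MvPowerSeries.isUnit_iff_constantCoeff, isUnit_iff_ne_zero]
    have := congrArg (fun φ => φ (s : Sp m)) hθ₀
    simp only [RingHom.comp_apply] at this
    rw [this, map_ne_zero]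
    exact IsFractionRing.to_map_ne_zero_of_mem_nonZeroDivisors s.2
  let θK : Kp m →+* MvPowerSeries (Fin m) Ω := IsLocalization.lift hu
  have hθK : ∀ s, θK (algebraMap (Sp m) (Kp m) s) = θ₀ s := fun s => IsLocalization.lift_eq hu s
  have hcc : (MvPowerSeries.constantCoeff (σ := Fin m) (R := Ω)).comp θK = kap := by
    refine IsLocalization.ringHom_ext (nonZeroDivisors (Sp m)) ?_
    rw [← hθ₀]
    refine RingHom.ext fun s => ?_
    simp only [RingHom.comp_apply, hθK]
  refine ⟨eval₂Hom θK fun j : J => MvPowerSeries.C (x j) + Yv Ω I j, ?_, ?_⟩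
  · intro a
    have : (MvPowerSeries.constantCoeff (σ := Fin m) (R := Ω)).comp
        (eval₂Hom θK fun j : J => MvPowerSeries.C (x j) + Yv Ω I j) =
        eval₂Hom kap (fun j : J => x j) := by
      refine ringHom_ext (fun r => ?_) fun j => ?_
      · simp only [RingHom.comp_apply, coe_eval₂Hom, MvPolynomial.eval₂_C]
        rw [← hcc]
        rfl
      · simp [cc_Yv]
    exact congrArg (fun φ => φ a) this
  · intro Q
    have : ((eval₂Hom θK fun j : J => MvPowerSeries.C (x j) + Yv Ω I j).comp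
        (map (algebraMap (Sp m) (Kp m)))).comp (iotaJ J) =
        eval₂Hom (Int.castRingHom (MvPowerSeries (Fin m) Ω))
          (fun h => MvPowerSeries.C (x h) + Yv Ω I h) := by
      refine ringHom_ext' (RingHom.ext_int _ _) fun h => ?_
      simp only [RingHom.comp_apply, iotaJ, coe_eval₂Hom, eval₂_X]
      split_ifs with hh
      · simp
      · rw [map_C, MvPolynomial.eval₂_C, hθK]
        simp [θ₀, hh]
    exact congrArg (fun φ => φ Q) this

theorem indep {K A : Type*} [Field K] [CommRing A] [Algebra K A]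
    (θ : A →+* MvPowerSeries (Fin m) Ω)
    (hK : ∀ a : K, a ≠ 0 → MvPowerSeries.constantCoeff (θ (algebraMap K A a)) ≠ 0)
    (d : Fin m → ℕ) (s : ℝ) (N : Fin m → ℕ) (q : Fin m → A) (U : Fin m → MvPowerSeries (Fin m) Ω)
    (hU : ∀ h, MvPowerSeries.constantCoeff (U h) ≠ 0)
    (hq : ∀ h, N h ≤ 1 ∨ θ (q h) = MvPowerSeries.X h * U h)
    (hs : ∀ τ : (h : Fin m) → Fin (N h), ∑ h, ((τ h : ℕ) : ℝ) / (d h : ℝ) < s) :
    LinearIndependent K (fun τ : (h : Fin m) → Fin (N h) =>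
      Ideal.Quotient.mk ((W Ω d s).comap θ) (∏ h, q h ^ (τ h : ℕ))) := by
  classical
  rw [Fintype.linearIndependent_iff]
  intro a ha
  by_contra hne
  push Not at hne
  obtain ⟨τ₁, hτ₁⟩ := hne
  obtain ⟨τ₀, hτ₀, hmin⟩ := Finset.exists_min_image (Finset.univ.filter fun τ => a τ ≠ 0)
    (fun τ => ∑ h, (τ h : ℕ)) ⟨τ₁, by simpa using hτ₁⟩
  have hτ₀' : a τ₀ ≠ 0 := by simpa using hτ₀
  let e : ((h : Fin m) → Fin (N h)) → (Fin m →₀ ℕ) := fun τ =>
    Finsupp.equivFunOnFinite.symm fun h => (τ h : ℕ)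
  have he : ∀ τ h, e τ h = τ h := fun τ h => rfl
  have hg : ∀ τ : (h : Fin m) → Fin (N h), θ (∏ h, q h ^ (τ h : ℕ)) =
      MvPowerSeries.monomial (e τ) 1 * ∏ h, U h ^ (τ h : ℕ) := by
    intro τ
    rw [MvPowerSeries.monomial_one_eq, Finsupp.prod_fintype _ _ (fun _ => pow_zero _), map_prod,
      ← Finset.prod_mul_distrib]
    refine Finset.prod_congr rfl fun h _ => ?_
    rw [he, map_pow]
    rcases hq h with h1 | h1
    · have : (τ h : ℕ) = 0 := by have := (τ h).2; omega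
      simp [this]
    · rw [h1, mul_pow]
  have hmem : (∑ τ, a τ • ∏ h, q h ^ (τ h : ℕ)) ∈ (W Ω d s).comap θ := by
    rw [← Ideal.Quotient.eq_zero_iff_mem, ← ha, ← Ideal.Quotient.mkₐ_eq_mk K, map_sum]
    simp only [map_smul]
  have h0 := (Ideal.mem_comap.1 hmem) (e τ₀) (hs τ₀)
  rw [map_sum, map_sum, Finset.sum_eq_single τ₀] at h0
  · rw [Algebra.smul_def, map_mul, hg, mul_left_comm, MvPowerSeries.coeff_monomial_mul,
      if_pos le_rfl, tsub_self, one_mul, MvPowerSeries.coeff_zero_eq_constantCoeff_apply, map_mul,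
      map_prod] at h0
    refine mul_ne_zero (hK _ hτ₀') (Finset.prod_ne_zero_iff.2 fun h _ => ?_) h0
    rw [map_pow]
    exact pow_ne_zero _ (hU h)
  · intro τ _ hτ
    by_cases haτ : a τ = 0
    · simp [haτ]
    · rw [Algebra.smul_def, map_mul, hg, mul_left_comm, MvPowerSeries.coeff_monomial_mul, if_neg]
      intro hle
      have h1 : ∀ h ∈ (Finset.univ : Finset (Fin m)), (τ h : ℕ) ≤ τ₀ h := fun h _ => hle h
      have h2 := hmin τ (by simpa using haτ)
      have h3 := (Finset.sum_eq_sum_iff_of_le h1).1 (le_antisymm (Finset.sum_le_sum h1) h2)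
      exact hτ (funext fun h => Fin.ext (h3 h (Finset.mem_univ h)))
  · simp

end LowerAux

open LowerAux

theorem lowMult_fK {m : ℕ} {Ω : Type*} [Field Ω] [Algebra ℚ Ω] {x z : Fin m → Ω}
    {I J : Finset (Fin m)} {kap : Kp m →+* Ω} (hI : IsCobasis x I) (hcard : I.card = J.card)
    (hz : ∀ h, h ∉ J → z h = x h)
    (hkap : ∀ s : Sp m, kap (algebraMap (Sp m) (Kp m) s) = eval₂ (Int.castRingHom Ω) z s)
    {n : ℕ} (P : Fin n → Sp m) (d : Fin m → ℕ) (hdpos : ∀ h, 0 < d h) (ε : ℝ) (hε : 0 < ε)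
    (hvan : ∀ τ₀ τ, wt d τ ≤ ε → eval₂ (Int.castRingHom Ω) x (hd τ (P τ₀)) = 0) :
    LowMult (Kp m) (fK J P) (nK J kap x) (∏ h ∈ I, ε * d h / J.card) := by
  classical
  intro i hi
  obtain ⟨θ, hθc, hθQ⟩ := exists_theta I J hz hkap
  have hi' : (0 : ℝ) < i := by exact_mod_cast hi
  have hsep : ∀ h : Fin m, ∃ (q : MvPolynomial J (Kp m)) (U : MvPowerSeries (Fin m) Ω),
      MvPowerSeries.constantCoeff U ≠ 0 ∧ (h ∈ I → θ q = MvPowerSeries.X h * U) := by
    intro h
    by_cases hh : h ∈ I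
    · obtain ⟨Q, hv, h0, h1⟩ := exists_sep_relation hI h hh
      obtain ⟨U, hU, hQ⟩ := eval_sep I x h hh Q hv h0 h1
      exact ⟨_, U, hU, fun _ => (hθQ Q).trans hQ⟩
    · exact ⟨1, 1, by simp, fun h' => absurd h' hh⟩
  choose q U hU hq using hsep
  let N : Fin m → ℕ := fun h => if h ∈ I then ⌈(i : ℝ) * (ε * d h / J.card)⌉₊ else 1
  have hind := indep (K := Kp m) θ
    (fun a ha => by
      rw [hθc, algebraMap_eq, coe_eval₂Hom, MvPolynomial.eval₂_C]
      exact (map_ne_zero kap).2 ha)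
    d (i * ε) N q U hU
    (fun h => by
      by_cases hh : h ∈ I
      · exact Or.inr (hq h hh)
      · exact Or.inl (by simp [N, hh]))
    (fun τ => by
      have h0 : ∀ h, h ∉ I → (τ h : ℕ) = 0 := fun h hh => by
        have h1 := (τ h).2
        have h2 : N h = 1 := by simp [N, hh]
        omega
      rw [← Finset.sum_subset (Finset.subset_univ I) (fun h _ hh => by simp [h0 h hh])]
      rcases I.eq_empty_or_nonempty with hE | hE
      · rw [hE, Finset.sum_empty]
        positivity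
      · have hk : (0 : ℝ) < J.card := by
          rw [← hcard]
          exact_mod_cast hE.card_pos
        have h1 : ∑ h ∈ I, ((τ h : ℕ) : ℝ) / (d h : ℝ) < ∑ _h ∈ I, (i : ℝ) * ε / J.card := by
          refine Finset.sum_lt_sum_of_nonempty hE fun h hh => ?_
          have h2 : (τ h : ℕ) < ⌈(i : ℝ) * (ε * d h / J.card)⌉₊ := by
            have h3 := (τ h).2
            have h4 : N h = ⌈(i : ℝ) * (ε * d h / J.card)⌉₊ := by simp [N, hh]
            omega
          have h3 := Nat.lt_ceil.1 h2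
          have h4 : (0 : ℝ) < d h := by exact_mod_cast hdpos h
          rw [div_lt_iff₀ h4]
          calc ((τ h : ℕ) : ℝ) < i * (ε * d h / J.card) := h3
            _ = i * ε / J.card * d h := by ring
        rw [Finset.sum_const, nsmul_eq_mul, hcard, mul_div_cancel₀ _ hk.ne'] at h1
        exact h1)
  set D : ℝ := ((∑ h, d h : ℕ) : ℝ) + 1 with hD
  have hDpos : 0 < D := by positivity
  refine ⟨(W Ω d (i * ε)).comap θ, ⌈(i : ℝ) * ε * D⌉₊, Fintype.card ((h : Fin m) → Fin (N h)),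
    fun s => ∏ h, q h ^ (((Fintype.equivFin ((h : Fin m) → Fin (N h))).symm s h : ℕ)), ?_, ?_,
    hind.comp _ (Fintype.equivFin _).symm.injective, ?_⟩
  · intro j
    rw [Ideal.mem_comap, map_pow]
    refine W_pow ?_ i
    rw [fK, fJ, map_sum, map_sum]
    refine Submodule.sum_mem _ fun τ _ => ?_
    rw [map_mul, map_mul, hθQ]
    exact Ideal.mul_mem_left _ _ (eval_mem_W d I x ε _ (hvan τ))
  · have hL : ∀ L : ℕ, nK J kap x ^ L ≤ (W Ω d (L * (1 / D))).comap θ := by
      intro L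
      induction L with
      | zero =>
        intro a _
        rw [Ideal.mem_comap]
        simpa using mem_W_zero _
      | succ L ih =>
        rw [pow_succ, Ideal.mul_le]
        intro r hr s hs
        rw [Ideal.mem_comap, map_mul]
        have h1 : θ s ∈ W Ω d (1 / D) :=
          mem_W_of_constantCoeff hdpos (by rw [hθc]; exact hs)
        have h2 := W_mul (Ideal.mem_comap.1 (ih hr)) h1
        convert h2 using 2
        push_cast
        ring
    refine (hL _).trans (Ideal.comap_mono (W_anti ?_))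
    rw [mul_one_div, le_div_iff₀ hDpos]
    exact Nat.le_ceil _
  · rw [Fintype.card_pi, Fintype.card_coe, ← hcard, ← Finset.prod_const, ← Finset.prod_mul_distrib]
    simp only [Fintype.card_fin]
    push_cast
    rw [← Finset.prod_subset (Finset.subset_univ I) (fun h _ hh => by simp [N, hh])]
    refine Finset.prod_le_prod (fun h _ => by positivity) fun h hh => ?_
    have h4 : N h = ⌈(i : ℝ) * (ε * d h / J.card)⌉₊ := by simp [N, hh]
    rw [h4, hcard, mul_comm]
    exact Nat.le_ceil _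

end Pool.Agent.P.MP_c8ecb2_nt.RP
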