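import Mathlib
import Pool.Agent.P.MP_c8ecb2_nt.RP.Defs

set_option autoImplicit false

namespace Pool.Agent.P.MP_c8ecb2_nt.RP

open MvPolynomial

private lemma exists_greedy {α : Type*} (M : Matroid α) (S : ℕ → Set α) (hS : Monotone S)
    (hE : ∀ k, S k ⊆ M.E) (n : ℕ) : ∃ B ⊆ S n, ∀ k ≤ n, M.IsBasis (B ∩ S k) (S k) := by
  induction n with
  | zero =>
    obtain ⟨B, hB⟩ := M.exists_isBasis (S 0) (hE 0)
    refine ⟨B, hB.subset, fun k hk => ?_⟩
    obtain rfl := Nat.le_zero.1 hk
    rwa [Set.inter_eq_left.2 hB.subset]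
  | succ n ih =>
    obtain ⟨B, h1, h2⟩ := ih
    have h3 := h2 n le_rfl
    rw [Set.inter_eq_left.2 h1] at h3
    obtain ⟨B', h4, h5⟩ := h3.indep.subset_isBasis_of_subset (h1.trans (hS n.le_succ)) (hE _)
    have h6 : B = B' ∩ S n := h3.eq_of_subset_indep (h4.indep.inter_right _)
      (Set.subset_inter h5 h1) Set.inter_subset_right
    refine ⟨B', h4.subset, fun k hk => ?_⟩
    rcases Nat.le_succ_iff.1 hk with hk | rfl
    · have := h2 k hk
      rwa [h6, Set.inter_assoc, Set.inter_eq_right.2 (hS hk)] at this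
    · rwa [Set.inter_eq_left.2 h4.subset]

private lemma emb_lt {m k : ℕ} {I J : Finset (Fin m)} (hI : I.card = k) (hJ : J.card = k)
    (h : ∀ t, (J.filter (· ≤ t)).card ≤ (I.filter (· < t)).card) (s : Fin k) :
    I.orderEmbOfFin hI s < J.orderEmbOfFin hJ s := by
  by_contra hc
  have h1 : (Finset.Iic s).card ≤ (J.filter (· ≤ J.orderEmbOfFin hJ s)).card :=
    Finset.card_le_card_of_injOn (J.orderEmbOfFin hJ) (fun a ha => by
      simpa using ha) (J.orderEmbOfFin hJ).injective.injOn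
  have h2 : (I.filter (· < J.orderEmbOfFin hJ s)).card ≤ (Finset.Iio s).card := by
    refine Finset.card_le_card_of_surjOn (I.orderEmbOfFin hI) fun a ha => ?_
    obtain ⟨h3, h4⟩ := Finset.mem_filter.1 (Finset.mem_coe.1 ha)
    obtain ⟨u, rfl⟩ : a ∈ Set.range (I.orderEmbOfFin hI) := by
      rw [Finset.range_orderEmbOfFin]
      exact h3
    exact ⟨u, by simpa using (I.orderEmbOfFin hI).lt_iff_lt.1 (h4.trans_le (not_lt.1 hc)), rfl⟩
  have h3 := h (J.orderEmbOfFin hJ s)
  rw [Fin.card_Iic] at h1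
  rw [Fin.card_Iio] at h2
  omega

variable {m : ℕ} {Ω : Type*} [Field Ω] [Algebra ℚ Ω]

private lemma cobasis_of_isBase {x : Fin m → Ω} {I : Finset (Fin m)}
    (h : ((AlgebraicIndependent.matroid ℚ Ω).comap x).IsBase {h | h ∉ I}) : IsCobasis x I := by
  obtain ⟨h1, h2, -⟩ := Matroid.comap_isBase_iff.1 h
  obtain ⟨h3, -, h4⟩ := AlgebraicIndependent.matroid_isBasis_iff.1 h1
  exact ⟨(algebraicIndependent_image h2).2 h3, fun a => h4 _ ⟨a, trivial, rfl⟩⟩

theorem exists_cobasis (x : Fin m → Ω) : ∃ I, IsCobasis x I := by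
  classical
  obtain ⟨B, hB⟩ := ((AlgebraicIndependent.matroid ℚ Ω).comap x).exists_isBase
  exact ⟨Finset.univ.filter (· ∉ B), cobasis_of_isBase (by simpa using hB)⟩

theorem mem_of_isCobasis {x : Fin m → Ω} {I : Finset (Fin m)} (hI : IsCobasis x I) {a : Fin m}
    (ha : IsAlgebraic ℚ (x a)) : a ∈ I := by
  by_contra h
  exact hI.1.transcendental ⟨a, h⟩ ha

theorem cobasis_nonempty {x : Fin m → Ω} {I : Finset (Fin m)} (hI : IsCobasis x I)
    (hker : RingHom.ker (aeval x : MvPolynomial (Fin m) ℚ →ₐ[ℚ] Ω) ≠ ⊥) : I.Nonempty := by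
  rw [Finset.nonempty_iff_ne_empty]
  rintro rfl
  have h : AlgebraicIndependent ℚ x :=
    hI.1.comp (fun h => ⟨h, Finset.notMem_empty h⟩) fun _ _ e => congrArg Subtype.val e
  exact hker ((RingHom.injective_iff_ker_eq_bot _).1 h)

theorem exists_shift (x : Fin m → Ω) (htr : ∀ h, Transcendental ℚ (x h)) (d : Fin m → ℕ) (ω : ℝ)
    (hω : 1 ≤ ω) (hgap : ∀ h h' : Fin m, h'.val = h.val + 1 → ω * d h' ≤ d h) :
    ∃ I J : Finset (Fin m), IsCobasis x I ∧ IsCobasis x J ∧ I.card = J.card ∧
      ω ^ J.card * ∏ j ∈ J, (d j : ℝ) ≤ ∏ i ∈ I, (d i : ℝ) := by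
  classical
  set M := (AlgebraicIndependent.matroid ℚ Ω).comap x with hM
  have hE : M.E = Set.univ := rfl
  obtain ⟨A, -, hA⟩ := exists_greedy M (fun k => {h | h.val < k})
    (fun _ _ hk _ hh => lt_of_lt_of_le hh hk) (fun _ => Set.subset_univ _) m
  obtain ⟨B, -, hB⟩ := exists_greedy M (fun k => {h | m ≤ h.val + k})
    (fun _ _ hk _ hh => le_trans hh (Nat.add_le_add_left hk _)) (fun _ => Set.subset_univ _) m
  have hA1 : M.IsBase A := by
    have := hA m le_rfl
    rwa [Set.eq_univ_of_forall (s := {h : Fin m | h.val < m}) fun h => h.2, Set.inter_univ, ← hE,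
      Matroid.isBasis_ground_iff] at this
  have hB1 : M.IsBase B := by
    have := hB m le_rfl
    rwa [Set.eq_univ_of_forall (s := {h : Fin m | m ≤ h.val + m}) fun h => Nat.le_add_left _ _,
      Set.inter_univ, ← hE, Matroid.isBasis_ground_iff] at this
  lift A to Finset (Fin m) using A.toFinite
  lift B to Finset (Fin m) using B.toFinite
  have hc : A.card = B.card := by
    have := hA1.encard_eq_encard_of_isBase hB1
    simpa using this
  have hc' : Bᶜ.card = Aᶜ.card := by rw [Finset.card_compl, Finset.card_compl, hc]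
  have key : ∀ t, (Aᶜ.filter (· ≤ t)).card ≤ (Bᶜ.filter (· < t)).card := by
    intro t
    have h1 := (hA (t + 1) t.2).encard_eq_eRk
    have h2 := (hB (m - t) (Nat.sub_le _ _)).encard_eq_eRk
    have h3 := M.eRk_inter_add_eRk_union_le {h | h.val < t + 1} {h | m ≤ h.val + (m - t)}
    have ht := t.2
    have e1 : {h : Fin m | h.val < t + 1} ∩ {h | m ≤ h.val + (m - t)} = {t} := by
      ext h
      simp only [Set.mem_inter_iff, Set.mem_ofPred_eq, Set.mem_singleton_iff, Fin.ext_iff]
      omega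
    have e2 : {h : Fin m | h.val < t + 1} ∪ {h | m ≤ h.val + (m - t)} = M.E := by
      ext h
      simp only [Set.mem_union, Set.mem_ofPred_eq, hE, Set.mem_univ, iff_true]
      omega
    have e3 : M.Indep {t} := by
      rw [hM, Matroid.comap_indep_iff, Set.image_singleton]
      exact ⟨(algebraicIndependent_singleton_iff (x := fun a : ({x t} : Set Ω) => id a.1)
        ⟨x t, rfl⟩).2 (htr t), Set.injOn_singleton _ _⟩
    have e4 : (A : Set (Fin m)) ∩ {h | h.val < t + 1} = ↑(A.filter (· ≤ t)) := by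
      ext h
      simp [Nat.lt_succ_iff]
    have e5 : (B : Set (Fin m)) ∩ {h | m ≤ h.val + (m - t)} = ↑(B.filter (¬ · < t)) := by
      ext h
      simp only [Set.mem_inter_iff, Finset.mem_coe, Set.mem_ofPred_eq, Finset.mem_filter,
        Fin.lt_def]
      exact and_congr_right fun _ => by omega
    rw [e1, e2, e3.eRk_eq_encard, Matroid.eRk_ground, ← hB1.encard_eq_eRank, ← h1, ← h2, e4, e5,
      Set.encard_singleton, Set.encard_coe_eq_coe_finsetCard, Set.encard_coe_eq_coe_finsetCard,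
      Set.encard_coe_eq_coe_finsetCard] at h3
    have h4 : 1 + B.card ≤ (A.filter (· ≤ t)).card + (B.filter (¬ · < t)).card := by
      exact_mod_cast h3
    have h5 := Finset.card_filter_add_card_filter_not (s := B) (· < t)
    have h6 := Finset.card_filter_add_card_filter_not (s := Finset.Iic t) (· ∈ A)
    have h7 := Finset.card_filter_add_card_filter_not (s := Finset.Iio t) (· ∈ B)
    rw [Fin.card_Iic, show (Finset.Iic t).filter (· ∈ A) = A.filter (· ≤ t) by ext; simp [and_comm],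
      show (Finset.Iic t).filter (· ∉ A) = Aᶜ.filter (· ≤ t) by ext; simp [and_comm]] at h6
    rw [Fin.card_Iio, show (Finset.Iio t).filter (· ∈ B) = B.filter (· < t) by ext; simp [and_comm],
      show (Finset.Iio t).filter (· ∉ B) = Bᶜ.filter (· < t) by ext; simp [and_comm]] at h7
    omega
  have hd : ∀ (n : ℕ) (i j : Fin m), j.val = i.val + 1 + n → ω * d j ≤ d i := by
    intro n
    induction n with
    | zero => exact hgap
    | succ n ih =>
      intro i j hj
      have hj' : i.val + 1 + n < m := by omega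
      exact (hgap ⟨_, hj'⟩ j hj).trans
        ((le_mul_of_one_le_left (Nat.cast_nonneg _) hω).trans (ih i ⟨_, hj'⟩ rfl))
  refine ⟨Bᶜ, Aᶜ, cobasis_of_isBase (by simpa [hM] using hB1),
    cobasis_of_isBase (by simpa [hM] using hA1), hc', ?_⟩
  conv_lhs => rw [← Finset.card_fin Aᶜ.card, ← Finset.prod_const]
  conv_lhs => arg 2; rw [← Finset.image_orderEmbOfFin_univ Aᶜ rfl,
    Finset.prod_image (Finset.orderEmbOfFin _ _).injective.injOn]
  conv_rhs => rw [← Finset.image_orderEmbOfFin_univ Bᶜ hc',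
    Finset.prod_image (Finset.orderEmbOfFin _ _).injective.injOn]
  rw [← Finset.prod_mul_distrib]
  refine Finset.prod_le_prod (fun _ _ => by positivity) fun s _ => ?_
  obtain ⟨n, hn⟩ := Nat.exists_eq_add_of_le (Nat.succ_le_of_lt (emb_lt hc' rfl key s))
  exact hd n _ _ hn

end Pool.Agent.P.MP_c8ecb2_nt.RP
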