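import Mathlib
import Pool.Agent.P.MP_c8ecb2_nt.RP.Taylor
import Pool.Agent.P.MP_c8ecb2_nt.RP.Chain
import Pool.Agent.P.MP_c8ecb2_nt.RP.Matroid
import Pool.Agent.P.MP_c8ecb2_nt.RP.Isolated
import Pool.Agent.P.MP_c8ecb2_nt.RP.Lower
import Pool.Agent.P.MP_c8ecb2_nt.RP.Elim
import Pool.Agent.P.MP_c8ecb2_nt.RP.Gauss

set_option autoImplicit false

namespace Pool.Agent.P.MP_c8ecb2_nt.RP

open MvPolynomial

theorem wt_add {σ : Type*} [Fintype σ] (d : σ → ℕ) (τ τ' : σ →₀ ℕ) :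
    wt d (τ + τ') = wt d τ + wt d τ' := by
  simp [wt, add_div, Finset.sum_add_distrib]

theorem aeval_map_int {m : ℕ} {Ω : Type*} [CommRing Ω] [Algebra ℚ Ω] (x : Fin m → Ω)
    (Q : MvPolynomial (Fin m) ℤ) :
    aeval x (map (Int.castRingHom ℚ) Q) = eval₂ (Int.castRingHom Ω) x Q := by
  rw [aeval_def, eval₂_map]
  congr 1
  exact RingHom.ext_int _ _

theorem one_le_ht (q : ℚ) : 1 ≤ ht q := by
  have : (1 : ℝ) ≤ q.den := by exact_mod_cast q.den_pos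
  exact le_max_of_le_right this

/-- the multiplicity estimate at the generic point -/
theorem mult_estimate {m : ℕ} {Ω : Type*} [Field Ω] [Algebra ℚ Ω] {x : Fin m → Ω}
    {I J : Finset (Fin m)} (hI : IsCobasis x I) (hJ : IsCobasis x J) (hcard : I.card = J.card)
    (z : Fin m → Ω) (kap : Kp m →+* Ω) (hz : ∀ h, h ∉ J → z h = x h)
    (hkap : ∀ s : Sp m, kap (algebraMap (Sp m) (Kp m) s) = eval₂ (Int.castRingHom Ω) z s)
    {n : ℕ} (P : Fin n → Sp m) (d : Fin m → ℕ) (hdpos : ∀ h, 0 < d h)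
    (hdeg : ∀ τ h, degreeOf h (P τ) ≤ d h) (s : ℝ) (hs : 1 ≤ s) (hlen : ∑ τ, len (P τ) ≤ s)
    (ε : ℝ) (hε : 0 < ε)
    (hvan : ∀ τ₀ τ, wt d τ ≤ ε → eval₂ (Int.castRingHom Ω) x (hd τ (P τ₀)) = 0)
    (hmin : ∀ 𝔮 : Ideal (MvPolynomial (Fin m) ℚ), 𝔮.IsPrime →
      (∀ τ, map (Int.castRingHom ℚ) (P τ) ∈ 𝔮) →
      𝔮 ≤ RingHom.ker (aeval x : MvPolynomial (Fin m) ℚ →ₐ[ℚ] Ω) →
      RingHom.ker (aeval x : MvPolynomial (Fin m) ℚ →ₐ[ℚ] Ω) ≤ 𝔮) :
    (ε / J.card) ^ J.card * ∏ h ∈ I, (d h : ℝ) ≤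
        (2 * (J.card + 1) : ℝ) ^ J.card * ∏ h ∈ J, (d h : ℝ) ∧
      ∀ a ∈ J, ∀ β : ℚ, x a = β → ∃ ρ : ℕ,
        (ε / J.card) ^ J.card * ∏ h ∈ I, (d h : ℝ) ≤ 2 ^ J.card * (ρ : ℝ) ∧
        ht β ^ ρ ≤ (2 * s ^ (1 / (d a : ℝ))) ^ ((J.card + 1) ^ J.card * ∏ h ∈ J, d h) := by
  classical
  have hP0 : ∀ τ, eval₂ (Int.castRingHom Ω) x (P τ) = 0 := by
    intro τ
    have := hvan τ 0 (by simp [wt, hε.le])
    rwa [hd_zero] at this
  have := nK_finite hJ hz hkap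
  have hμ : ∏ h ∈ I, ε * d h / J.card = (ε / J.card) ^ J.card * ∏ h ∈ I, (d h : ℝ) := by
    rw [← hcard, ← Finset.prod_const, ← Finset.prod_mul_distrib]
    exact Finset.prod_congr rfl fun h _ => by ring
  have hE := elim (K := Kp m) isNrm_len (fJ J P) (fun j : J => d j) (fun j => hdpos j)
    (fun j i => degreeOf_fJ_le J P d hdeg j i) s hs (fun j => (wn_fJ_le J P j).trans hlen)
    (nK J kap x) (nK_isMaximal hJ hz hkap) (nK_minimal hJ hz hkap P hP0 hmin) _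
    (lowMult_fK hI hcard hz hkap P d hdpos ε hε hvan)
  rw [hμ, Fintype.card_coe, Finset.prod_coe_sort J fun h => (d h : ℝ),
    Finset.prod_coe_sort J d] at hE
  refine ⟨hE.1, fun a ha β hβ => ?_⟩
  obtain ⟨ρ, R₀, hR, hρ, hdvd, hH⟩ := hE.2 ⟨a, ha⟩ (β : Kp m) (by
    simp [nK, RingHom.mem_ker, hβ])
  exact ⟨ρ, hρ, ht_pow_le β ρ R₀ hR _ hH hdvd⟩

theorem eq_of_isAlgebraic {m : ℕ} {Ω : Type*} [Field Ω] [Algebra ℚ Ω] {x : Fin m → Ω}
    {β : Fin m → ℚ}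
    (hle : RingHom.ker (aeval x : MvPolynomial (Fin m) ℚ →ₐ[ℚ] Ω) ≤
      RingHom.ker (aeval β : MvPolynomial (Fin m) ℚ →ₐ[ℚ] ℚ)) {a : Fin m}
    (ha : IsAlgebraic ℚ (x a)) : x a = β a := by
  have hint := ha.isIntegral
  have h1 : Polynomial.aeval (X a : MvPolynomial (Fin m) ℚ) (minpoly ℚ (x a)) ∈
      RingHom.ker (aeval x : MvPolynomial (Fin m) ℚ →ₐ[ℚ] Ω) := by
    rw [RingHom.mem_ker, ← Polynomial.aeval_algHom_apply, aeval_X, minpoly.aeval]
  have h2 := hle h1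
  rw [RingHom.mem_ker, ← Polynomial.aeval_algHom_apply, aeval_X] at h2
  have h3 : (minpoly ℚ (x a)).IsRoot (β a) := by
    simpa [Polynomial.aeval_def] using h2
  have h4 := minpoly.root hint h3
  rw [← h4]; simp

theorem roth_lemma {m : ℕ} (B : ℕ) (hB : 1 ≤ B) (d : Fin m → ℕ) (hdpos : ∀ h, 0 < d h)
    (P : MvPolynomial (Fin m) ℤ) (hP : P ≠ 0) (hdeg : ∀ h, degreeOf h P ≤ d h) (β : Fin m → ℚ)
    (hind : ∀ τ, wt d τ ≤ (m : ℝ) / B → eval₂ (Int.castRingHom ℚ) β (hd τ P) = 0)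
    (hgap : ∀ h h' : Fin m, h'.val = h.val + 1 →
      (2 * B * m * (m + 1) + 1 : ℝ) * d h' ≤ d h) :
    ∃ h, d h * Real.log (ht (β h)) ≤ (2 * B * m * (m + 1) : ℝ) ^ m *
      (2 * (∑ i, (d i : ℝ)) * Real.log 2 + Real.log (len P)) := by
  classical
  have hB0 : (0 : ℝ) < B := by exact_mod_cast hB
  have hB1 : (1 : ℝ) ≤ B := by exact_mod_cast hB
  set 𝔍 : ℕ → Ideal (MvPolynomial (Fin m) ℚ) := fun j =>
    Ideal.span ((fun τ => map (Int.castRingHom ℚ) (hd τ P)) '' {τ | wt d τ ≤ (j : ℝ) / B})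
    with h𝔍
  have hmem : ∀ (j : ℕ) τ, wt d τ ≤ (j : ℝ) / B → map (Int.castRingHom ℚ) (hd τ P) ∈ 𝔍 j :=
    fun j τ h => Ideal.subset_span ⟨τ, h, rfl⟩
  have hmono : Monotone 𝔍 := by
    intro j j' hj
    refine Ideal.span_mono (Set.image_mono fun τ hτ => ?_)
    have : (j : ℝ) ≤ j' := by exact_mod_cast hj
    have h1 : wt d τ ≤ (j : ℝ) / B := hτ
    exact h1.trans (by gcongr)
  have hPQ : map (Int.castRingHom ℚ) P ≠ 0 := fun h =>
    hP (map_injective _ (RingHom.injective_int _) (by simpa using h))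
  have hP0 : map (Int.castRingHom ℚ) P ∈ 𝔍 0 := by
    have := hmem 0 0 (by simp [wt])
    rwa [hd_zero] at this
  have h0 : 𝔍 0 ≠ ⊥ := fun h => hPQ (by rwa [h, Ideal.mem_bot] at hP0)
  have hm : 𝔍 m ≤ RingHom.ker (aeval β : MvPolynomial (Fin m) ℚ →ₐ[ℚ] ℚ) := by
    refine Ideal.span_le.mpr ?_
    rintro _ ⟨τ, hτ, rfl⟩
    rw [SetLike.mem_coe, RingHom.mem_ker, aeval_map_int]
    exact hind τ hτ
  obtain ⟨j, -, 𝔭, h𝔭, hj1, h𝔭𝔪⟩ :=
    exists_chain_prime 𝔍 hmono h0 _ (RingHom.ker_isPrime _) hm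
  obtain ⟨Ω, _, _, x, hker, hgen⟩ := exists_generic 𝔭 h𝔭.1.1
  set S : Finset (Fin m →₀ ℕ) := (tay P).support.filter fun τ => wt d τ ≤ (j : ℝ) / B with hS
  set P' : Fin S.card → Sp m := fun t => hd (S.equivFin.symm t : Fin m →₀ ℕ) P with hP'
  have hlenP : 1 ≤ len P := one_le_len hP
  set s : ℝ := 2 ^ (∑ i, d i) * len P with hs
  have hs1 : 1 ≤ s := one_le_mul_of_one_le_of_one_le (one_le_pow₀ one_le_two) hlenP
  have hlen : ∑ t, len (P' t) ≤ s := by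
    have h1 : ∑ t, len (P' t) = ∑ τ ∈ S, len (hd τ P) := by
      rw [← Finset.sum_coe_sort S]
      exact Equiv.sum_comp S.equivFin.symm fun τ : S => len (hd (τ : Fin m →₀ ℕ) P)
    rw [h1]
    exact sum_wn_hd_le isNrm_iabs P d hdeg S
  have hdeg' : ∀ t h, degreeOf h (P' t) ≤ d h := fun t h => (degreeOf_hd_le _ _ _).trans (hdeg h)
  have hvan : ∀ τ₀ τ, wt d τ ≤ 1 / (B : ℝ) →
      eval₂ (Int.castRingHom Ω) x (hd τ (P' τ₀)) = 0 := by
    intro τ₀ τ hτ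
    have h1 := (Finset.mem_filter.mp (S.equivFin.symm τ₀).2).2
    have h2 : wt d (τ + (S.equivFin.symm τ₀ : Fin m →₀ ℕ)) ≤ ((j + 1 : ℕ) : ℝ) / B := by
      rw [wt_add]; push_cast; rw [add_div]; linarith
    have h3 := hj1 (hmem _ _ h2)
    rw [← hker, RingHom.mem_ker, aeval_map_int] at h3
    simp only [hP']
    rw [hd_hd, eval₂_mul, h3, mul_zero]
  have hmin : ∀ 𝔮 : Ideal (MvPolynomial (Fin m) ℚ), 𝔮.IsPrime →
      (∀ τ, map (Int.castRingHom ℚ) (P' τ) ∈ 𝔮) →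
      𝔮 ≤ RingHom.ker (aeval x : MvPolynomial (Fin m) ℚ →ₐ[ℚ] Ω) →
      RingHom.ker (aeval x : MvPolynomial (Fin m) ℚ →ₐ[ℚ] Ω) ≤ 𝔮 := by
    intro 𝔮 h𝔮 hin hle
    rw [hker] at hle ⊢
    refine h𝔭.2 ⟨h𝔮, ?_⟩ hle
    refine Ideal.span_le.mpr ?_
    rintro _ ⟨τ, hτ, rfl⟩
    by_cases hsupp : τ ∈ (tay P).support
    · have := hin (S.equivFin ⟨τ, Finset.mem_filter.mpr ⟨hsupp, hτ⟩⟩)
      simpa [hP'] using this
    · have : hd τ P = 0 := notMem_support_iff.mp hsupp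
      simp [this]
  have hkerne : RingHom.ker (aeval x : MvPolynomial (Fin m) ℚ →ₐ[ℚ] Ω) ≠ ⊥ := by
    rw [hker]
    intro h
    have := h𝔭.1.2 (hmono (Nat.zero_le j) hP0)
    rw [h, Ideal.mem_bot] at this
    exact hPQ this
  have hε : (0 : ℝ) < 1 / B := by positivity
  have hcardle : ∀ J : Finset (Fin m), (J.card : ℝ) ≤ m := fun J => by
    exact_mod_cast (Finset.card_le_univ J).trans (by simp)
  by_cases htr : ∀ h, Transcendental ℚ (x h)
  · exfalso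
    have hω : (1 : ℝ) ≤ 2 * B * m * (m + 1) + 1 := le_add_of_nonneg_left (by positivity)
    obtain ⟨I, J, hI, hJ, hcard, hshift⟩ := exists_shift x htr d _ hω hgap
    obtain ⟨z, kap, hz, hkap⟩ := hgen J hJ
    have h1 := (mult_estimate hI hJ hcard z kap hz hkap P' d hdpos hdeg' s hs1 hlen _ hε hvan
      hmin).1
    have hk : 0 < J.card := (cobasis_nonempty hJ hkerne).card_pos
    have hk0 : (0 : ℝ) < J.card := by exact_mod_cast hk
    have hD : (0 : ℝ) < ∏ h ∈ J, (d h : ℝ) :=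
      Finset.prod_pos fun h _ => by exact_mod_cast hdpos h
    have h2 : (1 / (B : ℝ) / J.card * (2 * B * m * (m + 1) + 1)) ^ J.card ≤
        (2 * (J.card + 1) : ℝ) ^ J.card := by
      refine le_of_mul_le_mul_right ?_ hD
      rw [mul_pow, mul_assoc]
      exact le_trans (mul_le_mul_of_nonneg_left hshift (by positivity)) h1
    have h3 := le_of_pow_le_pow_left₀ hk.ne' (by positivity) h2
    rw [div_div, one_div, inv_mul_le_iff₀ (by positivity)] at h3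
    have h4 := hcardle J
    have h5 : (B : ℝ) * J.card * (2 * (J.card + 1)) ≤ B * m * (2 * (m + 1)) := by gcongr
    nlinarith
  · push Not at htr
    obtain ⟨a, ha⟩ := htr
    have ha' : IsAlgebraic ℚ (x a) := by
      by_contra h; exact ha h
    obtain ⟨J, hJ⟩ := exists_cobasis x
    have haJ := mem_of_isCobasis hJ ha'
    obtain ⟨z, kap, hz, hkap⟩ := hgen J hJ
    obtain ⟨ρ, hρ, hH⟩ := (mult_estimate hJ hJ rfl z kap hz hkap P' d hdpos hdeg' s hs1 hlen _ hε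
      hvan hmin).2 a haJ (β a) (eq_of_isAlgebraic (hker ▸ h𝔭𝔪) ha')
    refine ⟨a, ?_⟩
    have hk : 0 < J.card := Finset.card_pos.mpr ⟨a, haJ⟩
    have hk0 : (0 : ℝ) < J.card := by exact_mod_cast hk
    have hk1 : (1 : ℝ) ≤ J.card := by exact_mod_cast hk
    have hD : (0 : ℝ) < ∏ h ∈ J, (d h : ℝ) :=
      Finset.prod_pos fun h _ => by exact_mod_cast hdpos h
    have hda : (0 : ℝ) < d a := by exact_mod_cast hdpos a
    have hht := one_le_ht (β a)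
    have hlog : 0 ≤ Real.log (ht (β a)) := Real.log_nonneg hht
    have hs0 : 0 < s := by linarith
    have h1 := Real.log_le_log (by positivity) hH
    rw [Real.log_pow, Real.log_pow, Real.log_mul two_ne_zero (by positivity),
      Real.log_rpow hs0] at h1
    push_cast at h1
    have hlogs : Real.log s = (∑ i, (d i : ℝ)) * Real.log 2 + Real.log (len P) := by
      rw [hs, Real.log_mul (by positivity) (by positivity), Real.log_pow]; push_cast; ring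
    have hdle : (d a : ℝ) ≤ ∑ i, (d i : ℝ) :=
      Finset.single_le_sum (f := fun i => (d i : ℝ)) (fun i _ => by positivity) (Finset.mem_univ a)
    have hl2 : 0 < Real.log 2 := Real.log_pos one_lt_two
    have hlogP : 0 ≤ Real.log (len P) := Real.log_nonneg hlenP
    set D := ∏ h ∈ J, (d h : ℝ)
    set k := J.card
    -- `D ≤ (2 B k)^k ρ`
    have h2 : D ≤ (2 * B * k : ℝ) ^ k * ρ := by
      have h3 : (B * k : ℝ) ^ k * ((1 / (B : ℝ) / k) ^ k * D) = D := by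
        rw [← mul_assoc, ← mul_pow]
        have : (B * k : ℝ) * (1 / (B : ℝ) / k) = 1 := by field_simp
        rw [this, one_pow, one_mul]
      calc D = (B * k : ℝ) ^ k * ((1 / (B : ℝ) / k) ^ k * D) := h3.symm
        _ ≤ (B * k : ℝ) ^ k * (2 ^ k * ρ) := by gcongr
        _ = _ := by rw [mul_assoc (2 : ℝ), mul_pow (2 : ℝ)]; ring
    have h4 : D * Real.log (ht (β a)) ≤
        D * ((2 * B * k * (k + 1) : ℝ) ^ k * (Real.log 2 + 1 / d a * Real.log s)) := by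
      calc D * Real.log (ht (β a)) ≤ (2 * B * k : ℝ) ^ k * ρ * Real.log (ht (β a)) := by gcongr
        _ = (2 * B * k : ℝ) ^ k * (ρ * Real.log (ht (β a))) := by ring
        _ ≤ (2 * B * k : ℝ) ^ k * ((k + 1 : ℝ) ^ k * D * (Real.log 2 + 1 / d a * Real.log s)) := by
          gcongr
        _ = _ := by rw [mul_pow (2 * B * k : ℝ)]; ring
    have h5 := le_of_mul_le_mul_left h4 hD
    have hkm := hcardle J
    have h6 : (2 * B * k * (k + 1) : ℝ) ^ k ≤ (2 * B * m * (m + 1) : ℝ) ^ m := by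
      have hkm' : k ≤ m := by exact_mod_cast hkm
      have h7 : (1 : ℝ) ≤ 2 * B * k * (k + 1) := by
        have : (1 : ℝ) ≤ B * k := one_le_mul_of_one_le_of_one_le hB1 hk1
        nlinarith
      calc (2 * B * k * (k + 1) : ℝ) ^ k ≤ (2 * B * k * (k + 1) : ℝ) ^ m :=
            pow_le_pow_right₀ h7 hkm'
        _ ≤ _ := by gcongr
    calc d a * Real.log (ht (β a))
        ≤ d a * ((2 * B * k * (k + 1) : ℝ) ^ k * (Real.log 2 + 1 / d a * Real.log s)) := by gcongr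
      _ = (2 * B * k * (k + 1) : ℝ) ^ k * (d a * Real.log 2 + Real.log s) := by
          field_simp
      _ ≤ (2 * B * m * (m + 1) : ℝ) ^ m *
          (2 * (∑ i, (d i : ℝ)) * Real.log 2 + Real.log (len P)) := by
          refine mul_le_mul h6 ?_ ?_ (by positivity)
          · rw [hlogs]; nlinarith
          · rw [hlogs]; positivity

end Pool.Agent.P.MP_c8ecb2_nt.RP
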