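import Mathlib
import Pool.Agent.P.MP_c8ecb2_nt.RP.RothLemma
import Pool.Agent.P.MP_c8ecb2_nt.RP.AuxSiegel
import Pool.Agent.P.MP_c8ecb2_nt.RP.AuxSmall
import Pool.Agent.P.MP_c8ecb2_nt.RP.Restrict
import Pool.Agent.P.MP_c8ecb2_nt.RP.Dioph
import Pool.Agent.P.MP_c8ecb2_nt.RP.Count
import Pool.Agent.P.MP_c8ecb2_nt.RP.Complexity
import Pool.Agent.P.MP_c8ecb2_nt.RP.Changes

set_option autoImplicit false

namespace Pool.Agent.P.MP_c8ecb2_nt.RP

open MvPolynomial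

theorem core (ξ : ℝ) (hint : IsIntegral ℤ ξ) (hirr : Irrational ξ) (b : ℕ) (hb : 2 ≤ b) :
    ∃ C : ℕ, 1 ≤ C ∧ ∀ K g j₀ : ℕ, 1 ≤ K → 96 * (C * K) * (C * K + 1) + 1 ≤ 2 ^ g →
      C * (C * K) * (96 * (C * K) * (C * K + 1)) ^ (C * K) ≤ 2 ^ j₀ →
      ∀ j : Fin (C * K) → ℕ, (∀ h, j₀ ≤ j h) →
        (∀ h h' : Fin (C * K), h'.val = h.val + 1 → j h + g ≤ j h') →
        ¬ ∀ h, Rep ξ b K (j h) := by
  classical
  obtain ⟨D, C₀, a, hD, hC₀, hξ, ha, haC⟩ := exists_powers ξ hint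
  obtain ⟨C₁, D₁, hC₁, hD₁, hblk⟩ := exists_block ξ hirr hint.isAlgebraic
  have hl2 : 0 < Real.log 2 := Real.log_pos one_lt_two
  have hD' : (1 : ℝ) ≤ D := by exact_mod_cast hD
  have hlD : 0 ≤ Real.log (4 * D) := Real.log_nonneg (by linarith)
  have hl1 : 0 ≤ Real.log (1792 * C₀ ^ 2) := Real.log_nonneg (by nlinarith)
  have hl3 : 0 ≤ Real.log C₁ := Real.log_nonneg hC₁
  have hl4 : 0 ≤ Real.log (128 * C₀) := Real.log_nonneg (by linarith)
  obtain ⟨C, hC⟩ := exists_nat_gt (24 + 28800 * Real.log (4 * D) +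
    (12 * Real.log (1792 * C₀ ^ 2) + Real.log C₁ + D₁ * Real.log (128 * C₀)) / Real.log 2)
  have hq : 0 ≤ (12 * Real.log (1792 * C₀ ^ 2) + Real.log C₁ + D₁ * Real.log (128 * C₀)) /
      Real.log 2 := by positivity
  have hC24 : (24 : ℝ) < C := by linarith
  have hC24' : 24 ≤ C := by exact_mod_cast hC24.le
  have hCD : 28800 * Real.log (4 * D) ≤ C := by linarith
  have hCl : 12 * Real.log (1792 * C₀ ^ 2) + Real.log C₁ + D₁ * Real.log (128 * C₀) <
      C * Real.log 2 := by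
    rw [← div_lt_iff₀ hl2]; linarith
  have hD₁0 : 0 ≤ (D₁ : ℝ) * Real.log (128 * C₀) := by positivity
  refine ⟨C, by omega, fun K g j₀ hK hg hj₀ j hj hgap hrep => ?_⟩
  have hm : 1 ≤ C * K := Nat.mul_pos (by omega) hK
  generalize hmdef : C * K = m at *
  choose R r P hrR hRK happ using hrep
  set J := Finset.univ.sup j with hJ
  have hjJ : ∀ h, j h ≤ J := fun h => Finset.le_sup (f := j) (Finset.mem_univ h)
  set ℓ : Fin m → ℕ := fun h => 2 ^ j h with hℓ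
  set d : Fin m → ℕ := fun h => 2 ^ (J - j h) with hd
  have hℓd : ∀ h, ℓ h * d h = 2 ^ J := fun h => by
    simp only [hℓ, hd]; rw [← pow_add, Nat.add_sub_cancel' (hjJ h)]
  have hdpos : ∀ h, 0 < d h := fun h => by positivity
  have hW : 1 ≤ (96 * m * (m + 1)) ^ m := Nat.one_le_pow _ _ (by positivity)
  have hCj₀ : C ≤ 2 ^ j₀ := le_trans (by nlinarith [Nat.mul_le_mul hm hW]) hj₀
  have hℓj₀ : ∀ h, 2 ^ j₀ ≤ ℓ h := fun h => Nat.pow_le_pow_right two_pos (hj h)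
  have hCℓ : ∀ h, (C : ℝ) ≤ ℓ h := fun h => by exact_mod_cast hCj₀.trans (hℓj₀ h)
  have hT : 24 ≤ 2 ^ J :=
    hC24'.trans (hCj₀.trans (Nat.pow_le_pow_right two_pos ((hj ⟨0, hm⟩).trans (hjJ _))))
  choose y α κ β hblock hht using fun h =>
    hblk b (ℓ h) (R h) (r h) (P h) hb (Nat.one_le_two_pow) (hrR h) (happ h)
  have hK' : (1 : ℝ) ≤ K := by exact_mod_cast hK
  obtain ⟨ψ₀, c, hc0, hcle, hcvan⟩ := aux_siegel ξ D C₀ a hD hC₀ ha haC hm K (2 ^ J) hT ℓ d R r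
    hℓd hRK (fun h => (hrR h).le.trans (hRK h)) α (fun h => (hblock h).abs_le)
    (fun h => (hblock h).sum_le) (by
      rw [← hmdef]; push_cast
      nlinarith [mul_le_mul_of_nonneg_right hCD (zero_le_one.trans hK')])
  have hPhi := aux_small ξ C₀ hC₀ hξ b hb hm (2 ^ J) (by positivity) ℓ d R r hℓd y α κ β hblock
    (fun h => by nlinarith [mul_le_mul_of_nonneg_right (hCℓ h) hl2.le]) ψ₀ c hcle hcvan
  obtain ⟨f, hf0, hfdeg, hflen, hfvan⟩ := restrict b (by omega) d R r ψ₀ c y κ β hc0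
    (fun h => (hblock h).plane) (fun h => (hblock h).det_ne) _ hPhi
  obtain ⟨h, hh⟩ := roth_lemma 48 (by norm_num) d hdpos f hf0 hfdeg β
    (fun τ hτ => hfvan τ (by exact_mod_cast hτ)) (by
      intro h h' hh'
      have h1 := hgap h h' hh'
      have h2 := hjJ h'
      have h3 : (96 * m * (m + 1) + 1) * d h' ≤ d h := by
        calc (96 * m * (m + 1) + 1) * d h' ≤ 2 ^ g * 2 ^ (J - j h') := Nat.mul_le_mul_right _ hg
          _ = 2 ^ (g + (J - j h')) := (pow_add _ _ _).symm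
          _ ≤ 2 ^ (J - j h) := Nat.pow_le_pow_right two_pos (by omega)
      have h4 : (((96 * m * (m + 1) + 1) * d h' : ℕ) : ℝ) ≤ d h := by exact_mod_cast h3
      push_cast at h4 ⊢
      linarith)
  -- size of `f`
  have hlen : len f ≤ (32 * C₀) ^ (∑ h, d h) := by
    refine hflen.trans ((Finset.sum_le_card_nsmul _ _ _ fun e _ => hcle e).trans ?_)
    have h1 : (En d R r ψ₀).card ≤ 4 ^ (∑ h, d h) :=
      (Finset.card_filter_le _ _).trans (card_Om_le d)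
    have h2 : ((En d R r ψ₀).card : ℝ) ≤ 4 ^ (∑ h, d h) := by exact_mod_cast h1
    rw [nsmul_eq_mul, show 32 * C₀ = 4 * (8 * C₀) by ring, mul_pow (4 : ℝ)]
    gcongr
  have hlen1 : 1 ≤ len f := one_le_len hf0
  have hloglen : Real.log (len f) ≤ (∑ h, (d h : ℝ)) * Real.log (32 * C₀) := by
    have := Real.log_le_log (by linarith) hlen
    rw [Real.log_pow] at this
    exact_mod_cast this
  have h128 : Real.log (128 * C₀) = 2 * Real.log 2 + Real.log (32 * C₀) := by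
    rw [show 128 * C₀ = 2 ^ 2 * (32 * C₀) by ring, Real.log_mul (by positivity) (by positivity),
      Real.log_pow]; norm_num
  set W : ℝ := (96 * m * (m + 1) : ℝ) ^ m with hWdef
  have hW0 : 0 < W := by
    have : (0 : ℝ) < m := by exact_mod_cast hm
    positivity
  have h1 : d h * Real.log (ht (β h)) ≤ W * ((∑ i, (d i : ℝ)) * Real.log (128 * C₀)) := by
    refine hh.trans ?_
    have : (2 * ((48 : ℕ) : ℝ) * m * (m + 1) : ℝ) ^ m = W := by
      rw [hWdef]; norm_num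
    rw [this, h128]
    gcongr
    linarith
  have hht1 := one_le_ht (β h)
  have h2 : ℓ h * Real.log 2 ≤ D₁ * Real.log (ht (β h)) := by
    have hb' : (2 : ℝ) ≤ b := by exact_mod_cast hb
    have h3 := Real.log_le_log (by positivity) (hht h)
    rw [Real.log_pow, Real.log_mul (by positivity) (by positivity), Real.log_pow] at h3
    have h4 : Real.log 2 ≤ Real.log b := Real.log_le_log two_pos hb'
    have h5 : (ℓ h : ℝ) * Real.log 2 ≤ ℓ h * Real.log b := by gcongr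
    push_cast at h3
    nlinarith [mul_le_mul_of_nonneg_right (hCℓ h) hl2.le]
  have h3 : (2 : ℝ) ^ j₀ * ∑ i, (d i : ℝ) ≤ m * 2 ^ J := by
    rw [Finset.mul_sum]
    refine (Finset.sum_le_card_nsmul _ _ ((2 : ℝ) ^ J) fun i _ => ?_).trans (by simp)
    have : 2 ^ j₀ * d i ≤ 2 ^ J := hℓd i ▸ Nat.mul_le_mul_right _ (hℓj₀ i)
    exact_mod_cast this
  have h4 : (C : ℝ) * m * W ≤ 2 ^ j₀ := by rw [hWdef]; exact_mod_cast hj₀
  have h5 : (ℓ h : ℝ) * d h = 2 ^ J := by exact_mod_cast hℓd h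
  have h6 : (2 : ℝ) ^ J * Real.log 2 ≤ D₁ * (W * ((∑ i, (d i : ℝ)) * Real.log (128 * C₀))) := by
    calc (2 : ℝ) ^ J * Real.log 2 = d h * (ℓ h * Real.log 2) := by rw [← h5]; ring
      _ ≤ d h * (D₁ * Real.log (ht (β h))) := by gcongr
      _ = D₁ * (d h * Real.log (ht (β h))) := by ring
      _ ≤ _ := by gcongr
  have hm0 : (0 : ℝ) < m := by exact_mod_cast hm
  have h7 : (m * W * 2 ^ J) * (C * Real.log 2) ≤ (m * W * 2 ^ J) * (D₁ * Real.log (128 * C₀)) := by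
    calc (m * W * 2 ^ J) * (C * Real.log 2) = (C * m * W) * (2 ^ J * Real.log 2) := by ring
      _ ≤ 2 ^ j₀ * (D₁ * (W * ((∑ i, (d i : ℝ)) * Real.log (128 * C₀)))) := by gcongr
      _ = (2 ^ j₀ * ∑ i, (d i : ℝ)) * (W * (D₁ * Real.log (128 * C₀))) := by ring
      _ ≤ (m * 2 ^ J) * (W * (D₁ * Real.log (128 * C₀))) := by gcongr
      _ = _ := by ring
  have h8 := le_of_mul_le_mul_left h7 (by positivity)
  linarith

theorem twice_bound (b : ℕ) (hb : 2 ≤ b) (α : ℝ) (halg : IsAlgebraic ℚ α) (hirr : Irrational α) :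
    ∃ C : ℝ, ∀ K : ℕ, 2 ≤ K → ∀ s : Finset ℕ, (∀ j ∈ s, Twice (dig b α) K j) →
      (s.card : ℝ) ≤ C * K * Real.log K := by
  refine twice_count b hb α halg hirr fun ξ hint hξ => ?_
  obtain ⟨C, hC, hcore⟩ := core ξ hint hξ b hb
  exact count_of_core (Rep ξ b) C hC hcore

theorem dig_finite (b : ℕ) (hb : 2 ≤ b) (α : ℝ) : (Set.range (dig b α)).Finite := by
  refine (Set.finite_Ico (0 : ℤ) b).subset ?_
  rintro _ ⟨i, rfl⟩
  have : (0 : ℤ) < b := by exact_mod_cast (by omega : 0 < b)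
  exact ⟨Int.emod_nonneg _ this.ne', Int.emod_lt_of_pos _ this⟩

end Pool.Agent.P.MP_c8ecb2_nt.RP
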