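import Mathlib
import Pool.Agent.P.MP_c8ecb2_nt.RP.Core

set_option autoImplicit false

namespace Pool.Agent.P.MP_c8ecb2_nt.RP

open Filter

theorem clear_den {n : ℕ} (r : Fin n → ℚ) :
    ∃ D : ℤ, D ≠ 0 ∧ ∃ z : Fin n → ℤ, ∀ j, (z j : ℚ) = D * r j := by
  refine ⟨∏ j, ((r j).den : ℤ), Finset.prod_ne_zero_iff.2 fun j _ => by simp,
    fun j => (r j).num * ∏ i ∈ Finset.univ.erase j, ((r i).den : ℤ), fun j => ?_⟩
  rw [← Finset.mul_prod_erase _ _ (Finset.mem_univ j)]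
  push_cast
  rw [← Rat.mul_den_eq_num (r j)]
  ring

/-- repeated digit matrices at scale `2^k` among the first `K 2^k` positions -/
theorem twice_tuple (b : ℕ) (hb : 2 ≤ b) {n : ℕ} (α : Fin n → ℝ) {x : ℝ}
    (hx : x ∈ Submodule.span ℚ (insert 1 (Set.range α))) (hirr : Irrational x)
    (halg : IsAlgebraic ℚ x) :
    ∃ C : ℝ, 0 ≤ C ∧ ∀ K : ℕ, 2 ≤ K → ∀ s : Finset ℕ,
      (∀ k ∈ s, ∃ i i' : ℕ, 1 ≤ i ∧ i < i' ∧ i' ≤ K * 2 ^ k ∧
        ∀ j, ∀ t < 2 ^ k, dig b (α j) (i + t) = dig b (α j) (i' + t)) →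
      (s.card : ℝ) ≤ C * K * Real.log K := by
  obtain ⟨r₀, y, hy, h⟩ := Submodule.mem_span_insert.1 hx
  obtain ⟨r, rfl⟩ := (Submodule.mem_span_range_iff_exists_fun ℚ).1 hy
  obtain ⟨D, hD, z₀, hz₀⟩ := clear_den r
  have e1 : ∑ j, (z₀ j : ℝ) * α j = (D : ℝ) * (x - r₀) := by
    rw [h]
    simp only [Rat.smul_def, mul_one, add_sub_cancel_left, Finset.mul_sum]
    refine Finset.sum_congr rfl fun j _ => ?_
    have : (z₀ j : ℝ) = D * r j := by exact_mod_cast hz₀ j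
    rw [this]; ring
  have e2 : Irrational (∑ j, (z₀ j : ℝ) * α j) := e1 ▸ (hirr.sub_ratCast r₀).intCast_mul hD
  have e3 : IsAlgebraic ℚ (∑ j, (z₀ j : ℝ) * α j) :=
    e1 ▸ (isAlgebraic_intCast _).mul (halg.sub (isAlgebraic_ratCast ℚ r₀))
  obtain ⟨a₀, ha0, hint⟩ := ((IsFractionRing.isAlgebraic_iff ℤ ℚ ℝ).2 e3).exists_integral_multiple
  rw [zsmul_eq_mul] at hint
  obtain ⟨C₁, hC₁, hcore⟩ := core _ hint (e2.intCast_mul ha0) b hb
  obtain ⟨C', hC'⟩ := count_of_core _ C₁ hC₁ hcore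
  have hC0 : 0 ≤ C' := by
    have h1 := hC' 2 le_rfl ∅ (by simp)
    have h2 := Count.half_le_log (le_refl 2)
    simp only [Finset.card_empty, Nat.cast_zero] at h1
    by_contra hc
    push Not at hc
    push_cast at h1 h2
    nlinarith
  set A : ℕ := ∑ j, (a₀ * z₀ j).natAbs with hA
  refine ⟨(A + 3 : ℕ) + 32 * C', by positivity, fun K hK s hs => ?_⟩
  set s' := s.filter (fun i => A + 3 ≤ i) with hs'
  have h1 := Count.card_le_add s (A + 3)
  have h2 : (s'.image (fun j => j - 3)).card = s'.card := by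
    refine Finset.card_image_of_injOn fun x hx y hy hxy => ?_
    have a1 := (Finset.mem_filter.1 hx).2
    have a2 := (Finset.mem_filter.1 hy).2
    have a3 : x - 3 = y - 3 := hxy
    omega
  have h3 := hC' (8 * K) (by omega) (s'.image (fun j => j - 3)) (by
    intro w hw
    obtain ⟨k, hk, rfl⟩ := Finset.mem_image.1 hw
    obtain ⟨hk1, hk2⟩ := Finset.mem_filter.1 hk
    obtain ⟨i, i', hi, hii, hi', ht⟩ := hs k hk1
    obtain ⟨w, rfl⟩ : ∃ w, k = w + 3 := ⟨k - 3, by omega⟩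
    obtain ⟨r, rfl⟩ : ∃ r, i = r + 1 := ⟨i - 1, by omega⟩
    obtain ⟨R, rfl⟩ : ∃ R, i' = R + 1 := ⟨i' - 1, by omega⟩
    rw [Nat.add_sub_cancel]
    refine ⟨R, r, ∑ j, a₀ * z₀ j * (⌊α j * (b : ℝ) ^ R⌋ - ⌊α j * (b : ℝ) ^ r⌋), by omega, ?_, ?_⟩
    · have : K * 2 ^ (w + 3) = 8 * K * 2 ^ w := by ring
      omega
    · have b2 : (a₀ : ℝ) * (∑ j, (z₀ j : ℝ) * α j) * (b : ℝ) ^ R -
          a₀ * (∑ j, (z₀ j : ℝ) * α j) * (b : ℝ) ^ r -
          ((∑ j, a₀ * z₀ j * (⌊α j * (b : ℝ) ^ R⌋ - ⌊α j * (b : ℝ) ^ r⌋) : ℤ) : ℝ) =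
          ∑ j, ((a₀ * z₀ j : ℤ) : ℝ) *
            (Int.fract (α j * (b : ℝ) ^ R) - Int.fract (α j * (b : ℝ) ^ r)) := by
        push_cast
        simp only [Finset.mul_sum, Finset.sum_mul, ← Finset.sum_sub_distrib, Int.fract]
        exact Finset.sum_congr rfl fun j _ => by ring
      have b3 : (A : ℝ) ≤ (b : ℝ) ^ (4 * 2 ^ w) := by
        have c1 : A ≤ b ^ (4 * 2 ^ w) := by
          have d1 : w < 2 ^ w := Nat.lt_two_pow_self
          have d2 : 4 * 2 ^ w < 2 ^ (4 * 2 ^ w) := Nat.lt_two_pow_self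
          have d3 : 2 ^ (4 * 2 ^ w) ≤ b ^ (4 * 2 ^ w) := Nat.pow_le_pow_left hb _
          omega
        exact_mod_cast c1
      have hB : (0 : ℝ) < (b : ℝ) ^ (4 * 2 ^ w) := by positivity
      have b4 : |∑ j, ((a₀ * z₀ j : ℤ) : ℝ) *
            (Int.fract (α j * (b : ℝ) ^ R) - Int.fract (α j * (b : ℝ) ^ r))| *
            (b : ℝ) ^ (2 ^ (w + 3)) ≤ A := by
        refine (mul_le_mul_of_nonneg_right (Finset.abs_sum_le_sum_abs _ _) (by positivity)).trans ?_
        rw [Finset.sum_mul, hA]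
        push_cast
        refine Finset.sum_le_sum fun j _ => ?_
        have b1 := Count.fract_close b hb (α j) r R _ (ht j)
        rw [abs_mul, mul_assoc, Nat.cast_natAbs, Int.cast_abs]
        push_cast
        exact mul_le_of_le_one_right (abs_nonneg _) b1
      rw [b2]
      rw [show 2 ^ (w + 3) = 4 * 2 ^ w + 4 * 2 ^ w by ring, pow_add, ← mul_assoc] at b4
      exact le_of_mul_le_mul_right (by linarith) hB)
  rw [h2] at h3
  have hL := Count.half_le_log hK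
  have hK2 : (2 : ℝ) ≤ K := by exact_mod_cast hK
  have h4 : Real.log ((8 * K : ℕ) : ℝ) ≤ 4 * Real.log K := by
    have : ((8 * K : ℕ) : ℝ) ≤ (K : ℝ) ^ 4 := by
      push_cast
      have := pow_le_pow_left₀ (by norm_num) hK2 3
      nlinarith
    have h5 := Real.log_le_log (by positivity) this
    rw [Real.log_pow] at h5
    exact_mod_cast h5
  have h6 : C' * ((8 * K : ℕ) : ℝ) * Real.log ((8 * K : ℕ) : ℝ) ≤ 32 * C' * K * Real.log K := by
    have := mul_le_mul_of_nonneg_left h4 (show 0 ≤ C' * ((8 * K : ℕ) : ℝ) by positivity)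
    refine this.trans (le_of_eq ?_)
    push_cast; ring
  have h7 : (s.card : ℝ) ≤ ((A + 3 : ℕ) : ℝ) + s'.card := by exact_mod_cast h1
  have h8 : (1 : ℝ) ≤ K * Real.log K := by nlinarith
  have h9 := mul_le_mul_of_nonneg_left h8 (show (0 : ℝ) ≤ ((A + 3 : ℕ) : ℝ) by positivity)
  nlinarith

theorem sum_inv_le_card (s : Finset ℕ) (hs : ∀ m ∈ s, m ≠ 0) :
    ∑ m ∈ s, (1 / (m : ℝ)) ≤ (s.image (Nat.log 2)).card := by
  rw [← Finset.sum_fiberwise_of_maps_to (g := Nat.log 2) (t := s.image (Nat.log 2))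
    fun m hm => Finset.mem_image_of_mem _ hm]
  refine (Finset.sum_le_card_nsmul _ _ 1 fun k _ => ?_).trans (by simp)
  have h1 : (s.filter fun m => Nat.log 2 m = k) ⊆ Finset.Ico (2 ^ k) (2 ^ (k + 1)) := by
    intro m hm
    obtain ⟨h1, rfl⟩ := Finset.mem_filter.1 hm
    exact Finset.mem_Ico.2 ⟨Nat.pow_log_le_self 2 (hs m h1), Nat.lt_pow_succ_log_self one_lt_two m⟩
  refine (Finset.sum_le_sum_of_subset_of_nonneg h1 fun _ _ _ => by positivity).trans ?_
  refine (Finset.sum_le_card_nsmul _ _ (1 / (2 : ℝ) ^ k) fun m hm => ?_).trans ?_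
  · have : (2 : ℝ) ^ k ≤ m := by exact_mod_cast (Finset.mem_Ico.1 hm).1
    exact one_div_le_one_div_of_le (by positivity) this
  · rw [Nat.card_Ico, show 2 ^ (k + 1) - 2 ^ k = 2 ^ k by rw [pow_succ]; omega, nsmul_eq_mul]
    push_cast
    rw [mul_one_div_cancel (by positivity)]

theorem density_of_count (Q : ℕ → ℕ → ℕ → Prop)
    (hQ : ∀ i i' m m', m' ≤ m → Q i i' m → Q i i' m') (C : ℝ) (hC0 : 0 ≤ C)
    (hC : ∀ K : ℕ, 2 ≤ K → ∀ s : Finset ℕ,
      (∀ k ∈ s, ∃ i i' : ℕ, i' ≤ K * 2 ^ k ∧ Q i i' (2 ^ k)) → (s.card : ℝ) ≤ C * K * Real.log K)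
    (ε : ℝ) (hε : 0 < ε) :
    ∃ c : ℝ, 0 < c ∧ ∀ᶠ N : ℕ in atTop, ∀ s : Finset ℕ,
      (∀ m ∈ s, m ≤ N ∧ ∃ i i' : ℕ,
        (i' : ℝ) ≤ c * m * Real.log m / Real.log (Real.log m) ∧ Q i i' m) →
      ∑ m ∈ s, (1 / (m : ℝ)) ≤ ε * Real.log N := by
  obtain ⟨c, hc0, hc1, hc2⟩ : ∃ c : ℝ, 0 < c ∧ c ≤ 1 / 4 ∧ C * c ≤ ε / 4 := by
    refine ⟨min (1 / 4) (ε / (4 * (C + 1))), lt_min (by norm_num) (by positivity),
      min_le_left _ _, ?_⟩
    calc C * min (1 / 4) (ε / (4 * (C + 1))) ≤ (C + 1) * (ε / (4 * (C + 1))) :=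
          mul_le_mul (by linarith) (min_le_right _ _) (by positivity) (by positivity)
      _ = ε / 4 := by field_simp
  refine ⟨c, hc0, ?_⟩
  have hT : Tendsto (fun N : ℕ => Real.log N) atTop atTop :=
    Real.tendsto_log_atTop.comp tendsto_natCast_atTop_atTop
  have hδ : 0 < ε / (12 * (C + 1)) := by positivity
  filter_upwards [hT.eventually (Real.isLittleO_log_id_atTop.bound hδ),
    hT.eventually (eventually_ge_atTop (64 / ε)), hT.eventually (eventually_ge_atTop 6)]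
    with N h1 h2 h3 s hs
  set L := Real.log N with hL
  have he : Real.exp 1 ≤ 3 := by linarith [Real.exp_one_lt_d9]
  have hlL : 1 ≤ Real.log L := by
    rw [Real.le_log_iff_exp_le (by linarith)]; linarith
  rw [Real.norm_of_nonneg (by linarith), id, Real.norm_of_nonneg (by linarith)] at h1
  obtain ⟨x, hx⟩ : ∃ x : ℝ, x = 2 * c * L / Real.log L := ⟨_, rfl⟩
  have hx0 : 0 ≤ x := by rw [hx]; positivity
  have hx1 : x * Real.log L = 2 * c * L := by rw [hx]; field_simp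
  have hK1 : x ≤ ((⌈x⌉₊ + 2 : ℕ) : ℝ) := by
    have := Nat.le_ceil x
    push_cast
    linarith
  have hK2 : ((⌈x⌉₊ + 2 : ℕ) : ℝ) ≤ x + 3 := by
    have := Nat.ceil_lt_add_one hx0
    push_cast
    linarith
  have hK3 : 2 ≤ ⌈x⌉₊ + 2 := by omega
  generalize ⌈x⌉₊ + 2 = K at hK1 hK2 hK3
  have hK0 : (2 : ℝ) ≤ K := by exact_mod_cast hK3
  have hxL : x ≤ L / 2 := by nlinarith
  have hlK : Real.log K ≤ Real.log L := Real.log_le_log (by linarith) (by linarith)
  set s' := s.filter fun m => 16 ≤ m with hs'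
  have hcard := hC K hK3 (s'.image (Nat.log 2)) (by
    intro k hk
    obtain ⟨m, hm, rfl⟩ := Finset.mem_image.1 hk
    obtain ⟨hm1, hm2⟩ := Finset.mem_filter.1 hm
    obtain ⟨hmN, i, i', hi', hq⟩ := hs m hm1
    refine ⟨i, i', ?_, hQ _ _ _ _ (Nat.pow_log_le_self 2 (by omega)) hq⟩
    have hm16 : (16 : ℝ) ≤ m := by exact_mod_cast hm2
    have hmN' : (m : ℝ) ≤ N := by exact_mod_cast hmN
    have a1 : Real.exp 1 ≤ Real.log m := by
      have b1 := Real.log_le_log (by norm_num) hm16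
      rw [show (16 : ℝ) = 2 ^ 4 by norm_num, Real.log_pow] at b1
      push_cast at b1
      linarith [Real.exp_one_lt_d9, Real.log_two_gt_d9]
    have a2 : Real.log m ≤ L := Real.log_le_log (by linarith) hmN'
    have a0 : 0 < Real.log m := lt_of_lt_of_le (Real.exp_pos 1) a1
    have a3 : Real.log L / L ≤ Real.log (Real.log m) / Real.log m :=
      Real.log_div_self_antitoneOn a1 (a1.trans a2) a2
    have a4 : 1 ≤ Real.log (Real.log m) := by
      rwa [Real.le_log_iff_exp_le a0]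
    have a5 : Real.log m / Real.log (Real.log m) ≤ L / Real.log L := by
      rw [div_le_div_iff₀ (by linarith) a0] at a3
      rw [div_le_div_iff₀ (by linarith) (by linarith)]
      linarith
    have a6 : (m : ℝ) ≤ 2 * 2 ^ Nat.log 2 m := by
      have := (Nat.lt_pow_succ_log_self one_lt_two m).le
      rw [pow_succ, mul_comm] at this
      exact_mod_cast this
    have a7 : (i' : ℝ) ≤ K * 2 ^ Nat.log 2 m := by
      calc (i' : ℝ) ≤ c * m * (Real.log m / Real.log (Real.log m)) := by rwa [← mul_div_assoc]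
        _ ≤ c * (2 * 2 ^ Nat.log 2 m) * (L / Real.log L) := by gcongr
        _ = x * 2 ^ Nat.log 2 m := by rw [hx]; ring
        _ ≤ _ := by gcongr
    exact_mod_cast a7)
  have hsum := sum_inv_le_card s' fun m hm => by
    have := (Finset.mem_filter.1 hm).2
    omega
  have hsmall : ∑ m ∈ s.filter (fun m => ¬ 16 ≤ m), (1 / (m : ℝ)) ≤ 16 := by
    refine (Finset.sum_le_card_nsmul _ _ 1 fun m _ => ?_).trans ?_
    · rcases Nat.eq_zero_or_pos m with rfl | hm
      · simp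
      · rw [div_le_one (by exact_mod_cast hm)]; exact_mod_cast hm
    · have : (s.filter (fun m => ¬ 16 ≤ m)).card ≤ 16 := by
        refine (Finset.card_le_card (t := Finset.range 16) fun i hi => ?_).trans (by simp)
        exact Finset.mem_range.2 (not_le.1 (Finset.mem_filter.1 hi).2)
      rw [nsmul_eq_mul, mul_one]
      exact_mod_cast this
  rw [← Finset.sum_filter_add_sum_filter_not s fun m => 16 ≤ m]
  have h11 : C * K * Real.log K ≤ C * ((x + 3) * Real.log L) := by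
    rw [mul_assoc]
    refine mul_le_mul_of_nonneg_left ?_ hC0
    exact mul_le_mul hK2 hlK (Real.log_nonneg (by linarith)) (by linarith)
  have h12 : C * (x * Real.log L) ≤ ε / 2 * L := by
    rw [hx1]; nlinarith
  have h13 : 3 * (C * Real.log L) ≤ ε / 4 * L := by
    have a1 : (C + 1) * Real.log L ≤ (C + 1) * (ε / (12 * (C + 1)) * L) := by gcongr
    have a2 : (C + 1) * (ε / (12 * (C + 1)) * L) = ε / 12 * L := by field_simp
    nlinarith
  have h14 : 16 ≤ ε / 4 * L := by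
    rw [div_le_iff₀ hε] at h2; linarith
  nlinarith

end Pool.Agent.P.MP_c8ecb2_nt.RP
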